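import Pool.Agent.N536.HK.Lin
import Mathlib.LinearAlgebra.Eigenspace.Charpoly

/-!
# Traces on the ranges of primitive idempotents
-/

set_option autoImplicit false

open Polynomial Module

namespace Pool.Agent.P8H25.Cp

open Pool.Agent.H914 Pool.Agent.N536.HK

section Prime

variable {K : Type*} {U : Type*} [Field K] [AddCommGroup U] [Module K U] [FiniteDimensional K U]

/-- An eigenvalue in an extension of an endomorphism killed by a power of `p` is a root of `p`. -/
lemma root_of_kill {Ω : Type*} [Field Ω] [Algebra K Ω] {z : Module.End K U} {p : K[X]} {m : ℕ}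
    (h : aeval z (p ^ m) = 0) {l : Ω} (hl : (z.charpoly.map (algebraMap K Ω)).IsRoot l) :
    aeval l p = 0 := by
  have h1 : Module.End.HasEigenvalue (z.baseChange Ω) l := by
    rw [Module.End.hasEigenvalue_iff_isRoot_charpoly, LinearMap.charpoly_baseChange]
    exact hl
  obtain ⟨v, hv⟩ := h1.exists_hasEigenvector
  have h2 : aeval (z.baseChange Ω) ((p ^ m).map (algebraMap K Ω)) = 0 := by
    rw [Polynomial.aeval_map_algebraMap]
    have h3 : z.baseChange Ω = Module.End.baseChangeHom K Ω U z := rfl
    rw [h3, Polynomial.aeval_algHom_apply, h, map_zero]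
  have h3 := Module.End.aeval_apply_of_hasEigenvector (f := z.baseChange Ω)
    (p := (p ^ m).map (algebraMap K Ω)) (μ := l) (x := v) hv
  rw [h2, LinearMap.zero_apply] at h3
  have h4 := (smul_eq_zero.1 h3.symm).resolve_right hv.2
  rw [Polynomial.eval_map_algebraMap, map_pow] at h4
  exact eq_zero_of_pow_eq_zero h4

/-- The characteristic polynomial of an endomorphism killed by a power of an irreducible
polynomial. -/
lemma charpoly_eq_pow {z : Module.End K U} {p : K[X]} (hp : Irreducible p) (hm : p.Monic) {m : ℕ}
    (h : aeval z (p ^ m) = 0) : ∃ r, z.charpoly = p ^ r := by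
  classical
  have h1 : ∀ q ∈ UniqueFactorizationMonoid.normalizedFactors z.charpoly, q = p := by
    intro q hq
    have hqi : Irreducible q := UniqueFactorizationMonoid.irreducible_of_normalized_factor q hq
    have hqd : q ∣ z.charpoly := UniqueFactorizationMonoid.dvd_of_mem_normalizedFactors hq
    have hqm : q.Monic := by
      have h2 := UniqueFactorizationMonoid.normalize_normalized_factor q hq
      have h3 := Polynomial.monic_normalize (p := q) hqi.ne_zero
      rwa [h2] at h3
    obtain ⟨l, hl⟩ := IsAlgClosed.exists_aeval_eq_zero (AlgebraicClosure K) q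
      (by
        intro h0
        exact hqi.not_isUnit (Polynomial.isUnit_iff_degree_eq_zero.2 h0))
    have hl2 : (z.charpoly.map (algebraMap K (AlgebraicClosure K))).IsRoot l := by
      obtain ⟨s, hs⟩ := hqd
      rw [Polynomial.IsRoot.def, Polynomial.eval_map_algebraMap, hs, map_mul, hl, zero_mul]
    have h3 := root_of_kill h hl2
    have h4 := minpoly.eq_of_irreducible_of_monic hqi hl hqm
    have h5 := minpoly.eq_of_irreducible_of_monic hp h3 hm
    rw [h4, h5]
  have h0 : z.charpoly ≠ 0 := (LinearMap.charpoly_monic z).ne_zero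
  have h2 := UniqueFactorizationMonoid.prod_normalizedFactors_eq (a := z.charpoly) h0
  rw [(LinearMap.charpoly_monic z).normalize_eq_self] at h2
  refine ⟨(UniqueFactorizationMonoid.normalizedFactors z.charpoly).card, h2.symm.trans ?_⟩
  have h3 := Multiset.eq_replicate_of_mem h1
  set c := (UniqueFactorizationMonoid.normalizedFactors z.charpoly).card with hc
  rw [h3, Multiset.prod_replicate]

/-- The trace of an endomorphism killed by a power of an irreducible polynomial. -/
theorem trace_of_kill [CharZero K] {p : K[X]} (hp : Irreducible p) (hm : p.Monic) :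
    ∃ t : K, ∀ {U : Type*} [AddCommGroup U] [Module K U] [FiniteDimensional K U]
      {z : Module.End K U} {m : ℕ}, aeval z (p ^ m) = 0 →
        LinearMap.trace K U z = finrank K U * t := by
  refine ⟨- p.nextCoeff / p.natDegree, fun {U} _ _ _ {z} {m} h => ?_⟩
  obtain ⟨r, hr⟩ := charpoly_eq_pow hp hm h
  have h1 : LinearMap.trace K U z = - z.charpoly.nextCoeff := by
    let b := Module.finBasis K U
    rw [LinearMap.trace_eq_matrix_trace K b, Matrix.trace_eq_neg_charpoly_nextCoeff,
      LinearMap.charpoly_toMatrix]
  have h2 : finrank K U = r * p.natDegree := by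
    rw [← LinearMap.charpoly_natDegree z, hr, Polynomial.natDegree_pow]
  have h3 : (p.natDegree : K) ≠ 0 := by
    have := hp.natDegree_pos
    exact_mod_cast this.ne'
  rw [h1, h2, hr, hm.nextCoeff_pow]
  push_cast
  rw [nsmul_eq_mul]
  field_simp

end Prime

section Prim

variable {K : Type*} {V : Type*} [Field K] [CharZero K] [AddCommGroup V] [Module K V]
  [FiniteDimensional K V] {S : Submodule K (Module.End K V)}

/-- A primitive idempotent of the algebra `S`. -/
def Prim (S : Submodule K (Module.End K V)) (e : Module.End K V) : Prop :=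
  e ∈ S ∧ e * e = e ∧ e ≠ 0 ∧ ∀ f ∈ S, f * f = f → e * f = f → f * e = f → f = 0 ∨ f = e

omit [CharZero K] [FiniteDimensional K V] in
lemma aeval_mul_mem (hS : ∀ a ∈ S, ∀ b ∈ S, a * b ∈ S) {z e : Module.End K V} (hz : z ∈ S)
    (he : e ∈ S) (g : K[X]) : aeval z g * e ∈ S := by
  have hpow : ∀ n : ℕ, z ^ n * e ∈ S := by
    intro n
    induction n with
    | zero => rw [pow_zero, one_mul]; exact he
    | succ n ih => rw [pow_succ', mul_assoc]; exact hS _ hz _ ih
  induction g using Polynomial.induction_on' with
  | add p q hp hq => rw [map_add, add_mul]; exact S.add_mem hp hq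
  | monomial r b =>
    rw [aeval_monomial, ← Algebra.smul_def, smul_mul_assoc]
    exact S.smul_mem _ (hpow r)

/-- An element of `e S e` for a primitive idempotent `e` is killed on the range of `e` by a power of
an irreducible polynomial. -/
lemma Prim.exists_kill (hS : ∀ a ∈ S, ∀ b ∈ S, a * b ∈ S) {e z : Module.End K V} (he : Prim S e)
    (hz : z ∈ S) (hez : e * z = z) (hze : z * e = z) :
    ∃ (p : K[X]) (m : ℕ), Irreducible p ∧ p.Monic ∧ aeval z (p ^ m) * e = 0 := by
  classical
  obtain ⟨heS, hee, he0, hprim⟩ := he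
  have hcomm : ∀ g : K[X], Commute (aeval z g) e := by
    intro g
    have h0 : Commute z e := by
      rw [Commute, SemiconjBy, hze, hez]
    induction g using Polynomial.induction_on' with
    | add p q hp hq => rw [map_add]; exact hp.add_left hq
    | monomial r b =>
      rw [aeval_monomial]
      exact (Algebra.commute_algebraMap_left b e).mul_left (h0.pow_left r)
  -- a polynomial of minimal degree
  let P : ℕ → Prop := fun d => ∃ g : K[X], g ≠ 0 ∧ g.natDegree = d ∧ aeval z g * e = 0
  have hP : ∃ d, P d := ⟨_, minpoly K z, minpoly.ne_zero (Algebra.IsIntegral.isIntegral z), rfl, by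
    rw [minpoly.aeval, zero_mul]⟩
  obtain ⟨g, hg0, hgd, hge⟩ := Nat.find_spec hP
  have hmin : ∀ h : K[X], h ≠ 0 → aeval z h * e = 0 → g.natDegree ≤ h.natDegree := by
    intro h h0 h1
    rw [hgd]
    exact Nat.find_min' hP ⟨h, h0, rfl, h1⟩
  have hgu : ¬ IsUnit g := by
    intro hu
    rw [Polynomial.isUnit_iff] at hu
    obtain ⟨c, hc, rfl⟩ := hu
    rw [aeval_C, ← Algebra.smul_def] at hge
    exact he0 ((smul_eq_zero.1 hge).resolve_left hc.ne_zero)
  obtain ⟨p, hpm, hpi, hpd⟩ := Polynomial.exists_monic_irreducible_factor g hgu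
  obtain ⟨k, h, hph, hgk⟩ := WfDvdMonoid.max_power_factor hg0 hpi
  have hh0 : h ≠ 0 := by
    rintro rfl
    exact hg0 (by rw [hgk, mul_zero])
  have hk : k ≠ 0 := by
    rintro rfl
    rw [pow_zero, one_mul] at hgk
    rw [hgk] at hpd
    exact hph hpd
  have hcop : IsCoprime (p ^ k) h := IsCoprime.pow_left ((hpi.coprime_iff_not_dvd).2 hph)
  obtain ⟨u, v, huv⟩ := hcop
  set f := aeval z (u * p ^ k) * e with hf
  have hfS : f ∈ S := aeval_mul_mem hS hz heS _
  have hff : f * f = f := by
    have h1 : f * f = aeval z (u * p ^ k * (u * p ^ k)) * e := by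
      rw [hf, map_mul (aeval z) (u * p ^ k) (u * p ^ k), mul_assoc, ← mul_assoc e, ← (hcomm _).eq,
        mul_assoc (aeval z (u * p ^ k)) e e, hee, ← mul_assoc]
    have h2 : u * p ^ k * (u * p ^ k) = u * p ^ k - u * v * g := by
      have h3 : u * p ^ k = 1 - v * h := by rw [← huv]; ring
      calc u * p ^ k * (u * p ^ k) = u * p ^ k * (1 - v * h) := by rw [← h3]
        _ = u * p ^ k - u * v * (p ^ k * h) := by ring
        _ = _ := by rw [← hgk]
    rw [h1, h2, map_sub, sub_mul, map_mul _ (u * v), mul_assoc (aeval z (u * v)), hge, mul_zero,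
      sub_zero]
  have hef : e * f = f := by
    rw [hf, ← mul_assoc, ← (hcomm _).eq, mul_assoc, hee]
  have hfe : f * e = f := by
    rw [hf, mul_assoc, hee]
  rcases hprim f hfS hff hef hfe with h1 | h1
  · refine ⟨p, k, hpi, hpm, ?_⟩
    have h2 : p ^ k = p ^ k * (u * p ^ k) + v * g := by
      have h3 : u * p ^ k = 1 - v * h := by rw [← huv]; ring
      rw [h3, hgk]
      ring
    rw [h2, map_add, add_mul, map_mul, mul_assoc, ← hf, h1, mul_zero, zero_add, map_mul, mul_assoc,
      hge, mul_zero]
  · exfalso
    have h2 : aeval z h * e = 0 := by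
      have h3 : h = h * (v * h) + u * g := by
        have h4 : v * h = 1 - u * p ^ k := by rw [← huv]; ring
        rw [h4, hgk]
        ring
      have h5 : aeval z (v * h) * e = 0 := by
        have h6 : v * h = 1 - u * p ^ k := by rw [← huv]; ring
        rw [h6, map_sub, sub_mul, ← hf, h1, map_one, one_mul, sub_self]
      rw [h3, map_add, add_mul, map_mul (aeval z) h, mul_assoc, h5, mul_zero, zero_add, map_mul,
        mul_assoc, hge, mul_zero]
    have h3 := hmin h hh0 h2
    have h4 : g.natDegree = k * p.natDegree + h.natDegree := by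
      rw [hgk, Polynomial.natDegree_mul (pow_ne_zero _ hpi.ne_zero) hh0, Polynomial.natDegree_pow]
    have h5 := hpi.natDegree_pos
    have h6 : 0 < k * p.natDegree := Nat.mul_pos (Nat.pos_of_ne_zero hk) h5
    omega

/-- **The traces on the pieces of the range of a primitive idempotent are proportional to the
dimensions.** -/
theorem Prim.trace (hS : ∀ a ∈ S, ∀ b ∈ S, a * b ∈ S) {e z : Module.End K V} (he : Prim S e)
    (hz : z ∈ S) (hez : e * z = z) (hze : z * e = z) :
    ∃ t : K, ∀ q : Module.End K V, q * q = q → Commute q z → Commute q e →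
      LinearMap.trace K V (z * q) = t * LinearMap.trace K V (e * q) := by
  obtain ⟨p, m, hpi, hpm, hkill⟩ := he.exists_kill hS hz hez hze
  obtain ⟨t, ht⟩ := trace_of_kill hpi hpm
  refine ⟨t, fun q hq hqz hqe => ?_⟩
  set r := e * q with hr
  have hrr : r * r = r := by
    rw [hr, mul_assoc, ← mul_assoc q, hqe.eq, mul_assoc e q q, hq, ← mul_assoc, he.2.1]
  have hzr : Commute z r := by
    rw [Commute, SemiconjBy, hr, ← mul_assoc, hze, mul_assoc, hqz.eq, ← mul_assoc, hez]
  have hzr' : z * r = z * q := by rw [hr, ← mul_assoc, hze]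
  let U := LinearMap.range r
  have hU : ∀ x ∈ U, z x ∈ U := by
    rintro _ ⟨x, rfl⟩
    exact ⟨z x, by rw [← Module.End.mul_apply, ← hzr.eq, Module.End.mul_apply]⟩
  have hU2 : ∀ x, (z * r) x ∈ U := by
    intro x
    rw [hzr.eq]
    exact ⟨z x, rfl⟩
  have h1 : aeval (z.restrict hU) (p ^ m) = 0 := by
    apply LinearMap.ext
    rintro ⟨_, ⟨x, rfl⟩⟩
    apply Subtype.ext
    have h2 : ∀ (g : K[X]) (y : U), ((aeval (z.restrict hU) g y : U) : V) = aeval z g (y : V) := by
      intro g y
      induction g using Polynomial.induction_on' with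
      | add p q hp hq =>
        rw [map_add, map_add, LinearMap.add_apply, LinearMap.add_apply, Submodule.coe_add, hp, hq]
      | monomial r b =>
        rw [aeval_monomial, aeval_monomial, ← Algebra.smul_def, ← Algebra.smul_def,
          LinearMap.smul_apply, LinearMap.smul_apply, Submodule.coe_smul]
        congr 1
        induction r generalizing y with
        | zero => rfl
        | succ r ih => rw [pow_succ, pow_succ, Module.End.mul_apply, Module.End.mul_apply, ih]; rfl
    rw [h2, LinearMap.zero_apply, Submodule.coe_zero]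
    have h3 : aeval z (p ^ m) * r = 0 := by rw [hr, ← mul_assoc, hkill, zero_mul]
    exact congrArg (fun F : Module.End K V => F x) h3
  have h2 := ht h1
  have h3 : LinearMap.trace K V (z * r) = LinearMap.trace K U (z.restrict hU) := by
    rw [← LinearMap.trace_restrict_eq_of_forall_mem U (z * r) hU2]
    congr 1
    apply LinearMap.ext
    rintro ⟨_, ⟨x, rfl⟩⟩
    apply Subtype.ext
    rw [LinearMap.restrict_apply, LinearMap.restrict_apply]
    show (z * r) (r x) = z (r x)
    rw [Module.End.mul_apply, ← Module.End.mul_apply r r, hrr]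
  rw [← hzr', h3, h2, Pool.Agent.N536.HK.trace_idem hrr, mul_comm]

/-- A decomposition of an idempotent into primitive ones. -/
theorem exists_prims : ∀ (n : ℕ) (e : Module.End K V), e ∈ S →
    e * e = e → finrank K (LinearMap.range e) = n →
    ∃ (ι : Type) (_ : Fintype ι) (ε : ι → Module.End K V), (∀ a, Prim S (ε a)) ∧
      (∀ a, e * ε a = ε a ∧ ε a * e = ε a) ∧ (∀ a b, a ≠ b → ε a * ε b = 0) ∧ ∑ a, ε a = e := by
  intro n
  induction n using Nat.strong_induction_on with
  | _ n ih =>
    intro e heS hee hn
    by_cases he0 : e = 0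
    · exact ⟨Empty, inferInstance, fun a => a.elim, fun a => a.elim, fun a => a.elim,
        fun a => a.elim, by rw [he0]; simp⟩
    by_cases hprim : Prim S e
    · refine ⟨Unit, inferInstance, fun _ => e, fun _ => hprim, fun _ => ⟨hee, hee⟩,
        fun a b hab => absurd (Subsingleton.elim a b) hab, by simp⟩
    · have h1 : ∃ f ∈ S, f * f = f ∧ e * f = f ∧ f * e = f ∧ f ≠ 0 ∧ f ≠ e := by
        by_contra hcon
        push Not at hcon
        refine hprim ⟨heS, hee, he0, fun f hf hff hef hfe => ?_⟩
        by_contra hno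
        push Not at hno
        exact hno.2 (hcon f hf hff hef hfe hno.1)
      obtain ⟨f, hf, hff, hef, hfe, hf0, hfne⟩ := h1
      set g := e - f with hg
      have hgg : g * g = g := by
        rw [hg, sub_mul, mul_sub, mul_sub, hee, hef, hfe, hff]
        abel
      have hfg : f * g = 0 := by rw [hg, mul_sub, hfe, hff, sub_self]
      have hgf : g * f = 0 := by rw [hg, sub_mul, hef, hff, sub_self]
      have heg : e * g = g := by rw [hg, mul_sub, hee, hef]
      have hge : g * e = g := by rw [hg, sub_mul, hee, hfe]
      have hsum : f + g = e := by rw [hg]; abel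
      have hrk := rank_add hff hgg hfg hgf
      rw [hsum, hn] at hrk
      have hpos : ∀ h : Module.End K V, h ≠ 0 → 0 < finrank K (LinearMap.range h) := by
        intro h hh
        rw [Nat.pos_iff_ne_zero]
        intro h0
        exact hh (LinearMap.range_eq_bot.1 (Submodule.finrank_eq_zero.1 h0))
      have hg0 : g ≠ 0 := by
        intro h0
        exact hfne (sub_eq_zero.1 (by rw [← hg]; exact h0)).symm
      have hp1 := hpos f hf0
      have hp2 := hpos g hg0
      obtain ⟨ι, _, ε, h2, h3, h4, h5⟩ := ih _ (by omega) f hf hff rfl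
      obtain ⟨κ, _, η, k2, k3, k4, k5⟩ := ih _ (by omega) g (S.sub_mem heS hf) hgg rfl
      refine ⟨ι ⊕ κ, inferInstance, Sum.elim ε η, ?_, ?_, ?_, ?_⟩
      · rintro (a | a)
        · exact h2 a
        · exact k2 a
      · rintro (a | a)
        · have h6 := h3 a
          refine ⟨?_, ?_⟩
          · rw [Sum.elim_inl, ← h6.1, ← mul_assoc, hef]
          · rw [Sum.elim_inl]
            calc ε a * e = (ε a * f) * e := by rw [h6.2]
              _ = ε a := by rw [mul_assoc, hfe, h6.2]
        · have h6 := k3 a
          refine ⟨?_, ?_⟩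
          · rw [Sum.elim_inr, ← h6.1, ← mul_assoc, heg]
          · rw [Sum.elim_inr]
            calc η a * e = (η a * g) * e := by rw [h6.2]
              _ = η a := by rw [mul_assoc, hge, h6.2]
      · rintro (a | a) (b | b) hab
        · exact h4 a b fun h => hab (by rw [h])
        · rw [Sum.elim_inl, Sum.elim_inr, ← (h3 a).2, ← (k3 b).1, mul_assoc, ← mul_assoc f, hfg,
            zero_mul, mul_zero]
        · rw [Sum.elim_inl, Sum.elim_inr, ← (k3 a).2, ← (h3 b).1, mul_assoc, ← mul_assoc g, hgf,
            zero_mul, mul_zero]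
        · exact k4 a b fun h => hab (by rw [h])
      · rw [Fintype.sum_sum_type]
        simp only [Sum.elim_inl, Sum.elim_inr]
        rw [h5, k5, hsum]

end Prim

end Pool.Agent.P8H25.Cp
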