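import Pool.Agent.P8H25.CpA
import Pool.Agent.N536.HK.Main

/-!
# Balanced idempotents
-/

set_option autoImplicit false

open CategoryTheory AlgebraicGeometry Finset TensorProduct Module

universe u v

namespace Pool.Agent.P8H25.Cp

open Pool.Agent.H914 VarClass Obj WeilCohomology Pool.Agent.N190.CB Pool.Agent.N103.OC
  Pool.Agent.TH133.PW Pool.Agent.H447 Pool.Agent.N536.SG

variable {k : Type u} [Field k] {𝒱 : VarClass k} {ops : CycleOps 𝒱}
  {W : WeilCohomology.{u, v} ops} {X Y Z : 𝒱.Obj}

/-- A degree preserving operator commutes with the diagonal operators. -/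
lemma scal_comm' {a : Module.End W.K (W.H X)} (ha : ∀ i, ∀ x ∈ W.gr X i, a x ∈ W.gr X i)
    (c : ℕ → W.K) : scal (W.isInternal X) c * a = a * scal (W.isInternal X) c := by
  apply gr_ext (W.isInternal X)
  intro i x hx
  rw [Module.End.mul_apply, Module.End.mul_apply, scal_apply _ _ hx,
    scal_apply _ _ (ha i x hx), map_smul]

lemma scal_comm {a : Module.End W.K (W.H X)} (ha : a ∈ KOp W X X 0)
    (c : ℕ → W.K) : scal (W.isInternal X) c * a = a * scal (W.isInternal X) c :=
  scal_comm' (fun i _ hx => kop_gr ha i hx) c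

/-- A degree preserving operator is induced by a class of the middle degree. -/
lemma exists_middle_class {F : Module.End W.K (W.H X)}
    (hF : ∀ i, ∀ x ∈ W.gr X i, F x ∈ W.gr X i) :
    ∃ g ∈ W.gr (X.prod X) (2 * X.dim), W.corr g = F := by
  obtain ⟨f, hf⟩ := corr_bijective.2 F
  have hf' : W.corr f = F := hf
  refine ⟨proj (W.isInternal (X.prod X)) (2 * X.dim) f, proj_mem _ _ _, ?_⟩
  apply gr_ext (W.isInternal X)
  intro m x hx
  -- the component of `f`
  have h1 : ∀ f : W.H (X.prod X), W.corr (proj (W.isInternal (X.prod X)) (2 * X.dim) f) x =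
      proj (W.isInternal X) m (W.corr f x) := by
    intro f
    refine gr_induction (W.isInternal (X.prod X)) (p := fun f =>
      W.corr (proj (W.isInternal (X.prod X)) (2 * X.dim) f) x =
      proj (W.isInternal X) m (W.corr f x)) ?_ ?_ f
    · intro l b hb
      have h2 := W.push_mem (snd X X) (W.mul_mem hb (W.map_mem (fst X X) hx))
      rw [← corr_apply] at h2
      by_cases hl : l = 2 * X.dim
      · subst hl
        rw [proj_same _ hb, proj_same]
        have e : ((2 * X.dim + m : ℕ) : ℤ) + 2 * ((X.dim : ℤ) - (X.prod X).dim) = (m : ℤ) := by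
          rw [dim_prod]; push_cast; ring
        rwa [e, grZ_natCast] at h2
      · rw [proj_ne _ hb hl, W.corr_zero, LinearMap.zero_apply]
        symm
        by_cases hneg : ((l + m : ℕ) : ℤ) + 2 * ((X.dim : ℤ) - (X.prod X).dim) < 0
        · rw [grZ_of_neg hneg] at h2
          rw [(Submodule.mem_bot _).1 h2, map_zero]
        · push Not at hneg
          obtain ⟨j, hj⟩ := Int.eq_ofNat_of_zero_le hneg
          rw [hj, grZ_natCast] at h2
          apply proj_ne _ h2
          rw [dim_prod] at hj
          push_cast at hj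
          omega
    · intro b b' hb hb'
      rw [map_add, W.corr_add, LinearMap.add_apply, hb, hb', W.corr_add, LinearMap.add_apply,
        map_add]
  rw [h1, hf', proj_same _ (hF m x hx)]

/-- The supertrace is a trace. -/
lemma str_comm {a b : Module.End W.K (W.H X)} (ha : a ∈ KOp W X X 0) :
    str W X (a * b) = str W X (b * a) := by
  rw [str_apply, str_apply, ← mul_assoc, Pool.Agent.N536.HK.par_comm ha, mul_assoc,
    LinearMap.trace_mul_comm, mul_assoc]

/-- The operator which multiplies the classes of degree `i` by `i`. -/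
noncomputable def deg (W : WeilCohomology.{u, v} ops) (X : 𝒱.Obj) : Module.End W.K (W.H X) :=
  scal (W.isInternal X) fun i => (i : W.K)

lemma deg_comm {a : Module.End W.K (W.H X)} (ha : a ∈ KOp W X X 0) :
    deg W X * a = a * deg W X := scal_comm ha _

lemma deg_sandwich {a b c : Module.End W.K (W.H X)} (ha : a ∈ KOp W X X 0) (hb : b ∈ KOp W X X 0) :
    deg W X * (a * b * c) = a * (b * (deg W X * c)) := by
  have h1 : deg W X * (a * b * c) = deg W X * a * b * c := by simp only [mul_assoc]
  have h2 : a * deg W X * b * c = a * (deg W X * b * c) := by simp only [mul_assoc]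
  rw [h1, deg_comm ha, h2, deg_comm hb, mul_assoc b]

lemma deg_prod : deg W (Y.prod X) = extOp W (deg W Y) 1 + extOp W 1 (deg W X) := by
  apply op_ext
  intro i j a ha b hb
  rw [deg, scal_apply_ext _ ha hb, LinearMap.add_apply, extOp_tmul, extOp_tmul, deg, deg,
    scal_apply _ _ ha, scal_apply _ _ hb, map_smul, map_smul, smul_mul_assoc, mul_smul_comm,
    Module.End.one_apply, Module.End.one_apply, ← add_smul]
  push_cast
  rfl

/-- The supertraces of the degree operator are proportional to the supertraces, on the range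
of `e`. -/
def Bal (W : WeilCohomology.{u, v} ops) (X : 𝒱.Obj) (e : Module.End W.K (W.H X)) (c : W.K) :
    Prop :=
  (∀ y ∈ KOp W X X 0, str W X (e * y * e) = 0) ∨
    ∀ y ∈ KOp W X X 0, str W X (deg W X * (e * y * e)) = c * str W X (e * y * e)

/-- **Products of balanced idempotents.** -/
theorem bal_prod {e : Module.End W.K (W.H Y)} (he : e ∈ KOp W Y Y 0) (hee : e * e = e) {c : W.K}
    (hc : Bal W Y e c) {f : Module.End W.K (W.H X)} (hf : f ∈ KOp W X X 0) (hff : f * f = f)
    {c' : W.K} (hc' : Bal W X f c') : Bal W (Y.prod X) (extOp W e f) (c + c') := by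
  have hE : extOp W e f ∈ KOp W (Y.prod X) (Y.prod X) 0 := (kop_class W).ext he hf
  have hEE : extOp W e f * extOp W e f = extOp W e f := by rw [extOp_mul, hee, hff]
  -- the partial traces
  have key : ∀ w ∈ KOp W (Y.prod X) (Y.prod X) 0, ∃ T ∈ KOp W Y Y 0, ∃ T' ∈ KOp W X X 0,
      str W (Y.prod X) (extOp W e f * w * extOp W e f) = str W Y (e * T * e) ∧
      str W (Y.prod X) (extOp W e f * w * extOp W e f) = str W X (f * T' * f) ∧
      str W (Y.prod X) (deg W (Y.prod X) * (extOp W e f * w * extOp W e f)) =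
        str W Y (deg W Y * (e * T * e)) + str W X (deg W X * (f * T' * f)) := by
    intro w hw
    obtain ⟨T, hT, h1⟩ := exists_ptrace hw hf
    obtain ⟨T', hT', h2⟩ := exists_ptrace' hw he
    have hT : T ∈ KOp W Y Y 0 := KOp.cast hT (by ring)
    have hT' : T' ∈ KOp W X X 0 := KOp.cast hT' (by ring)
    have h1' : ∀ F : Module.End W.K (W.H Y),
        str W (Y.prod X) (w * extOp W F f) = str W Y (T * F) := by
      intro F
      obtain ⟨g, hg⟩ := corr_bijective.2 F
      have hg' : W.corr g = F := hg
      rw [← hg']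
      exact h1 g
    have h2' : ∀ F : Module.End W.K (W.H X), (∀ i, ∀ x ∈ W.gr X i, F x ∈ W.gr X i) →
        str W (Y.prod X) (w * extOp W e F) = str W X (T' * F) := by
      intro F hF
      obtain ⟨g, hg, rfl⟩ := exists_middle_class hF
      exact h2 hg
    have h3 : str W (Y.prod X) (extOp W e f * w * extOp W e f) =
        str W (Y.prod X) (w * extOp W e f) := by
      rw [mul_assoc, str_comm hE, mul_assoc, hEE]
    have h4 : str W Y (e * T * e) = str W Y (T * e) := by
      rw [mul_assoc, str_comm he, mul_assoc, hee]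
    have h5 : str W X (f * T' * f) = str W X (T' * f) := by
      rw [mul_assoc, str_comm hf, mul_assoc, hff]
    refine ⟨T, hT, T', hT', ?_, ?_, ?_⟩
    · rw [h3, h4, h1']
    · rw [h3, h5, h2' f fun i x hx => kop_gr hf i hx]
    · have k1 : deg W (Y.prod X) * (extOp W e f * w * extOp W e f) =
          extOp W e f * (w * (deg W (Y.prod X) * extOp W e f)) := deg_sandwich hE hw
      have k2 : deg W Y * (e * T * e) = e * (T * (deg W Y * e)) := deg_sandwich he hT
      have k3 : deg W X * (f * T' * f) = f * (T' * (deg W X * f)) := deg_sandwich hf hT'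
      have k4 : w * (deg W (Y.prod X) * extOp W e f) * extOp W e f =
          w * extOp W (deg W Y * e) f + w * extOp W e (deg W X * f) := by
        rw [mul_assoc, mul_assoc, hEE, deg_prod, add_mul, extOp_mul, extOp_mul, one_mul, one_mul,
          mul_add]
      rw [k1, k2, k3, str_comm hE, str_comm he, str_comm hf, k4, map_add, h1', h2',
        mul_assoc T, mul_assoc T', mul_assoc (deg W Y), mul_assoc (deg W X), hee, hff]
      intro i x hx
      rw [Module.End.mul_apply, deg, scal_apply _ _ (kop_gr hf i hx)]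
      exact Submodule.smul_mem _ _ (kop_gr hf i hx)
  rcases hc with hc | hc
  · left
    intro w hw
    obtain ⟨T, hT, T', hT', h1, -, -⟩ := key w hw
    rw [h1, hc T hT]
  rcases hc' with hc' | hc'
  · left
    intro w hw
    obtain ⟨T, hT, T', hT', -, h1, -⟩ := key w hw
    rw [h1, hc' T' hT']
  · right
    intro w hw
    obtain ⟨T, hT, T', hT', h1, h2, h3⟩ := key w hw
    rw [h3, hc T hT, hc' T' hT', ← h1, ← h2]
    ring

/-- **Primitive idempotents are balanced.** -/
theorem bal_of_prim {e : Module.End W.K (W.H X)} (he : Prim (KOp W X X 0) e) :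
    ∃ c, Bal W X e c := by
  have hS : ∀ a ∈ KOp W X X 0, ∀ b ∈ KOp W X X 0, a * b ∈ KOp W X X 0 :=
    fun a ha b hb => kop_mul ha hb
  have key : ∀ y ∈ KOp W X X 0, ∃ t : W.K, ∀ c : ℕ → W.K,
      LinearMap.trace W.K (W.H X) (scal (W.isInternal X) c * (e * y * e)) =
        t * LinearMap.trace W.K (W.H X) (scal (W.isInternal X) c * e) := by
    intro y hy
    have hz : e * y * e ∈ KOp W X X 0 := kop_mul (kop_mul he.1 hy) he.1
    obtain ⟨t, ht⟩ := he.trace hS hz (by rw [← mul_assoc, ← mul_assoc, he.2.1])
      (by rw [mul_assoc, he.2.1])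
    refine ⟨t, fun c => ?_⟩
    have h1 : ∀ i, LinearMap.trace W.K (W.H X) (proj (W.isInternal X) i * (e * y * e)) =
        t * LinearMap.trace W.K (W.H X) (proj (W.isInternal X) i * e) := by
      intro i
      rw [LinearMap.trace_mul_comm, LinearMap.trace_mul_comm W.K (proj (W.isInternal X) i) e]
      exact ht _ (proj_mul_proj _ _) (scal_comm hz _) (scal_comm he.1 _)
    rw [scal_eq_sum (W.isInternal X) W_hbd, Finset.sum_mul, Finset.sum_mul, map_sum, map_sum,
      Finset.mul_sum]
    refine Finset.sum_congr rfl fun i _ => ?_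
    rw [smul_mul_assoc, smul_mul_assoc, map_smul, map_smul, h1, smul_eq_mul, smul_eq_mul]
    ring
  have key2 : ∀ y ∈ KOp W X X 0, ∃ t : W.K,
      str W X (e * y * e) = t * str W X e ∧
      str W X (deg W X * (e * y * e)) = t * str W X (deg W X * e) := by
    intro y hy
    obtain ⟨t, ht⟩ := key y hy
    refine ⟨t, ?_, ?_⟩
    · rw [str_apply, str_apply]
      exact ht _
    · rw [str_apply, str_apply, ← mul_assoc (par (W.isInternal X)) (deg W X) (e * y * e),
        ← mul_assoc (par (W.isInternal X)) (deg W X) e, par, deg, scal_mul]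
      exact ht _
  by_cases h0 : str W X e = 0
  · refine ⟨0, Or.inl fun y hy => ?_⟩
    obtain ⟨t, h1, -⟩ := key2 y hy
    rw [h1, h0, mul_zero]
  · refine ⟨str W X (deg W X * e) / str W X e, Or.inr fun y hy => ?_⟩
    obtain ⟨t, h1, h2⟩ := key2 y hy
    rw [h1, h2]
    field_simp

end Pool.Agent.P8H25.Cp
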