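import Pool.Agent.P8H25.CpB

/-!
# Systems of balanced idempotents
-/

set_option autoImplicit false

open CategoryTheory AlgebraicGeometry Finset TensorProduct Module

universe u v

namespace Pool.Agent.P8H25.Cp

open Pool.Agent.H914 VarClass Obj WeilCohomology Pool.Agent.N190.CB Pool.Agent.N103.OC
  Pool.Agent.TH133.PW Pool.Agent.H447 Pool.Agent.N536.SG

variable {k : Type u} [Field k] {𝒱 : VarClass k} {ops : CycleOps 𝒱}
  {W : WeilCohomology.{u, v} ops} {X Y Z : 𝒱.Obj}

open Classical in
/-- The identity is a sum of orthogonal balanced idempotents; the finite set `J` labels a basis of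
the cohomology adapted to the idempotents and the degrees, and `y` is the difference of the degree
and the constant of the idempotent. -/
def IsSys (W : WeilCohomology.{u, v} ops) (X : 𝒱.Obj) (J : Type) [Fintype J] (y : J → W.K) :
    Prop :=
  ∃ (ι : Type) (_ : Fintype ι) (ε : ι → Module.End W.K (W.H X)) (c : ι → W.K) (α : J → ι)
    (δ : J → ℕ), (∀ a, ε a ∈ KOp W X X 0) ∧ (∀ a, ε a * ε a = ε a) ∧
      (∀ a b, a ≠ b → ε a * ε b = 0) ∧ ∑ a, ε a = 1 ∧ (∀ a, Bal W X (ε a) (c a)) ∧
      (∀ a (φ : ℕ → W.K), LinearMap.trace W.K (W.H X) (ε a * scal (W.isInternal X) φ) =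
        ∑ s, if α s = a then φ (δ s) else 0) ∧ ∀ s, y s = δ s - c (α s)

lemma trace_eps_scal {e : Module.End W.K (W.H X)} (φ : ℕ → W.K) :
    LinearMap.trace W.K (W.H X) (e * scal (W.isInternal X) φ) =
      ∑ i ∈ range (2 * X.dim + 1),
        φ i * LinearMap.trace W.K (W.H X) (e * proj (W.isInternal X) i) := by
  rw [scal_eq_sum (W.isInternal X) W_hbd, Finset.mul_sum, map_sum]
  refine Finset.sum_congr rfl fun i _ => ?_
  rw [mul_smul_comm, map_smul, smul_eq_mul]

/-- The traces of external products. -/
lemma trace_ext_scal (e : Module.End W.K (W.H Y)) (f : Module.End W.K (W.H X)) (φ : ℕ → W.K) :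
    LinearMap.trace W.K (W.H (Y.prod X)) (extOp W e f * scal (W.isInternal (Y.prod X)) φ) =
      LinearMap.trace W.K (W.H Y) (e * scal (W.isInternal Y) fun i =>
        LinearMap.trace W.K (W.H X) (f * scal (W.isInternal X) fun j => φ (i + j))) := by
  rw [scal_prod, Finset.mul_sum, map_sum, trace_eps_scal]
  refine Finset.sum_congr rfl fun i _ => ?_
  rw [Finset.mul_sum, map_sum, trace_eps_scal, Finset.sum_mul]
  refine Finset.sum_congr rfl fun j _ => ?_
  rw [mul_smul_comm, map_smul, extOp_mul, trace_extOp, smul_eq_mul]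
  ring

/-- **Products of systems.** -/
theorem IsSys.prod {J I : Type} [Fintype J] [Fintype I] {y : J → W.K} {z : I → W.K}
    (h : IsSys W Y J y) (h' : IsSys W X I z) :
    IsSys W (Y.prod X) (J × I) fun s => y s.1 + z s.2 := by
  classical
  obtain ⟨ι, _, ε, c, α, δ, h1, h2, h3, h4, h5, h6, h7⟩ := h
  obtain ⟨κ, _, η, d, β, δ', k1, k2, k3, k4, k5, k6, k7⟩ := h'
  refine ⟨ι × κ, inferInstance, fun a => extOp W (ε a.1) (η a.2), fun a => c a.1 + d a.2,
    fun s => (α s.1, β s.2), fun s => δ s.1 + δ' s.2, fun a => (kop_class W).ext (h1 _) (k1 _),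
    fun a => by rw [extOp_mul, h2, k2], ?_, ?_,
    fun a => bal_prod (h1 _) (h2 _) (h5 _) (k1 _) (k2 _) (k5 _), ?_, ?_⟩
  · rintro ⟨a, b⟩ ⟨a', b'⟩ hab
    rw [extOp_mul]
    by_cases haa : a = a'
    · have hbb : b ≠ b' := fun h => hab (by rw [haa, h])
      rw [k3 _ _ hbb, extOp_zero_right]
    · rw [h3 _ _ haa, extOp_zero_left]
  · rw [Fintype.sum_prod_type]
    simp only
    have e1 : ∀ a, ∑ b, extOp W (ε a) (η b) = extOp W (ε a) 1 := by
      intro a
      rw [← extOp_sum', k4]
    rw [Finset.sum_congr rfl fun a _ => e1 a, ← extOp_sum, h4, extOp_one]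
  · rintro ⟨a, b⟩ φ
    rw [trace_ext_scal, h6, Fintype.sum_prod_type]
    refine Finset.sum_congr rfl fun s _ => ?_
    by_cases hs : α s = a
    · rw [if_pos hs, k6]
      refine Finset.sum_congr rfl fun t _ => ?_
      by_cases ht : β t = b
      · rw [if_pos ht, if_pos (Prod.ext hs ht)]
      · rw [if_neg ht, if_neg]
        intro h
        exact ht (congrArg Prod.snd h)
    · rw [if_neg hs]
      symm
      refine Finset.sum_eq_zero fun t _ => if_neg ?_
      intro h
      exact hs (congrArg Prod.fst h)
  · rintro ⟨s, t⟩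
    simp only
    rw [h7, k7]
    push_cast
    ring

/-- Every variety has a system. -/
theorem exists_sys (W : WeilCohomology.{u, v} ops) (X : 𝒱.Obj) :
    ∃ (J : Type) (_ : Fintype J) (y : J → W.K), IsSys W X J y := by
  classical
  obtain ⟨ι, _, ε, h1, -, h3, h4⟩ := exists_prims (S := KOp W X X 0) _ 1 (KOp.id X)
    (one_mul 1) rfl
  choose c hc using fun a => bal_of_prim (h1 a)
  have hid : ∀ a i, (ε a * proj (W.isInternal X) i) * (ε a * proj (W.isInternal X) i) =
      ε a * proj (W.isInternal X) i := by
    intro a i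
    have e1 : proj (W.isInternal X) i * ε a = ε a * proj (W.isInternal X) i :=
      scal_comm (h1 a).1 _
    calc (ε a * proj (W.isInternal X) i) * (ε a * proj (W.isInternal X) i)
        = ε a * (proj (W.isInternal X) i * ε a) * proj (W.isInternal X) i := by
          simp only [mul_assoc]
      _ = (ε a * ε a) * (proj (W.isInternal X) i * proj (W.isInternal X) i) := by
          rw [e1]
          simp only [mul_assoc]
      _ = _ := by rw [(h1 a).2.1, proj_mul_proj]
  let J : Type := Σ (a : ι) (i : Fin (2 * X.dim + 1)),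
    Fin (finrank W.K (LinearMap.range (ε a * proj (W.isInternal X) i)))
  refine ⟨J, inferInstance, fun s => ((s.2.1 : ℕ) : W.K) - c s.1, ι, inferInstance, ε, c,
    fun s => s.1, fun s => s.2.1, fun a => (h1 a).1, fun a => (h1 a).2.1, h3, h4, hc, ?_,
    fun s => rfl⟩
  intro a φ
  rw [trace_eps_scal, Fintype.sum_sigma, Finset.sum_eq_single a, Fintype.sum_sigma,
    Finset.sum_range]
  · refine Finset.sum_congr rfl fun i _ => ?_
    simp only [if_true, Finset.sum_const, Finset.card_univ, Fintype.card_fin]
    rw [Pool.Agent.N536.HK.trace_idem (hid a i), nsmul_eq_mul, mul_comm]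
  · intro b _ hb
    refine Finset.sum_eq_zero fun s _ => if_neg hb
  · intro h
    exact absurd (Finset.mem_univ a) h

/-- The number of the labels is the dimension of the cohomology. -/
lemma IsSys.card {J : Type} [Fintype J] {y : J → W.K} (h : IsSys W X J y) :
    Fintype.card J = N536.HK.cohDim W X := by
  classical
  obtain ⟨ι, _, ε, c, α, δ, h1, h2, h3, h4, h5, h6, h7⟩ := h
  have e1 : ((Fintype.card J : ℕ) : W.K) = (N536.HK.cohDim W X : ℕ) := by
    have e2 := Finset.sum_congr rfl fun a (_ : a ∈ (Finset.univ : Finset ι)) =>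
      h6 a fun _ => (1 : W.K)
    rw [scal_one] at e2
    simp only [mul_one] at e2
    rw [← map_sum, h4, LinearMap.trace_one, Finset.sum_comm] at e2
    simp only [Finset.sum_ite_eq, Finset.mem_univ, if_true, Finset.sum_const, Finset.card_univ,
      nsmul_eq_mul, mul_one] at e2
    rw [← e2]
    rfl
  exact_mod_cast e1

/-- Combinations of correspondences which kill all the degrees except `i`. -/
def IsPure (W : WeilCohomology.{u, v} ops) (X : 𝒱.Obj) (i : ℕ) (a : Module.End W.K (W.H X)) : Prop :=
  a ∈ KOp W X X 0 ∧ ∀ j, j ≠ i → ∀ x ∈ W.gr X j, a x = 0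

lemma IsPure.scal {i : ℕ} {a : Module.End W.K (W.H X)} (ha : IsPure W X i a) (φ : ℕ → W.K) :
    scal (W.isInternal X) φ * a = φ i • a := by
  apply gr_ext (W.isInternal X)
  intro j x hx
  rw [Module.End.mul_apply, LinearMap.smul_apply]
  by_cases hj : j = i
  · subst hj
    rw [scal_apply _ _ (kop_gr ha.1 j hx)]
  · rw [ha.2 j hj x hx, map_zero, smul_zero]

lemma IsPure.mul_right {i : ℕ} {a b : Module.End W.K (W.H X)} (ha : IsPure W X i a)
    (hb : b ∈ KOp W X X 0) : IsPure W X i (a * b) :=
  ⟨kop_mul ha.1 hb, fun j hj x hx => by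
    rw [Module.End.mul_apply, ha.2 j hj _ (kop_gr hb j hx)]⟩

/-- Balanced idempotents with another constant are orthogonal to pure operators. -/
lemma Bal.trace_zero {e : Module.End W.K (W.H X)} (he : e ∈ KOp W X X 0) (hee : e * e = e) {c : W.K}
    (hc : Bal W X e c) {i : ℕ} (hi : c ≠ i) {a : Module.End W.K (W.H X)} (ha : IsPure W X i a) :
    LinearMap.trace W.K (W.H X) (e * a) = 0 := by
  have h1 : str W X (e * a * e) = 0 := by
    rcases hc with hc | hc
    · exact hc a ha.1
    · have h2 := hc a ha.1
      have h3 : deg W X * (e * a * e) = (i : W.K) • (e * a * e) := by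
        have h4 : deg W X * (e * a * e) = deg W X * e * a * e := by simp only [mul_assoc]
        have h5 : e * deg W X * a * e = e * (deg W X * a) * e := by simp only [mul_assoc]
        rw [h4, deg_comm he, h5, deg, ha.scal, mul_smul_comm, smul_mul_assoc]
      rw [h3, map_smul, smul_eq_mul] at h2
      have h4 : ((i : W.K) - c) * str W X (e * a * e) = 0 := by rw [sub_mul, h2, sub_self]
      exact (mul_eq_zero.1 h4).resolve_left (sub_ne_zero.2 (Ne.symm hi))
  rw [mul_assoc, str_comm he, mul_assoc, hee, ← str_comm he, str_apply, ← mul_assoc,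
    N536.HK.par_comm he, mul_assoc, par, ha.scal, mul_smul_comm, map_smul, smul_eq_mul] at h1
  exact (mul_eq_zero.1 h1).resolve_left (pow_ne_zero _ (neg_ne_zero.2 one_ne_zero))

open Classical in
/-- **The rank of a pure idempotent.** -/
theorem rank_pure_le {J ι : Type} [Fintype J] [Fintype ι] {ε : ι → Module.End W.K (W.H X)}
    {c : ι → W.K} {α : J → ι} {δ : J → ℕ}
    (h1 : ∀ a, ε a ∈ KOp W X X 0) (h2 : ∀ a, ε a * ε a = ε a)
    (h3 : ∀ a b, a ≠ b → ε a * ε b = 0) (h4 : ∑ a, ε a = 1) (h5 : ∀ a, Bal W X (ε a) (c a))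
    (h6 : ∀ a (φ : ℕ → W.K), LinearMap.trace W.K (W.H X) (ε a * scal (W.isInternal X) φ) =
        ∑ s, if α s = a then φ (δ s) else 0) {i : ℕ}
    {e : Module.End W.K (W.H X)} (he : IsPure W X i e) (hee : e * e = e) :
    finrank W.K (LinearMap.range e) ≤
      (univ.filter fun s => δ s = i ∧ c (α s) = i).card := by
  set q := ∑ a with ¬ c a = (i : W.K), ε a with hq
  set p := ∑ a with c a = (i : W.K), ε a with hp
  have hpq : p + q = 1 := by rw [hp, hq, Finset.sum_filter_add_sum_filter_not, h4]
  have hqm : q ∈ KOp W X X 0 := Submodule.sum_mem _ fun a _ => h1 a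
  have hpm : p ∈ KOp W X X 0 := Submodule.sum_mem _ fun a _ => h1 a
  have hsum : ∀ (t : Finset ι), (∑ a ∈ t, ε a) * (∑ a ∈ t, ε a) = ∑ a ∈ t, ε a := by
    intro t
    rw [Finset.sum_mul_sum]
    refine Finset.sum_congr rfl fun a ha => ?_
    rw [Finset.sum_eq_single a]
    · exact h2 a
    · intro b _ hb
      exact h3 a b (Ne.symm hb)
    · intro h
      exact absurd ha h
  have hpp : p * p = p := hsum _
  have hq0 : ∀ a, IsPure W X i a → LinearMap.trace W.K (W.H X) (q * a) = 0 := by
    intro a ha
    rw [hq, Finset.sum_mul, map_sum]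
    refine Finset.sum_eq_zero fun b hb => ?_
    exact (h5 b).trace_zero (h1 b) (h2 b) (Finset.mem_filter.1 hb).2 ha
  have hnil : IsNilpotent (q * e) := by
    apply isNilpotent_of_trace_pow
    intro r
    have hmem : ∀ r : ℕ, (q * e) ^ r ∈ KOp W X X 0 := by
      intro r
      induction r with
      | zero => exact KOp.id X
      | succ r ih => rw [pow_succ]; exact kop_mul ih (kop_mul hqm he.1)
    rw [pow_succ', mul_assoc]
    exact hq0 _ (he.mul_right (hmem r))
  have hproj : proj (W.isInternal X) i * e = e := by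
    rw [proj, he.scal, if_pos rfl, one_smul]
  have hpc : proj (W.isInternal X) i * p = p * proj (W.isInternal X) i := scal_comm hpm _
  set q' := q * proj (W.isInternal X) i + (1 - proj (W.isInternal X) i) with hq'
  have hq'e : q' * e = q * e := by
    rw [hq', add_mul, sub_mul, one_mul, mul_assoc, hproj, sub_self, add_zero]
  have h1q : 1 - q' = p * proj (W.isInternal X) i := by
    have : p = 1 - q := by rw [← hpq, add_sub_cancel_right]
    rw [this, hq', sub_mul, one_mul]
    abel
  have hid : (p * proj (W.isInternal X) i) * (p * proj (W.isInternal X) i) =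
      p * proj (W.isInternal X) i := by
    calc (p * proj (W.isInternal X) i) * (p * proj (W.isInternal X) i)
        = p * (proj (W.isInternal X) i * p) * proj (W.isInternal X) i := by
          simp only [mul_assoc]
      _ = (p * p) * (proj (W.isInternal X) i * proj (W.isInternal X) i) := by
          rw [hpc]
          simp only [mul_assoc]
      _ = _ := by rw [hpp, proj_mul_proj]
  have hle := N536.HK.rank_le_of_nilpotent (q := q') hee (by rw [hq'e]; exact hnil)
  rw [h1q] at hle
  refine hle.trans (le_of_eq ?_)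
  have htr : ((finrank W.K (LinearMap.range (p * proj (W.isInternal X) i)) : ℕ) : W.K) =
      ((univ.filter fun s => δ s = i ∧ c (α s) = i).card : ℕ) := by
    rw [← N536.HK.trace_idem hid, hp, Finset.sum_mul, map_sum]
    have e1 : ∀ a, LinearMap.trace W.K (W.H X) (ε a * proj (W.isInternal X) i) =
        ∑ s, if α s = a then (if δ s = i then 1 else 0) else 0 := fun a => h6 a _
    rw [Finset.sum_congr rfl fun a _ => e1 a, Finset.sum_comm, Finset.card_filter]
    push_cast
    refine Finset.sum_congr rfl fun s _ => ?_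
    rw [Finset.sum_filter]
    have e2 : ∀ a, (if c a = (i : W.K) then (if α s = a then (if δ s = i then (1 : W.K) else 0)
        else 0) else 0) = if α s = a then (if δ s = i ∧ c (α s) = i then 1 else 0) else 0 := by
      intro a
      by_cases h : α s = a
      · subst h
        by_cases h' : c (α s) = (i : W.K)
        · by_cases h'' : δ s = i
          · rw [if_pos h', if_pos rfl, if_pos h'', if_pos rfl, if_pos ⟨h'', h'⟩]
          · rw [if_pos h', if_pos rfl, if_neg h'', if_pos rfl, if_neg fun h => h'' h.1]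
        · rw [if_neg h', if_pos rfl, if_neg fun h => h' h.2]
      · rw [if_neg h, if_neg h, ite_self]
    rw [Finset.sum_congr rfl fun a _ => e2 a, Finset.sum_ite_eq, if_pos (Finset.mem_univ _)]
  exact_mod_cast htr

open Classical in
/-- **The ranks of pure idempotents.** -/
theorem IsSys.bound {J : Type} [Fintype J] {y : J → W.K} (h : IsSys W X J y)
    {e : ℕ → Module.End W.K (W.H X)} (he : ∀ i, IsPure W X i (e i)) (hee : ∀ i, e i * e i = e i)
    (N : ℕ) : ∑ i ∈ range N, finrank W.K (LinearMap.range (e i)) ≤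
      (univ.filter fun s => y s = 0).card := by
  obtain ⟨ι, _, ε, c, α, δ, h1, h2, h3, h4, h5, h6, h7⟩ := h
  refine (Finset.sum_le_sum fun i _ => rank_pure_le h1 h2 h3 h4 h5 h6 (he i) (hee i)).trans ?_
  rw [← Finset.card_biUnion]
  · refine Finset.card_le_card fun s hs => ?_
    rw [Finset.mem_biUnion] at hs
    obtain ⟨i, -, hs⟩ := hs
    rw [Finset.mem_filter] at hs ⊢
    refine ⟨hs.1, ?_⟩
    rw [h7, hs.2.1, hs.2.2, sub_self]
  · intro i _ j _ hij
    rw [Function.onFun, Finset.disjoint_left]
    intro s hs hs'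
    rw [Finset.mem_filter] at hs hs'
    exact hij (hs.2.1.symm.trans hs'.2.1)

/-- **If the labels are constant, the conjecture of type C holds.** -/
theorem IsSys.proj_mem {J : Type} [Fintype J] {y : J → W.K} (h : IsSys W X J y)
    (hy : ∀ s t, y s = y t) (i : ℕ) : proj (W.isInternal X) i ∈ KOp W X X 0 := by
  classical
  obtain ⟨ι, _, ε, c, α, δ, h1, h2, h3, h4, h5, h6, h7⟩ := h
  -- the constant
  obtain ⟨t, ht⟩ : ∃ t : W.K, ∀ s, y s = t := by
    by_cases hJ : Nonempty J
    · exact ⟨y hJ.some, fun s => hy _ _⟩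
    · exact ⟨0, fun s => absurd ⟨s⟩ hJ⟩
  have hpair : ∀ a (j : ℕ), (j : W.K) ≠ c a + t → ε a * proj (W.isInternal X) j = 0 := by
    intro a j hj
    apply eq_zero_of_idem_of_trace_eq_zero
    · have e1 : proj (W.isInternal X) j * ε a = ε a * proj (W.isInternal X) j :=
        scal_comm (h1 a) _
      calc (ε a * proj (W.isInternal X) j) * (ε a * proj (W.isInternal X) j)
          = ε a * (proj (W.isInternal X) j * ε a) * proj (W.isInternal X) j := by
            simp only [mul_assoc]
        _ = (ε a * ε a) * (proj (W.isInternal X) j * proj (W.isInternal X) j) := by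
            rw [e1]
            simp only [mul_assoc]
        _ = _ := by rw [h2, proj_mul_proj]
    · have e1 : LinearMap.trace W.K (W.H X) (ε a * proj (W.isInternal X) j) =
        ∑ s, if α s = a then (if δ s = j then 1 else 0) else 0 := h6 a _
      rw [e1]
      refine Finset.sum_eq_zero fun s _ => ?_
      split_ifs with hs1 hs2
      · exfalso
        have e2 := h7 s
        rw [ht, hs1, hs2] at e2
        exact hj (by rw [e2]; ring)
      · rfl
      · rfl
  have key : proj (W.isInternal X) i = ∑ a with c a + t = i, ε a := by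
    apply gr_ext (W.isInternal X)
    intro j x hx
    have e1 : ∀ a, ε a x = (ε a * proj (W.isInternal X) j) x := by
      intro a
      rw [Module.End.mul_apply, proj_same _ hx]
    by_cases hj : j = i
    · subst hj
      rw [proj_same _ hx, LinearMap.sum_apply]
      have e2 : x = ∑ a, ε a x := by
        rw [← LinearMap.sum_apply, h4, Module.End.one_apply]
      conv_lhs => rw [e2]
      rw [Finset.sum_filter]
      refine Finset.sum_congr rfl fun a _ => ?_
      split_ifs with h
      · rfl
      · rw [e1, hpair a j (Ne.symm h), LinearMap.zero_apply]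
    · rw [proj_ne _ hx hj, LinearMap.sum_apply]
      symm
      refine Finset.sum_eq_zero fun a ha => ?_
      rw [e1, hpair a j, LinearMap.zero_apply]
      rw [(Finset.mem_filter.1 ha).2]
      exact fun h => hj (by exact_mod_cast h)
  rw [key]
  exact Submodule.sum_mem _ fun a _ => h1 a

end Pool.Agent.P8H25.Cp
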