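import Pool.Agent.N536.MW.Conc

/-!
# Concentration for sums of rational numbers from several lists
-/

set_option autoImplicit false

open Finset

namespace Pool.Agent.P8H25.Cp

section Real

/-- The bound for the number of words. -/
def wordBound : List ℕ → ℕ → ℕ
  | [], u => u.choose (u / 2)
  | b :: l, u => (b - 2) * wordBound l u + wordBound l (u + 1)

/-- Means with respect to the binomial distribution. -/
noncomputable def bmean (p : ℝ) (ψ : ℕ → ℝ) : ℕ → ℕ → ℝ
  | 0, u => ψ u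
  | n + 1, u => (1 - p) * bmean p ψ n u + p * bmean p ψ n (u + 1)

lemma bmean_succ (p : ℝ) (ψ : ℕ → ℝ) (n u : ℕ) :
    bmean p ψ (n + 1) u = (1 - p) * bmean p ψ n u + p * bmean p ψ n (u + 1) := rfl

lemma bmean_nonneg {p : ℝ} (h0 : 0 ≤ p) (h1 : p ≤ 1) {ψ : ℕ → ℝ} (hψ : ∀ u, 0 ≤ ψ u) (n : ℕ) :
    ∀ u, 0 ≤ bmean p ψ n u := by
  induction n with
  | zero => exact hψ
  | succ n ih =>
    intro u
    rw [bmean_succ]
    have := ih u
    have := ih (u + 1)
    have : 0 ≤ 1 - p := by linarith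
    positivity

lemma bmean_anti {p : ℝ} (h0 : 0 ≤ p) (h1 : p ≤ 1) {ψ : ℕ → ℝ} (hψ : ∀ u, ψ (u + 1) ≤ ψ u)
    (n : ℕ) : ∀ u, bmean p ψ n (u + 1) ≤ bmean p ψ n u := by
  induction n with
  | zero => exact hψ
  | succ n ih =>
    intro u
    rw [bmean_succ, bmean_succ]
    have h2 := mul_le_mul_of_nonneg_left (ih u) (by linarith : (0 : ℝ) ≤ 1 - p)
    have h3 := mul_le_mul_of_nonneg_left (ih (u + 1)) h0
    linarith

lemma bmean_sq {p : ℝ} (h0 : 0 ≤ p) (h1 : p ≤ 1) {ψ φ : ℕ → ℝ} (h : ∀ u, ψ u ^ 2 ≤ φ u) (n : ℕ) :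
    ∀ u, bmean p ψ n u ^ 2 ≤ bmean p φ n u := by
  induction n with
  | zero => exact h
  | succ n ih =>
    intro u
    rw [bmean_succ, bmean_succ]
    have h2 := ih u
    have h3 := ih (u + 1)
    set a := bmean p ψ n u
    set b := bmean p ψ n (u + 1)
    have h4 : ((1 - p) * a + p * b) ^ 2 ≤ (1 - p) * a ^ 2 + p * b ^ 2 := by
      have : 0 ≤ (1 - p) * p * (a - b) ^ 2 := by
        have : 0 ≤ 1 - p := by linarith
        positivity
      nlinarith
    have h5 := mul_le_mul_of_nonneg_left h2 (by linarith : (0 : ℝ) ≤ 1 - p)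
    have h6 := mul_le_mul_of_nonneg_left h3 h0
    linarith

/-- The mean of `1 / (N + u + 1)`. -/
lemma bmean_inv {p : ℝ} (h0 : 0 ≤ p) (h1 : p ≤ 1) (n : ℕ) : ∀ u : ℕ,
    (n + 1) * p * bmean p (fun u => 1 / ((u : ℝ) + 1)) n u +
      u * bmean p (fun u => 1 / ((u : ℝ) + 1)) (n + 1) (u - 1) ≤ 1 := by
  induction n with
  | zero =>
    intro u
    rcases u with _ | u
    · simp [bmean]
      linarith
    · have e1 : u + 1 - 1 = u := rfl
      rw [e1, bmean_succ]
      simp only [bmean]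
      push_cast
      apply le_of_eq
      field_simp
      ring
  | succ n ih =>
    intro u
    set H := bmean p (fun u => 1 / ((u : ℝ) + 1)) with hH
    have hs : ∀ n u, H (n + 1) u = (1 - p) * H n u + p * H n (u + 1) := fun n u => rfl
    have k1 := mul_le_mul_of_nonneg_left (ih u) (by linarith : (0 : ℝ) ≤ 1 - p)
    have k2 := mul_le_mul_of_nonneg_left (ih (u + 1)) h0
    have e1 : u + 1 - 1 = u := rfl
    rw [e1] at k2
    have k3 : (u : ℝ) * H (n + 1 + 1) (u - 1) =
        u * ((1 - p) * H (n + 1) (u - 1) + p * H (n + 1) u) := by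
      rcases u with _ | u
      · simp
      · rw [hs (n + 1)]
        rfl
    rw [k3]
    have k4 := hs n u
    push_cast at k1 k2 ⊢
    have k5 : (n + 1) * p * H (n + 1) u = (1 - p) * ((n + 1) * p * H n u) +
        p * ((n + 1) * p * H n (u + 1)) := by
      rw [k4]
      ring
    nlinarith

/-- The largest binomial probability. -/
noncomputable def midProb (u : ℕ) : ℝ := (u.choose (u / 2) : ℝ) / 2 ^ u

lemma midProb_sq (u : ℕ) : midProb u ^ 2 ≤ 1 / ((u : ℝ) + 1) := by
  rw [midProb, div_pow, div_le_div_iff₀ (by positivity) (by positivity), one_mul, ← pow_mul,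
    mul_comm u 2, pow_mul]
  have h5 : ((u : ℝ) + 1) * (u.choose (u / 2) : ℝ) ^ 2 ≤ 4 ^ u := by
    exact_mod_cast Pool.Agent.N536.MW.middle_bound u
  norm_num
  linarith

lemma choose_le_two_mul (u : ℕ) : (u + 1).choose ((u + 1) / 2) ≤ 2 * u.choose (u / 2) := by
  rcases Nat.eq_zero_or_pos ((u + 1) / 2) with h | h
  · rw [h, Nat.choose_zero_right]
    have := Nat.choose_pos (Nat.div_le_self u 2)
    omega
  · obtain ⟨m, hm⟩ := Nat.exists_eq_add_of_le' h
    rw [hm, Nat.choose_succ_succ']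
    have h1 := Nat.choose_le_middle m u
    have h2 := Nat.choose_le_middle (m + 1) u
    omega

lemma midProb_anti (u : ℕ) : midProb (u + 1) ≤ midProb u := by
  rw [midProb, midProb, div_le_div_iff₀ (by positivity) (by positivity), pow_succ]
  have h1 : ((u + 1).choose ((u + 1) / 2) : ℝ) ≤ 2 * (u.choose (u / 2) : ℝ) := by
    exact_mod_cast choose_le_two_mul u
  have h2 : (0 : ℝ) < 2 ^ u := by positivity
  nlinarith

lemma midProb_nonneg (u : ℕ) : 0 ≤ midProb u := by rw [midProb]; positivity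

/-- Comparison with the binomial distribution. -/
lemma wordBound_le {B : ℕ} (hB : 2 ≤ B) : ∀ (l : List ℕ), (∀ b ∈ l, 2 ≤ b ∧ b ≤ B) → ∀ u : ℕ,
    (wordBound l u : ℝ) ≤ (l.prod : ℝ) * 2 ^ u * bmean (2 / B) midProb l.length u := by
  have hB' : (2 : ℝ) ≤ B := by exact_mod_cast hB
  have h0 : (0 : ℝ) ≤ 2 / B := by positivity
  have h1 : (2 : ℝ) / B ≤ 1 := by
    rw [div_le_one (by linarith)]
    exact hB'
  intro l
  induction l with
  | nil =>
    intro _ u
    simp only [wordBound, List.prod_nil, List.length_nil, bmean, midProb, Nat.cast_one, one_mul]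
    apply le_of_eq
    field_simp
  | cons b l ih =>
    intro hl u
    have hb := hl b (List.mem_cons_self ..)
    have hl' : ∀ b ∈ l, 2 ≤ b ∧ b ≤ B := fun c hc => hl c (List.mem_cons_of_mem _ hc)
    have k1 := ih hl' u
    have k2 := ih hl' (u + 1)
    have hb2 : (2 : ℝ) ≤ b := by exact_mod_cast hb.1
    have hbB : (b : ℝ) ≤ B := by exact_mod_cast hb.2
    simp only [wordBound, List.prod_cons, List.length_cons, bmean_succ]
    rw [Nat.cast_add, Nat.cast_mul, Nat.cast_sub hb.1, Nat.cast_mul, Nat.cast_ofNat]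
    set G := bmean (2 / B) midProb l.length u with hG
    set G' := bmean (2 / B) midProb l.length (u + 1) with hG'
    have hanti : G' ≤ G := bmean_anti h0 h1 midProb_anti _ _
    have hP : (0 : ℝ) ≤ (l.prod : ℝ) := by positivity
    have hP' : (0 : ℝ) ≤ ((l.prod : ℕ) : ℝ) * 2 ^ u := by positivity
    calc ((b : ℝ) - 2) * (wordBound l u : ℝ) + (wordBound l (u + 1) : ℝ)
        ≤ ((b : ℝ) - 2) * ((l.prod : ℕ) * 2 ^ u * G) + ((l.prod : ℕ) * 2 ^ (u + 1) * G') := by
          exact add_le_add (mul_le_mul_of_nonneg_left k1 (by linarith)) k2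
      _ = ((l.prod : ℕ) * 2 ^ u) * (((b : ℝ) - 2) * G + 2 * G') := by ring
      _ ≤ ((l.prod : ℕ) * 2 ^ u) * (b * ((1 - 2 / B) * G + 2 / B * G')) := by
          apply mul_le_mul_of_nonneg_left _ hP'
          have hBpos : (0 : ℝ) < B := by linarith
          have e1 : (b : ℝ) * ((1 - 2 / B) * G + 2 / B * G') - (((b : ℝ) - 2) * G + 2 * G') =
              (2 * (1 - b / B)) * (G - G') := by
            field_simp
            ring
          have e2 : 0 ≤ 1 - (b : ℝ) / B := by
            rw [sub_nonneg, div_le_one hBpos]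
            exact hbB
          have e3 : 0 ≤ (2 * (1 - (b : ℝ) / B)) * (G - G') :=
            mul_nonneg (by linarith) (by linarith)
          linarith
      _ = (b : ℝ) * (l.prod : ℕ) * 2 ^ u * ((1 - 2 / B) * G + 2 / B * G') := by ring

/-- **The bound.** -/
theorem wordBound_sq {B : ℕ} (hB : 2 ≤ B) (l : List ℕ) (hl : ∀ b ∈ l, 2 ≤ b ∧ b ≤ B) :
    2 * (l.length + 1) * wordBound l 0 ^ 2 ≤ B * l.prod ^ 2 := by
  have hB' : (2 : ℝ) ≤ B := by exact_mod_cast hB
  have hBpos : (0 : ℝ) < B := by linarith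
  have h0 : (0 : ℝ) ≤ 2 / B := by positivity
  have h1 : (2 : ℝ) / B ≤ 1 := by
    rw [div_le_one (by linarith)]
    exact hB'
  have k1 := wordBound_le hB l hl 0
  rw [pow_zero, mul_one] at k1
  have k2 := bmean_sq h0 h1 midProb_sq l.length 0
  have k3 := bmean_inv h0 h1 l.length 0
  simp only [Nat.cast_zero, zero_mul, add_zero] at k3
  set G := bmean (2 / B) midProb l.length 0 with hG
  have k4 : ((l.length : ℝ) + 1) * (2 / B) * G ^ 2 ≤ 1 := by
    refine le_trans ?_ k3
    exact mul_le_mul_of_nonneg_left k2 (by positivity)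
  have hG0 : 0 ≤ G := bmean_nonneg h0 h1 midProb_nonneg _ _
  have k5 : (wordBound l 0 : ℝ) ^ 2 ≤ (l.prod : ℝ) ^ 2 * G ^ 2 := by
    rw [← mul_pow]
    exact pow_le_pow_left₀ (by positivity) k1 2
  have k6 : 2 * ((l.length : ℝ) + 1) * G ^ 2 ≤ B := by
    have e1 : ((l.length : ℝ) + 1) * (2 / B) * G ^ 2 = 2 * ((l.length : ℝ) + 1) * G ^ 2 / B := by
      field_simp
    rw [e1, div_le_one hBpos] at k4
    exact k4
  have k7 : 2 * ((l.length : ℝ) + 1) * (wordBound l 0 : ℝ) ^ 2 ≤ B * (l.prod : ℝ) ^ 2 := by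
    calc 2 * ((l.length : ℝ) + 1) * (wordBound l 0 : ℝ) ^ 2
        ≤ 2 * ((l.length : ℝ) + 1) * ((l.prod : ℝ) ^ 2 * G ^ 2) :=
          mul_le_mul_of_nonneg_left k5 (by positivity)
      _ = (2 * ((l.length : ℝ) + 1) * G ^ 2) * (l.prod : ℝ) ^ 2 := by ring
      _ ≤ B * (l.prod : ℝ) ^ 2 := mul_le_mul_of_nonneg_right k6 (by positivity)
  exact_mod_cast k7

end Real

end Pool.Agent.P8H25.Cp
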