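import Pool.Agent.N536.HK.Defs

/-!
# The pure part of the motive of a variety
-/

open CategoryTheory AlgebraicGeometry Finset

set_option autoImplicit false

universe u v

namespace Pool.Agent.P8H25.Cp

open Pool.Agent.H914 VarClass Obj WeilCohomology Pool.Agent.TH133.PW Pool.Agent.N103.OC Filter

section Alg

variable {K : Type*} {V : Type*} [Field K] [AddCommGroup V] [Module K V]

/-- For every `i` the operator `e i` is an idempotent linear combination of the operators in `S`
which vanishes on `gr j` for all `j ≠ i`. -/
def PureFamily (gr : ℕ → Submodule K V) (S : Set (V →ₗ[K] V)) (e : ℕ → Module.End K V) : Prop :=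
  ∀ i, e i ∈ Submodule.span K S ∧ e i * e i = e i ∧ ∀ j, j ≠ i → ∀ x ∈ gr j, e i x = 0

/-- The numbers `rank e₀ + ... + rank e_(N-1)` for the families `e` as above. -/
def pureRanks (gr : ℕ → Submodule K V) (S : Set (V →ₗ[K] V)) (N : ℕ) : Set ℕ :=
  {r | ∃ e, PureFamily gr S e ∧ r = ∑ i ∈ range N, Module.finrank K (LinearMap.range (e i))}

end Alg

variable {k : Type u} [Field k] {𝒱 : VarClass k} {ops : CycleOps 𝒱}

/-- The dimension of the whole cohomology of `Y`. -/
noncomputable def cohDim (W : WeilCohomology.{u, v} ops) (Y : 𝒱.Obj) : ℕ :=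
  Module.finrank W.K (W.H Y)

/-- The largest number `∑_i rank e_i`, where `e_i` is an idempotent combination, with coefficients in
the coefficient field `K` of the cohomology, of cycles of codimension `dim Y` on `Y × Y`, which is
zero on `H^j(Y)` for all `j ≠ i`: the dimension of the largest direct summand of the motive of `Y`
(for the homological equivalence given by `W`, with coefficients in `K`) which is a direct sum of
pure motives. -/
noncomputable def pureDim (W : WeilCohomology.{u, v} ops) (Y : 𝒱.Obj) : ℕ :=
  sSup (pureRanks (W.gr Y) (cycleOperators W Y Y.dim) (2 * Y.dim + 1))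

/-- All Künneth components of the diagonal of `X` are combinations of classes of algebraic cycles
with coefficients in `K`. -/
def KunnethSpan (W : WeilCohomology.{u, v} ops) (X : 𝒱.Obj) : Prop :=
  ∀ i, ProjectorInSpan (W.gr X) i (cycleOperators W X X.dim)

open Classical in
/-- The dimension of the part of the cohomology of `Z` in the degrees `i` for which the `i`-th Künneth
component of the diagonal is a combination of classes of algebraic cycles with coefficients
in `K`. -/
noncomputable def algebraicPart (W : WeilCohomology.{u, v} ops) (Z : 𝒱.Obj) : ℕ :=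
  ∑ i ∈ (range (2 * Z.dim + 1)).filter
    (fun i => ProjectorInSpan (W.gr Z) i (cycleOperators W Z Z.dim)), W.betti Z i

/-- The product of `Y` with the varieties in a list. -/
noncomputable def prodList (Y : 𝒱.Obj) : List 𝒱.Obj → 𝒱.Obj
  | [] => Y
  | X :: l => prodList (Y.prod X) l

/-- The square of the pure share of the product of any variety `Y` with `n` varieties which violate
the conjecture of type C and have Betti sum at most `B` is at most `B / (2 (n + 1))`. -/
def ProductLaw (W : WeilCohomology.{u, v} ops) : Prop :=
  ∀ (Y : 𝒱.Obj) (l : List 𝒱.Obj) (B : ℕ), 2 ≤ B →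
    (∀ X ∈ l, ¬ KunnethSpan W X ∧ cohDim W X ≤ B) →
    2 * (l.length + 1) * pureDim W (prodList Y l) ^ 2 ≤ B * cohDim W (prodList Y l) ^ 2

/-- The conjecture of type C for `X` is equivalent to a positive pure share of infinitely many of its
powers. -/
def PowerCriterion (W : WeilCohomology.{u, v} ops) : Prop :=
  ∀ X : 𝒱.Obj, KunnethSpan W X ↔
    ∃ δ : ℝ, 0 < δ ∧ ∃ᶠ n in atTop, δ * cohDim W (pw X n) ≤ pureDim W (pw X n)

/-- For `0 < δ ≤ 1` the conjecture of type C for all varieties is equivalent to the pure share `δ` for
all varieties. -/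
def ShareCriterion (W : WeilCohomology.{u, v} ops) : Prop :=
  ∀ δ : ℝ, 0 < δ → δ ≤ 1 →
    ((∀ X : 𝒱.Obj, KunnethSpan W X) ↔ ∀ Z : 𝒱.Obj, δ * cohDim W Z ≤ pureDim W Z)

/-- The conjecture of type C for all varieties follows from the pure share `f(d)` for the varieties of
all large dimensions `d`, if `f(d) √d` tends to infinity. -/
def RateCriterion (W : WeilCohomology.{u, v} ops) : Prop :=
  ∀ f : ℕ → ℝ, Tendsto (fun d : ℕ => f d * √(d : ℝ)) atTop atTop → ∀ d₀ : ℕ,
    (∀ Z : 𝒱.Obj, d₀ ≤ Z.dim → f Z.dim * cohDim W Z ≤ pureDim W Z) →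
    ∀ X : 𝒱.Obj, KunnethSpan W X

/-- If the traces of all cycles on the cohomology groups of `X` are equal to the same rational numbers
for all the theories in a set `𝒲` which contains `W`, the conjecture of type C for `X`, with
coefficients, is equivalent to the existence of cycles with rational coefficients which induce the
Künneth projectors for all the theories in `𝒲`. -/
def RationalForm (W : WeilCohomology.{u, v} ops) : Prop :=
  ∀ 𝒲 : Set (WeilCohomology.{u, v} ops), W ∈ 𝒲 → ∀ X : 𝒱.Obj, SameTracesAll 𝒲 X →
    (KunnethSpan W X ↔ ∀ i, OneProjectorForAll 𝒲 X i)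

end Pool.Agent.P8H25.Cp
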