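import Pool.Agent.P8H25.CpD

/-!
# Words: the number of words with given sum
-/

set_option autoImplicit false

open Finset

namespace Pool.Agent.P8H25.Cp

/-- The multiplicities of the subset sums of `u` positive numbers, translated. -/
def Cub (u : ℕ) (μ : ℚ → ℕ) : Prop :=
  ∃ (t₀ : ℚ) (d : Fin u → ℚ), (∀ k, 0 < d k) ∧
    ∀ t, μ t = (univ.filter fun g : Fin u → Bool => t₀ + ∑ k, (if g k then d k else 0) = t).card

/-- The inequality of Erdős. -/
lemma Cub.le {u : ℕ} {μ : ℚ → ℕ} (h : Cub u μ) (t : ℚ) : μ t ≤ u.choose (u / 2) := by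
  classical
  obtain ⟨t₀, d, hd, hμ⟩ := h
  rw [hμ]
  set S := univ.filter fun g : Fin u → Bool => t₀ + ∑ k, (if g k then d k else 0) = t with hS
  set φ : (Fin u → Bool) → Finset (Fin u) := fun g => univ.filter fun k => g k = true with hφ
  have hinj : Function.Injective φ := by
    intro g g' hgg
    funext k
    have h1 : k ∈ φ g ↔ k ∈ φ g' := by rw [hgg]
    simp only [hφ, mem_filter, mem_univ, true_and] at h1
    rcases hg : g k with _ | _ <;> rcases hg' : g' k with _ | _ <;> simp_all
  have hsum : ∀ g, ∑ k, (if g k then d k else 0) = ∑ k ∈ φ g, d k := by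
    intro g
    rw [hφ, sum_filter]
  have hanti : IsAntichain (· ⊆ ·) (SetLike.coe (S.image φ)) := by
    intro A hA B hB hAB hsub
    rw [SetLike.mem_coe, mem_image] at hA hB
    obtain ⟨g, hg, rfl⟩ := hA
    obtain ⟨g', hg', rfl⟩ := hB
    rw [hS, mem_filter, hsum] at hg hg'
    have h1 : ∑ k ∈ φ g, d k < ∑ k ∈ φ g', d k := by
      obtain ⟨x, hx, hx'⟩ : ∃ x ∈ φ g', x ∉ φ g := by
        by_contra hcon
        push Not at hcon
        exact hAB (Subset.antisymm hsub hcon)
      exact sum_lt_sum_of_subset hsub hx hx' (hd x) fun k _ _ => (hd k).le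
    linarith [hg.2, hg'.2]
  have h1 := hanti.sperner
  rw [card_image_of_injective _ hinj, Fintype.card_fin] at h1
  exact h1

lemma Cub.point (a : ℚ) : Cub 0 fun t => if a = t then 1 else 0 := by
  refine ⟨a, fun k => k.elim0, fun k => k.elim0, fun t => ?_⟩
  by_cases h : a = t
  · simp [h]
  · simp [h]

lemma Cub.shift {u : ℕ} {μ : ℚ → ℕ} (h : Cub u μ) (a : ℚ) : Cub u fun t => μ (t - a) := by
  obtain ⟨t₀, d, hd, hμ⟩ := h
  refine ⟨t₀ + a, d, hd, fun t => ?_⟩
  show μ (t - a) = _
  rw [hμ]
  congr 1
  refine filter_congr fun g _ => ?_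
  constructor
  · intro h
    linarith
  · intro h
    linarith

lemma Cub.step_lt {u : ℕ} {μ : ℚ → ℕ} (h : Cub u μ) {a b : ℚ} (hab : a < b) :
    Cub (u + 1) fun t => μ (t - a) + μ (t - b) := by
  obtain ⟨t₀, d, hd, hμ⟩ := h
  refine ⟨t₀ + a, Fin.cons (b - a) d, ?_, fun t => ?_⟩
  · intro k
    refine Fin.cases ?_ (fun k => ?_) k
    · rw [Fin.cons_zero]
      linarith
    · rw [Fin.cons_succ]
      exact hd k
  · show μ (t - a) + μ (t - b) = _
    rw [hμ, hμ, card_filter, card_filter, card_filter,
      ← (Fin.consEquiv (fun _ : Fin (u + 1) => Bool)).sum_comp, Fintype.sum_prod_type,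
      Fintype.sum_bool, add_comm]
    congr 1
    · refine sum_congr rfl fun g _ => ?_
      refine if_congr ?_ rfl rfl
      rw [Fin.sum_univ_succ]
      simp only [Fin.consEquiv_apply, Fin.cons_zero, Fin.cons_succ, if_true]
      constructor
      · intro h
        linarith
      · intro h
        linarith
    · refine sum_congr rfl fun g _ => ?_
      refine if_congr ?_ rfl rfl
      rw [Fin.sum_univ_succ]
      simp only [Fin.consEquiv_apply, Fin.cons_zero, Fin.cons_succ, Bool.false_eq_true, if_false]
      constructor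
      · intro h
        linarith
      · intro h
        linarith

lemma Cub.step {u : ℕ} {μ : ℚ → ℕ} (h : Cub u μ) {a b : ℚ} (hab : a ≠ b) :
    Cub (u + 1) fun t => μ (t - a) + μ (t - b) := by
  rcases lt_or_gt_of_ne hab with h1 | h1
  · exact h.step_lt h1
  · have h2 := h.step_lt h1
    have e : (fun t => μ (t - a) + μ (t - b)) = fun t => μ (t - b) + μ (t - a) := by
      funext t
      rw [add_comm]
    rw [e]
    exact h2

/-- Convolution with several multisets. -/
def conv : List (Multiset ℚ) → (ℚ → ℕ) → ℚ → ℕ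
  | [], ν, t => ν t
  | m :: L, ν, t => conv L (fun t => (m.map fun a => ν (t - a)).sum) t

lemma conv_zero (L : List (Multiset ℚ)) : ∀ t, conv L (fun _ => 0) t = 0 := by
  induction L with
  | nil => intro t; rfl
  | cons m L ih =>
    intro t
    rw [conv]
    simp only [Multiset.map_const', Multiset.sum_replicate, smul_zero]
    exact ih t

lemma conv_add (L : List (Multiset ℚ)) : ∀ (ν ν' : ℚ → ℕ) (t : ℚ),
    conv L (fun t => ν t + ν' t) t = conv L ν t + conv L ν' t := by
  induction L with
  | nil => intro ν ν' t; rfl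
  | cons m L ih =>
    intro ν ν' t
    rw [conv, conv, conv]
    simp only [Multiset.sum_map_add]
    exact ih _ _ t

lemma conv_sum (L : List (Multiset ℚ)) {α : Type*} (r : Multiset α) (ν : α → ℚ → ℕ) (t : ℚ) :
    conv L (fun t => (r.map fun x => ν x t).sum) t = (r.map fun x => conv L (ν x) t).sum := by
  induction r using Multiset.induction_on with
  | empty => simp only [Multiset.map_zero, Multiset.sum_zero]; exact conv_zero L t
  | cons x r ih =>
    simp only [Multiset.map_cons, Multiset.sum_cons]
    rw [conv_add L (ν x) (fun t => (r.map fun x => ν x t).sum) t, ih]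

/-- The bound for a cube. -/
theorem conv_le (L : List (Multiset ℚ)) (hL : ∀ m ∈ L, ∃ a b r, a ≠ b ∧ m = a ::ₘ b ::ₘ r) :
    ∀ (u : ℕ) (ν : ℚ → ℕ), Cub u ν → ∀ t, conv L ν t ≤ wordBound (L.map Multiset.card) u := by
  induction L with
  | nil => exact fun u ν h t => h.le t
  | cons m L ih =>
    intro u ν hν t
    have ih' := ih fun m hm => hL m (List.mem_cons_of_mem _ hm)
    obtain ⟨a, b, r, hab, rfl⟩ := hL m (List.mem_cons_self ..)
    rw [conv]
    simp only [Multiset.map_cons, Multiset.sum_cons, List.map_cons, Multiset.card_cons, wordBound]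
    have e1 : (fun t => ν (t - a) + (ν (t - b) + (r.map fun x => ν (t - x)).sum)) =
        fun t => (ν (t - a) + ν (t - b)) + (r.map fun x => ν (t - x)).sum := by
      funext t
      rw [add_assoc]
    rw [e1, conv_add L (fun t => ν (t - a) + ν (t - b)) (fun t => (r.map fun x => ν (t - x)).sum),
      conv_sum L r (fun x t => ν (t - x)), add_comm]
    refine add_le_add ?_ (ih' _ _ (hν.step hab) t)
    have e2 : Multiset.card r + 1 + 1 - 2 = Multiset.card r := by omega
    rw [e2]
    have e3 : ∀ s : Multiset ℚ, (s.map fun x => conv L (fun t => ν (t - x)) t).sum ≤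
        Multiset.card s * wordBound (L.map Multiset.card) u := by
      intro s
      induction s using Multiset.induction_on with
      | empty => simp
      | cons x s ihs =>
        rw [Multiset.map_cons, Multiset.sum_cons, Multiset.card_cons, add_mul, one_mul, add_comm]
        exact add_le_add ihs (ih' _ _ (hν.shift x) t)
    exact e3 r

/-- The multiplicities of a family of numbers. -/
def mult {J : Type} [Fintype J] (y : J → ℚ) (t : ℚ) : ℕ := (univ.filter fun s => y s = t).card

lemma mult_prod {J I : Type} [Fintype J] [Fintype I] (y : J → ℚ) (z : I → ℚ) (t : ℚ) :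
    mult (fun s : J × I => y s.1 + z s.2) t =
      (((univ : Finset I).val.map z).map fun a => mult y (t - a)).sum := by
  rw [Multiset.map_map]
  have e1 : ((univ : Finset I).val.map ((fun a => mult y (t - a)) ∘ z)).sum =
      ∑ x, mult y (t - z x) := rfl
  rw [e1, mult, card_filter, Fintype.sum_prod_type_right]
  refine sum_congr rfl fun x _ => ?_
  rw [mult, card_filter]
  refine sum_congr rfl fun s _ => ?_
  refine if_congr ?_ rfl rfl
  simp only
  constructor
  · intro h
    linarith
  · intro h
    linarith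

/-- **The bound for the multiplicities.** -/
theorem conv_mult_le (L : List (Multiset ℚ)) (hL : ∀ m ∈ L, ∃ a b r, a ≠ b ∧ m = a ::ₘ b ::ₘ r)
    {J : Type} [Fintype J] (y : J → ℚ) (t : ℚ) :
    conv L (mult y) t ≤ Fintype.card J * wordBound (L.map Multiset.card) 0 := by
  have e1 : mult y = fun t => ((univ : Finset J).val.map fun s => if y s = t then 1 else 0).sum := by
    funext t
    rw [mult, card_filter]
    rfl
  rw [e1, conv_sum L _ (fun s t => if y s = t then 1 else 0)]
  have e2 : ((univ : Finset J).val.map fun s => conv L (fun t => if y s = t then 1 else 0) t).sum =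
      ∑ s, conv L (fun t => if y s = t then 1 else 0) t := rfl
  rw [e2]
  refine (sum_le_card_nsmul _ _ (wordBound (L.map Multiset.card) 0) fun s _ => ?_).trans (le_of_eq ?_)
  · exact conv_le L hL 0 _ (Cub.point (y s)) t
  · rw [card_univ, smul_eq_mul]

end Pool.Agent.P8H25.Cp
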