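import Pool.Agent.P8H25.CpDefs
import Pool.Agent.P8H25.CpE
import Pool.Agent.P8H25.CpC

/-!
# The law for the pure part
-/

set_option autoImplicit false

open CategoryTheory AlgebraicGeometry Finset TensorProduct Module

universe u v

namespace Pool.Agent.P8H25.Cp

open Pool.Agent.H914 VarClass Obj WeilCohomology Pool.Agent.N190.CB Pool.Agent.N103.OC
  Pool.Agent.TH133.PW Pool.Agent.H447 Pool.Agent.N536.SG

variable {k : Type u} [Field k] {𝒱 : VarClass k} {ops : CycleOps 𝒱}
  {W : WeilCohomology.{u, v} ops} {X Y Z : 𝒱.Obj}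

lemma pureFamily_iff {e : ℕ → Module.End W.K (W.H X)} :
    PureFamily (W.gr X) (cycleOperators W X X.dim) e ↔
      ∀ i, IsPure W X i (e i) ∧ e i * e i = e i := by
  unfold PureFamily IsPure
  rw [span_cycleOperators0]
  exact ⟨fun h i => ⟨⟨(h i).1, (h i).2.2⟩, (h i).2.1⟩, fun h i => ⟨(h i).1.1, (h i).2, (h i).1.2⟩⟩

lemma kunnethSpan_iff : KunnethSpan W X ↔ ∀ i, proj (W.isInternal X) i ∈ KOp W X X 0 := by
  unfold KunnethSpan ProjectorInSpan
  rw [span_cycleOperators0]
  constructor
  · intro h i
    obtain ⟨P, hP, hP'⟩ := h i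
    have : P = proj (W.isInternal X) i := gr_ext (W.isInternal X) fun j a ha => by
      rw [hP' j a ha, isProjector_proj W X i j a ha]
    rwa [← this]
  · exact fun h i => ⟨_, h i, isProjector_proj W X i⟩

/-- The idempotents of a pure family are orthogonal. -/
lemma pure_orth {i j : ℕ} (hij : i ≠ j) {a b : Module.End W.K (W.H X)} (ha : IsPure W X i a)
    (hb : IsPure W X j b) : a * b = 0 := by
  apply gr_ext (W.isInternal X)
  intro m x hx
  rw [Module.End.mul_apply, LinearMap.zero_apply]
  by_cases hm : m = j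
  · subst hm
    exact ha.2 m (Ne.symm hij) _ (kop_gr hb.1 m hx)
  · rw [hb.2 m hm x hx, map_zero]

lemma sum_idem {e : ℕ → Module.End W.K (W.H X)} (he : ∀ i, IsPure W X i (e i) ∧ e i * e i = e i)
    (N : ℕ) : (∑ i ∈ range N, e i) * (∑ i ∈ range N, e i) = ∑ i ∈ range N, e i ∧
      finrank W.K (LinearMap.range (∑ i ∈ range N, e i)) =
        ∑ i ∈ range N, finrank W.K (LinearMap.range (e i)) := by
  have h1 : (∑ i ∈ range N, e i) * (∑ i ∈ range N, e i) = ∑ i ∈ range N, e i := by
    rw [Finset.sum_mul_sum]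
    refine Finset.sum_congr rfl fun a ha => ?_
    rw [Finset.sum_eq_single a]
    · exact (he a).2
    · intro b _ hb
      exact pure_orth (Ne.symm hb) (he a).1 (he b).1
    · intro h
      exact absurd ha h
  refine ⟨h1, ?_⟩
  have h2 := N536.HK.trace_idem h1
  rw [map_sum] at h2
  have h3 : ∑ i ∈ range N, LinearMap.trace W.K (W.H X) (e i) =
      ((∑ i ∈ range N, finrank W.K (LinearMap.range (e i)) : ℕ) : W.K) := by
    push_cast
    exact Finset.sum_congr rfl fun i _ => N536.HK.trace_idem (he i).2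
  rw [h3] at h2
  exact_mod_cast h2.symm

lemma pureRanks_le {r : ℕ} (hr : r ∈ pureRanks (W.gr X) (cycleOperators W X X.dim)
    (2 * X.dim + 1)) : r ≤ cohDim W X := by
  obtain ⟨e, he, rfl⟩ := hr
  rw [pureFamily_iff] at he
  rw [← (sum_idem he _).2]
  exact Submodule.finrank_le _

theorem isGreatest_pure (W : WeilCohomology.{u, v} ops) (X : 𝒱.Obj) :
    IsGreatest (pureRanks (W.gr X) (cycleOperators W X X.dim) (2 * X.dim + 1)) (pureDim W X) := by
  have hne : (pureRanks (W.gr X) (cycleOperators W X X.dim) (2 * X.dim + 1)).Nonempty :=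
    ⟨_, fun _ => 0, fun i => ⟨Submodule.zero_mem _, by simp, fun _ _ _ _ => rfl⟩, rfl⟩
  have hbd : BddAbove (pureRanks (W.gr X) (cycleOperators W X X.dim) (2 * X.dim + 1)) :=
    ⟨_, fun r hr => pureRanks_le hr⟩
  exact ⟨Nat.sSup_mem hne hbd, fun r hr => le_csSup hbd hr⟩

lemma pureDim_le (W : WeilCohomology.{u, v} ops) (X : 𝒱.Obj) : pureDim W X ≤ cohDim W X :=
  pureRanks_le (isGreatest_pure W X).1

lemma pureDim_eq_of_kunneth (h : KunnethSpan W X) : pureDim W X = cohDim W X := by
  refine le_antisymm (pureDim_le W X) ?_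
  apply (isGreatest_pure W X).2
  refine ⟨fun i => proj (W.isInternal X) i, ?_, ?_⟩
  · rw [pureFamily_iff]
    exact fun i => ⟨⟨kunnethSpan_iff.1 h i, fun j hj x hx => proj_ne _ hx hj⟩,
      proj_mul_proj _ _⟩
  · rw [cohDim, finrank_eq_sum (W.isInternal X) W_hbd]
    refine Finset.sum_congr rfl fun i _ => ?_
    rw [range_proj]

lemma kunneth_of_pureDim_eq (h : pureDim W X = cohDim W X) : KunnethSpan W X := by
  obtain ⟨e, he, h1⟩ := (isGreatest_pure W X).1
  rw [pureFamily_iff] at he
  obtain ⟨h2, h3⟩ := sum_idem he (2 * X.dim + 1)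
  rw [← h3, h] at h1
  have h4 : LinearMap.range (∑ i ∈ range (2 * X.dim + 1), e i) = ⊤ :=
    Submodule.eq_top_of_finrank_eq h1.symm
  have h5 : ∑ i ∈ range (2 * X.dim + 1), e i = 1 := by
    apply LinearMap.ext
    intro x
    obtain ⟨y, rfl⟩ : x ∈ LinearMap.range (∑ i ∈ range (2 * X.dim + 1), e i) := by
      rw [h4]; trivial
    rw [← Module.End.mul_apply, h2, Module.End.one_apply]
  rw [kunnethSpan_iff]
  intro i
  by_cases hi : i ∈ range (2 * X.dim + 1)
  · have h6 : proj (W.isInternal X) i = e i := by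
      apply gr_ext (W.isInternal X)
      intro j x hx
      have h7 : (∑ l ∈ range (2 * X.dim + 1), e l) x = x := by rw [h5, Module.End.one_apply]
      by_cases hj : j = i
      · subst hj
        rw [proj_same _ hx]
        rw [LinearMap.sum_apply, Finset.sum_eq_single_of_mem j hi] at h7
        · exact h7.symm
        · intro b _ hb
          exact (he b).1.2 j (Ne.symm hb) x hx
      · rw [proj_ne _ hx hj, (he i).1.2 j hj x hx]
    rw [h6]
    exact (he i).1.1
  · have h6 : proj (W.isInternal X) i = 0 := by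
      rw [mem_range] at hi
      apply gr_ext (W.isInternal X)
      intro j x hx
      by_cases hj : j = i
      · subst hj
        rw [gr_bot_of_lt (by omega), Submodule.mem_bot] at hx
        rw [hx, map_zero, map_zero]
      · rw [proj_ne _ hx hj, LinearMap.zero_apply]
    rw [h6]
    exact Submodule.zero_mem _

lemma cohDim_prodList (W : WeilCohomology.{u, v} ops) : ∀ (l : List 𝒱.Obj) (Y : 𝒱.Obj),
    cohDim W (prodList Y l) = cohDim W Y * (l.map (cohDim W)).prod
  | [], Y => by simp [prodList]
  | X :: l, Y => by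
    have h1 : cohDim W (Y.prod X) = cohDim W Y * cohDim W X := N536.HK.cohDim_prod W Y X
    rw [prodList, cohDim_prodList W l, h1, List.map_cons, List.prod_cons, mul_assoc]

/-- The systems of products with several varieties. -/
theorem exists_sys_prodList {f : W.K → ℚ} (hf : ∀ a b, f (a + b) = f a + f b)
    {J : 𝒱.Obj → Type} {hJ : ∀ X, Fintype (J X)} {y : ∀ X, J X → W.K}
    (hy : ∀ X, @IsSys k _ 𝒱 ops W X (J X) (hJ X) (y X)) :
    ∀ (l : List 𝒱.Obj) (Y : 𝒱.Obj) (I : Type) (_ : Fintype I) (z : I → W.K), IsSys W Y I z →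
      ∃ (T : Type) (_ : Fintype T) (w : T → W.K), IsSys W (prodList Y l) T w ∧
        ∀ t, mult (fun s => f (w s)) t =
          conv (l.map fun X => (univ : Finset (J X)).val.map fun s => f (y X s))
            (mult fun s => f (z s)) t := by
  intro l
  induction l with
  | nil => exact fun Y I _ z hz => ⟨I, inferInstance, z, hz, fun t => rfl⟩
  | cons X l ih =>
    intro Y I _ z hz
    obtain ⟨T, _, w, hw, h1⟩ := ih (Y.prod X) (I × J X) inferInstance _ (hz.prod (hy X))
    refine ⟨T, inferInstance, w, hw, fun t => ?_⟩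
    rw [h1, List.map_cons, conv]
    congr 1
    funext t
    have e1 : (fun s : I × J X => f (z s.1 + y X s.2)) = fun s => f (z s.1) + f (y X s.2) := by
      funext s
      rw [hf]
    rw [e1]
    exact mult_prod (fun s => f (z s)) (fun s => f (y X s)) t

/-- **The law for products.** -/
theorem productLaw (W : WeilCohomology.{u, v} ops) : ProductLaw W := by
  classical
  intro Y l B hB hl
  choose J hJ y hy using fun X : 𝒱.Obj => exists_sys W X
  -- two labels
  have hne : ∀ X ∈ l, ∃ a b : J X, y X a ≠ y X b := by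
    intro X hX
    by_contra hcon
    push Not at hcon
    exact (hl X hX).1 (kunnethSpan_iff.2 ((hy X).proj_mem hcon))
  choose a b hab using fun i : Fin l.length => hne (l.get i) (List.get_mem l i)
  -- a linear form
  obtain ⟨F, hF⟩ := Module.exists_dual_forall_apply_ne_zero (K := ℚ) (M := W.K)
    (fun i : Fin l.length => y (l.get i) (a i) - y (l.get i) (b i))
    (fun i => sub_ne_zero.2 (hab i))
  obtain ⟨T, _, w, hw, h1⟩ := exists_sys_prodList (f := fun x => F x) (fun a b => map_add F a b) hy
    l Y (J Y) (hJ Y) (y Y) (hy Y)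
  have h2 : pureDim W (prodList Y l) ≤ mult (fun s => F (w s)) 0 := by
    obtain ⟨e, he, h3⟩ := (isGreatest_pure W (prodList Y l)).1
    rw [pureFamily_iff] at he
    rw [h3]
    refine (hw.bound (fun i => (he i).1) (fun i => (he i).2) _).trans ?_
    refine Finset.card_le_card fun s hs => ?_
    rw [Finset.mem_filter] at hs ⊢
    refine ⟨hs.1, ?_⟩
    show F (w s) = 0
    rw [hs.2, map_zero]
  rw [h1] at h2
  set L := l.map fun X => (univ : Finset (J X)).val.map fun s => F (y X s) with hL
  have h3 : ∀ m ∈ L, ∃ a b r, a ≠ b ∧ m = a ::ₘ b ::ₘ r := by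
    intro m hm
    rw [hL, List.mem_map] at hm
    obtain ⟨X, hX, rfl⟩ := hm
    obtain ⟨i, rfl⟩ := List.get_of_mem hX
    refine ⟨F (y _ (a i)), F (y _ (b i)),
      (((univ : Finset (J (l.get i))).val.erase (a i)).erase (b i)).map fun s => F (y _ s), ?_, ?_⟩
    · intro h
      apply hF i
      rw [map_sub, h, sub_self]
    · have hba : b i ∈ ((univ : Finset (J (l.get i))).val.erase (a i)) := by
        rw [Multiset.mem_erase_of_ne]
        · exact Finset.mem_univ _
        · intro h
          exact hab i (by rw [h])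
      have e1 : (univ : Finset (J (l.get i))).val = a i ::ₘ b i ::ₘ
          (((univ : Finset (J (l.get i))).val.erase (a i)).erase (b i)) := by
        rw [Multiset.cons_erase hba, Multiset.cons_erase (Finset.mem_univ (a i))]
      conv_lhs => rw [e1]
      rw [Multiset.map_cons, Multiset.map_cons]
  have h4 := h2.trans (conv_mult_le L h3 (fun s => F (y Y s)) 0)
  have h5 : L.map Multiset.card = l.map (cohDim W) := by
    rw [hL, List.map_map]
    refine List.map_congr_left fun X _ => ?_
    have h6 := (hy X).card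
    rw [Function.comp_apply, Multiset.card_map]
    exact h6
  rw [h5, (hy Y).card] at h4
  have h6 : ∀ c ∈ l.map (cohDim W), 2 ≤ c ∧ c ≤ B := by
    intro c hc
    rw [List.mem_map] at hc
    obtain ⟨X, hX, rfl⟩ := hc
    refine ⟨?_, (hl X hX).2⟩
    obtain ⟨s, t, hst⟩ := hne X hX
    have h7 : 1 < Fintype.card (J X) := Fintype.one_lt_card_iff.2 ⟨s, t, fun h => hst (by rw [h])⟩
    rw [(hy X).card] at h7
    exact h7
  have h7 := wordBound_sq hB (l.map (cohDim W)) h6
  rw [List.length_map] at h7
  rw [cohDim_prodList]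
  set b := cohDim W Y with hb
  have hb' : N536.HK.cohDim W Y = b := rfl
  rw [hb'] at h4
  set P := (l.map (cohDim W)).prod
  set w0 := wordBound (l.map (cohDim W)) 0
  calc 2 * (l.length + 1) * pureDim W (prodList Y l) ^ 2
      ≤ 2 * (l.length + 1) * (b * w0) ^ 2 :=
        Nat.mul_le_mul_left _ (Nat.pow_le_pow_left h4 2)
    _ = b ^ 2 * (2 * (l.length + 1) * w0 ^ 2) := by ring
    _ ≤ b ^ 2 * (B * P ^ 2) := Nat.mul_le_mul_left _ h7
    _ = B * (b * P) ^ 2 := by ring

end Pool.Agent.P8H25.Cp
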