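import Pool.Agent.P8H25.CpF

/-!
# Consequences of the law for the pure part
-/

set_option autoImplicit false

open CategoryTheory AlgebraicGeometry Finset TensorProduct Module

universe u v

namespace Pool.Agent.P8H25.Cp

open Pool.Agent.H914 VarClass Obj WeilCohomology Pool.Agent.N190.CB Pool.Agent.N103.OC
  Pool.Agent.TH133.PW Pool.Agent.H447 Pool.Agent.N536.SG

variable {k : Type u} [Field k] {𝒱 : VarClass k} {ops : CycleOps 𝒱}
  {W : WeilCohomology.{u, v} ops} {X Y Z : 𝒱.Obj}

lemma two_le_cohDim (h : ¬ KunnethSpan W X) : 2 ≤ cohDim W X := by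
  obtain ⟨J, _, y, hy⟩ := exists_sys W X
  have hne : ∃ a b : J, y a ≠ y b := by
    by_contra hcon
    push Not at hcon
    exact h (kunnethSpan_iff.2 (hy.proj_mem hcon))
  obtain ⟨s, t, hst⟩ := hne
  have h7 : 1 < Fintype.card J := Fintype.one_lt_card_iff.2 ⟨s, t, fun h => hst (by rw [h])⟩
  rw [hy.card] at h7
  exact h7

lemma prodList_pw (X : 𝒱.Obj) : ∀ n m : ℕ,
    prodList (pw X (m + 1)) (List.replicate n X) = pw X (m + 1 + n)
  | 0, m => rfl
  | n + 1, m => by
    have h1 : (pw X (m + 1)).prod X = pw X (m + 1 + 1) := rfl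
    rw [List.replicate_succ, prodList, h1, prodList_pw X n (m + 1)]
    congr 1
    ring

/-- **The law for powers.** -/
theorem powerLaw (h : ¬ KunnethSpan W X) (n : ℕ) :
    2 * (n + 1) * pureDim W (pw X (n + 1)) ^ 2 ≤ cohDim W X * cohDim W (pw X (n + 1)) ^ 2 := by
  have h1 := productLaw W X (List.replicate n X) (cohDim W X) (two_le_cohDim h) (by
    intro Y hY
    rw [List.eq_of_mem_replicate hY]
    exact ⟨h, le_rfl⟩)
  rw [List.length_replicate] at h1
  have h2 := prodList_pw X n 0
  have h3 : pw X (0 + 1) = X := rfl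
  rw [h3, add_comm (0 + 1) n, zero_add] at h2
  rwa [h2] at h1

lemma kunneth_pw (h : KunnethSpan W X) (n : ℕ) : KunnethSpan W (pw X n) := by
  rcases n with _ | n
  · exact h
  · exact kunnethSpan_iff.2 ((kop_class W).pw_proj (kunnethSpan_iff.1 h) n)

lemma cohDim_pos (h : ¬ KunnethSpan W X) (n : ℕ) : 0 < cohDim W (pw X (n + 1)) := by
  have h1 : cohDim W (pw X (n + 1)) = cohDim W X ^ (n + 1) := N536.HK.cohDim_pw W X n
  rw [h1]
  have := two_le_cohDim h
  positivity

open Filter

lemma share_bound (h : ¬ KunnethSpan W X) {n : ℕ} {δ : ℝ} (h0 : 0 ≤ δ)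
    (hδ : δ * cohDim W (pw X (n + 1)) ≤ pureDim W (pw X (n + 1))) :
    2 * ((n : ℝ) + 1) * δ ^ 2 ≤ cohDim W X := by
  have h1 := powerLaw h n
  have h2 : 2 * ((n : ℝ) + 1) * (pureDim W (pw X (n + 1)) : ℝ) ^ 2 ≤
      cohDim W X * (cohDim W (pw X (n + 1)) : ℝ) ^ 2 := by exact_mod_cast h1
  have h3 : (0 : ℝ) < cohDim W (pw X (n + 1)) := by exact_mod_cast cohDim_pos h n
  have h4 : (δ * cohDim W (pw X (n + 1))) ^ 2 ≤ (pureDim W (pw X (n + 1)) : ℝ) ^ 2 :=
    pow_le_pow_left₀ (by positivity) hδ 2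
  have h5 : (2 * ((n : ℝ) + 1) * δ ^ 2) * (cohDim W (pw X (n + 1)) : ℝ) ^ 2 ≤
      cohDim W X * (cohDim W (pw X (n + 1)) : ℝ) ^ 2 := by
    calc (2 * ((n : ℝ) + 1) * δ ^ 2) * (cohDim W (pw X (n + 1)) : ℝ) ^ 2
        = 2 * ((n : ℝ) + 1) * (δ * cohDim W (pw X (n + 1))) ^ 2 := by ring
      _ ≤ 2 * ((n : ℝ) + 1) * (pureDim W (pw X (n + 1)) : ℝ) ^ 2 :=
          mul_le_mul_of_nonneg_left h4 (by positivity)
      _ ≤ _ := h2
  exact le_of_mul_le_mul_right h5 (by positivity)

/-- **The criterion for one variety.** -/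
theorem powerCriterion (W : WeilCohomology.{u, v} ops) : PowerCriterion W := by
  intro X
  constructor
  · intro h
    refine ⟨1, one_pos, Frequently.of_forall fun n => ?_⟩
    rw [one_mul, pureDim_eq_of_kunneth (kunneth_pw h n)]
  · rintro ⟨δ, hδ, hf⟩
    by_contra h
    obtain ⟨N, hN⟩ := exists_nat_gt ((cohDim W X : ℝ) / (2 * δ ^ 2))
    obtain ⟨n, hn, h1⟩ := (frequently_atTop.1 hf) (N + 1)
    obtain ⟨m, rfl⟩ := Nat.exists_eq_add_of_le' (show 1 ≤ n by omega)
    have h2 := share_bound h hδ.le h1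
    have h3 : (N : ℝ) ≤ m := by
      have : N ≤ m := by omega
      exact_mod_cast this
    rw [div_lt_iff₀ (by positivity)] at hN
    have h4 : (0 : ℝ) < δ ^ 2 := by positivity
    nlinarith

/-- **The criterion for all varieties.** -/
theorem shareCriterion (W : WeilCohomology.{u, v} ops) : ShareCriterion W := by
  intro δ h0 h1
  constructor
  · intro h Z
    rw [pureDim_eq_of_kunneth (h Z)]
    have : (0 : ℝ) ≤ cohDim W Z := by positivity
    nlinarith
  · intro h X
    exact (powerCriterion W X).2 ⟨δ, h0, Frequently.of_forall fun n => h _⟩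

lemma kunneth_of_dim_zero (h : X.dim = 0) : KunnethSpan W X := by
  rw [kunnethSpan_iff]
  intro i
  have hbot : ∀ j, 0 < j → W.gr X j = ⊥ := fun j hj => gr_bot_of_lt (by omega)
  rcases Nat.eq_zero_or_pos i with rfl | hi
  · have h1 : proj (W.isInternal X) 0 = 1 := by
      apply gr_ext (W.isInternal X)
      intro j x hx
      rcases Nat.eq_zero_or_pos j with rfl | hj
      · rw [proj_same _ hx, Module.End.one_apply]
      · rw [hbot j hj, Submodule.mem_bot] at hx
        rw [hx, map_zero, map_zero]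
    rw [h1]
    exact KOp.id X
  · have h1 : proj (W.isInternal X) i = 0 := proj_zero_of_bot (hbot i hi)
    rw [h1]
    exact Submodule.zero_mem _

/-- The degrees with algebraic Künneth components. -/
theorem algebraicPart_le (W : WeilCohomology.{u, v} ops) (Z : 𝒱.Obj) :
    algebraicPart W Z ≤ pureDim W Z := by
  classical
  set P : ℕ → Prop := fun i => ProjectorInSpan (W.gr Z) i (cycleOperators W Z Z.dim) with hP
  have hmem : ∀ i, P i → proj (W.isInternal Z) i ∈ KOp W Z Z 0 := by
    rintro i ⟨Q, hQ, hQ'⟩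
    rw [span_cycleOperators0] at hQ
    have : Q = proj (W.isInternal Z) i := gr_ext (W.isInternal Z) fun j a ha => by
      rw [hQ' j a ha, isProjector_proj W Z i j a ha]
    rwa [← this]
  apply (isGreatest_pure W Z).2
  refine ⟨fun i => if P i then proj (W.isInternal Z) i else 0, ?_, ?_⟩
  · rw [pureFamily_iff]
    intro i
    by_cases hi : P i
    · simp only [if_pos hi]
      exact ⟨⟨hmem i hi, fun j hj x hx => proj_ne _ hx hj⟩, proj_mul_proj _ _⟩
    · simp only [if_neg hi]
      exact ⟨⟨Submodule.zero_mem _, fun _ _ _ _ => rfl⟩, by simp⟩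
  · unfold algebraicPart
    rw [Finset.sum_filter]
    refine Finset.sum_congr rfl fun i _ => ?_
    have hgoal : (if ProjectorInSpan (W.gr Z) i (cycleOperators W Z Z.dim) then W.betti Z i else 0) =
        finrank W.K (LinearMap.range (if P i then proj (W.isInternal Z) i else 0)) := by
      by_cases hi : P i
      · have hi' : ProjectorInSpan (W.gr Z) i (cycleOperators W Z Z.dim) := hi
        have e1 : (if P i then proj (W.isInternal Z) i else 0) = proj (W.isInternal Z) i :=
          if_pos hi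
        rw [if_pos hi', e1, range_proj]
        rfl
      · have hi' : ¬ ProjectorInSpan (W.gr Z) i (cycleOperators W Z Z.dim) := hi
        have e1 : (if P i then proj (W.isInternal Z) i else 0) = 0 := if_neg hi
        rw [if_neg hi', e1, LinearMap.range_zero, finrank_bot]
    exact hgoal

/-- **The conjecture with rational coefficients.** -/
theorem rationalForm (W : WeilCohomology.{u, v} ops) : RationalForm W := by
  intro 𝒲 hW X hX
  constructor
  · exact fun h i => oneProjector_of_span hX hW (h i)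
  · intro h i
    obtain ⟨P, hP, h1⟩ := h i
    exact ⟨_, Submodule.subset_span ⟨P, hP, rfl⟩, h1 W hW⟩

/-- **The criterion with a rate.** -/
theorem rateCriterion (W : WeilCohomology.{u, v} ops) : RateCriterion W := by
  intro f hf d₀ hZ X
  by_contra h
  have hd : 0 < X.dim := by
    rw [Nat.pos_iff_ne_zero]
    intro h0
    exact h (kunneth_of_dim_zero h0)
  set C : ℝ := √((cohDim W X : ℝ) * X.dim / 2) with hC
  obtain ⟨N, hN⟩ := eventually_atTop.1 (hf.eventually_gt_atTop C)
  have hC0 : 0 ≤ C := Real.sqrt_nonneg _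
  set n := N + d₀ with hn
  have hdim : (pw X (n + 1)).dim = (n + 1) * X.dim := pw_dim X n
  have h1 : N ≤ (n + 1) * X.dim := by nlinarith
  have h2 : d₀ ≤ (n + 1) * X.dim := by nlinarith
  have h3 := hN _ h1
  have h4 := hZ (pw X (n + 1)) (by rw [hdim]; exact h2)
  rw [hdim] at h4
  have hs : 0 < √(((n + 1) * X.dim : ℕ) : ℝ) := by
    apply Real.sqrt_pos.2
    have : 0 < (n + 1) * X.dim := by positivity
    exact_mod_cast this
  have hf0 : 0 ≤ f ((n + 1) * X.dim) := by
    by_contra hcon
    push Not at hcon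
    have : f ((n + 1) * X.dim) * √(((n + 1) * X.dim : ℕ) : ℝ) < 0 := mul_neg_of_neg_of_pos hcon hs
    linarith
  have h5 := share_bound h hf0 h4
  have h6 : C ^ 2 < (f ((n + 1) * X.dim) * √(((n + 1) * X.dim : ℕ) : ℝ)) ^ 2 :=
    pow_lt_pow_left₀ h3 hC0 (by norm_num)
  rw [hC, Real.sq_sqrt (by positivity), mul_pow, Real.sq_sqrt (by positivity)] at h6
  push_cast at h6
  have h7 : (0 : ℝ) < X.dim := by exact_mod_cast hd
  have h8 : (2 * ((n : ℝ) + 1) * f ((n + 1) * X.dim) ^ 2) * X.dim ≤ cohDim W X * X.dim :=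
    mul_le_mul_of_nonneg_right h5 h7.le
  nlinarith

end Pool.Agent.P8H25.Cp
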