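import Pool.Agent.N64.AF.W

/-!
# Numerical equality and purely even morphisms
-/

set_option autoImplicit false
set_option linter.unusedSectionVars false

open CategoryTheory Limits MonoidalCategory Module
open Pool.Agent.Y112.SR Pool.Agent.Y112.KD Pool.Agent.N64.AF
open Pool.Agent.Y116.MT (tr)
open Pool.Agent.N64.AF.A1aux

namespace Pool.Agent.P8H25.Sp

universe v u w

variable {C : Type u} [Category.{v} C] [Preadditive C] [MonoidalCategory C]
  [MonoidalPreadditive C] [SymmetricCategory C] [RightRigidCategory C]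
  {K : Type w} [Field K] [CharZero K] [Linear K C] [MonoidalLinear K C]
  {R : SuperRealisation C K}

/-- The realisation is faithful and `K`-linear, and the endomorphisms of the unit are the scalars. -/
structure Nice (R : SuperRealisation C K) : Prop where
  real : IsReal K R
  faith : ∀ {X Y : C} (f g : X ⟶ Y), R.H.map f = R.H.map g → f = g

section Basic

/-- The realisation of a morphism, as a linear map. -/
noncomputable abbrev mp (R : SuperRealisation C K) {X Y : C} (f : X ⟶ Y) :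
    R.H.obj X →ₗ[K] R.H.obj Y := (R.H.map f).hom

/-- The involution, as a linear map. -/
noncomputable abbrev pr (R : SuperRealisation C K) (X : C) :
    R.H.obj X →ₗ[K] R.H.obj X := (R.par X).hom

lemma mp_comp {X Y Z : C} (f : X ⟶ Y) (g : Y ⟶ Z) : mp R (f ≫ g) = mp R g ∘ₗ mp R f := by
  rw [mp, Functor.map_comp, ModuleCat.hom_comp]

lemma mp_id (X : C) : mp R (𝟙 X) = LinearMap.id := by
  rw [mp, CategoryTheory.Functor.map_id, ModuleCat.hom_id]

lemma mp_add {X Y : C} (f g : X ⟶ Y) : mp R (f + g) = mp R f + mp R g := by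
  rw [mp, Functor.map_add, ModuleCat.hom_add]

lemma mp_sub {X Y : C} (f g : X ⟶ Y) : mp R (f - g) = mp R f - mp R g := by
  rw [mp, Functor.map_sub, ModuleCat.hom_sub]

lemma mp_zero (X Y : C) : mp R (0 : X ⟶ Y) = 0 := by
  rw [mp, Functor.map_zero, ModuleCat.hom_zero]

lemma mp_smul (hR : Nice R) {X Y : C} (c : K) (f : X ⟶ Y) : mp R (c • f) = c • mp R f := by
  rw [mp, hR.real.lin, Algebra.algebraMap_self, RingHom.id_apply, ModuleCat.hom_smul]

lemma pr_pr (X : C) : pr R X ∘ₗ pr R X = LinearMap.id := by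
  have h := congrArg ModuleCat.Hom.hom (R.par_sq X)
  exact h

lemma mp_pr {X Y : C} (f : X ⟶ Y) : pr R Y ∘ₗ mp R f = mp R f ∘ₗ pr R X := by
  have h := congrArg ModuleCat.Hom.hom (R.par_natural f)
  exact h

lemma st_eq' {X : C} (f : X ⟶ X) : st R f = LinearMap.trace K _ (pr R X ∘ₗ mp R f) := rfl

lemma st_add {X : C} (f g : X ⟶ X) : st R (f + g) = st R f + st R g := by
  rw [st_eq', st_eq', st_eq', mp_add, LinearMap.comp_add, map_add]

lemma st_sub {X : C} (f g : X ⟶ X) : st R (f - g) = st R f - st R g := by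
  rw [st_eq', st_eq', st_eq', mp_sub, LinearMap.comp_sub, map_sub]

lemma st_zero (X : C) : st R (0 : X ⟶ X) = 0 := by
  rw [st_eq', mp_zero, LinearMap.comp_zero, map_zero]

lemma st_smul (hR : Nice R) {X : C} (c : K) (f : X ⟶ X) : st R (c • f) = c * st R f := by
  rw [st_eq', st_eq', mp_smul hR, LinearMap.comp_smul, map_smul, smul_eq_mul]

/-- The supertrace as a linear map. -/
noncomputable def stL (hR : Nice R) (X : C) : (X ⟶ X) →ₗ[K] K where
  toFun f := st R f
  map_add' f g := st_add f g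
  map_smul' c f := by rw [st_smul hR, smul_eq_mul, RingHom.id_apply]

lemma st_sum (hR : Nice R) {X : C} {ι : Type*} (s : Finset ι) (f : ι → (X ⟶ X)) :
    st R (∑ i ∈ s, f i) = ∑ i ∈ s, st R (f i) :=
  map_sum (stL hR X) f s

lemma st_comm' (hR : Nice R) {X Y : C} (a : X ⟶ Y) (b : Y ⟶ X) :
    st R (a ≫ b) = st R (b ≫ a) := st_comm hR.real a b

end Basic

section Num

/-- Numerical equality of morphisms. -/
def Q (R : SuperRealisation C K) {X Y : C} (f g : X ⟶ Y) : Prop :=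
  ∀ h : Y ⟶ X, st R (f ≫ h) = st R (g ≫ h)

lemma Q.refl {X Y : C} (f : X ⟶ Y) : Q R f f := fun _ => rfl

lemma Q.of_eq {X Y : C} {f g : X ⟶ Y} (h : f = g) : Q R f g := h ▸ Q.refl f

lemma Q.symm {X Y : C} {f g : X ⟶ Y} (h : Q R f g) : Q R g f := fun k => (h k).symm

lemma Q.trans {X Y : C} {f g k : X ⟶ Y} (h : Q R f g) (h' : Q R g k) : Q R f k :=
  fun l => (h l).trans (h' l)

lemma Q.ste {X : C} {f g : X ⟶ X} (h : Q R f g) : st R f = st R g := by
  have h1 := h (𝟙 X)
  rwa [Category.comp_id, Category.comp_id] at h1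

lemma Q.right {X Y Z : C} {f f' : X ⟶ Y} (h : Q R f f') (g : Y ⟶ Z) : Q R (f ≫ g) (f' ≫ g) := by
  intro k
  rw [Category.assoc, Category.assoc]
  exact h (g ≫ k)

lemma Q.left (hR : Nice R) {X Y Z : C} {g g' : Y ⟶ Z} (h : Q R g g') (f : X ⟶ Y) :
    Q R (f ≫ g) (f ≫ g') := by
  intro k
  rw [Category.assoc, Category.assoc, st_comm' hR, st_comm' hR f, Category.assoc, Category.assoc]
  exact h (k ≫ f)

lemma Q.comp (hR : Nice R) {X Y Z : C} {f f' : X ⟶ Y} {g g' : Y ⟶ Z} (h : Q R f f')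
    (h' : Q R g g') : Q R (f ≫ g) (f' ≫ g') :=
  (h.right g).trans (h'.left hR f')

lemma Q.add {X Y : C} {f f' g g' : X ⟶ Y} (h : Q R f f') (h' : Q R g g') :
    Q R (f + g) (f' + g') := by
  intro k
  rw [Preadditive.add_comp, Preadditive.add_comp, st_add, st_add, h k, h' k]

lemma Q.sub {X Y : C} {f f' g g' : X ⟶ Y} (h : Q R f f') (h' : Q R g g') :
    Q R (f - g) (f' - g') := by
  intro k
  rw [Preadditive.sub_comp, Preadditive.sub_comp, st_sub, st_sub, h k, h' k]

lemma Q.smul (hR : Nice R) {X Y : C} {f f' : X ⟶ Y} (h : Q R f f') (c : K) :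
    Q R (c • f) (c • f') := by
  intro k
  rw [Linear.smul_comp, Linear.smul_comp, st_smul hR, st_smul hR, h k]

lemma Q.sum (hR : Nice R) {X Y : C} {ι : Type*} {s : Finset ι} {f g : ι → (X ⟶ Y)}
    (h : ∀ i ∈ s, Q R (f i) (g i)) : Q R (∑ i ∈ s, f i) (∑ i ∈ s, g i) := by
  intro k
  rw [Preadditive.sum_comp, Preadditive.sum_comp, st_sum hR, st_sum hR]
  exact Finset.sum_congr rfl fun i hi => h i hi k

lemma Q_iff (hR : Nice R) {X Y : C} {f g : X ⟶ Y} : Q R f g ↔ NumTriv (f - g) := by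
  constructor
  · intro h k
    rw [tr_eq_zero_iff hR.real]
    change st R ((f - g) ≫ k) = 0
    rw [Preadditive.sub_comp, st_sub, h k, sub_self]
  · intro h k
    have h1 := (tr_eq_zero_iff hR.real _).1 (h k)
    change st R ((f - g) ≫ k) = 0 at h1
    rw [Preadditive.sub_comp, st_sub] at h1
    exact sub_eq_zero.1 h1

lemma subR {X Y : C} (f g : X ⟶ Y) (Z : C) : (f - g) ▷ Z = f ▷ Z - g ▷ Z := by
  have h : (f - g) ▷ Z + g ▷ Z = f ▷ Z := by
    rw [← MonoidalPreadditive.add_whiskerRight, sub_add_cancel]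
  exact eq_sub_of_add_eq h

lemma subL {X Y : C} (f g : X ⟶ Y) (Z : C) : Z ◁ (f - g) = Z ◁ f - Z ◁ g := by
  have h : Z ◁ (f - g) + Z ◁ g = Z ◁ f := by
    rw [← MonoidalPreadditive.whiskerLeft_add, sub_add_cancel]
  exact eq_sub_of_add_eq h

lemma Q.wr (hR : Nice R) {X Y : C} {f g : X ⟶ Y} (h : Q R f g) (Z : C) :
    Q R (f ▷ Z) (g ▷ Z) := by
  rw [Q_iff hR] at h ⊢
  rw [← subR]
  exact h.whiskerRight hR.real Z

lemma Q.wl (hR : Nice R) {X Y : C} {f g : X ⟶ Y} (h : Q R f g) (Z : C) :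
    Q R (Z ◁ f) (Z ◁ g) := by
  rw [Q_iff hR] at h ⊢
  rw [← subL]
  exact h.whiskerLeft hR.real Z

lemma Q.tensor (hR : Nice R) {X Y X' Y' : C} {f f' : X ⟶ Y} {g g' : X' ⟶ Y'} (h : Q R f f')
    (h' : Q R g g') : Q R (f ⊗ₘ g) (f' ⊗ₘ g') := by
  rw [MonoidalCategory.tensorHom_def, MonoidalCategory.tensorHom_def]
  exact (h.wr hR X').comp hR (h'.wl hR Y)

lemma Q.zero_right {X Y Z : C} {f : X ⟶ Y} (h : Q R f 0) (g : Y ⟶ Z) : Q R (f ≫ g) 0 := by
  have h1 := h.right g
  rwa [zero_comp] at h1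

lemma Q.zero_left (hR : Nice R) {X Y Z : C} {g : Y ⟶ Z} (h : Q R g 0) (f : X ⟶ Y) :
    Q R (f ≫ g) 0 := by
  have h1 := h.left hR f
  rwa [comp_zero] at h1

end Num

end Pool.Agent.P8H25.Sp
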