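import Pool.Agent.P8H25.SpA

/-!
# Purely even idempotents
-/

set_option autoImplicit false
set_option linter.unusedSectionVars false

open CategoryTheory Limits MonoidalCategory Module
open Pool.Agent.Y112.SR Pool.Agent.Y112.KD Pool.Agent.N64.AF
open Pool.Agent.Y116.MT (tr)
open Pool.Agent.N64.AF.A1aux

namespace Pool.Agent.P8H25.Sp

universe v u w

variable {C : Type u} [Category.{v} C] [Preadditive C] [MonoidalCategory C]
  [MonoidalPreadditive C] [SymmetricCategory C] [RightRigidCategory C]
  {K : Type w} [Field K] [CharZero K] [Linear K C] [MonoidalLinear K C]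
  {R : SuperRealisation C K}

/-- The rank of the realisation. -/
noncomputable def rk (R : SuperRealisation C K) {X : C} (f : X ⟶ X) : ℕ :=
  finrank K (LinearMap.range (mp R f))

/-- The realisation of the morphism vanishes on the odd part. -/
def PE (R : SuperRealisation C K) {X Y : C} (f : X ⟶ Y) : Prop := mp R f ∘ₗ pr R X = mp R f

/-- The realisation of the morphism vanishes on the even part. -/
def PO (R : SuperRealisation C K) {X Y : C} (f : X ⟶ Y) : Prop := mp R f ∘ₗ pr R X = - mp R f

section Idem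

lemma trace_idem' {X : C} {e : X ⟶ X} (he : e ≫ e = e) :
    LinearMap.trace K _ (mp R e) = (rk R e : K) := by
  have := R.finite X
  have h1 : IsIdempotentElem (mp R e) := by
    change mp R e ∘ₗ mp R e = mp R e
    rw [← mp_comp, he]
  exact (LinearMap.IsIdempotentElem.isProj_range _ h1).trace

/-- The even and the odd rank of an idempotent. -/
lemma idem_split (hR : Nice R) {X : C} {e : X ⟶ X} (he : e ≫ e = e) :
    ∃ p q : ℕ, st R e = (p : K) - q ∧ rk R e = p + q ∧ (q = 0 → PE R e) ∧ (p = 0 → PO R e) := by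
  have := R.finite X
  have h2 : (2 : K) ≠ 0 := two_ne_zero
  set A : Module.End K (R.H.obj X) := mp R e with hA
  set P : Module.End K (R.H.obj X) := pr R X with hP
  have hPP : P * P = 1 := pr_pr X
  have hc : P * A = A * P := mp_pr e
  have hAA : A * A = A := by
    change mp R e ∘ₗ mp R e = mp R e
    rw [← mp_comp, he]
  set E : Module.End K (R.H.obj X) := (2 : K)⁻¹ • (A + A * P) with hE
  set F : Module.End K (R.H.obj X) := (2 : K)⁻¹ • (A - A * P) with hF
  have e1 : A * P * A = A * P := by rw [mul_assoc, hc, ← mul_assoc, hAA]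
  have e2 : A * P * (A * P) = A := by
    rw [← mul_assoc, e1, mul_assoc, hPP, mul_one]
  have e3 : A * (A * P) = A * P := by rw [← mul_assoc, hAA]
  have hEE : E * E = E := by
    rw [hE, smul_mul_smul_comm, add_mul, mul_add, mul_add, hAA, e1, e2, e3]
    have : A + A * P + (A * P + A) = (2 : K) • (A + A * P) := by rw [two_smul]; abel
    rw [this, smul_smul, mul_assoc, inv_mul_cancel₀ h2, mul_one]
  have hFF : F * F = F := by
    rw [hF, smul_mul_smul_comm, sub_mul, mul_sub, mul_sub, hAA, e1, e2, e3]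
    have : A - A * P - (A * P - A) = (2 : K) • (A - A * P) := by rw [two_smul]; abel
    rw [this, smul_smul, mul_assoc, inv_mul_cancel₀ h2, mul_one]
  have hEF : E + F = A := by
    rw [hE, hF, ← smul_add]
    have : A + A * P + (A - A * P) = (2 : K) • A := by rw [two_smul]; abel
    rw [this, smul_smul, inv_mul_cancel₀ h2, one_smul]
  have hEF' : E - F = A * P := by
    rw [hE, hF, ← smul_sub]
    have : A + A * P - (A - A * P) = (2 : K) • (A * P) := by rw [two_smul]; abel
    rw [this, smul_smul, inv_mul_cancel₀ h2, one_smul]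
  have tE := (LinearMap.IsIdempotentElem.isProj_range E hEE).trace
  have tF := (LinearMap.IsIdempotentElem.isProj_range F hFF).trace
  refine ⟨finrank K (LinearMap.range E), finrank K (LinearMap.range F), ?_, ?_, ?_, ?_⟩
  · rw [← tE, ← tF, ← map_sub, hEF', st_eq']
    change LinearMap.trace K _ (P * A) = _
    rw [hc]
  · have h3 := trace_idem' (R := R) he
    change LinearMap.trace K _ A = _ at h3
    rw [← hEF, map_add, tE, tF] at h3
    exact_mod_cast h3.symm
  · intro hq
    have h3 : F = 0 := LinearMap.range_eq_bot.1 (Submodule.finrank_eq_zero.1 hq)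
    change A * P = A
    rw [← hEF', ← hEF, h3, sub_zero, add_zero]
  · intro hp
    have h3 : E = 0 := LinearMap.range_eq_bot.1 (Submodule.finrank_eq_zero.1 hp)
    change A * P = - A
    rw [← hEF', ← hEF, h3, zero_sub, zero_add]

lemma rk_le (X : C) (e : X ⟶ X) : rk R e ≤ bt R X := by
  have := R.finite X
  exact Submodule.finrank_le _

lemma eq_zero_of_rk (hR : Nice R) {X : C} {e : X ⟶ X} (h : rk R e = 0) : e = 0 := by
  have := R.finite X
  apply hR.faith
  apply ModuleCat.hom_ext
  rw [Functor.map_zero]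
  exact LinearMap.range_eq_bot.1 (Submodule.finrank_eq_zero.1 h)

lemma rk_zero (X : C) : rk R (0 : X ⟶ X) = 0 := by
  rw [rk, mp_zero, LinearMap.range_zero, finrank_bot]

lemma rk_id (X : C) : rk R (𝟙 X) = bt R X := by
  rw [rk, mp_id, LinearMap.range_id, finrank_top, bt]

/-- The ranks of orthogonal idempotents. -/
lemma rk_add (hR : Nice R) {X : C} {e f : X ⟶ X} (he : e ≫ e = e) (hf : f ≫ f = f)
    (hef : (e + f) ≫ (e + f) = e + f) : rk R (e + f) = rk R e + rk R f := by
  have h1 := trace_idem' (R := R) hef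
  rw [mp_add, map_add, trace_idem' he, trace_idem' hf] at h1
  exact_mod_cast h1.symm

end Idem

section Pure

lemma PE.comp_right {X Y Z : C} {f : X ⟶ Y} (hf : PE R f) (g : Y ⟶ Z) : PE R (f ≫ g) := by
  rw [PE, mp_comp, LinearMap.comp_assoc, hf]

lemma PE.comp_left {X Y Z : C} {g : Y ⟶ Z} (hg : PE R g) (f : X ⟶ Y) : PE R (f ≫ g) := by
  rw [PE, mp_comp, LinearMap.comp_assoc, ← mp_pr, ← LinearMap.comp_assoc, hg]

lemma PE.add {X Y : C} {f g : X ⟶ Y} (hf : PE R f) (hg : PE R g) : PE R (f + g) := by
  rw [PE, mp_add, LinearMap.add_comp, hf, hg]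

lemma PE.zero (X Y : C) : PE R (0 : X ⟶ Y) := by
  rw [PE, mp_zero, LinearMap.zero_comp]

lemma pe_st {X : C} {f : X ⟶ X} (hf : PE R f) : st R f = LinearMap.trace K _ (mp R f) := by
  rw [st_eq', mp_pr, hf]

lemma pe_st_idem (hR : Nice R) {X : C} {e : X ⟶ X} (hf : PE R e) (he : e ≫ e = e) :
    st R e = (rk R e : K) := by
  rw [pe_st hf, trace_idem' he]

/-- One step in the construction of the maximal purely even idempotent. -/
lemma pe_step (hR : Nice R) {X : C} {q a : X ⟶ X} (hq : q ≫ q = q) (ha : PE R a)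
    (hst : st R (a ≫ q) ≠ 0) : ∃ f : X ⟶ X, PE R f ∧ f ≫ f = f ∧ q ≫ f = f ∧ f ≫ q = f ∧ f ≠ 0 := by
  have := R.finite X
  set a' : X ⟶ X := q ≫ a ≫ q with ha'
  have hPE : PE R a' := (ha.comp_right q).comp_left q
  have h1 : st R a' = st R (a ≫ q) := by
    rw [ha', st_comm' hR, Category.assoc, hq]
  set y : Module.End K (R.H.obj X) := mp R a' with hy
  obtain ⟨p, hp1, hp2⟩ := Pool.Agent.N8.AFBb.exists_fit y
  have hny : ¬ IsNilpotent y := by
    intro hn
    apply hst
    rw [← h1, pe_st hPE]
    exact (LinearMap.isNilpotent_trace_of_isNilpotent hn).eq_zero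
  let a₀ : End X := a'
  let g : End X := Polynomial.aeval a₀ p
  have hmap : ∀ r : Polynomial K, mp R (Polynomial.aeval a₀ r : End X) = Polynomial.aeval y r := by
    intro r
    induction r using Polynomial.induction_on' with
    | add r s hr hs =>
      rw [map_add, map_add, ← hr, ← hs]
      exact mp_add _ _
    | monomial n c =>
      have e1 : ∀ n : ℕ, mp R (a₀ ^ n : End X) = y ^ n := by
        intro n
        induction n with
        | zero => rw [pow_zero, pow_zero]; exact mp_id X
        | succ n ih =>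
          rw [pow_succ, pow_succ, ← ih]
          exact mp_comp (R := R) a₀ (a₀ ^ n : End X)
      rw [Polynomial.aeval_monomial, Polynomial.aeval_monomial, ← Algebra.smul_def,
        ← Algebra.smul_def, ← e1]
      exact mp_smul hR c _
  have hcomm : a₀ * g = g * a₀ := by
    have h3 : Commute a₀ g := by
      have h4 : (Polynomial.aeval a₀ (Polynomial.X : Polynomial K)) = a₀ := Polynomial.aeval_X a₀
      have h5 : Commute (Polynomial.aeval a₀ (Polynomial.X : Polynomial K)) g := by
        rw [Commute, SemiconjBy, ← map_mul, ← map_mul, mul_comm]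
      rwa [h4] at h5
    exact h3
  have hg : mp R g = Polynomial.aeval y p := hmap p
  refine ⟨a' ≫ g, hPE.comp_right g, ?_, ?_, ?_, ?_⟩
  · apply hR.faith
    apply ModuleCat.hom_ext
    change mp R ((a' ≫ g) ≫ (a' ≫ g)) = mp R (a' ≫ g)
    rw [mp_comp, mp_comp, hg]
    exact hp1
  · rw [← Category.assoc]
    congr 1
    rw [ha', ← Category.assoc, hq]
  · have h3 : a' ≫ g = g ≫ a' := hcomm.symm
    rw [h3, Category.assoc]
    congr 1
    rw [ha', Category.assoc, Category.assoc, hq]
  · intro h0
    apply hny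
    apply hp2
    have h3 : mp R (a' ≫ g) = 0 := by rw [h0, mp_zero]
    rw [mp_comp, hg] at h3
    exact h3

/-- **The maximal purely even idempotent below an idempotent.** -/
theorem exists_pe (hR : Nice R) {X : C} (g : X ⟶ X) (hg : g ≫ g = g) :
    ∃ e : X ⟶ X, PE R e ∧ e ≫ e = e ∧ g ≫ e = e ∧ e ≫ g = e ∧
      ∀ a : X ⟶ X, PE R a → st R (a ≫ (g - e)) = 0 := by
  have := R.finite X
  let S : Set ℕ := {n | ∃ e : X ⟶ X, PE R e ∧ e ≫ e = e ∧ g ≫ e = e ∧ e ≫ g = e ∧ rk R e = n}
  have hS0 : S.Nonempty := ⟨0, 0, PE.zero _ _, by simp, by simp, by simp, rk_zero X⟩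
  have hSb : BddAbove S := ⟨bt R X, by
    rintro n ⟨e, -, -, -, -, rfl⟩
    exact rk_le X e⟩
  obtain ⟨e, h1, h2, h3, h4, h5⟩ := Nat.sSup_mem hS0 hSb
  refine ⟨e, h1, h2, h3, h4, fun a ha => ?_⟩
  by_contra hst
  have hq : (g - e) ≫ (g - e) = g - e := by
    rw [Preadditive.sub_comp, Preadditive.comp_sub, Preadditive.comp_sub, hg, h2, h3, h4]
    abel
  obtain ⟨f, k1, k2, k3, k4, k5⟩ := pe_step hR hq ha hst
  have hef : e ≫ f = 0 := by
    rw [← k3, ← Category.assoc, Preadditive.comp_sub, h4, h2, sub_self, zero_comp]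
  have hfe : f ≫ e = 0 := by
    rw [← k4, Category.assoc, Preadditive.sub_comp, h3, h2, sub_self, comp_zero]
  have hsum : (e + f) ≫ (e + f) = e + f := by
    rw [Preadditive.add_comp, Preadditive.comp_add, Preadditive.comp_add, h2, k2, hef, hfe]
    abel
  have hgf : g ≫ f = f := by
    rw [← k3, ← Category.assoc, Preadditive.comp_sub, hg, h3]
  have hfg : f ≫ g = f := by
    rw [← k4, Category.assoc, Preadditive.sub_comp, hg, h4]
  have hmem : rk R (e + f) ∈ S :=
    ⟨e + f, h1.add k1, hsum, by rw [Preadditive.comp_add, h3, hgf],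
      by rw [Preadditive.add_comp, h4, hfg], rfl⟩
  have hle := le_csSup hSb hmem
  rw [rk_add hR h2 k2 hsum, ← h5] at hle
  have h6 : rk R f = 0 := by omega
  exact k5 (eq_zero_of_rk hR h6)

end Pure

end Pool.Agent.P8H25.Sp
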