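import Pool.Agent.P8H25.SpB

/-!
# The maximal purely even summand of a tensor product
-/

set_option autoImplicit false
set_option linter.unusedSectionVars false

open CategoryTheory Limits MonoidalCategory Module
open Pool.Agent.Y112.SR Pool.Agent.Y112.KD Pool.Agent.N64.AF
open Pool.Agent.Y116.MT (tr)
open Pool.Agent.N64.AF.A1aux

namespace Pool.Agent.P8H25.Sp

universe v u w

open Functor.LaxMonoidal Functor.OplaxMonoidal

variable {C : Type u} [Category.{v} C] [Preadditive C] [MonoidalCategory C]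
  [MonoidalPreadditive C] [SymmetricCategory C] [RightRigidCategory C]
  {K : Type w} [Field K] [CharZero K] [Linear K C] [MonoidalLinear K C]
  {R : SuperRealisation C K}

lemma PE_iff {X Y : C} {f : X ⟶ Y} : PE R f ↔ R.par X ≫ R.H.map f = R.H.map f := by
  constructor
  · intro h
    apply ModuleCat.hom_ext
    exact h
  · intro h
    exact congrArg ModuleCat.Hom.hom h

lemma par_delta' (M N : C) :
    R.par (M ⊗ N) ≫ δ R.H M N = δ R.H M N ≫ (R.par M ⊗ₘ R.par N) := by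
  have h1 := congrArg (fun z => δ R.H M N ≫ z ≫ δ R.H M N) (R.par_tensor M N)
  simpa using h1

lemma PE.tensor {X Y X' Y' : C} {f : X ⟶ Y} {g : X' ⟶ Y'} (hf : PE R f) (hg : PE R g) :
    PE R (f ⊗ₘ g) := by
  rw [PE_iff] at *
  rw [Functor.Monoidal.map_tensor]
  have h1 := par_delta' (R := R) X X'
  rw [reassoc_of% h1, ← Category.assoc (R.par X ⊗ₘ R.par X'), MonoidalCategory.tensorHom_comp_tensorHom,
    hf, hg]

section Eps

/-- The maximal purely even idempotent. -/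
noncomputable def eps (hR : Nice R) (X : C) : X ⟶ X :=
  (exists_pe hR (𝟙 X) (Category.comp_id _)).choose

lemma eps_pe (hR : Nice R) (X : C) : PE R (eps hR X) :=
  (exists_pe hR (𝟙 X) (Category.comp_id _)).choose_spec.1

lemma eps_idem (hR : Nice R) (X : C) : eps hR X ≫ eps hR X = eps hR X :=
  (exists_pe hR (𝟙 X) (Category.comp_id _)).choose_spec.2.1

lemma eps_max (hR : Nice R) {X : C} {a : X ⟶ X} (ha : PE R a) : st R (a ≫ eps hR X) = st R a := by
  have h := (exists_pe hR (𝟙 X) (Category.comp_id _)).choose_spec.2.2.2.2 a ha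
  rw [Preadditive.comp_sub, st_sub, Category.comp_id, sub_eq_zero] at h
  exact h.symm

lemma pe_eps_left (hR : Nice R) {X Y : C} {a : X ⟶ Y} (ha : PE R a) :
    Q R (eps hR X ≫ a) a := by
  intro h
  rw [Category.assoc, st_comm' hR, eps_max hR (ha.comp_right h)]

lemma pe_eps_right (hR : Nice R) {X Y : C} {a : X ⟶ Y} (ha : PE R a) :
    Q R (a ≫ eps hR Y) a := by
  intro h
  rw [Category.assoc, st_comm' hR, Category.assoc, st_comm' hR, eps_max hR (ha.comp_left h),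
    st_comm' hR]

/-- The maximal purely even idempotents are natural, up to numerical equality. -/
lemma eps_nat (hR : Nice R) {X Y : C} (g : X ⟶ Y) : Q R (eps hR X ≫ g) (g ≫ eps hR Y) := by
  have h1 := pe_eps_right hR ((eps_pe hR X).comp_right g)
  have h2 := pe_eps_left hR ((eps_pe hR Y).comp_left g)
  rw [Category.assoc] at h1
  exact h1.symm.trans h2

lemma ptr_pe {Z W : C} {q : W ⟶ W} {a : Z ⊗ W ⟶ Z ⊗ W} (hq : PE R q) (ha : PE R a) :
    PE R (ptr ((Z ◁ q) ≫ a)) := by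
  rw [PE_iff] at *
  rw [map_ptr]
  have h0 : R.par Z ▷ R.H.obj W ≫ (μ R.H Z W ≫ R.H.map ((Z ◁ q) ≫ a) ≫ δ R.H Z W) ≫
      (𝟙 _) ▷ R.H.obj W = μ R.H Z W ≫ R.H.map ((Z ◁ q) ≫ a) ≫ δ R.H Z W := by
    have h1 : μ R.H Z W ≫ R.H.map ((Z ◁ q) ≫ a) =
        R.H.obj Z ◁ R.H.map q ≫ μ R.H Z W ≫ R.H.map a := by
      rw [Functor.map_comp, μ_natural_right_assoc]
    have h2 : μ R.H Z W ≫ R.H.map a = (R.par Z ⊗ₘ R.par W) ≫ μ R.H Z W ≫ R.H.map a := by
      conv_lhs => rw [← ha]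
      rw [← Category.assoc, R.par_tensor, Category.assoc]
    have h3 : R.H.obj Z ◁ R.H.map q ≫ (R.par Z ⊗ₘ R.par W) =
        R.par Z ▷ R.H.obj W ≫ R.H.obj Z ◁ R.H.map q := by
      rw [MonoidalCategory.tensorHom_def, ← Category.assoc, whisker_exchange, Category.assoc,
        ← MonoidalCategory.whiskerLeft_comp, R.par_natural, hq]
    have h4 : μ R.H Z W ≫ R.H.map ((Z ◁ q) ≫ a) =
        R.par Z ▷ R.H.obj W ≫ μ R.H Z W ≫ R.H.map ((Z ◁ q) ≫ a) := by
      rw [h1]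
      conv_lhs => rw [h2]
      rw [← Category.assoc, h3, Category.assoc]
    rw [id_whiskerRight, Category.comp_id]
    conv_rhs => rw [← Category.assoc, h4]
    simp only [Category.assoc]
  have h5 := pt_comp R (R.par Z) (𝟙 _) (μ R.H Z W ≫ R.H.map ((Z ◁ q) ≫ a) ≫ δ R.H Z W)
  rw [h0, Category.comp_id] at h5
  exact h5.symm

lemma st_ptr {M N : C} (y : M ⊗ N ⟶ M ⊗ N) : st R (ptr y) = st R y :=
  Pool.Agent.N327.AF.str_ptr (Λ := K) y

lemma ptr_comp_left {Y N : C} (f : Y ⟶ Y) (g : Y ⊗ N ⟶ Y ⊗ N) :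
    ptr ((f ▷ N) ≫ g) = f ≫ ptr g := Pool.Agent.N327.AF.ptr_comp f g

/-- Tensoring with a purely even object, on the right. -/
lemma eps_tensor_right (hR : Nice R) (Z W : C) :
    Q R ((Z ◁ eps hR W) ≫ eps hR (Z ⊗ W)) (eps hR Z ⊗ₘ eps hR W) := by
  have h1 := pe_eps_right hR ((eps_pe hR Z).tensor (eps_pe hR W))
  have h2 : Q R (((𝟙 Z - eps hR Z) ▷ W) ≫ (Z ◁ eps hR W) ≫ eps hR (Z ⊗ W)) 0 := by
    intro h
    rw [zero_comp, st_zero]
    have h3 : ((((𝟙 Z - eps hR Z) ▷ W) ≫ (Z ◁ eps hR W) ≫ eps hR (Z ⊗ W)) ≫ h) =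
        ((𝟙 Z - eps hR Z) ▷ W) ≫ ((Z ◁ eps hR W) ≫ (eps hR (Z ⊗ W) ≫ h)) := by
      simp only [Category.assoc]
    rw [h3, ← st_ptr, ptr_comp_left, st_comm' hR, Preadditive.comp_sub, st_sub, Category.comp_id,
      eps_max hR (ptr_pe (eps_pe hR W) ((eps_pe hR _).comp_right h)), sub_self]
  have h4 : ((𝟙 Z - eps hR Z) ▷ W) ≫ (Z ◁ eps hR W) ≫ eps hR (Z ⊗ W) =
      (Z ◁ eps hR W) ≫ eps hR (Z ⊗ W) - (eps hR Z ⊗ₘ eps hR W) ≫ eps hR (Z ⊗ W) := by
    rw [subR, Preadditive.sub_comp, id_whiskerRight, Category.id_comp,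
      MonoidalCategory.tensorHom_def, Category.assoc]
  rw [h4] at h2
  have h5 := h2.add h1
  rw [sub_add_cancel, zero_add] at h5
  exact h5

/-- Tensoring with a purely even object, on the left. -/
lemma eps_tensor_left (hR : Nice R) (Z W : C) :
    Q R ((eps hR W ▷ Z) ≫ eps hR (W ⊗ Z)) (eps hR W ⊗ₘ eps hR Z) := by
  have h1 := ((eps_tensor_right hR Z W).right (β_ Z W).hom).left hR (β_ W Z).hom
  have h2 := ((eps_nat hR (β_ Z W).hom).left hR (Z ◁ eps hR W)).left hR (β_ W Z).hom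
  have h3 : (β_ W Z).hom ≫ (Z ◁ eps hR W) ≫ (β_ Z W).hom ≫ eps hR (W ⊗ Z) =
      (eps hR W ▷ Z) ≫ eps hR (W ⊗ Z) := by
    rw [← BraidedCategory.braiding_naturality_left_assoc, SymmetricCategory.symmetry_assoc]
  have h4 : (β_ W Z).hom ≫ (eps hR Z ⊗ₘ eps hR W) ≫ (β_ Z W).hom = eps hR W ⊗ₘ eps hR Z := by
    rw [BraidedCategory.braiding_naturality, SymmetricCategory.symmetry_assoc]
  rw [h3] at h2
  simp only [Category.assoc] at h1
  rw [h4] at h1
  exact h2.symm.trans h1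

end Eps

end Pool.Agent.P8H25.Sp
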