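import Pool.Agent.P8H25.SpC

/-!
# The even pairing and its partial traces
-/

set_option autoImplicit false
set_option linter.unusedSectionVars false

open CategoryTheory Limits MonoidalCategory Module
open Pool.Agent.Y112.SR Pool.Agent.Y112.KD Pool.Agent.N64.AF
open Pool.Agent.Y116.MT (tr)
open Pool.Agent.N64.AF.A1aux

namespace Pool.Agent.P8H25.Sp

universe v u w

open Functor.LaxMonoidal Functor.OplaxMonoidal

variable {C : Type u} [Category.{v} C] [Preadditive C] [MonoidalCategory C]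
  [MonoidalPreadditive C] [SymmetricCategory C] [RightRigidCategory C]
  {K : Type w} [Field K] [CharZero K] [Linear K C] [MonoidalLinear K C]
  {R : SuperRealisation C K}

/-- The supertrace of an endomorphism on the maximal purely even summand. -/
noncomputable def chi (hR : Nice R) {X : C} (g : X ⟶ X) : K := st R (g ≫ eps hR X)

lemma chi_comm (hR : Nice R) {X Y : C} (f : X ⟶ Y) (g : Y ⟶ X) :
    chi hR (f ≫ g) = chi hR (g ≫ f) := by
  have h1 := ((eps_nat hR g).symm.left hR f).ste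
  rw [chi, chi, Category.assoc, h1, st_comm' hR, Category.assoc, Category.assoc, st_comm' hR,
    Category.assoc]

lemma chi_congr (hR : Nice R) {X : C} {f g : X ⟶ X} (h : Q R f g) : chi hR f = chi hR g :=
  h _

lemma chi_add (hR : Nice R) {X : C} (f g : X ⟶ X) : chi hR (f + g) = chi hR f + chi hR g := by
  rw [chi, chi, chi, Preadditive.add_comp, st_add]

lemma chi_sub (hR : Nice R) {X : C} (f g : X ⟶ X) : chi hR (f - g) = chi hR f - chi hR g := by
  rw [chi, chi, chi, Preadditive.sub_comp, st_sub]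

lemma chi_smul (hR : Nice R) {X : C} (c : K) (f : X ⟶ X) : chi hR (c • f) = c * chi hR f := by
  rw [chi, chi, Linear.smul_comp, st_smul hR]

lemma chi_zero (hR : Nice R) (X : C) : chi hR (0 : X ⟶ X) = 0 := by
  rw [chi, zero_comp, st_zero]

lemma chi_sum (hR : Nice R) {X : C} {ι : Type*} (s : Finset ι) (f : ι → (X ⟶ X)) :
    chi hR (∑ i ∈ s, f i) = ∑ i ∈ s, chi hR (f i) := by
  rw [chi, Preadditive.sum_comp, st_sum hR]
  rfl

/-- The value of `chi` at an idempotent is a natural number. -/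
lemma chi_nat (hR : Nice R) {X : C} {g : X ⟶ X} (hg : g ≫ g = g) :
    ∃ n : ℕ, chi hR g = n ∧ n ≤ rk R g ∧ (n = 0 → ∀ x : X ⟶ X, st R (x ≫ eps hR X ≫ g) = 0) := by
  obtain ⟨e, h1, h2, h3, h4, h5⟩ := exists_pe hR g hg
  have h6 : ∀ a : X ⟶ X, PE R a → st R (a ≫ g) = st R (a ≫ e) := by
    intro a ha
    have h := h5 a ha
    rw [Preadditive.comp_sub, st_sub, sub_eq_zero] at h
    exact h
  refine ⟨rk R e, ?_, ?_, ?_⟩
  · rw [chi, st_comm' hR, h6 _ (eps_pe hR X), st_comm' hR, eps_max hR h1, pe_st_idem hR h1 h2]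
  · have := R.finite X
    apply Submodule.finrank_mono
    rw [← h4, mp_comp]
    exact LinearMap.range_comp_le_range _ _
  · intro h0 x
    have h7 : e = 0 := eq_zero_of_rk hR h0
    rw [← Category.assoc, h6 _ ((eps_pe hR X).comp_left x), h7, comp_zero, st_zero]

/-- The value of `chi` at an idempotent, as a natural number. -/
noncomputable def ch (hR : Nice R) {X : C} (g : X ⟶ X) : ℕ :=
  open Classical in if h : g ≫ g = g then (chi_nat hR h).choose else 0

lemma ch_eq (hR : Nice R) {X : C} {g : X ⟶ X} (hg : g ≫ g = g) : chi hR g = (ch hR g : K) := by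
  rw [ch, dif_pos hg]
  exact (chi_nat hR hg).choose_spec.1

lemma ch_le (hR : Nice R) {X : C} {g : X ⟶ X} (hg : g ≫ g = g) : ch hR g ≤ rk R g := by
  rw [ch, dif_pos hg]
  exact (chi_nat hR hg).choose_spec.2.1

lemma ch_zero (hR : Nice R) {X : C} {g : X ⟶ X} (hg : g ≫ g = g) (h : ch hR g = 0)
    (x : X ⟶ X) : st R (x ≫ eps hR X ≫ g) = 0 := by
  rw [ch, dif_pos hg] at h
  exact (chi_nat hR hg).choose_spec.2.2 h x

/-- The even pairing of two endomorphisms. -/
noncomputable def B (hR : Nice R) {X A : C} (g : X ⟶ X) (f : A ⟶ A) : K := chi hR (g ⊗ₘ f)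

/-- The partial trace of the maximal purely even idempotent. -/
noncomputable def Phi (hR : Nice R) {A : C} (f : A ⟶ A) (Y : C) : Y ⟶ Y :=
  ptr ((Y ◁ f) ≫ eps hR (Y ⊗ A))

lemma B_eq (hR : Nice R) {A : C} (f : A ⟶ A) {Y : C} (h : Y ⟶ Y) :
    B hR h f = st R (h ≫ Phi hR f Y) := by
  rw [Phi, ← ptr_comp_left, st_ptr, B, chi, MonoidalCategory.tensorHom_def, Category.assoc]

lemma B_comm_left (hR : Nice R) {A : C} (f : A ⟶ A) {Y Z : C} (g : Y ⟶ Z) (h : Z ⟶ Y) :
    B hR (g ≫ h) f = B hR (h ≫ g) f := by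
  have e1 : (g ≫ h) ⊗ₘ f = (g ⊗ₘ f) ≫ (h ▷ A) := by
    rw [MonoidalCategory.tensorHom_def, MonoidalCategory.tensorHom_def, comp_whiskerRight,
      Category.assoc, Category.assoc, whisker_exchange]
  have e2 : (h ≫ g) ⊗ₘ f = (h ▷ A) ≫ (g ⊗ₘ f) := by
    rw [MonoidalCategory.tensorHom_def, MonoidalCategory.tensorHom_def, comp_whiskerRight,
      Category.assoc]
  rw [B, B, e1, e2, chi_comm]

lemma B_symm (hR : Nice R) {X A : C} (g : X ⟶ X) (f : A ⟶ A) : B hR g f = B hR f g := by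
  have h1 : g ⊗ₘ f = (β_ X A).hom ≫ ((f ⊗ₘ g) ≫ (β_ A X).hom) := by
    rw [BraidedCategory.braiding_naturality, SymmetricCategory.symmetry_assoc]
  rw [B, h1, chi_comm, Category.assoc, SymmetricCategory.symmetry, Category.comp_id, B]

lemma B_congr (hR : Nice R) {X A : C} {g g' : X ⟶ X} {f f' : A ⟶ A} (h : Q R g g')
    (h' : Q R f f') : B hR g f = B hR g' f' := chi_congr hR (h.tensor hR h')

lemma tensor_add' {X Y X' Y' : C} (f : X ⟶ Y) (g g' : X' ⟶ Y') :
    f ⊗ₘ (g + g') = f ⊗ₘ g + f ⊗ₘ g' := by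
  rw [MonoidalCategory.tensorHom_def, MonoidalCategory.tensorHom_def,
    MonoidalCategory.tensorHom_def, MonoidalPreadditive.whiskerLeft_add, Preadditive.comp_add]

lemma add_tensor' {X Y X' Y' : C} (f f' : X ⟶ Y) (g : X' ⟶ Y') :
    (f + f') ⊗ₘ g = f ⊗ₘ g + f' ⊗ₘ g := by
  rw [MonoidalCategory.tensorHom_def, MonoidalCategory.tensorHom_def,
    MonoidalCategory.tensorHom_def, MonoidalPreadditive.add_whiskerRight, Preadditive.add_comp]

lemma smul_tensor' {X Y X' Y' : C} (c : K) (f : X ⟶ Y) (g : X' ⟶ Y') :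
    (c • f) ⊗ₘ g = c • (f ⊗ₘ g) := by
  rw [MonoidalCategory.tensorHom_def, MonoidalCategory.tensorHom_def,
    MonoidalLinear.smul_whiskerRight, Linear.smul_comp]

lemma tensor_smul' {X Y X' Y' : C} (c : K) (f : X ⟶ Y) (g : X' ⟶ Y') :
    f ⊗ₘ (c • g) = c • (f ⊗ₘ g) := by
  rw [MonoidalCategory.tensorHom_def, MonoidalCategory.tensorHom_def,
    MonoidalLinear.whiskerLeft_smul, Linear.comp_smul]

lemma B_add_left (hR : Nice R) {X A : C} (g g' : X ⟶ X) (f : A ⟶ A) :
    B hR (g + g') f = B hR g f + B hR g' f := by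
  rw [B, add_tensor', chi_add]
  rfl

lemma B_add_right (hR : Nice R) {X A : C} (g : X ⟶ X) (f f' : A ⟶ A) :
    B hR g (f + f') = B hR g f + B hR g f' := by
  rw [B, tensor_add', chi_add]
  rfl

lemma B_smul_left (hR : Nice R) {X A : C} (c : K) (g : X ⟶ X) (f : A ⟶ A) :
    B hR (c • g) f = c * B hR g f := by
  rw [B, smul_tensor', chi_smul]
  rfl

lemma B_smul_right (hR : Nice R) {X A : C} (c : K) (g : X ⟶ X) (f : A ⟶ A) :
    B hR g (c • f) = c * B hR g f := by
  rw [B, tensor_smul', chi_smul]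
  rfl

lemma B_zero_left (hR : Nice R) {X A : C} (f : A ⟶ A) : B hR (0 : X ⟶ X) f = 0 := by
  have h := B_smul_left hR 0 (0 : X ⟶ X) f
  rwa [zero_smul, zero_mul] at h

lemma B_sum_left (hR : Nice R) {X A : C} {ι : Type*} (s : Finset ι) (g : ι → (X ⟶ X))
    (f : A ⟶ A) : B hR (∑ i ∈ s, g i) f = ∑ i ∈ s, B hR (g i) f := by
  classical
  induction s using Finset.induction_on with
  | empty => rw [Finset.sum_empty, Finset.sum_empty, B_zero_left]
  | insert a s ha ih => rw [Finset.sum_insert ha, Finset.sum_insert ha, B_add_left, ih]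

lemma B_sum_right (hR : Nice R) {X A : C} {ι : Type*} (s : Finset ι) (g : X ⟶ X)
    (f : ι → (A ⟶ A)) : B hR g (∑ i ∈ s, f i) = ∑ i ∈ s, B hR g (f i) := by
  rw [B_symm, B_sum_left]
  exact Finset.sum_congr rfl fun i _ => B_symm hR _ _

/-- Naturality of the partial traces. -/
lemma Phi_nat (hR : Nice R) {A : C} (f : A ⟶ A) {Y Z : C} (g : Y ⟶ Z) :
    Q R (g ≫ Phi hR f Z) (Phi hR f Y ≫ g) := by
  intro h
  rw [Category.assoc, Category.assoc, st_comm' hR, Category.assoc, st_comm' hR,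
    st_comm' hR (Phi hR f Y), ← B_eq, B_comm_left]
  exact B_eq hR f _

end Pool.Agent.P8H25.Sp
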