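import Pool.Agent.N64.AF.Defs

/-!
# The pure part of an object

`R` is a symmetric monoidal functor to finite dimensional super vector spaces over `K`. The algebraic operators on the
realisation of `M` are the linear combinations, with coefficients in `K`, of the realisations of the endomorphisms of
`M`.
-/

set_option autoImplicit false

open CategoryTheory Limits MonoidalCategory Module
open Pool.Agent.Y112.SR Pool.Agent.N64.AF

namespace Pool.Agent.P8H25.Pure

universe v u w

variable {C : Type u} [Category.{v} C] [Preadditive C] [MonoidalCategory C] [SymmetricCategory C]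
  {K : Type w} [Field K]

/-- `e` is an algebraic idempotent operator on the realisation of `M`, with image in the even part. -/
structure EvenIdem (R : SuperRealisation C K) (M : C) (e : R.H.obj M →ₗ[K] R.H.obj M) : Prop where
  alg : e ∈ CK R M M
  idem : e ∘ₗ e = e
  even : (R.par M).hom ∘ₗ e = e

/-- `e` is an algebraic idempotent operator on the realisation of `M`, with image in the odd part. -/
structure OddIdem (R : SuperRealisation C K) (M : C) (e : R.H.obj M →ₗ[K] R.H.obj M) : Prop where
  alg : e ∈ CK R M M
  idem : e ∘ₗ e = e
  odd : (R.par M).hom ∘ₗ e = -e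

/-- The largest dimension of the image of an algebraic idempotent with image in the even part. -/
noncomputable def evenRank (R : SuperRealisation C K) (M : C) : ℕ :=
  sSup {d | ∃ e, EvenIdem R M e ∧ finrank K (LinearMap.range e) = d}

/-- The largest dimension of the image of an algebraic idempotent with image in the odd part. -/
noncomputable def oddRank (R : SuperRealisation C K) (M : C) : ℕ :=
  sSup {d | ∃ e, OddIdem R M e ∧ finrank K (LinearMap.range e) = d}

/-- The dimension of the pure part. -/
noncomputable def pureRank (R : SuperRealisation C K) (M : C) : ℕ := evenRank R M + oddRank R M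

/-- The dimension of the even part of the realisation. -/
noncomputable def evenDim (R : SuperRealisation C K) (M : C) : ℕ :=
  finrank K (LinearMap.ker ((R.par M).hom - LinearMap.id : R.H.obj M →ₗ[K] R.H.obj M))

/-- The dimension of the odd part of the realisation. -/
noncomputable def oddDim (R : SuperRealisation C K) (M : C) : ℕ :=
  finrank K (LinearMap.ker ((R.par M).hom + LinearMap.id : R.H.obj M →ₗ[K] R.H.obj M))

/-- The dimension of the realisation. -/
noncomputable def dim (R : SuperRealisation C K) (M : C) : ℕ := finrank K (R.H.obj M)

/-- There is a positive `δ` such that for arbitrarily large `n` and some `Y` with nonzero realisation the number `f` is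
at least `δ` times the number `g` for the object `M ⊗ ⋯ ⊗ M ⊗ Y` (with `n` factors `M`). -/
def Persists (R : SuperRealisation C K) (f g : C → ℕ) (M : C) : Prop :=
  ∃ δ : ℝ, 0 < δ ∧ ∀ N : ℕ, ∃ n ≥ N, ∃ Y : C, 0 < dim R Y ∧
    δ * (g (Pool.Agent.Y112.KD.tp M n ⊗ Y) : ℝ) ≤ (f (Pool.Agent.Y112.KD.tp M n ⊗ Y) : ℝ)

end Pool.Agent.P8H25.Pure
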