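import Pool.Agent.P8H25.SpD

/-!
# Partial traces and duality
-/

set_option autoImplicit false
set_option linter.unusedSectionVars false

open CategoryTheory Limits MonoidalCategory Module
open Pool.Agent.Y112.SR Pool.Agent.Y112.KD Pool.Agent.N64.AF
open Pool.Agent.Y116.MT (tr)
open Pool.Agent.N64.AF.A1aux

namespace Pool.Agent.P8H25.Sp

universe v u w

open Functor.LaxMonoidal Functor.OplaxMonoidal

section Coh

variable {C : Type u} [Category.{v} C] [MonoidalCategory C] [SymmetricCategory C]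
  [RightRigidCategory C]

lemma ptr_assoc {Q Y A : C} (x : Y ⊗ A ⟶ Y ⊗ A) :
    ptr ((α_ Q Y A).hom ≫ (Q ◁ x) ≫ (α_ Q Y A).inv) = Q ◁ ptr x := by
  unfold ptr
  monoidal

/-- The partial trace for a general dual. -/
def ptrG {M N : C} (N' : C) [ExactPairing N N'] (x : M ⊗ N ⟶ M ⊗ N) : M ⟶ M :=
  (ρ_ M).inv ≫ M ◁ η_ N N' ≫ (α_ M N N').inv ≫ x ▷ N' ≫ (α_ M N N').hom ≫
    M ◁ ((β_ N N').hom ≫ ε_ N N') ≫ (ρ_ M).hom

lemma dual_hom {N N' : C} [ExactPairing N N'] :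
    ∃ θ : Nᘁ ⟶ N', η_ N Nᘁ ≫ N ◁ θ = η_ N N' ∧ θ ▷ N ≫ ε_ N N' = ε_ N Nᘁ := by
  refine ⟨@rightAdjointMate C _ _ N N ⟨N'⟩ _ (𝟙 N), ?_, ?_⟩
  · have h := @coevaluation_comp_rightAdjointMate C _ _ N N ⟨N'⟩ _ (𝟙 N)
    rw [id_whiskerRight, Category.comp_id] at h
    exact h
  · have h := @rightAdjointMate_comp_evaluation C _ _ N N ⟨N'⟩ _ (𝟙 N)
    rw [MonoidalCategory.whiskerLeft_id, Category.id_comp] at h
    exact h

lemma ptrG_eq {M N N' : C} [ExactPairing N N'] (x : M ⊗ N ⟶ M ⊗ N) : ptrG N' x = ptr x := by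
  obtain ⟨θ, h1, h2⟩ := dual_hom (N := N) (N' := N')
  have h3 : M ◁ η_ N N' ≫ (α_ M N N').inv ≫ x ▷ N' =
      M ◁ η_ N Nᘁ ≫ (α_ M N Nᘁ).inv ≫ x ▷ Nᘁ ≫ (M ⊗ N) ◁ θ := by
    rw [← h1, MonoidalCategory.whiskerLeft_comp, Category.assoc, associator_inv_naturality_right_assoc,
      whisker_exchange]
  have h4 : (M ⊗ N) ◁ θ ≫ (α_ M N N').hom ≫ M ◁ ((β_ N N').hom ≫ ε_ N N') =
      (α_ M N Nᘁ).hom ≫ M ◁ ((β_ N Nᘁ).hom ≫ ε_ N Nᘁ) := by
    rw [associator_naturality_right_assoc, ← MonoidalCategory.whiskerLeft_comp,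
      BraidedCategory.braiding_naturality_right_assoc, h2]
  unfold ptrG ptr
  rw [reassoc_of% h3, reassoc_of% h4]

/-- Inserting the coevaluation. -/
def ins (Y X X' : C) [ExactPairing X X'] : Y ⟶ (Y ⊗ X') ⊗ X :=
  (ρ_ Y).inv ≫ Y ◁ (η_ X X' ≫ (β_ X X').hom) ≫ (α_ Y X' X).inv

/-- Inserting the evaluation. -/
def rem (Y X X' : C) [ExactPairing X X'] : (Y ⊗ X') ⊗ X ⟶ Y :=
  (α_ Y X' X).hom ≫ Y ◁ ε_ X X' ≫ (ρ_ Y).hom

lemma ins_rem {Y X X' : C} [ExactPairing X X'] (x : Y ⊗ X' ⟶ Y ⊗ X') :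
    ins Y X X' ≫ (x ▷ X) ≫ rem Y X X' = ptr x := by
  let _ : ExactPairing X' X := BraidedCategory.exactPairing_swap X X'
  rw [← ptrG_eq (N' := X) x]
  have h1 : η_ X' X = η_ X X' ≫ (β_ X' X).inv := rfl
  have h2 : ε_ X' X = (β_ X X').hom ≫ ε_ X X' := rfl
  have h3 : (β_ X' X).inv = (β_ X X').hom := by
    rw [← cancel_epi (β_ X' X).hom, Iso.hom_inv_id, SymmetricCategory.symmetry]
  unfold ptrG ins rem
  rw [h1, h2, h3]
  simp only [Category.assoc, SymmetricCategory.symmetry_assoc]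

/-- `a'` is the transpose of `a`. -/
def Mt {X X' : C} [ExactPairing X X'] (a : X ⟶ X) (a' : X' ⟶ X') : Prop :=
  η_ X X' ≫ a ▷ X' = η_ X X' ≫ X ◁ a'

lemma ins_Mt {Y X X' : C} [ExactPairing X X'] {a : X ⟶ X} {a' : X' ⟶ X'} (h : Mt a a') :
    ins Y X X' ≫ ((Y ◁ a') ▷ X) = ins Y X X' ≫ ((Y ⊗ X') ◁ a) := by
  have h1 : (η_ X X' ≫ (β_ X X').hom) ≫ (a' ▷ X) = (η_ X X' ≫ (β_ X X').hom) ≫ (X' ◁ a) := by
    rw [Category.assoc, Category.assoc, ← BraidedCategory.braiding_naturality_right,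
      ← BraidedCategory.braiding_naturality_left, ← Category.assoc, ← Category.assoc, h]
  have h2 : (α_ Y X' X).inv ≫ ((Y ◁ a') ▷ X) = Y ◁ (a' ▷ X) ≫ (α_ Y X' X).inv := by
    rw [associator_inv_naturality_middle]
  have h3 : (α_ Y X' X).inv ≫ ((Y ⊗ X') ◁ a) = Y ◁ (X' ◁ a) ≫ (α_ Y X' X).inv := by
    rw [associator_inv_naturality_right]
  unfold ins
  rw [Category.assoc, Category.assoc, Category.assoc, Category.assoc, h2, h3,
    ← MonoidalCategory.whiskerLeft_comp_assoc, ← MonoidalCategory.whiskerLeft_comp_assoc, h1]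

end Coh

variable {C : Type u} [Category.{v} C] [Preadditive C] [MonoidalCategory C]
  [MonoidalPreadditive C] [SymmetricCategory C] [RightRigidCategory C]
  {K : Type w} [Field K] [CharZero K] [Linear K C] [MonoidalLinear K C]
  {R : SuperRealisation C K}

lemma eps_assoc (hR : Nice R) (X Y Z : C) :
    Q R (eps hR ((X ⊗ Y) ⊗ Z)) ((α_ X Y Z).hom ≫ eps hR (X ⊗ (Y ⊗ Z)) ≫ (α_ X Y Z).inv) := by
  have h1 := (eps_nat hR (α_ X Y Z).hom).right (α_ X Y Z).inv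
  rw [Category.assoc, Iso.hom_inv_id, Category.comp_id, Category.assoc] at h1
  exact h1

/-- The partial traces and the tensor product with a purely even object. -/
lemma Phi_tensor (hR : Nice R) {A : C} (f : A ⟶ A) (V Y : C) :
    Q R ((eps hR V ▷ Y) ≫ Phi hR f (V ⊗ Y)) (eps hR V ⊗ₘ Phi hR f Y) := by
  -- the partial trace of the right side
  have e1 : eps hR V ⊗ₘ Phi hR f Y = ptr ((α_ V Y A).hom ≫
      (eps hR V ⊗ₘ ((Y ◁ f) ≫ eps hR (Y ⊗ A))) ≫ (α_ V Y A).inv) := by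
    have h1 : (α_ V Y A).hom ≫ (eps hR V ⊗ₘ ((Y ◁ f) ≫ eps hR (Y ⊗ A))) ≫ (α_ V Y A).inv =
        ((eps hR V ▷ Y) ▷ A) ≫ ((α_ V Y A).hom ≫ (V ◁ ((Y ◁ f) ≫ eps hR (Y ⊗ A))) ≫
          (α_ V Y A).inv) := by
      rw [MonoidalCategory.tensorHom_def, Category.assoc, associator_naturality_left_assoc]
    rw [h1, ptr_comp_left, ptr_assoc, MonoidalCategory.tensorHom_def]
    rfl
  intro k
  rw [st_comm' hR, st_comm' hR _ k, e1, Phi, ← ptr_comp_left, ← ptr_comp_left, ← ptr_comp_left,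
    st_ptr, st_ptr]
  refine Q.ste ?_
  have h2 := eps_tensor_left hR (Y ⊗ A) V
  have h3 : ((eps hR V ▷ Y) ▷ A) ≫ ((V ⊗ Y) ◁ f) ≫ (α_ V Y A).hom =
      (α_ V Y A).hom ≫ (V ◁ (Y ◁ f)) ≫ (eps hR V ▷ (Y ⊗ A)) := by
    rw [associator_naturality_right, associator_naturality_left_assoc, whisker_exchange]
  have h4 : Q R (((eps hR V ▷ Y) ▷ A) ≫ ((V ⊗ Y) ◁ f) ≫ eps hR ((V ⊗ Y) ⊗ A))
      ((α_ V Y A).hom ≫ (eps hR V ⊗ₘ ((Y ◁ f) ≫ eps hR (Y ⊗ A))) ≫ (α_ V Y A).inv) := by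
    have k1 := ((eps_assoc hR V Y A).left hR ((V ⊗ Y) ◁ f)).left hR ((eps hR V ▷ Y) ▷ A)
    rw [reassoc_of% h3] at k1
    have k2 := ((h2.right (α_ V Y A).inv).left hR (V ◁ (Y ◁ f))).left hR (α_ V Y A).hom
    rw [Category.assoc] at k2
    have k3 : (α_ V Y A).hom ≫ (V ◁ (Y ◁ f)) ≫ (eps hR V ⊗ₘ eps hR (Y ⊗ A)) ≫ (α_ V Y A).inv =
        (α_ V Y A).hom ≫ (eps hR V ⊗ₘ ((Y ◁ f) ≫ eps hR (Y ⊗ A))) ≫ (α_ V Y A).inv := by
      rw [MonoidalCategory.tensorHom_def, MonoidalCategory.tensorHom_def,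
        MonoidalCategory.whiskerLeft_comp, Category.assoc, Category.assoc, Category.assoc,
        whisker_exchange_assoc]
    rw [k3] at k2
    exact k1.trans k2
  exact h4.left hR _

/-- **The composition of partial traces.** -/
theorem Phi_Phi (hR : Nice R) {A X X' Y : C} [ExactPairing X X'] {a : X ⟶ X} {a' : X' ⟶ X'}
    (h : Mt a a') (f : A ⟶ A) {c : K} (hc : Q R (a ≫ Phi hR f X) (c • a)) :
    Q R (Phi hR f Y ≫ Phi hR a' Y) (c • Phi hR a' Y) := by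
  set V := Y ⊗ X' with hV
  have e0 : Phi hR a' Y = ins Y X X' ≫ (((Y ◁ a') ≫ eps hR V) ▷ X) ≫ rem Y X X' := (ins_rem _).symm
  -- naturality
  have k1 := (Phi_nat hR f (ins Y X X')).symm.right ((((Y ◁ a') ≫ eps hR V) ▷ X) ≫ rem Y X X')
  rw [Category.assoc, ← e0, Category.assoc] at k1
  have k2 := ((Phi_nat hR f (((Y ◁ a') ≫ eps hR V) ▷ X)).symm.right (rem Y X X')).left hR
    (ins Y X X')
  rw [Category.assoc, Category.assoc] at k2
  have k3 := (((Phi_tensor hR f V X).right (rem Y X X')).left hR ((Y ◁ a') ▷ X)).left hR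
    (ins Y X X')
  rw [Category.assoc] at k3
  have e1 : ins Y X X' ≫ (((Y ◁ a') ≫ eps hR V) ▷ X) ≫ Phi hR f (V ⊗ X) ≫ rem Y X X' =
      ins Y X X' ≫ ((Y ◁ a') ▷ X) ≫ (eps hR V ▷ X) ≫ Phi hR f (V ⊗ X) ≫ rem Y X X' := by
    rw [comp_whiskerRight, Category.assoc]
  rw [e1] at k2
  have e2 : ins Y X X' ≫ ((Y ◁ a') ▷ X) ≫ (eps hR V ⊗ₘ Phi hR f X) ≫ rem Y X X' =
      ins Y X X' ≫ (eps hR V ⊗ₘ (a ≫ Phi hR f X)) ≫ rem Y X X' := by
    rw [← Category.assoc, ins_Mt h, Category.assoc, MonoidalCategory.tensorHom_def,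
      MonoidalCategory.tensorHom_def, MonoidalCategory.whiskerLeft_comp, Category.assoc,
      Category.assoc, Category.assoc, whisker_exchange_assoc]
  rw [e2] at k3
  have k4 := ((((Q.refl (R := R) (eps hR V)).tensor hR hc)).right (rem Y X X')).left hR
    (ins Y X X')
  have e3 : ins Y X X' ≫ (eps hR V ⊗ₘ (c • a)) ≫ rem Y X X' = c • Phi hR a' Y := by
    rw [tensor_smul', Linear.smul_comp, Linear.comp_smul, e0]
    congr 1
    rw [comp_whiskerRight, Category.assoc, ← Category.assoc (ins Y X X') ((Y ◁ a') ▷ X), ins_Mt h,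
      Category.assoc, MonoidalCategory.tensorHom_def, Category.assoc, whisker_exchange_assoc]
  rw [e3] at k4
  exact k1.trans (k2.trans (k3.trans k4))

end Pool.Agent.P8H25.Sp
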