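import Pool.Agent.P8H25.SpE

/-!
# Transposes, traces and ranks
-/

set_option autoImplicit false
set_option linter.unusedSectionVars false

open CategoryTheory Limits MonoidalCategory Module
open Pool.Agent.Y112.SR Pool.Agent.Y112.KD Pool.Agent.N64.AF
open Pool.Agent.Y116.MT (tr)
open Pool.Agent.N64.AF.A1aux

namespace Pool.Agent.P8H25.Sp

universe v u w

open Functor.LaxMonoidal Functor.OplaxMonoidal

section Cat

variable {C : Type u} [Category.{v} C] [MonoidalCategory C]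

/-- The transpose for a general dual. -/
def mt {X X' : C} [ExactPairing X X'] (a : X ⟶ X) : X' ⟶ X' :=
  @rightAdjointMate C _ _ X X ⟨X'⟩ ⟨X'⟩ a

lemma mt_Mt {X X' : C} [ExactPairing X X'] (a : X ⟶ X) : Mt a (mt (X' := X') a) :=
  (@coevaluation_comp_rightAdjointMate C _ _ X X ⟨X'⟩ ⟨X'⟩ a).symm

lemma Mt_unique {X X' : C} [ExactPairing X X'] {a : X ⟶ X} {b : X' ⟶ X'} (h : Mt a b) :
    b = mt a := by
  have h1 : mt (X' := X') a = (ρ_ X').inv ≫ X' ◁ (η_ X X' ≫ a ▷ X') ≫ (α_ X' X X').inv ≫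
      ε_ X X' ▷ X' ≫ (λ_ X').hom := by
    rw [MonoidalCategory.whiskerLeft_comp, Category.assoc]
    rfl
  rw [h1, h, MonoidalCategory.whiskerLeft_comp, Category.assoc,
    associator_inv_naturality_right_assoc, whisker_exchange_assoc]
  have h2 := ExactPairing.coevaluation_evaluation X X'
  have h3 : (ρ_ X').inv ≫ X' ◁ η_ X X' ≫ (α_ X' X X').inv ≫ ε_ X X' ▷ X' ≫ 𝟙_ C ◁ b ≫
      (λ_ X').hom = (ρ_ X').inv ≫ (X' ◁ η_ X X' ≫ (α_ X' X X').inv ≫ ε_ X X' ▷ X') ≫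
      𝟙_ C ◁ b ≫ (λ_ X').hom := by simp only [Category.assoc]
  rw [h3, h2]
  simp

lemma mt_id {X X' : C} [ExactPairing X X'] : mt (X' := X') (𝟙 X) = 𝟙 X' := by
  symm
  apply Mt_unique
  rw [Mt, id_whiskerRight, MonoidalCategory.whiskerLeft_id]

lemma Mt.comp {X X' : C} [ExactPairing X X'] {a b : X ⟶ X} {a' b' : X' ⟶ X'} (h : Mt a a')
    (h' : Mt b b') : Mt (a ≫ b) (b' ≫ a') := by
  rw [Mt, comp_whiskerRight, MonoidalCategory.whiskerLeft_comp, ← Category.assoc, h, Category.assoc,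
    whisker_exchange, ← Category.assoc, h', Category.assoc]

lemma mt_comp {X X' : C} [ExactPairing X X'] (a b : X ⟶ X) :
    mt (X' := X') (a ≫ b) = mt b ≫ mt a :=
  (Mt_unique ((mt_Mt a).comp (mt_Mt b))).symm

/-- The transpose of a tensor product. -/
lemma Mt.tensor {X X' Y Y' : C} [ExactPairing X X'] [ExactPairing Y Y'] {a : X ⟶ X}
    {a' : X' ⟶ X'} {b : Y ⟶ Y} {b' : Y' ⟶ Y'} (h : Mt a a') (h' : Mt b b') :
    Mt (a ⊗ₘ b) (b' ⊗ₘ a') := by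
  unfold Mt at *
  rw [ExactPairing.tensor_coevaluation]
  calc
    _ = η_ X X' ⊗≫ (X ◁ η_ Y Y' ≫ a ▷ (Y ⊗ Y')) ▷ X' ⊗≫ (X ◁ (b ▷ Y')) ▷ X' ⊗≫ 𝟙 _ := by
      rw [MonoidalCategory.tensorHom_def]; monoidal
    _ = η_ X X' ⊗≫ (a ▷ 𝟙_ C ≫ X ◁ η_ Y Y') ▷ X' ⊗≫ (X ◁ (b ▷ Y')) ▷ X' ⊗≫ 𝟙 _ := by
      rw [whisker_exchange]
    _ = (η_ X X' ≫ a ▷ X') ⊗≫ (X ◁ (η_ Y Y' ≫ b ▷ Y')) ▷ X' ⊗≫ 𝟙 _ := by monoidal
    _ = (η_ X X' ≫ X ◁ a') ⊗≫ (X ◁ (η_ Y Y' ≫ Y ◁ b')) ▷ X' ⊗≫ 𝟙 _ := by rw [h, h']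
    _ = η_ X X' ⊗≫ X ◁ (𝟙_ C ◁ a' ≫ (η_ Y Y' ≫ Y ◁ b') ▷ X') ⊗≫ 𝟙 _ := by monoidal
    _ = η_ X X' ⊗≫ X ◁ ((η_ Y Y' ≫ Y ◁ b') ▷ X' ≫ (Y ⊗ Y') ◁ a') ⊗≫ 𝟙 _ := by
      rw [whisker_exchange]
    _ = _ := by rw [MonoidalCategory.tensorHom_def]; monoidal

end Cat

section Sym

variable {C : Type u} [Category.{v} C] [MonoidalCategory C] [SymmetricCategory C]

lemma Mt.swap {X X' : C} [ExactPairing X X'] {a : X ⟶ X} {a' : X' ⟶ X'} (h : Mt a a') :
    @Mt C _ _ X' X (BraidedCategory.exactPairing_swap X X') a' a := by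
  let _ : ExactPairing X' X := BraidedCategory.exactPairing_swap X X'
  have h1 : η_ X' X = η_ X X' ≫ (β_ X' X).inv := rfl
  have h4 : (β_ X' X).inv ≫ a' ▷ X = X ◁ a' ≫ (β_ X' X).inv := by
    rw [Iso.inv_comp_eq, ← Category.assoc, Iso.eq_comp_inv]
    exact BraidedCategory.braiding_naturality_left _ _
  have h5 : (β_ X' X).inv ≫ X' ◁ a = a ▷ X' ≫ (β_ X' X).inv := by
    rw [Iso.inv_comp_eq, ← Category.assoc, Iso.eq_comp_inv]
    exact BraidedCategory.braiding_naturality_right _ _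
  rw [Mt, h1, Category.assoc, Category.assoc, h4, h5, ← Category.assoc, ← Category.assoc, h]

lemma exists_Mt {X X' : C} [ExactPairing X X'] (b : X' ⟶ X') : ∃ a : X ⟶ X, Mt a b := by
  let _ : ExactPairing X' X := BraidedCategory.exactPairing_swap X X'
  refine ⟨mt b, ?_⟩
  have h := mt_Mt (X' := X) b
  unfold Mt at *
  have h1 : η_ X' X = η_ X X' ≫ (β_ X' X).inv := rfl
  have h4 : (β_ X' X).inv ≫ b ▷ X = X ◁ b ≫ (β_ X' X).inv := by
    rw [Iso.inv_comp_eq, ← Category.assoc, Iso.eq_comp_inv]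
    exact BraidedCategory.braiding_naturality_left _ _
  have h5 : (β_ X' X).inv ≫ X' ◁ (mt (X' := X) b) = (mt (X' := X) b) ▷ X' ≫ (β_ X' X).inv := by
    rw [Iso.inv_comp_eq, ← Category.assoc, Iso.eq_comp_inv]
    exact BraidedCategory.braiding_naturality_right _ _
  rw [h1, Category.assoc, Category.assoc, h4, h5, ← Category.assoc, ← Category.assoc] at h
  exact ((cancel_mono _).1 h).symm

variable [RightRigidCategory C]

/-- The trace for a general dual. -/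
lemma tr_general {X X' : C} [ExactPairing X X'] (a : X ⟶ X) :
    η_ X X' ≫ a ▷ X' ≫ (β_ X X').hom ≫ ε_ X X' = tr a := by
  obtain ⟨θ, h1, h2⟩ := dual_hom (N := X) (N' := X')
  rw [← h1, Category.assoc, whisker_exchange_assoc, BraidedCategory.braiding_naturality_right_assoc,
    h2]
  rfl

lemma Mt.tr_eq {X X' : C} [ExactPairing X X'] {a : X ⟶ X} {a' : X' ⟶ X'} (h : Mt a a') :
    tr a' = tr a := by
  rw [← tr_general (X' := X') a, ← Category.assoc, h, Category.assoc]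
  let _ : ExactPairing X' X := BraidedCategory.exactPairing_swap X X'
  rw [← tr_general (X' := X) a']
  have h1 : η_ X' X = η_ X X' ≫ (β_ X' X).inv := rfl
  have h2 : ε_ X' X = (β_ X X').hom ≫ ε_ X X' := rfl
  have h4 : (β_ X' X).inv ≫ a' ▷ X = X ◁ a' ≫ (β_ X' X).inv := by
    rw [Iso.inv_comp_eq, ← Category.assoc, Iso.eq_comp_inv]
    exact BraidedCategory.braiding_naturality_left _ _
  rw [h1, h2, Category.assoc, reassoc_of% h4, Iso.inv_hom_id_assoc]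

end Sym

end Pool.Agent.P8H25.Sp
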