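import Pool.Agent.P8H25.SpF

/-!
# Numerically simple idempotents
-/

set_option autoImplicit false
set_option linter.unusedSectionVars false

open CategoryTheory Limits MonoidalCategory Module
open Pool.Agent.Y112.SR Pool.Agent.Y112.KD Pool.Agent.N64.AF
open Pool.Agent.Y116.MT (tr)
open Pool.Agent.N64.AF.A1aux

namespace Pool.Agent.P8H25.Sp

universe v u w

open Functor.LaxMonoidal Functor.OplaxMonoidal

variable {C : Type u} [Category.{v} C] [Preadditive C] [MonoidalCategory C]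
  [MonoidalPreadditive C] [SymmetricCategory C] [RightRigidCategory C]
  {K : Type w} [Field K] [CharZero K] [Linear K C] [MonoidalLinear K C]
  {R : SuperRealisation C K}

section Mate

lemma tr_st (hR : Nice R) {X : C} (a : X ⟶ X) : tr a = st R a • 𝟙 (𝟙_ C) := by
  obtain ⟨q, hq⟩ := exq hR.real a
  have h := st_eq hR.real a q hq
  rw [hq, ← h]
  rfl

lemma Mt.st_eq (hR : Nice R) {X X' : C} [ExactPairing X X'] {a : X ⟶ X} {a' : X' ⟶ X'}
    (h : Mt a a') : st R a' = st R a := by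
  have h1 := h.tr_eq
  rw [tr_st hR, tr_st hR] at h1
  have h2 := congrArg (st R) h1
  rw [st_smul hR, st_smul hR, st_one, mul_one, mul_one] at h2
  exact h2

lemma Mt_add {X X' : C} [ExactPairing X X'] {a b : X ⟶ X} {a' b' : X' ⟶ X'} (h : Mt a a')
    (h' : Mt b b') : Mt (a + b) (a' + b') := by
  rw [Mt, MonoidalPreadditive.add_whiskerRight, MonoidalPreadditive.whiskerLeft_add,
    Preadditive.comp_add, Preadditive.comp_add, h, h']

lemma Mt_sub {X X' : C} [ExactPairing X X'] {a b : X ⟶ X} {a' b' : X' ⟶ X'} (h : Mt a a')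
    (h' : Mt b b') : Mt (a - b) (a' - b') := by
  rw [Mt, subR, subL, Preadditive.comp_sub, Preadditive.comp_sub, h, h']

lemma Mt_smul {X X' : C} [ExactPairing X X'] {a : X ⟶ X} {a' : X' ⟶ X'} (h : Mt a a') (c : K) :
    Mt (c • a) (c • a') := by
  rw [Mt, MonoidalLinear.smul_whiskerRight, MonoidalLinear.whiskerLeft_smul, Linear.comp_smul,
    Linear.comp_smul, h]

lemma Mt_id {X X' : C} [ExactPairing X X'] : Mt (𝟙 X) (𝟙 X') := by
  rw [Mt, id_whiskerRight, MonoidalCategory.whiskerLeft_id]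

lemma Mt_zero {X X' : C} [ExactPairing X X'] : Mt (0 : X ⟶ X) (0 : X' ⟶ X') := by
  have h := Mt_sub (Mt_id (X := X) (X' := X')) (Mt_id (X := X) (X' := X'))
  rwa [sub_self, sub_self] at h

lemma mt_add {X X' : C} [ExactPairing X X'] (a b : X ⟶ X) :
    mt (X' := X') (a + b) = mt a + mt b := (Mt_unique (Mt_add (mt_Mt a) (mt_Mt b))).symm

lemma mt_zero {X X' : C} [ExactPairing X X'] : mt (X' := X') (0 : X ⟶ X) = 0 :=
  (Mt_unique Mt_zero).symm

lemma mt_sum {X X' : C} [ExactPairing X X'] {ι : Type*} (s : Finset ι) (a : ι → (X ⟶ X)) :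
    mt (X' := X') (∑ i ∈ s, a i) = ∑ i ∈ s, mt (a i) := by
  classical
  induction s using Finset.induction_on with
  | empty => rw [Finset.sum_empty, Finset.sum_empty, mt_zero]
  | insert a s ha ih => rw [Finset.sum_insert ha, Finset.sum_insert ha, mt_add, ih]

lemma mt_smul {X X' : C} [ExactPairing X X'] (c : K) (a : X ⟶ X) :
    mt (X' := X') (c • a) = c • mt a := (Mt_unique (Mt_smul (mt_Mt a) c)).symm

/-- Transposition preserves numerical equality. -/
lemma Q.mt (hR : Nice R) {X X' : C} [ExactPairing X X'] {a b : X ⟶ X} (h : Q R a b) :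
    Q R (Sp.mt (X' := X') a) (Sp.mt b) := by
  intro k
  obtain ⟨l, hl⟩ := exists_Mt (X := X) k
  have h1 := (hl.comp (mt_Mt (X' := X') a)).st_eq hR
  have h2 := (hl.comp (mt_Mt (X' := X') b)).st_eq hR
  rw [h1, h2, st_comm' hR, st_comm' hR l]
  exact h l

lemma trace_Mt {X X' : C} [ExactPairing X X'] {a : X ⟶ X} {a' : X' ⟶ X'} (h : Mt a a') :
    LinearMap.trace K _ (mp R a') = LinearMap.trace K _ (mp R a) := by
  let θ : Xᘁ ≅ X' := rightDualIso (HasRightDual.exact : ExactPairing X Xᘁ) ‹ExactPairing X X'›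
  have h1 : η_ X Xᘁ ≫ X ◁ θ.hom = η_ X X' := by
    have h := @coevaluation_comp_rightAdjointMate C _ _ X X ⟨X'⟩ _ (𝟙 X)
    rw [id_whiskerRight, Category.comp_id] at h
    exact h
  have h2 : Mt a (θ.inv ≫ aᘁ ≫ θ.hom) := by
    have h3 : η_ X Xᘁ ≫ X ◁ aᘁ = η_ X Xᘁ ≫ a ▷ Xᘁ := coevaluation_comp_rightAdjointMate a
    rw [Mt, ← h1, Category.assoc, Category.assoc, ← MonoidalCategory.whiskerLeft_comp,
      Iso.hom_inv_id_assoc, MonoidalCategory.whiskerLeft_comp, reassoc_of% h3, whisker_exchange]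
  have h4 : a' = θ.inv ≫ aᘁ ≫ θ.hom := by rw [Mt_unique h, Mt_unique h2]
  have h0 := R.finite Xᘁ
  have h0' := R.finite X'
  have h5 : mp R a' = (mp R θ.hom ∘ₗ mp R (aᘁ)) ∘ₗ mp R θ.inv := by rw [h4, mp_comp, mp_comp]
  have h6 : mp R θ.inv ∘ₗ (mp R θ.hom ∘ₗ mp R (aᘁ)) = mp R (aᘁ) := by
    rw [← mp_comp, ← mp_comp, Category.assoc, Iso.hom_inv_id, Category.comp_id]
  rw [h5, LinearMap.trace_comp_comm', h6]
  exact P2aux.trace_mate R a

lemma Mt.idem {X X' : C} [ExactPairing X X'] {a : X ⟶ X} {a' : X' ⟶ X'} (h : Mt a a')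
    (ha : a ≫ a = a) : a' ≫ a' = a' := by
  have h1 := h.comp h
  rw [ha] at h1
  rw [Mt_unique h1, Mt_unique h]

lemma Mt.rk {X X' : C} [ExactPairing X X'] {a : X ⟶ X} {a' : X' ⟶ X'} (h : Mt a a')
    (ha : a ≫ a = a) : rk R a' = rk R a := by
  have h1 := trace_Mt (R := R) h
  rw [trace_idem' ha, trace_idem' (h.idem ha)] at h1
  exact_mod_cast h1

end Mate

section Simple

/-- Numerically simple idempotents: the endomorphisms below it are numerically scalars, and it is
not numerically trivial. -/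
structure Pm (R : SuperRealisation C K) {X : C} (a : X ⟶ X) : Prop where
  idem : a ≫ a = a
  ne : st R a ≠ 0
  scal : ∀ z : X ⟶ X, ∃ c : K, Q R (a ≫ z ≫ a) (c • a)

lemma Pm.mt (hR : Nice R) {X X' : C} [ExactPairing X X'] {a : X ⟶ X} {a' : X' ⟶ X'}
    (h : Mt a a') (ha : Pm R a) : Pm R a' := by
  refine ⟨h.idem ha.idem, ?_, fun z => ?_⟩
  · rw [h.st_eq hR]
    exact ha.ne
  · obtain ⟨y, hy⟩ := exists_Mt (X := X) z
    obtain ⟨c, hc⟩ := ha.scal y
    refine ⟨c, ?_⟩
    have h1 := hc.mt hR (X' := X')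
    have h2 : Sp.mt (X' := X') (a ≫ y ≫ a) = a' ≫ z ≫ a' := by
      rw [mt_comp, mt_comp, ← Mt_unique h, ← Mt_unique hy, Category.assoc]
    rw [h2, mt_smul, ← Mt_unique h] at h1
    exact h1

lemma Pm.phi (hR : Nice R) {X A : C} {a : X ⟶ X} (ha : Pm R a) (f : A ⟶ A) :
    ∃ c : K, Q R (a ≫ Phi hR f X) (c • a) ∧ B hR a f = c * st R a := by
  obtain ⟨c, hc⟩ := ha.scal (Phi hR f X)
  have h1 : Q R (a ≫ Phi hR f X) (c • a) := by
    have h2 := (Phi_nat hR f a).left hR a
    rw [← Category.assoc, ha.idem] at h2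
    exact h2.trans hc
  refine ⟨c, h1, ?_⟩
  rw [B_eq, h1.ste, st_smul hR]

/-- The equivalence relation on the simple idempotents. -/
def Rel (hR : Nice R) {X Y : C} (a : X ⟶ X) (b : Y ⟶ Y) : Prop :=
  ∀ (A : C) (f : A ⟶ A), B hR b f * st R a = B hR a f * st R b

lemma Rel.refl (hR : Nice R) {X : C} (a : X ⟶ X) : Rel hR a a := fun _ _ => rfl

lemma Rel.symm {hR : Nice R} {X Y : C} {a : X ⟶ X} {b : Y ⟶ Y} (h : Rel hR a b) :
    Rel hR b a := fun A f => (h A f).symm

lemma Rel.trans {hR : Nice R} {X Y Z : C} {a : X ⟶ X} {b : Y ⟶ Y} {c : Z ⟶ Z} (hb : Pm R b)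
    (h : Rel hR a b) (h' : Rel hR b c) : Rel hR a c := by
  intro A f
  have h1 := h A f
  have h2 := h' A f
  have h3 := hb.ne
  apply mul_right_cancel₀ h3
  calc B hR c f * st R a * st R b = B hR c f * st R b * st R a := by ring
    _ = B hR b f * st R c * st R a := by rw [h2]
    _ = B hR b f * st R a * st R c := by ring
    _ = B hR a f * st R b * st R c := by rw [h1]
    _ = _ := by ring

/-- If the pairing of `b` with the transpose of `a` is not zero then they are related. -/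
lemma rel_of_ne (hR : Nice R) {X X' Y : C} [ExactPairing X X'] {a : X ⟶ X} {a' : X' ⟶ X'}
    (h : Mt a a') (ha : Pm R a) {b : Y ⟶ Y} (hb : Pm R b) (hab : B hR b a' ≠ 0) :
    Rel hR a b := by
  intro A f
  obtain ⟨c, hc, hc'⟩ := ha.phi hR f
  obtain ⟨d, hd, hd'⟩ := hb.phi hR f
  have h1 := Phi_Phi hR (Y := Y) h f hc
  have h2 : c * B hR b a' = d * B hR b a' := by
    have e1 := (h1.left hR b).ste
    have e2 := (hd.right (Phi hR a' Y)).ste
    rw [← Category.assoc] at e1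
    rw [e1, Linear.comp_smul, Linear.smul_comp, st_smul hR, st_smul hR, ← B_eq] at e2
    exact e2
  have h3 : c = d := mul_right_cancel₀ hab h2
  rw [hc', hd', h3]
  ring

/-- The pairing of a simple idempotent with its transpose is not zero. -/
lemma self_ne (hR : Nice R) {X X' : C} [ExactPairing X X'] {a : X ⟶ X} {a' : X' ⟶ X'}
    (h : Mt a a') (ha : Pm R a) : B hR a a' ≠ 0 := by
  have hid : (a ⊗ₘ a') ≫ (a ⊗ₘ a') = a ⊗ₘ a' := by
    rw [MonoidalCategory.tensorHom_comp_tensorHom, ha.idem, h.idem ha.idem]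
  intro h0
  rw [B, ch_eq hR hid] at h0
  have h1 : ch hR (a ⊗ₘ a') = 0 := by exact_mod_cast h0
  have h2 := ch_zero hR hid h1 (((β_ X X').hom ≫ ε_ X X') ≫ η_ X X')
  have h3 : PE R (𝟙 (𝟙_ C)) := by
    rw [PE_iff, CategoryTheory.Functor.map_id, Category.comp_id, R.par_unit]
  have h4 := pe_eps_left hR h3
  rw [Category.comp_id] at h4
  have h5 := (eps_nat hR (η_ X X')).symm
  have h6 := (h5.trans (h4.right (η_ X X'))).right (a ⊗ₘ a')
  rw [Category.id_comp, Category.assoc] at h6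
  have h7 := (h6.left hR ((β_ X X').hom ≫ ε_ X X')).ste
  rw [← Category.assoc, h2, st_comm' hR] at h7
  have h8 : (η_ X X' ≫ (a ⊗ₘ a')) ≫ (β_ X X').hom ≫ ε_ X X' = tr a := by
    have e1 : η_ X X' ≫ (a ⊗ₘ a') = η_ X X' ≫ (a ▷ X') := by
      rw [MonoidalCategory.tensorHom_def', ← Category.assoc, ← h, Category.assoc,
        ← comp_whiskerRight, ha.idem]
    rw [e1, Category.assoc, tr_general]
  rw [h8, tr_st hR, st_smul hR, st_one, mul_one] at h7
  exact ha.ne h7.symm

lemma Rel.ne {hR : Nice R} {X X' Y : C} [ExactPairing X X'] {a : X ⟶ X} {a' : X' ⟶ X'}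
    {b : Y ⟶ Y} (hr : Rel hR a b) (h : Mt a a') (ha : Pm R a) (hb : Pm R b) :
    B hR b a' ≠ 0 := by
  intro h0
  have h1 := hr _ a'
  rw [h0, zero_mul] at h1
  exact mul_ne_zero (self_ne hR h ha) hb.ne h1.symm

/-- The symmetry of the pairing. -/
lemma B_dual (hR : Nice R) {X X' Y Y' : C} [ExactPairing X X'] [ExactPairing Y Y'] {a : X ⟶ X}
    {a' : X' ⟶ X'} {b : Y ⟶ Y} {b' : Y' ⟶ Y'} (h : Mt a a') (h' : Mt b b') (ha : Pm R a)
    (hb : Pm R b) : B hR a b' = B hR b a' := by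
  by_cases hr : Rel hR a b
  · have h1 : B hR a b' ≠ 0 := Rel.ne hr.symm h' hb ha
    have h2 : Rel hR a' b' := by
      let _ : ExactPairing X' X := BraidedCategory.exactPairing_swap X X'
      refine rel_of_ne hR h.swap (ha.mt hR h) (hb.mt hR h') ?_
      rw [B_symm]
      exact h1
    have h3 := h2 _ a
    rw [h.st_eq hR, h'.st_eq hR, B_symm hR b' a, B_symm hR a' a] at h3
    have h4 := hr _ a'
    rw [← h4] at h3
    exact mul_right_cancel₀ ha.ne h3
  · have h1 : B hR b a' = 0 := by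
      by_contra h0
      exact hr (rel_of_ne hR h ha hb h0)
    have h2 : B hR a b' = 0 := by
      by_contra h0
      exact hr (rel_of_ne hR h' hb ha h0).symm
    rw [h1, h2]

end Simple

end Pool.Agent.P8H25.Sp
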