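import Pool.Agent.P8H25.SpG

/-!
# Decomposition into numerically simple idempotents
-/

set_option autoImplicit false
set_option linter.unusedSectionVars false

open CategoryTheory Limits MonoidalCategory Module
open Pool.Agent.Y112.SR Pool.Agent.Y112.KD Pool.Agent.N64.AF
open Pool.Agent.Y116.MT (tr)
open Pool.Agent.N64.AF.A1aux

namespace Pool.Agent.P8H25.Sp

universe v u w

open Functor.LaxMonoidal Functor.OplaxMonoidal

variable {C : Type u} [Category.{v} C] [Preadditive C] [MonoidalCategory C]
  [MonoidalPreadditive C] [SymmetricCategory C] [RightRigidCategory C]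
  {K : Type w} [Field K] [CharZero K] [Linear K C] [MonoidalLinear K C]
  {R : SuperRealisation C K}

/-- The Fitting projector of an endomorphism. -/
lemma fit (hR : Nice R) {X : C} (y : X ⟶ X) : ∃ s : X ⟶ X, (y ≫ s) ≫ (y ≫ s) = y ≫ s ∧
    y ≫ s = s ≫ y ∧ (y ≫ s = 0 → IsNilpotent (mp R y : Module.End K (R.H.obj X))) := by
  have := R.finite X
  set z : Module.End K (R.H.obj X) := mp R y with hz
  obtain ⟨p, hp1, hp2⟩ := Pool.Agent.N8.AFBb.exists_fit z
  let a₀ : End X := y
  let g : End X := Polynomial.aeval a₀ p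
  have hmap : ∀ r : Polynomial K, mp R (Polynomial.aeval a₀ r : End X) = Polynomial.aeval z r := by
    intro r
    induction r using Polynomial.induction_on' with
    | add r s hr hs =>
      rw [map_add, map_add, ← hr, ← hs]
      exact mp_add _ _
    | monomial n c =>
      have e1 : ∀ n : ℕ, mp R (a₀ ^ n : End X) = z ^ n := by
        intro n
        induction n with
        | zero => rw [pow_zero, pow_zero]; exact mp_id X
        | succ n ih =>
          rw [pow_succ, pow_succ, ← ih]
          exact mp_comp (R := R) a₀ (a₀ ^ n : End X)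
      rw [Polynomial.aeval_monomial, Polynomial.aeval_monomial, ← Algebra.smul_def,
        ← Algebra.smul_def, ← e1]
      exact mp_smul hR c _
  have hcomm : a₀ * g = g * a₀ := by
    have h3 : Commute a₀ g := by
      have h4 : (Polynomial.aeval a₀ (Polynomial.X : Polynomial K)) = a₀ := Polynomial.aeval_X a₀
      have h5 : Commute (Polynomial.aeval a₀ (Polynomial.X : Polynomial K)) g := by
        rw [Commute, SemiconjBy, ← map_mul, ← map_mul, mul_comm]
      rwa [h4] at h5
    exact h3
  have hg : mp R g = Polynomial.aeval z p := hmap p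
  refine ⟨g, ?_, hcomm.symm, ?_⟩
  · apply hR.faith
    apply ModuleCat.hom_ext
    change mp R ((y ≫ g) ≫ (y ≫ g)) = mp R (y ≫ g)
    rw [mp_comp, mp_comp, hg]
    exact hp1
  · intro h0
    apply hp2
    have h3 : mp R (y ≫ g) = 0 := by rw [h0, mp_zero]
    rw [mp_comp, hg] at h3
    exact h3

lemma st_nilp {X : C} {f : X ⟶ X} (h : IsNilpotent (mp R f : Module.End K (R.H.obj X))) :
    st R f = 0 := by
  have h1 : Commute (pr R X : Module.End K (R.H.obj X)) (mp R f) := mp_pr f
  have h2 : IsNilpotent ((pr R X : Module.End K (R.H.obj X)) * mp R f) := h1.isNilpotent_mul_left h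
  exact (LinearMap.isNilpotent_trace_of_isNilpotent h2).eq_zero

/-- Primitive idempotents. -/
def Prm {X : C} (g : X ⟶ X) : Prop :=
  g ≫ g = g ∧ g ≠ 0 ∧ ∀ f : X ⟶ X, f ≫ f = f → g ≫ f = f → f ≫ g = f → f = 0 ∨ f = g

variable [IsAlgClosed K]

/-- The endomorphisms below a primitive idempotent are scalars up to nilpotents. -/
lemma corner (hR : Nice R) {X : C} {g : X ⟶ X} (hg : Prm g) {y : X ⟶ X} (h1 : g ≫ y = y)
    (h2 : y ≫ g = y) :
    ∃ c : K, IsNilpotent (mp R (y - c • g) : Module.End K (R.H.obj X)) := by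
  have := R.finite X
  obtain ⟨hgg, hg0, hprim⟩ := hg
  set G : Module.End K (R.H.obj X) := mp R g with hG
  set A : Module.End K (R.H.obj X) := mp R y with hA
  have hGG : G * G = G := by
    change mp R g ∘ₗ mp R g = mp R g
    rw [← mp_comp, hgg]
  have hGA : G * A = A := by
    change mp R g ∘ₗ mp R y = mp R y
    rw [← mp_comp, h2]
  have hGne : G ≠ 0 := by
    intro h0
    apply hg0
    apply hR.faith
    apply ModuleCat.hom_ext
    rw [Functor.map_zero]
    exact h0
  let U := LinearMap.range G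
  have hU : ∀ x ∈ U, G x = x := by
    rintro _ ⟨x, rfl⟩
    exact LinearMap.congr_fun hGG x
  have hAU : ∀ x ∈ U, A x ∈ U := fun x _ => ⟨A x, LinearMap.congr_fun hGA x⟩
  have hnt : Nontrivial U := by
    rw [Submodule.nontrivial_iff_ne_bot]
    intro h0
    exact hGne (LinearMap.range_eq_bot.1 h0)
  obtain ⟨c, hc⟩ := Module.End.exists_eigenvalue (A.restrict hAU)
  obtain ⟨v, hv⟩ := hc.exists_hasEigenvector
  have hv1 : A (v : R.H.obj X) = c • (v : R.H.obj X) :=
    congrArg Subtype.val (Module.End.mem_eigenspace_iff.1 hv.1)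
  have hv2 : (v : R.H.obj X) ≠ 0 := fun h0 => hv.2 (Subtype.ext h0)
  refine ⟨c, ?_⟩
  set y' := y - c • g with hy'
  have k1 : g ≫ y' = y' := by
    rw [hy', Preadditive.comp_sub, h1, Linear.comp_smul, hgg]
  have k2 : y' ≫ g = y' := by
    rw [hy', Preadditive.sub_comp, h2, Linear.smul_comp, hgg]
  obtain ⟨s, s1, s2, s3⟩ := fit hR y'
  rcases hprim (y' ≫ s) s1 (by rw [← Category.assoc, k1]) (by rw [s2, Category.assoc, k2]) with h | h
  · exact s3 h
  · exfalso
    apply hv2
    have e1 : mp R y' (v : R.H.obj X) = 0 := by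
      rw [hy', mp_sub, mp_smul hR, LinearMap.sub_apply, LinearMap.smul_apply]
      change A (v : R.H.obj X) - c • G (v : R.H.obj X) = 0
      rw [hv1, hU _ v.2, sub_self]
    have e2 : mp R (y' ≫ s) (v : R.H.obj X) = 0 := by
      rw [mp_comp, LinearMap.comp_apply, e1, map_zero]
    rw [h] at e2
    rw [← hU _ v.2]
    exact e2

/-- Numerically, the endomorphisms below a primitive idempotent are scalars. -/
lemma prm_scal (hR : Nice R) {X : C} {g : X ⟶ X} (hg : Prm g) (z : X ⟶ X) :
    ∃ c : K, Q R (g ≫ z ≫ g) (c • g) := by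
  have := R.finite X
  have hgg := hg.1
  set y := g ≫ z ≫ g with hy
  have h1 : g ≫ y = y := by rw [hy, ← Category.assoc, hgg]
  have h2 : y ≫ g = y := by rw [hy, Category.assoc, Category.assoc, hgg]
  obtain ⟨c, hc⟩ := corner hR hg h1 h2
  refine ⟨c, ?_⟩
  set n := y - c • g with hn
  have n1 : g ≫ n = n := by rw [hn, Preadditive.comp_sub, h1, Linear.comp_smul, hgg]
  have n2 : n ≫ g = n := by rw [hn, Preadditive.sub_comp, h2, Linear.smul_comp, hgg]
  have key : ∀ w : X ⟶ X, st R (n ≫ w) = 0 := by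
    intro w
    set m := n ≫ (g ≫ w ≫ g) with hm
    have e1 : st R (n ≫ w) = st R m := by
      rw [hm]
      have e2 : n ≫ g ≫ w ≫ g = (n ≫ w) ≫ g := by
        rw [← Category.assoc, n2, Category.assoc]
      rw [e2, st_comm' hR (n ≫ w) g, ← Category.assoc, n1]
    rw [e1]
    have m1 : g ≫ m = m := by rw [hm, ← Category.assoc, n1]
    have m2 : m ≫ g = m := by rw [hm, Category.assoc, Category.assoc, Category.assoc, hgg]
    obtain ⟨d, hd⟩ := corner hR hg m1 m2
    -- a vector killed by `n`
    obtain ⟨v, hv0, hvg, hvn⟩ : ∃ v : R.H.obj X, v ≠ 0 ∧ mp R g v = v ∧ mp R n v = 0 := by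
      obtain ⟨k, hk⟩ := hc
      have hG0 : ∃ x : R.H.obj X, mp R g x ≠ 0 := by
        by_contra hcon
        push Not at hcon
        apply hg.2.1
        apply hR.faith
        apply ModuleCat.hom_ext
        rw [Functor.map_zero]
        exact LinearMap.ext hcon
      obtain ⟨x, hx⟩ := hG0
      have hex : ∃ j, ((mp R n : Module.End K (R.H.obj X)) ^ j) (mp R g x) = 0 :=
        ⟨k, by rw [hk, LinearMap.zero_apply]⟩
      classical
      have hj := Nat.find_spec hex
      have hj0 : Nat.find hex ≠ 0 := by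
        intro h0
        rw [h0, pow_zero, Module.End.one_apply] at hj
        exact hx hj
      obtain ⟨j, hj'⟩ := Nat.exists_eq_succ_of_ne_zero hj0
      refine ⟨((mp R n : Module.End K (R.H.obj X)) ^ j) (mp R g x),
        Nat.find_min hex (by omega), ?_, ?_⟩
      · have hcm : Commute (mp R g : Module.End K (R.H.obj X)) (mp R n) := by
          change mp R g ∘ₗ mp R n = mp R n ∘ₗ mp R g
          rw [← mp_comp, ← mp_comp, n1, n2]
        have h3 := (hcm.pow_right j).eq
        have h4 := LinearMap.congr_fun h3 (mp R g x)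
        rw [Module.End.mul_apply, Module.End.mul_apply] at h4
        rw [h4]
        congr 1
        rw [← LinearMap.comp_apply, ← mp_comp, hgg]
      · rw [hj', Nat.succ_eq_add_one, pow_succ', Module.End.mul_apply] at hj
        exact hj
    have hmv : mp R m v = 0 := by rw [hm, mp_comp, LinearMap.comp_apply, hvn, map_zero]
    have hdv : mp R (m - d • g) v = -(d • v) := by
      rw [mp_sub, mp_smul hR, LinearMap.sub_apply, LinearMap.smul_apply, hmv, hvg, zero_sub]
    have hd0 : d = 0 := by
      obtain ⟨k, hk⟩ := hd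
      have h3 : ∀ j : ℕ, ((mp R (m - d • g) : Module.End K (R.H.obj X)) ^ j) v = (-d) ^ j • v := by
        intro j
        induction j with
        | zero => simp
        | succ j ih =>
          rw [pow_succ', Module.End.mul_apply, ih, map_smul, hdv, pow_succ, mul_smul, neg_smul]
      have h4 := h3 k
      rw [hk, LinearMap.zero_apply] at h4
      have h5 := (smul_eq_zero.1 h4.symm).resolve_right hv0
      exact neg_eq_zero.1 (eq_zero_of_pow_eq_zero h5)
    rw [hd0, zero_smul, sub_zero] at hd
    exact st_nilp hd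
  intro w
  have h3 := key w
  rw [hn, Preadditive.sub_comp, st_sub, sub_eq_zero] at h3
  exact h3

lemma prm_cases (hR : Nice R) {X : C} {g : X ⟶ X} (hg : Prm g) : Pm R g ∨ Q R g 0 := by
  by_cases h : st R g = 0
  · right
    intro w
    obtain ⟨c, hc⟩ := prm_scal hR hg w
    have h1 := hc.ste
    rw [st_smul hR, h, mul_zero, st_comm' hR, Category.assoc, hg.1, st_comm' hR] at h1
    rw [h1, zero_comp, st_zero]
  · exact Or.inl ⟨hg.1, h, prm_scal hR hg⟩

/-- **Decomposition of an idempotent.** -/
theorem decomp (hR : Nice R) {X : C} : ∀ (n : ℕ) (g : X ⟶ X), g ≫ g = g → rk R g = n →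
    ∃ (ι : Type) (_ : Fintype ι) (a : ι → (X ⟶ X)), (∀ i, Prm (a i)) ∧
      (∀ i, g ≫ a i = a i ∧ a i ≫ g = a i) ∧ (∀ i j, i ≠ j → a i ≫ a j = 0) ∧
      ∑ i, a i = g := by
  intro n
  induction n using Nat.strong_induction_on with
  | _ n ih =>
    intro g hgg hn
    by_cases hg0 : g = 0
    · exact ⟨Empty, inferInstance, fun a => a.elim, fun a => a.elim, fun a => a.elim,
        fun a => a.elim, by rw [hg0]; simp⟩
    by_cases hprim : Prm g
    · refine ⟨Unit, inferInstance, fun _ => g, fun _ => hprim, fun _ => ⟨hgg, hgg⟩,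
        fun a b hab => absurd (Subsingleton.elim a b) hab, by simp⟩
    · have h1 : ∃ f : X ⟶ X, f ≫ f = f ∧ g ≫ f = f ∧ f ≫ g = f ∧ f ≠ 0 ∧ f ≠ g := by
        by_contra hcon
        push Not at hcon
        refine hprim ⟨hgg, hg0, fun f hff hef hfe => ?_⟩
        by_contra hno
        push Not at hno
        exact hno.2 (hcon f hff hef hfe hno.1)
      obtain ⟨f, hff, hgf, hfg, hf0, hfne⟩ := h1
      set h := g - f with hh
      have hhh : h ≫ h = h := by
        rw [hh, Preadditive.sub_comp, Preadditive.comp_sub, Preadditive.comp_sub, hgg, hgf, hfg, hff]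
        abel
      have hfh : f ≫ h = 0 := by rw [hh, Preadditive.comp_sub, hfg, hff, sub_self]
      have hhf : h ≫ f = 0 := by rw [hh, Preadditive.sub_comp, hgf, hff, sub_self]
      have hgh : g ≫ h = h := by rw [hh, Preadditive.comp_sub, hgg, hgf]
      have hhg : h ≫ g = h := by rw [hh, Preadditive.sub_comp, hgg, hfg]
      have hsum : f + h = g := by rw [hh]; abel
      have hrk := rk_add hR hff hhh (by rw [hsum, hgg])
      rw [hsum, hn] at hrk
      have hh0 : h ≠ 0 := by
        intro h0
        exact hfne (sub_eq_zero.1 (by rw [← hh]; exact h0)).symm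
      have hp1 : 0 < rk R f := Nat.pos_of_ne_zero fun h0 => hf0 (eq_zero_of_rk hR h0)
      have hp2 : 0 < rk R h := Nat.pos_of_ne_zero fun h0 => hh0 (eq_zero_of_rk hR h0)
      obtain ⟨ι, _, a, h2, h3, h4, h5⟩ := ih _ (by omega) f hff rfl
      obtain ⟨κ, _, b, k2, k3, k4, k5⟩ := ih _ (by omega) h hhh rfl
      refine ⟨ι ⊕ κ, inferInstance, Sum.elim a b, ?_, ?_, ?_, ?_⟩
      · rintro (i | i)
        · exact h2 i
        · exact k2 i
      · rintro (i | i)
        · have h6 := h3 i
          refine ⟨?_, ?_⟩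
          · rw [Sum.elim_inl, ← h6.1, ← Category.assoc, hgf]
          · rw [Sum.elim_inl, ← h6.2, Category.assoc, hfg]
        · have h6 := k3 i
          refine ⟨?_, ?_⟩
          · rw [Sum.elim_inr, ← h6.1, ← Category.assoc, hgh]
          · rw [Sum.elim_inr, ← h6.2, Category.assoc, hhg]
      · rintro (i | i) (j | j) hij
        · exact h4 i j fun h => hij (by rw [h])
        · rw [Sum.elim_inl, Sum.elim_inr, ← (h3 i).2, ← (k3 j).1, Category.assoc,
            ← Category.assoc f, hfh, zero_comp, comp_zero]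
        · rw [Sum.elim_inl, Sum.elim_inr, ← (k3 i).2, ← (h3 j).1, Category.assoc,
            ← Category.assoc h, hhf, zero_comp, comp_zero]
        · exact k4 i j fun h => hij (by rw [h])
      · rw [Fintype.sum_sum_type]
        simp only [Sum.elim_inl, Sum.elim_inr]
        rw [h5, k5, hsum]

/-- Up to numerical equality, an idempotent is a sum of simple ones. -/
theorem decomp_num (hR : Nice R) {X : C} (g : X ⟶ X) (hg : g ≫ g = g) :
    ∃ (ι : Type) (_ : Fintype ι) (a : ι → (X ⟶ X)), (∀ i, Pm R (a i)) ∧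
      (∀ i, g ≫ a i = a i ∧ a i ≫ g = a i) ∧ Q R g (∑ i, a i) := by
  classical
  obtain ⟨ι, _, a, h1, h2, -, h4⟩ := decomp hR _ g hg rfl
  refine ⟨{i // Pm R (a i)}, inferInstance, fun i => a i, fun i => i.2, fun i => h2 i, ?_⟩
  have e1 : ∑ i, a i = ∑ i : {i // Pm R (a i)}, a i + ∑ i : {i // ¬ Pm R (a i)}, a i :=
    (Fintype.sum_subtype_add_sum_subtype (fun i => Pm R (a i)) a).symm
  have e2 : Q R (∑ i : {i // ¬ Pm R (a i)}, a i) 0 := by
    have h5 : Q R (∑ i : {i // ¬ Pm R (a i)}, a i) (∑ i : {i // ¬ Pm R (a i)}, 0) :=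
      Q.sum hR fun i _ => (prm_cases hR (h1 i)).resolve_left i.2
    rwa [Finset.sum_const_zero] at h5
  rw [← h4, e1]
  have h6 := (Q.refl (R := R) (∑ i : {i // Pm R (a i)}, a i)).add e2
  rwa [add_zero] at h6

end Pool.Agent.P8H25.Sp
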