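import Pool.Agent.P8H25.SpH

/-!
# The classes of simple idempotents and the Parseval identity
-/

set_option autoImplicit false
set_option linter.unusedSectionVars false

open CategoryTheory Limits MonoidalCategory Module
open Pool.Agent.Y112.SR Pool.Agent.Y112.KD Pool.Agent.N64.AF
open Pool.Agent.Y116.MT (tr)
open Pool.Agent.N64.AF.A1aux

namespace Pool.Agent.P8H25.Sp

universe v u w x

open Functor.LaxMonoidal Functor.OplaxMonoidal

variable {C : Type u} [Category.{v} C] [Preadditive C] [MonoidalCategory C]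
  [MonoidalPreadditive C] [SymmetricCategory C] [RightRigidCategory C]
  {K : Type w} [Field K] [CharZero K] [Linear K C] [MonoidalLinear K C]
  {R : SuperRealisation C K} [IsAlgClosed K]

/-- The symmetry of the pairing, for all idempotents. -/
lemma B_dual' (hR : Nice R) {X X' Y Y' : C} [ExactPairing X X'] [ExactPairing Y Y'] {g : X ⟶ X}
    {g' : X' ⟶ X'} {h : Y ⟶ Y} {h' : Y' ⟶ Y'} (hg : Mt g g') (hh : Mt h h') (g2 : g ≫ g = g)
    (h2 : h ≫ h = h) : B hR g h' = B hR h g' := by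
  obtain ⟨ι, _, a, a1, -, a3⟩ := decomp_num hR g g2
  obtain ⟨κ, _, b, b1, -, b3⟩ := decomp_num hR h h2
  have a4 : Q R g' (∑ i, mt (a i)) := by
    have h1 := a3.mt hR (X' := X')
    rwa [← Mt_unique hg, mt_sum] at h1
  have b4 : Q R h' (∑ i, mt (b i)) := by
    have h1 := b3.mt hR (X' := Y')
    rwa [← Mt_unique hh, mt_sum] at h1
  rw [B_congr hR a3 b4, B_congr hR b3 a4, B_sum_left, B_sum_left]
  have e1 : ∀ i, B hR (a i) (∑ j, mt (X' := Y') (b j)) = ∑ j, B hR (a i) (mt (X' := Y') (b j)) :=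
    fun i => B_sum_right hR _ _ _
  have e2 : ∀ j, B hR (b j) (∑ i, mt (X' := X') (a i)) = ∑ i, B hR (b j) (mt (X' := X') (a i)) :=
    fun i => B_sum_right hR _ _ _
  rw [Finset.sum_congr rfl fun i _ => e1 i, Finset.sum_congr rfl fun i _ => e2 i,
    Finset.sum_comm]
  exact Finset.sum_congr rfl fun j _ => Finset.sum_congr rfl fun i _ =>
    B_dual hR (mt_Mt _) (mt_Mt _) (a1 i) (b1 j)

lemma tensor_idem {X Y : C} {g : X ⟶ X} {h : Y ⟶ Y} (hg : g ≫ g = g) (hh : h ≫ h = h) :
    (g ⊗ₘ h) ≫ (g ⊗ₘ h) = g ⊗ₘ h := by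
  rw [MonoidalCategory.tensorHom_comp_tensorHom, hg, hh]

/-- The even pairing of idempotents, as a natural number. -/
noncomputable def bn (hR : Nice R) {X Y : C} (g : X ⟶ X) (h : Y ⟶ Y) : ℕ := ch hR (g ⊗ₘ h)

lemma bn_eq (hR : Nice R) {X Y : C} {g : X ⟶ X} {h : Y ⟶ Y} (hg : g ≫ g = g) (hh : h ≫ h = h) :
    B hR g h = (bn hR g h : K) := ch_eq hR (tensor_idem hg hh)

/-- A simple idempotent of one of the objects of a family. -/
structure Sim (R : SuperRealisation C K) {J : Type x} (ob : J → C) where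
  /-- the index -/
  j : J
  /-- the idempotent -/
  a : ob j ⟶ ob j
  pm : Pm R a

/-- The equivalence relation. -/
def simSetoid (hR : Nice R) {J : Type x} (ob : J → C) : Setoid (Sim R ob) where
  r p q := Rel hR p.a q.a
  iseqv := ⟨fun _ => Rel.refl hR _, fun h => h.symm, fun {_ q _} h h' => Rel.trans q.pm h h'⟩

/-- The classes of the simple idempotents. -/
def Cl (hR : Nice R) {J : Type x} (ob : J → C) := Quotient (simSetoid hR ob)

variable {hR : Nice R} {J : Type x} {ob : J → C}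

/-- The object of a representative. -/
noncomputable def oe (e : Cl hR ob) : C := ob (Quotient.out e).j

/-- A representative. -/
noncomputable def pe (e : Cl hR ob) : oe e ⟶ oe e := (Quotient.out e).a

lemma pe_pm (e : Cl hR ob) : Pm R (pe e) := (Quotient.out e).pm

/-- The transpose of the representative. -/
noncomputable def pd (e : Cl hR ob) : (oe e)ᘁ ⟶ (oe e)ᘁ := mt (pe e)

lemma pd_Mt (e : Cl hR ob) : Mt (pe e) (pd e) := mt_Mt _

lemma pd_idem (e : Cl hR ob) : pd e ≫ pd e = pd e := (pd_Mt e).idem (pe_pm e).idem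

/-- The coefficients of an idempotent. -/
noncomputable def nn {X : C} (g : X ⟶ X) (e : Cl hR ob) : ℕ := bn hR g (pd e)

/-- The norm of a class. -/
noncomputable def cn (e : Cl hR ob) : ℕ := bn hR (pe e) (pd e)

lemma cn_eq (e : Cl hR ob) : B hR (pe e) (pd e) = (cn e : K) := bn_eq hR (pe_pm e).idem (pd_idem e)

lemma nn_eq {X : C} {g : X ⟶ X} (hg : g ≫ g = g) (e : Cl hR ob) :
    B hR g (pd e) = (nn g e : K) := bn_eq hR hg (pd_idem e)

lemma cn_ne (e : Cl hR ob) : (cn e : K) ≠ 0 := by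
  rw [← cn_eq]
  exact self_ne hR (pd_Mt e) (pe_pm e)

lemma cn_pos (e : Cl hR ob) : 0 < cn e := by
  rw [Nat.pos_iff_ne_zero]
  intro h
  apply cn_ne e
  rw [h, Nat.cast_zero]

/-- The class of a simple idempotent. -/
noncomputable def cls (hR : Nice R) (ob : J → C) {j : J} {a : ob j ⟶ ob j} (ha : Pm R a) :
    Cl hR ob := Quotient.mk (simSetoid hR ob) ⟨j, a, ha⟩

lemma rel_cls {j : J} {a : ob j ⟶ ob j} (ha : Pm R a) : Rel hR (pe (cls hR ob ha)) a := by
  have h : (simSetoid hR ob).r (Quotient.out (cls hR ob ha)) ⟨j, a, ha⟩ :=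
    Quotient.mk_out (s := simSetoid hR ob) ⟨j, a, ha⟩
  exact h

lemma cls_eq {j : J} {a : ob j ⟶ ob j} (ha : Pm R a) {e : Cl hR ob} (h : Rel hR (pe e) a) :
    cls hR ob ha = e := by
  have h1 : e = Quotient.mk (simSetoid hR ob) (Quotient.out e) := (Quotient.out_eq e).symm
  rw [h1]
  exact Quotient.sound (s := simSetoid hR ob) (show Rel hR a (pe e) from h.symm)

/-- The pairing of a simple idempotent with a transpose. -/
lemma B_simple {j : J} {a : ob j ⟶ ob j} (ha : Pm R a) {Y Y' : C} [ExactPairing Y Y']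
    {h : Y ⟶ Y} {h' : Y' ⟶ Y'} (hh : Mt h h') (h2 : h ≫ h = h) :
    B hR a h' * (cn (cls hR ob ha) : K) = B hR a (pd (cls hR ob ha)) * (nn h (cls hR ob ha) : K) := by
  set e := cls hR ob ha
  have hr := rel_cls (hR := hR) ha
  have h3 := hr _ h'
  have h4 := hr _ (pd e)
  have h5 : B hR (pe e) h' = (nn h e : K) := by
    rw [← nn_eq h2]
    exact B_dual' hR (pd_Mt e) hh (pe_pm e).idem h2
  rw [h5] at h3
  rw [cn_eq] at h4
  apply mul_right_cancel₀ (pe_pm e).ne
  calc B hR a h' * (cn e : K) * st R (pe e) = (B hR a h' * st R (pe e)) * cn e := by ring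
    _ = (nn h e : K) * st R a * cn e := by rw [h3]
    _ = (nn h e : K) * (cn e * st R a) := by ring
    _ = _ := by rw [← h4]; ring

lemma B_other {j : J} {a : ob j ⟶ ob j} (ha : Pm R a) {e : Cl hR ob} (he : cls hR ob ha ≠ e) :
    B hR a (pd e) = 0 := by
  by_contra h0
  exact he (cls_eq ha (rel_of_ne hR (pd_Mt e) (pe_pm e) ha h0))

/-- **The Parseval identity.** -/
theorem parseval {j : J} {g : ob j ⟶ ob j} (hg : g ≫ g = g) :
    ∃ s : Finset (Cl hR ob), ∀ E : Finset (Cl hR ob), s ⊆ E → ∀ {Y Y' : C} [ExactPairing Y Y']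
      {h : Y ⟶ Y} {h' : Y' ⟶ Y'}, Mt h h' → h ≫ h = h →
      (bn hR g h' : ℚ) = ∑ e ∈ E, (nn g e : ℚ) * (nn h e : ℚ) / (cn e : ℚ) := by
  classical
  obtain ⟨ι, _, a, a1, -, a3⟩ := decomp_num hR g hg
  refine ⟨Finset.univ.image fun i => cls hR ob (a1 i), fun E hE {Y Y'} _ {h h'} hh h2 => ?_⟩
  have key : B hR g h' = ∑ e ∈ E, (nn g e : K) * (nn h e : K) / (cn e : K) := by
    have e1 : ∀ i, B hR (a i) h' = ∑ e ∈ E, B hR (a i) (pd e) * (nn h e : K) / (cn e : K) := by
      intro i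
      rw [Finset.sum_eq_single (cls hR ob (a1 i))]
      · rw [eq_div_iff (cn_ne _)]
        exact B_simple (a1 i) hh h2
      · intro e _ he
        rw [B_other (a1 i) he.symm, zero_mul, zero_div]
      · intro hn
        exact absurd (hE (Finset.mem_image_of_mem _ (Finset.mem_univ i))) hn
    have e2 : B hR g h' = ∑ i, B hR (a i) h' := by
      rw [B_congr hR a3 (Q.refl h'), B_sum_left]
    have e3 : ∀ e : Cl hR ob, (nn g e : K) = ∑ i, B hR (a i) (pd e) := by
      intro e
      rw [← nn_eq hg, B_congr hR a3 (Q.refl (pd e)), B_sum_left]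
    rw [e2, Finset.sum_congr rfl fun i _ => e1 i, Finset.sum_comm]
    refine Finset.sum_congr rfl fun e _ => ?_
    rw [e3, Finset.sum_mul, Finset.sum_div]
  rw [bn_eq hR hg (hh.idem h2)] at key
  apply Rat.cast_injective (α := K)
  rw [Rat.cast_natCast, key, Rat.cast_sum]
  refine Finset.sum_congr rfl fun e _ => ?_
  push_cast
  rfl

/-- **The Cauchy-Schwarz inequality** for the even pairing. -/
theorem cauchy_schwarz (hR : Nice R) {X X' Y Y' : C} [ExactPairing X X'] [ExactPairing Y Y']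
    {g : X ⟶ X} {g' : X' ⟶ X'} {h : Y ⟶ Y} {h' : Y' ⟶ Y'} (hg : Mt g g') (hh : Mt h h')
    (g2 : g ≫ g = g) (h2 : h ≫ h = h) :
    bn hR g h' ^ 2 ≤ bn hR g g' * bn hR h h' := by
  classical
  obtain ⟨s, hs⟩ := parseval (hR := hR) (ob := (id : C → C)) (j := X) g2
  obtain ⟨t, ht⟩ := parseval (hR := hR) (ob := (id : C → C)) (j := Y) h2
  have h3 := hs (s ∪ t) Finset.subset_union_left hh h2
  have h4 := hs (s ∪ t) Finset.subset_union_left hg g2
  have h5 := ht (s ∪ t) Finset.subset_union_right hh h2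
  have h6 : (bn hR g h' : ℚ) ^ 2 ≤ (bn hR g g' : ℚ) * (bn hR h h' : ℚ) := by
    rw [h3, h4, h5]
    refine Finset.sum_sq_le_sum_mul_sum_of_sq_le_mul _ (fun e _ => by positivity)
      (fun e _ => by positivity) (fun e _ => ?_)
    have h7 : (cn e : ℚ) ≠ 0 := by
      have := cn_pos e
      positivity
    apply le_of_eq
    field_simp
  exact_mod_cast h6

end Pool.Agent.P8H25.Sp
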