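import Pool.Agent.P8H25.SpI

/-!
# The power trick
-/

set_option autoImplicit false
set_option linter.unusedSectionVars false

open CategoryTheory Limits MonoidalCategory Module
open Pool.Agent.Y112.SR Pool.Agent.Y112.KD Pool.Agent.N64.AF
open Pool.Agent.Y116.MT (tr)
open Pool.Agent.N64.AF.A1aux

namespace Pool.Agent.P8H25.Sp

universe v u w x

open Functor.LaxMonoidal Functor.OplaxMonoidal

variable {C : Type u} [Category.{v} C] [Preadditive C] [MonoidalCategory C]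
  [MonoidalPreadditive C] [SymmetricCategory C] [RightRigidCategory C]
  {K : Type w} [Field K] [CharZero K] [Linear K C] [MonoidalLinear K C]
  {R : SuperRealisation C K}

lemma chi_iso (hR : Nice R) {X Y : C} (i : X ≅ Y) {f : X ⟶ X} {g : Y ⟶ Y}
    (h : f ≫ i.hom = i.hom ≫ g) : chi hR f = chi hR g := by
  have h1 : f = i.hom ≫ (g ≫ i.inv) := by
    rw [← Category.assoc, ← h, Category.assoc, Iso.hom_inv_id, Category.comp_id]
  rw [h1, chi_comm, Category.assoc, Iso.inv_hom_id, Category.comp_id]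

lemma B_iso_right (hR : Nice R) {X Y Z : C} (g : X ⟶ X) (i : Y ≅ Z) {f : Y ⟶ Y} {f' : Z ⟶ Z}
    (h : f ≫ i.hom = i.hom ≫ f') : B hR g f = B hR g f' := by
  refine chi_iso hR (whiskerLeftIso X i) ?_
  change (g ⊗ₘ f) ≫ (X ◁ i.hom) = (X ◁ i.hom) ≫ (g ⊗ₘ f')
  rw [MonoidalCategory.tensorHom_def, Category.assoc, ← MonoidalCategory.whiskerLeft_comp, h,
    MonoidalCategory.tensorHom_def, MonoidalCategory.whiskerLeft_comp, whisker_exchange_assoc]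

lemma B_iso_left (hR : Nice R) {X Y Z : C} (g : X ⟶ X) (i : Y ≅ Z) {f : Y ⟶ Y} {f' : Z ⟶ Z}
    (h : f ≫ i.hom = i.hom ≫ f') : B hR f g = B hR f' g := by
  rw [B_symm, B_iso_right hR g i h, B_symm]

lemma B_assoc (hR : Nice R) {X Y Z : C} (f : X ⟶ X) (g : Y ⟶ Y) (h : Z ⟶ Z) :
    B hR (f ⊗ₘ g) h = B hR f (g ⊗ₘ h) :=
  chi_iso hR (α_ X Y Z) (associator_naturality f g h)

lemma rk_tensor {X Y : C} {e : X ⟶ X} {f : Y ⟶ Y} (he : e ≫ e = e) (hf : f ≫ f = f) :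
    rk R (e ⊗ₘ f) = rk R e * rk R f := by
  have h1 : IsRk R e (rk R e) := trace_idem' he
  have h2 : IsRk R f (rk R f) := trace_idem' hf
  have h3 := isRk_tensor h1 h2
  have h4 := trace_idem' (R := R) (tensor_idem he hf)
  unfold IsRk at h3
  have h5 : (rk R (e ⊗ₘ f) : K) = ((rk R e * rk R f : ℕ) : K) := h4.symm.trans h3
  exact_mod_cast h5

lemma bn_le (hR : Nice R) {X Y : C} {e : X ⟶ X} {f : Y ⟶ Y} (he : e ≫ e = e) (hf : f ≫ f = f) :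
    bn hR e f ≤ rk R e * rk R f := by
  rw [← rk_tensor he hf]
  exact ch_le hR (tensor_idem he hf)

variable [IsAlgClosed K]

/-- The first step of the power trick. -/
lemma power_step (hR : Nice R) {X X' Y : C} [ExactPairing X X'] {g : Y ⟶ Y} (hg : g ≫ g = g) :
    bn hR (𝟙 (X ⊗ X')) g ^ 2 ≤
      bn hR (𝟙 (X ⊗ X')) (g ⊗ₘ mt (X' := Yᘁ) g) * ch hR (𝟙 (X ⊗ X')) := by
  have hM := mt_Mt (X' := Yᘁ) g
  have hg' := hM.idem hg
  set g' := mt (X' := Yᘁ) g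
  have h1 : Mt (X := Y ⊗ X) (X' := X' ⊗ Yᘁ) (g ⊗ₘ 𝟙 X) (𝟙 X' ⊗ₘ g') := hM.tensor Mt_id
  have i1 : (g ⊗ₘ 𝟙 X) ≫ (g ⊗ₘ 𝟙 X) = g ⊗ₘ 𝟙 X := tensor_idem hg (Category.comp_id _)
  have i2 : (𝟙 X' ⊗ₘ g') ≫ (𝟙 X' ⊗ₘ g') = 𝟙 X' ⊗ₘ g' := tensor_idem (Category.comp_id _) hg'
  have hid : ∀ Z : C, 𝟙 Z ≫ 𝟙 Z = 𝟙 Z := fun Z => Category.comp_id _
  have h2 := cauchy_schwarz hR (Y := X) (Y' := X') (h := 𝟙 X) (h' := 𝟙 X') h1 Mt_id i1 (hid X)
  have e1 : bn hR (g ⊗ₘ 𝟙 X) (𝟙 X') = bn hR (𝟙 (X ⊗ X')) g := by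
    have h3 : B hR (g ⊗ₘ 𝟙 X) (𝟙 X') = B hR (𝟙 (X ⊗ X')) g := by
      rw [B_assoc, B_symm, id_tensorHom_id]
    rw [bn_eq hR i1 (hid X'), bn_eq hR (hid _) hg] at h3
    exact_mod_cast h3
  have e2 : bn hR (𝟙 X) (𝟙 X') = ch hR (𝟙 (X ⊗ X')) := by rw [bn, id_tensorHom_id]
  have e3 : bn hR (g ⊗ₘ 𝟙 X) (𝟙 X' ⊗ₘ g') = bn hR (𝟙 (X ⊗ X')) (g ⊗ₘ g') := by
    have h3 : B hR (g ⊗ₘ 𝟙 X) (𝟙 X' ⊗ₘ g') = B hR (𝟙 (X ⊗ X')) (g ⊗ₘ g') := by
      have k1 : B hR (𝟙 X) (𝟙 X' ⊗ₘ g') = B hR (𝟙 (X ⊗ X')) g' := by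
        rw [← B_assoc, id_tensorHom_id]
      rw [B_assoc, B_symm, ← B_iso_left hR g (α_ X X' Yᘁ) (associator_naturality (𝟙 X) (𝟙 X') g'),
        B_assoc, id_tensorHom_id, B_iso_right hR (𝟙 (X ⊗ X')) (β_ Yᘁ Y)
          (BraidedCategory.braiding_naturality g' g)]
    rw [bn_eq hR i1 i2, bn_eq hR (hid _) (tensor_idem hg hg')] at h3
    exact_mod_cast h3
  rw [e1, e2, e3] at h2
  exact h2

lemma power_iter (hR : Nice R) {X X' : C} [ExactPairing X X'] (k : ℕ) : ∀ {Y : C} {g : Y ⟶ Y},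
    g ≫ g = g → bn hR (𝟙 (X ⊗ X')) g ^ (2 ^ k) * ch hR (𝟙 (X ⊗ X')) ≤
      (rk R g * ch hR (𝟙 (X ⊗ X'))) ^ (2 ^ k) * bt R (X ⊗ X') := by
  induction k with
  | zero =>
    intro Y g hg
    have h1 := bn_le hR (Category.comp_id (𝟙 (X ⊗ X'))) hg
    rw [rk_id] at h1
    rw [pow_zero, pow_one, pow_one]
    calc bn hR (𝟙 (X ⊗ X')) g * ch hR (𝟙 (X ⊗ X')) ≤
        (bt R (X ⊗ X') * rk R g) * ch hR (𝟙 (X ⊗ X')) := Nat.mul_le_mul_right _ h1
      _ = _ := by ring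
  | succ k ih =>
    intro Y g hg
    have hg' := (mt_Mt (X' := Yᘁ) g).idem hg
    have h1 := power_step hR (X := X) (X' := X') hg
    have h2 := ih (tensor_idem hg hg')
    rw [rk_tensor hg hg', (mt_Mt (X' := Yᘁ) g).rk hg] at h2
    set F := bn hR (𝟙 (X ⊗ X')) g
    set G := bn hR (𝟙 (X ⊗ X')) (g ⊗ₘ mt (X' := Yᘁ) g)
    set s := ch hR (𝟙 (X ⊗ X'))
    set r := rk R g
    have e1 : (2 : ℕ) ^ (k + 1) = 2 * 2 ^ k := by ring
    rw [e1, pow_mul F]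
    calc (F ^ 2) ^ 2 ^ k * s ≤ (G * s) ^ 2 ^ k * s :=
          Nat.mul_le_mul_right _ (Nat.pow_le_pow_left h1 _)
      _ = (G ^ 2 ^ k * s) * s ^ 2 ^ k := by rw [mul_pow]; ring
      _ ≤ ((r * r * s) ^ 2 ^ k * bt R (X ⊗ X')) * s ^ 2 ^ k := Nat.mul_le_mul_right _ h2
      _ = (r * s) ^ (2 * 2 ^ k) * bt R (X ⊗ X') := by
        rw [two_mul, pow_add, mul_pow, mul_pow, mul_pow]
        ring

/-- **The even pairing with `X ⊗ X'` is at most the rank times the value at the unit.** -/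
theorem power_trick (hR : Nice R) {X X' : C} [ExactPairing X X'] {Y : C} {g : Y ⟶ Y}
    (hg : g ≫ g = g) : bn hR (𝟙 (X ⊗ X')) g ≤ rk R g * ch hR (𝟙 (X ⊗ X')) := by
  set F := bn hR (𝟙 (X ⊗ X')) g with hF
  set s := ch hR (𝟙 (X ⊗ X')) with hs
  set r := rk R g
  by_cases h0 : s = 0
  · have h1 := power_step hR (X := X) (X' := X') hg
    rw [← hs, h0, mul_zero, ← hF] at h1
    have h2 : F = 0 := by
      by_contra h
      have : 0 < F ^ 2 := by positivity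
      omega
    rw [h2]
    exact Nat.zero_le _
  · by_contra hlt
    push Not at hlt
    have hs1 : 1 ≤ s := Nat.one_le_iff_ne_zero.2 h0
    have key : ∀ k : ℕ, (F : ℝ) ^ (2 ^ k) ≤ ((r * s : ℕ) : ℝ) ^ (2 ^ k) * bt R (X ⊗ X') := by
      intro k
      have h1 := power_iter hR (X := X) (X' := X') k hg
      have h2 : F ^ 2 ^ k ≤ (r * s) ^ 2 ^ k * bt R (X ⊗ X') :=
        le_trans (Nat.le_mul_of_pos_right _ hs1) h1
      exact_mod_cast h2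
    by_cases ha : r * s = 0
    · have h1 := key 0
      rw [ha] at h1
      simp only [pow_zero, pow_one, Nat.cast_zero, zero_mul] at h1
      have h2 : 0 < F := by omega
      have h3 : (0 : ℝ) < F := by exact_mod_cast h2
      linarith
    · have ha' : (0 : ℝ) < ((r * s : ℕ) : ℝ) := by
        have : 0 < r * s := Nat.pos_of_ne_zero ha
        exact_mod_cast this
      set q : ℝ := F / ((r * s : ℕ) : ℝ) with hq
      have hq1 : 1 < q := by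
        rw [hq, one_lt_div ha']
        exact_mod_cast hlt
      have h4 : ∀ k : ℕ, q ^ (2 ^ k) ≤ bt R (X ⊗ X') := by
        intro k
        rw [hq, div_pow, div_le_iff₀ (by positivity), mul_comm]
        exact key k
      obtain ⟨k, hk⟩ := pow_unbounded_of_one_lt (bt R (X ⊗ X') : ℝ) hq1
      have h5 := h4 k
      have h6 : q ^ k ≤ q ^ (2 ^ k) := pow_le_pow_right₀ hq1.le (Nat.lt_two_pow_self).le
      linarith

end Pool.Agent.P8H25.Sp
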