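import Pool.Agent.P8H25.SpJ

/-!
# The growth of the even parts of the tensor powers
-/

set_option autoImplicit false
set_option linter.unusedSectionVars false

open CategoryTheory Limits MonoidalCategory Module Filter Topology
open Pool.Agent.Y112.SR Pool.Agent.Y112.KD Pool.Agent.N64.AF
open Pool.Agent.Y116.MT (tr)
open Pool.Agent.N64.AF.A1aux
open Pool.Agent.N413.AFW

namespace Pool.Agent.P8H25.Sp

universe v u w x

variable {C : Type u} [Category.{v} C] [Preadditive C] [MonoidalCategory C]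
  [MonoidalPreadditive C] [SymmetricCategory C] [RightRigidCategory C]
  {K : Type w} [Field K] [CharZero K] [Linear K C] [MonoidalLinear K C]
  {R : SuperRealisation C K}

lemma id_idem (X : C) : 𝟙 X ≫ 𝟙 X = 𝟙 X := Category.comp_id _

lemma ch_iso (hR : Nice R) {X Y : C} (i : X ≅ Y) : ch hR (𝟙 X) = ch hR (𝟙 Y) := by
  have h := chi_iso hR i (f := 𝟙 X) (g := 𝟙 Y) (by rw [Category.id_comp, Category.comp_id])
  rw [ch_eq hR (id_idem X), ch_eq hR (id_idem Y)] at h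
  exact_mod_cast h

lemma bn_iso_left [IsAlgClosed K] (hR : Nice R) {X Y Z : C} {g : X ⟶ X} (hg : g ≫ g = g) (i : Y ≅ Z) :
    bn hR (𝟙 Y) g = bn hR (𝟙 Z) g := by
  have h := B_iso_left hR g i (f := 𝟙 Y) (f' := 𝟙 Z) (by rw [Category.id_comp, Category.comp_id])
  rw [bn_eq hR (id_idem Y) hg, bn_eq hR (id_idem Z) hg] at h
  exact_mod_cast h

lemma sub_idem {X : C} {g : X ⟶ X} (hg : g ≫ g = g) : (𝟙 X - g) ≫ (𝟙 X - g) = 𝟙 X - g := by
  rw [Preadditive.sub_comp, Preadditive.comp_sub, Preadditive.comp_sub, hg, Category.comp_id,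
    Category.comp_id, Category.id_comp]
  abel

lemma rk_sub (hR : Nice R) {X : C} {g : X ⟶ X} (hg : g ≫ g = g) :
    rk R g + rk R (𝟙 X - g) = bt R X := by
  have h1 : g + (𝟙 X - g) = 𝟙 X := by abel
  have h := rk_add hR hg (sub_idem hg) (by rw [h1]; exact id_idem X)
  rw [h1, rk_id] at h
  exact h.symm

lemma bt_tensor' (X Y : C) : bt R (X ⊗ Y) = bt R X * bt R Y := by
  rw [← rk_id, ← rk_id, ← rk_id, ← rk_tensor (id_idem X) (id_idem Y), id_tensorHom_id]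

lemma bt_unit' : bt R (𝟙_ C) = 1 := by
  have h1 := pe_st_idem (R := R) (X := 𝟙_ C) (e := 𝟙 _)
  have h2 := Sp.trace_idem' (R := R) (id_idem (𝟙_ C))
  rw [rk_id] at h2
  have h3 : st R (𝟙 (𝟙_ C)) = 1 := st_one R
  have h4 : st R (𝟙 (𝟙_ C)) = LinearMap.trace K _ (mp R (𝟙 (𝟙_ C))) := by
    apply pe_st
    rw [PE_iff, CategoryTheory.Functor.map_id, Category.comp_id, R.par_unit]
  rw [← h4, h3] at h2
  exact_mod_cast h2.symm

lemma bt_tp (W : C) (n : ℕ) : bt R (tp W n) = bt R W ^ n := by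
  induction n with
  | zero => rw [pow_zero]; exact bt_unit'
  | succ n ih => rw [pow_succ, ← ih]; exact bt_tensor' _ _

/-- The object `T ⊗ Tᘁ`. -/
abbrev WW (T : C) : C := T ⊗ Tᘁ

/-- The dimension of the maximal purely even summand of the powers of `T ⊗ Tᘁ`. -/
noncomputable def sq (hR : Nice R) (T : C) (n : ℕ) : ℕ := ch hR (𝟙 (tp (WW T) n))

/-- The pairing with a power of `T ⊗ Tᘁ`. -/
noncomputable def Fn (hR : Nice R) (T : C) (n : ℕ) {Y : C} (g : Y ⟶ Y) : ℕ :=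
  bn hR (𝟙 (tp (WW T) n)) g

variable [IsAlgClosed K]

lemma Fn_le (hR : Nice R) (T : C) (n : ℕ) {Y : C} {g : Y ⟶ Y} (hg : g ≫ g = g) :
    Fn hR T n g ≤ rk R g * sq hR T n := by
  let _ := pairTp T Tᘁ n
  rw [Fn, bn_iso_left hR hg (isoTp T Tᘁ n), sq, ch_iso hR (isoTp T Tᘁ n)]
  exact power_trick hR hg

lemma Fn_dual (hR : Nice R) (T : C) (n : ℕ) {Y Y' : C} [ExactPairing Y Y'] {g : Y ⟶ Y}
    {g' : Y' ⟶ Y'} (h : Mt g g') (hg : g ≫ g = g) : Fn hR T n g' = Fn hR T n g := by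
  have hg' := h.idem hg
  let i1 := pairTp T Tᘁ n
  let i2 : ExactPairing (dp Tᘁ n) (tp T n) := BraidedCategory.exactPairing_swap (tp T n) (dp Tᘁ n)
  let i3 : ExactPairing (tp T n ⊗ dp Tᘁ n) (tp T n ⊗ dp Tᘁ n) :=
    ExactPairing.tensor (X₁ := tp T n) (X₂ := dp Tᘁ n) (Y₁ := dp Tᘁ n) (Y₂ := tp T n)
  have h1 := B_dual' hR (X := tp T n ⊗ dp Tᘁ n) (X' := tp T n ⊗ dp Tᘁ n) (g := 𝟙 _) (g' := 𝟙 _)
    Mt_id h (id_idem _) hg
  rw [B_symm hR g, bn_eq hR (id_idem _) hg, bn_eq hR (id_idem _) hg'] at h1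
  have h2 : bn hR (𝟙 (tp T n ⊗ dp Tᘁ n)) g' = bn hR (𝟙 (tp T n ⊗ dp Tᘁ n)) g := by
    exact_mod_cast h1
  rw [Fn, Fn, bn_iso_left hR hg (isoTp T Tᘁ n), bn_iso_left hR hg' (isoTp T Tᘁ n), h2]

lemma Fn_id (hR : Nice R) (T : C) (n j : ℕ) :
    Fn hR T n (𝟙 (tp (WW T) j)) = sq hR T (n + j) := by
  obtain ⟨i, -⟩ := exists_tp_iso (WW T) n j
  rw [Fn, bn, id_tensorHom_id, sq, ch_iso hR i]

lemma Fn_add (hR : Nice R) (T : C) (n : ℕ) {Y : C} {g : Y ⟶ Y} (hg : g ≫ g = g) :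
    Fn hR T n g + Fn hR T n (𝟙 Y - g) = Fn hR T n (𝟙 Y) := by
  have h1 : B hR (𝟙 (tp (WW T) n)) g + B hR (𝟙 (tp (WW T) n)) (𝟙 Y - g) =
      B hR (𝟙 (tp (WW T) n)) (𝟙 Y) := by
    rw [← B_add_right]
    congr 1
    abel
  rw [bn_eq hR (id_idem _) hg, bn_eq hR (id_idem _) (sub_idem hg),
    bn_eq hR (id_idem _) (id_idem _)] at h1
  exact_mod_cast h1

lemma sq_succ (hR : Nice R) (T : C) (n : ℕ) : sq hR T (n + 1) ≤ bt R (WW T) * sq hR T n := by
  have h1 := Fn_le hR T n (id_idem (WW T))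
  rw [rk_id, Fn, bn, id_tensorHom_id] at h1
  exact h1

/-- The normalised sequence. -/
noncomputable def sr (hR : Nice R) (T : C) (n : ℕ) : ℝ :=
  (sq hR T n : ℝ) / (bt R (WW T) : ℝ) ^ n

lemma sr_nonneg (hR : Nice R) (T : C) (n : ℕ) : 0 ≤ sr hR T n := by
  unfold sr
  positivity

lemma sr_anti (hR : Nice R) {T : C} (hb : 0 < bt R (WW T)) : Antitone (sr hR T) := by
  refine antitone_nat_of_succ_le fun n => ?_
  have hb' : (0 : ℝ) < (bt R (WW T) : ℝ) := by exact_mod_cast hb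
  rw [sr, sr, div_le_div_iff₀ (by positivity) (by positivity)]
  have h1 : (sq hR T (n + 1) : ℝ) ≤ (bt R (WW T) : ℝ) * sq hR T n := by
    exact_mod_cast sq_succ hR T n
  calc (sq hR T (n + 1) : ℝ) * (bt R (WW T) : ℝ) ^ n ≤
      ((bt R (WW T) : ℝ) * sq hR T n) * (bt R (WW T) : ℝ) ^ n := by
        exact mul_le_mul_of_nonneg_right h1 (by positivity)
    _ = _ := by ring

/-- The limit of the normalised sequence. -/
noncomputable def kap (hR : Nice R) (T : C) : ℝ := ⨅ n, sr hR T n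

lemma sr_tendsto (hR : Nice R) {T : C} (hb : 0 < bt R (WW T)) :
    Tendsto (sr hR T) atTop (𝓝 (kap hR T)) :=
  tendsto_atTop_ciInf (sr_anti hR hb) ⟨0, by
    rintro _ ⟨n, rfl⟩
    exact sr_nonneg hR T n⟩

lemma kap_nonneg (hR : Nice R) (T : C) : 0 ≤ kap hR T := le_ciInf (sr_nonneg hR T)

/-- The normalised pairing. -/
noncomputable def Fr (hR : Nice R) (T : C) (n : ℕ) {Y : C} (g : Y ⟶ Y) : ℝ :=
  (Fn hR T n g : ℝ) / (bt R (WW T) : ℝ) ^ n

/-- The pairing with the powers sees the rank. -/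
theorem Fr_tendsto (hR : Nice R) {T : C} (hb : 0 < bt R (WW T)) {j : ℕ}
    {g : tp (WW T) j ⟶ tp (WW T) j} (hg : g ≫ g = g) :
    Tendsto (fun n => Fr hR T n g) atTop (𝓝 (kap hR T * rk R g)) := by
  have hb' : (0 : ℝ) < (bt R (WW T) : ℝ) := by exact_mod_cast hb
  set b : ℝ := (bt R (WW T) : ℝ) with hbdef
  have h1 := sr_tendsto hR hb
  have h2 : Tendsto (fun n => sr hR T (n + j)) atTop (𝓝 (kap hR T)) :=
    h1.comp (tendsto_add_atTop_nat j)
  have hrk : (rk R g : ℝ) + (rk R (𝟙 (tp (WW T) j) - g) : ℝ) = b ^ j := by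
    have h := rk_sub hR hg
    rw [bt_tp] at h
    rw [hbdef]
    exact_mod_cast h
  have hlow : Tendsto (fun n => sr hR T (n + j) * b ^ j -
      (rk R (𝟙 (tp (WW T) j) - g) : ℝ) * sr hR T n) atTop (𝓝 (kap hR T * rk R g)) := by
    have h3 := (h2.mul_const (b ^ j)).sub (h1.const_mul (rk R (𝟙 (tp (WW T) j) - g) : ℝ))
    have h4 : kap hR T * b ^ j - (rk R (𝟙 (tp (WW T) j) - g) : ℝ) * kap hR T =
        kap hR T * rk R g := by
      rw [← hrk]
      ring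
    rw [h4] at h3
    exact h3
  have hup : Tendsto (fun n => (rk R g : ℝ) * sr hR T n) atTop (𝓝 (kap hR T * rk R g)) := by
    have h3 := h1.const_mul (rk R g : ℝ)
    rw [mul_comm] at h3
    exact h3
  refine tendsto_of_tendsto_of_tendsto_of_le_of_le hlow hup (fun n => ?_) (fun n => ?_)
  · have h3 := Fn_add hR T n hg
    rw [Fn_id] at h3
    have h4 := Fn_le hR T n (sub_idem hg)
    have h5 : (Fn hR T n g : ℝ) = (sq hR T (n + j) : ℝ) - (Fn hR T n (𝟙 _ - g) : ℝ) := by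
      rw [eq_sub_iff_add_eq]
      exact_mod_cast h3
    have h6 : (Fn hR T n (𝟙 _ - g) : ℝ) ≤ (rk R (𝟙 (tp (WW T) j) - g) : ℝ) * sq hR T n := by
      exact_mod_cast h4
    change sr hR T (n + j) * b ^ j - _ * sr hR T n ≤ Fr hR T n g
    rw [Fr, h5, sr, sr, ← hbdef, sub_div]
    have e1 : (sq hR T (n + j) : ℝ) / b ^ (n + j) * b ^ j = (sq hR T (n + j) : ℝ) / b ^ n := by
      rw [pow_add]
      field_simp
    rw [e1]
    have e2 : (Fn hR T n (𝟙 _ - g) : ℝ) / b ^ n ≤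
        (rk R (𝟙 (tp (WW T) j) - g) : ℝ) * ((sq hR T n : ℝ) / b ^ n) := by
      rw [← mul_div_assoc]
      exact div_le_div_of_nonneg_right h6 (by positivity)
    linarith
  · have h4 := Fn_le hR T n hg
    have h6 : (Fn hR T n g : ℝ) ≤ (rk R g : ℝ) * sq hR T n := by exact_mod_cast h4
    change Fr hR T n g ≤ _ * sr hR T n
    rw [Fr, sr, ← hbdef, ← mul_div_assoc]
    exact div_le_div_of_nonneg_right h6 (by positivity)

end Pool.Agent.P8H25.Sp
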