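import Pool.Agent.P8H25.SpK

/-!
# Finiteness of the set of the classes
-/

set_option autoImplicit false
set_option linter.unusedSectionVars false

open CategoryTheory Limits MonoidalCategory Module Filter Topology
open Pool.Agent.Y112.SR Pool.Agent.Y112.KD Pool.Agent.N64.AF
open Pool.Agent.Y116.MT (tr)
open Pool.Agent.N64.AF.A1aux
open Pool.Agent.N413.AFW

namespace Pool.Agent.P8H25.Sp

universe v u w x

variable {C : Type u} [Category.{v} C] [Preadditive C] [MonoidalCategory C]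
  [MonoidalPreadditive C] [SymmetricCategory C] [RightRigidCategory C]
  {K : Type w} [Field K] [CharZero K] [Linear K C] [MonoidalLinear K C]
  {R : SuperRealisation C K} [IsAlgClosed K]

lemma exists_int (hR : Nice R) {X : C} {g : X ⟶ X} (hg : g ≫ g = g) :
    ∃ t : ℤ, st R g = t ∧ |t| ≤ rk R g ∧ (|t| = rk R g → PE R g ∨ PO R g) := by
  obtain ⟨p, q, h1, h2, h3, h4⟩ := idem_split hR hg
  refine ⟨(p : ℤ) - q, by rw [h1]; push_cast; rfl, ?_, ?_⟩
  · rw [h2, abs_le]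
    push_cast
    omega
  · intro h
    rw [h2] at h
    push_cast at h
    rcases le_total (q : ℤ) p with hpq | hpq
    · rw [abs_of_nonneg (by omega)] at h
      exact Or.inl (h3 (by omega))
    · rw [abs_of_nonpos (by omega)] at h
      exact Or.inr (h4 (by omega))

/-- Equivalent simple idempotents have proportional ranks and supertraces. -/
lemma rel_rk (hR : Nice R) {T : C} (hb : 0 < bt R (WW T)) (hk : 0 < kap hR T) {i j : ℕ}
    {a : tp (WW T) i ⟶ tp (WW T) i} {b : tp (WW T) j ⟶ tp (WW T) j} (ha : Pm R a) (hb' : Pm R b)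
    (h : Rel hR a b) {s t : ℤ} (hs : st R a = s) (ht : st R b = t) :
    (rk R a : ℤ) * t = rk R b * s := by
  have h1 : ∀ n, (Fr hR T n b) * (s : ℝ) = (Fr hR T n a) * (t : ℝ) := by
    intro n
    have h2 := h _ (𝟙 (tp (WW T) n))
    rw [B_symm hR b, B_symm hR a, bn_eq hR (id_idem _) ha.idem, bn_eq hR (id_idem _) hb'.idem, hs,
      ht] at h2
    have h3 : ((Fn hR T n b : ℤ) * s : ℤ) = (Fn hR T n a : ℤ) * t := by
      have h4 : (((Fn hR T n b : ℤ) * s : ℤ) : K) = (((Fn hR T n a : ℤ) * t : ℤ) : K) := by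
        push_cast
        exact h2
      exact_mod_cast h4
    have h5 : (Fn hR T n b : ℝ) * (s : ℝ) = (Fn hR T n a : ℝ) * (t : ℝ) := by exact_mod_cast h3
    rw [Fr, Fr, div_mul_eq_mul_div, div_mul_eq_mul_div, h5]
  have h2 := (Fr_tendsto hR hb hb'.idem).mul_const (s : ℝ)
  have h3 := (Fr_tendsto hR hb ha.idem).mul_const (t : ℝ)
  have h4 : kap hR T * (rk R b : ℝ) * (s : ℝ) = kap hR T * (rk R a : ℝ) * (t : ℝ) :=
    tendsto_nhds_unique (h2.congr h1) h3
  have h5 : (rk R b : ℝ) * (s : ℝ) = (rk R a : ℝ) * (t : ℝ) := by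
    have h6 : kap hR T * ((rk R b : ℝ) * (s : ℝ)) = kap hR T * ((rk R a : ℝ) * (t : ℝ)) := by
      linarith
    exact mul_left_cancel₀ hk.ne' h6
  exact_mod_cast h5.symm

/-- A numerically trivial idempotent is zero. -/
lemma rk_of_zero (hR : Nice R) {T : C} (hb : 0 < bt R (WW T)) (hk : 0 < kap hR T) {j : ℕ}
    {g : tp (WW T) j ⟶ tp (WW T) j} (hg : g ≫ g = g) (h : Q R g 0) : rk R g = 0 := by
  have h1 : ∀ n, Fr hR T n g = 0 := by
    intro n
    have h2 : B hR (𝟙 (tp (WW T) n)) g = 0 := by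
      rw [B_symm, B_congr hR h (Q.refl _), B_zero_left]
    rw [bn_eq hR (id_idem _) hg] at h2
    have h3 : bn hR (𝟙 (tp (WW T) n)) g = 0 := by exact_mod_cast h2
    rw [Fr, Fn, h3, Nat.cast_zero, zero_div]
  have h2 := Fr_tendsto hR hb hg
  have h3 : kap hR T * (rk R g : ℝ) = 0 :=
    tendsto_nhds_unique (h2.congr h1) (tendsto_const_nhds)
  rcases mul_eq_zero.1 h3 with h4 | h4
  · exact absurd h4 hk.ne'
  · exact_mod_cast h4

/-- The classes of the simple idempotents of the powers of `T ⊗ Tᘁ`. -/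
abbrev CT (hR : Nice R) (T : C) := Cl hR (tp (WW T))

lemma nn_one {hR : Nice R} {T : C} (n : ℕ) (e : CT hR T) :
    nn (𝟙 (tp (WW T) n)) e = Fn hR T n (pe e) :=
  Fn_dual hR T n (pd_Mt e) (pe_pm e).idem

lemma Fr_pe {hR : Nice R} {T : C} (hb : 0 < bt R (WW T)) (e : CT hR T) :
    Tendsto (fun n => Fr hR T n (pe e)) atTop (𝓝 (kap hR T * rk R (pe e))) :=
  Fr_tendsto hR hb (j := (Quotient.out e).j) (g := (Quotient.out e).a) (pe_pm e).idem

lemma cn_le {hR : Nice R} {T : C} (e : CT hR T) : cn e ≤ rk R (pe e) ^ 2 := by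
  have h1 := bn_le hR (pe_pm e).idem (pd_idem e)
  rw [(pd_Mt e).rk (pe_pm e).idem, ← pow_two] at h1
  exact h1

/-- The Parseval identity for the powers. -/
lemma pars {hR : Nice R} {T : C} (n : ℕ) : ∃ s : Finset (CT hR T), ∀ E : Finset (CT hR T),
    s ⊆ E → (sq hR T (n + n) : ℚ) = ∑ e ∈ E, (Fn hR T n (pe e) : ℚ) ^ 2 / (cn e : ℚ) := by
  obtain ⟨s, hs⟩ := parseval (hR := hR) (ob := tp (WW T)) (j := n) (g := 𝟙 (tp (WW T) n))
    (id_idem _)
  refine ⟨s, fun E hE => ?_⟩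
  let i1 := pairTp T Tᘁ n
  let i2 : ExactPairing (dp Tᘁ n) (tp T n) := BraidedCategory.exactPairing_swap (tp T n) (dp Tᘁ n)
  let i3 : ExactPairing (tp T n ⊗ dp Tᘁ n) (tp T n ⊗ dp Tᘁ n) :=
    ExactPairing.tensor (X₁ := tp T n) (X₂ := dp Tᘁ n) (Y₁ := dp Tᘁ n) (Y₂ := tp T n)
  have h1 := hs E hE (Y := tp T n ⊗ dp Tᘁ n) (Y' := tp T n ⊗ dp Tᘁ n) (h := 𝟙 _) (h' := 𝟙 _)
    Mt_id (id_idem _)
  have h2 : bn hR (𝟙 (tp (WW T) n)) (𝟙 (tp T n ⊗ dp Tᘁ n)) = sq hR T (n + n) := by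
    rw [← Fn_id, Fn, bn, bn, id_tensorHom_id, id_tensorHom_id]
    exact (ch_iso hR (whiskerLeftIso _ (isoTp T Tᘁ n))).symm
  have h3 : ∀ e : CT hR T, nn (𝟙 (tp T n ⊗ dp Tᘁ n)) e = Fn hR T n (pe e) := by
    intro e
    rw [← nn_one, nn, nn, bn_iso_left hR (pd_idem e) (isoTp T Tᘁ n)]
  rw [h2] at h1
  rw [h1]
  refine Finset.sum_congr rfl fun e _ => ?_
  rw [h3, nn_one, pow_two]

lemma pars' {hR : Nice R} {T : C} (n : ℕ) : ∃ s : Finset (CT hR T), ∀ E : Finset (CT hR T),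
    s ⊆ E → sr hR T (n + n) = ∑ e ∈ E, Fr hR T n (pe e) ^ 2 / (cn e : ℝ) := by
  obtain ⟨s, hs⟩ := pars (hR := hR) (T := T) n
  refine ⟨s, fun E hE => ?_⟩
  have h1 : (sq hR T (n + n) : ℝ) = ∑ e ∈ E, (Fn hR T n (pe e) : ℝ) ^ 2 / (cn e : ℝ) := by
    have h2 := congrArg (fun q : ℚ => (q : ℝ)) (hs E hE)
    simp only [Rat.cast_natCast, Rat.cast_sum, Rat.cast_div, Rat.cast_pow] at h2
    exact h2
  rw [sr, h1, Finset.sum_div]
  refine Finset.sum_congr rfl fun e _ => ?_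
  rw [Fr, div_pow, ← pow_mul, mul_comm n 2, two_mul, div_right_comm]

/-- **The Bessel inequality.** -/
lemma bessel {hR : Nice R} {T : C} (hb : 0 < bt R (WW T)) (hk : 0 < kap hR T)
    (E : Finset (CT hR T)) : ∑ e ∈ E, kap hR T * ((rk R (pe e) : ℝ) ^ 2 / (cn e : ℝ)) ≤ 1 := by
  classical
  have h1 : Tendsto (fun n => sr hR T (n + n)) atTop (𝓝 (kap hR T)) :=
    (sr_tendsto hR hb).comp
      (tendsto_atTop_mono (fun n => Nat.le_add_left n n) tendsto_id)
  have h2 : Tendsto (fun n => ∑ e ∈ E, Fr hR T n (pe e) ^ 2 / (cn e : ℝ)) atTop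
      (𝓝 (∑ e ∈ E, (kap hR T * rk R (pe e)) ^ 2 / (cn e : ℝ))) :=
    tendsto_finsetSum _ fun e _ => ((Fr_pe hb e).pow 2).div_const _
  have h3 : ∑ e ∈ E, (kap hR T * rk R (pe e)) ^ 2 / (cn e : ℝ) ≤ kap hR T := by
    refine le_of_tendsto_of_tendsto' h2 h1 fun n => ?_
    obtain ⟨s, hs⟩ := pars' (hR := hR) (T := T) n
    rw [hs (s ∪ E) Finset.subset_union_left]
    exact Finset.sum_le_sum_of_subset_of_nonneg Finset.subset_union_right
      fun e _ _ => by positivity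
  have h4 : kap hR T * ∑ e ∈ E, kap hR T * ((rk R (pe e) : ℝ) ^ 2 / (cn e : ℝ)) ≤
      kap hR T * 1 := by
    rw [mul_one, Finset.mul_sum]
    refine le_trans (le_of_eq (Finset.sum_congr rfl fun e _ => ?_)) h3
    ring
  exact le_of_mul_le_mul_left h4 hk

theorem finite_CT {hR : Nice R} {T : C} (hb : 0 < bt R (WW T)) (hk : 0 < kap hR T) :
    Finite (CT hR T) := by
  by_contra hinf
  rw [not_finite_iff_infinite] at hinf
  obtain ⟨N, hN⟩ := exists_nat_gt (1 / kap hR T)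
  obtain ⟨E, hE⟩ := Infinite.exists_subset_card_eq (CT hR T) N
  have h1 := bessel hb hk E
  have h2 : (N : ℝ) * kap hR T ≤ ∑ e ∈ E, kap hR T * ((rk R (pe e) : ℝ) ^ 2 / (cn e : ℝ)) := by
    rw [← hE, ← nsmul_eq_mul, ← Finset.sum_const]
    refine Finset.sum_le_sum fun e _ => ?_
    have h3 : (1 : ℝ) ≤ (rk R (pe e) : ℝ) ^ 2 / (cn e : ℝ) := by
      rw [one_le_div (by exact_mod_cast cn_pos e)]
      exact_mod_cast cn_le e
    nlinarith
  rw [div_lt_iff₀ hk] at hN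
  linarith

/-- **The total mass.** -/
theorem total {hR : Nice R} {T : C} (hb : 0 < bt R (WW T)) (hk : 0 < kap hR T)
    [Fintype (CT hR T)] :
    kap hR T * ∑ e : CT hR T, (rk R (pe e) : ℝ) ^ 2 / (cn e : ℝ) = 1 := by
  have h1 : Tendsto (fun n => sr hR T (n + n)) atTop (𝓝 (kap hR T)) :=
    (sr_tendsto hR hb).comp
      (tendsto_atTop_mono (fun n => Nat.le_add_left n n) tendsto_id)
  have h2 : Tendsto (fun n => ∑ e : CT hR T, Fr hR T n (pe e) ^ 2 / (cn e : ℝ)) atTop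
      (𝓝 (∑ e : CT hR T, (kap hR T * rk R (pe e)) ^ 2 / (cn e : ℝ))) :=
    tendsto_finsetSum _ fun e _ => ((Fr_pe hb e).pow 2).div_const _
  have h3 : ∀ n, ∑ e : CT hR T, Fr hR T n (pe e) ^ 2 / (cn e : ℝ) = sr hR T (n + n) := by
    intro n
    obtain ⟨s, hs⟩ := pars' (hR := hR) (T := T) n
    exact (hs Finset.univ (Finset.subset_univ _)).symm
  have h4 := tendsto_nhds_unique (h2.congr h3) h1
  have h5 : kap hR T * (kap hR T * ∑ e : CT hR T, (rk R (pe e) : ℝ) ^ 2 / (cn e : ℝ)) =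
      kap hR T * 1 := by
    rw [mul_one]
    conv_rhs => rw [← h4]
    rw [Finset.mul_sum, Finset.mul_sum]
    refine Finset.sum_congr rfl fun e _ => ?_
    ring
  exact mul_left_cancel₀ hk.ne' h5

end Pool.Agent.P8H25.Sp
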