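import Pool.Agent.P8H25.SpL

/-!
# The resolution of the identity
-/

set_option autoImplicit false
set_option linter.unusedSectionVars false

open CategoryTheory Limits MonoidalCategory Module Filter Topology
open Pool.Agent.Y112.SR Pool.Agent.Y112.KD Pool.Agent.N64.AF
open Pool.Agent.Y116.MT (tr)
open Pool.Agent.N64.AF.A1aux
open Pool.Agent.N413.AFW

namespace Pool.Agent.P8H25.Sp

universe v u w x

variable {C : Type u} [Category.{v} C] [Preadditive C] [MonoidalCategory C]
  [MonoidalPreadditive C] [SymmetricCategory C] [RightRigidCategory C]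
  {K : Type w} [Field K] [CharZero K] [Linear K C] [MonoidalLinear K C]
  {R : SuperRealisation C K} [IsAlgClosed K]

/-- The weight of a class. -/
noncomputable def we {hR : Nice R} {J : Type x} {ob : J → C} (e : Cl hR ob) : K :=
  st R (pe e) / (cn e : K)

/-- **The resolution of the identity.** -/
theorem resolution {hR : Nice R} {J : Type x} {ob : J → C} [Fintype (Cl hR ob)] (j : J) :
    Q R (∑ e : Cl hR ob, we e • Phi hR (pd e) (ob j)) (𝟙 (ob j)) := by
  classical
  obtain ⟨ι, _, a, a1, -, a3⟩ := decomp_num hR (𝟙 (ob j)) (id_idem _)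
  have key : ∀ i, Q R (a i ≫ ∑ e : Cl hR ob, we e • Phi hR (pd e) (ob j)) (a i) := by
    intro i
    rw [Preadditive.comp_sum]
    have h1 : ∀ e : Cl hR ob, Q R (a i ≫ (we e • Phi hR (pd e) (ob j)))
        (if e = cls hR ob (a1 i) then a i else 0) := by
      intro e
      obtain ⟨c, hc1, hc2⟩ := (a1 i).phi hR (pd e)
      rw [Linear.comp_smul]
      have h2 := hc1.smul hR (we e)
      rw [smul_smul] at h2
      split_ifs with he
      · have h3 : we e * c = 1 := by
          have hr : Rel hR (pe e) (a i) := by rw [he]; exact rel_cls (a1 i)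
          have h4 := hr _ (pd e)
          rw [cn_eq, hc2] at h4
          have h5 : c * st R (pe e) = (cn e : K) := by
            apply mul_right_cancel₀ (a1 i).ne
            rw [← h4]
            ring
          rw [we, div_mul_eq_mul_div, mul_comm, h5, div_self (cn_ne e)]
        rw [h3, one_smul] at h2
        exact h2
      · have h3 : c = 0 := by
          have h4 := B_other (a1 i) (e := e) (fun h => he h.symm)
          rw [h4] at hc2
          exact (mul_eq_zero.1 hc2.symm).resolve_right (a1 i).ne
        rw [h3, mul_zero, zero_smul] at h2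
        exact h2
    have h3 := Q.sum hR (s := Finset.univ) (fun e _ => h1 e)
    rw [Finset.sum_ite_eq' Finset.univ (cls hR ob (a1 i)) (fun _ => a i),
      if_pos (Finset.mem_univ _)] at h3
    exact h3
  have h1 := Q.sum hR (s := Finset.univ) (fun i _ => key i)
  rw [← Preadditive.sum_comp] at h1
  have h2 := (a3.symm.right (∑ e : Cl hR ob, we e • Phi hR (pd e) (ob j))).symm
  rw [Category.id_comp] at h2
  exact h2.trans (h1.trans a3.symm)

/-- The resolution of the identity, transported along an isomorphism. -/
theorem resolution_iso {hR : Nice R} {J : Type x} {ob : J → C} [Fintype (Cl hR ob)] {j : J} {Y : C}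
    (i : Y ≅ ob j) : Q R (∑ e : Cl hR ob, we e • Phi hR (pd e) Y) (𝟙 Y) := by
  have h1 : ∀ e : Cl hR ob, Q R (we e • Phi hR (pd e) Y)
      (i.hom ≫ (we e • Phi hR (pd e) (ob j)) ≫ i.inv) := by
    intro e
    have h2 := ((Phi_nat hR (pd e) i.hom).symm.right i.inv).smul hR (we e)
    rw [Category.assoc, Category.assoc, Iso.hom_inv_id, Category.comp_id] at h2
    rw [Linear.smul_comp, Linear.comp_smul]
    exact h2
  have h2 := Q.sum hR (s := Finset.univ) (fun e _ => h1 e)
  rw [← Preadditive.comp_sum, ← Preadditive.sum_comp] at h2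
  have h3 := ((resolution (hR := hR) (ob := ob) j).right i.inv).left hR i.hom
  rw [Category.id_comp, Iso.hom_inv_id] at h3
  exact h2.trans h3

end Pool.Agent.P8H25.Sp
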