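import Mathlib

/-!
# Statements of the packages of the one percent law
-/

set_option autoImplicit false

open CategoryTheory MonoidalCategory Filter Topology

namespace Pool.Agent.P8H25.Stm

universe v u w

/-- Package INT: integrality. -/
def S_INT : Prop :=
  ∀ (K : Type w) (_ : Field K) (_ : CharZero K) (J : Type) (_ : Fintype J) (_ : DecidableEq J)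
    (P L : Matrix J J K) (_ : P * P = 1) (_ : P * L = L * P)
    (I : Type) (_ : Fintype I) (_ : DecidableEq I) (S : Matrix I I ℚ) (x y : I → ℚ)
    (s : ℕ → ℚ) (_ : ∀ n, s n = x ⬝ᵥ ((S ^ n).mulVec y))
    (b : ℕ) (_ : 0 < b) (κ : ℝ) (_ : 0 < κ)
    (_ : Tendsto (fun n => (s n : ℝ) / (b : ℝ) ^ n) atTop (𝓝 κ))
    (D : K) (_ : ∀ n, 1 ≤ n → (P * L ^ n).trace = D * (s n : K)),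
    ∃ q : ℚ, (q : ℝ) = κ ∧ ∃ m : ℤ, D * (q : K) = m

section Coh

variable {C : Type u} [Category.{v} C] [MonoidalCategory C]

/-- Rotation of an endomorphism. -/
def rot {Z Z' Y Y' : C} (eZ : Z' ⊗ Z ⟶ 𝟙_ C) (hY : 𝟙_ C ⟶ Y' ⊗ Y) (x : Z ⊗ Y' ⟶ Z ⊗ Y') :
    Z' ⊗ Z ⟶ Y' ⊗ Y :=
  𝟙 _ ⊗≫ (Z' ⊗ Z) ◁ hY ⊗≫ Z' ◁ x ▷ Y ⊗≫ eZ ▷ (Y' ⊗ Y) ⊗≫ 𝟙 _

/-- Closing a strand on the left. -/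
def cll {A A' U : C} (hA : 𝟙_ C ⟶ A' ⊗ A) (eA : A' ⊗ A ⟶ 𝟙_ C) (X : A ⊗ U ⟶ A ⊗ U) : U ⟶ U :=
  𝟙 _ ⊗≫ hA ▷ U ⊗≫ A' ◁ X ⊗≫ eA ▷ U ⊗≫ 𝟙 _

/-- Closing a strand on the right. -/
def clr {B B' U : C} (hB : 𝟙_ C ⟶ B ⊗ B') (eB : B ⊗ B' ⟶ 𝟙_ C) (X : U ⊗ B ⟶ U ⊗ B) : U ⟶ U :=
  𝟙 _ ⊗≫ U ◁ hB ⊗≫ X ▷ B' ⊗≫ U ◁ eB ⊗≫ 𝟙 _

/-- The contraction of two endomorphisms. -/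
def star {A B Z Y Y' W' : C} (hY : 𝟙_ C ⟶ Y' ⊗ Y) (eY : Y' ⊗ Y ⟶ 𝟙_ C)
    (X : A ⊗ (Z ⊗ Y') ⟶ A ⊗ (Z ⊗ Y')) (X' : (Y ⊗ W') ⊗ B ⟶ (Y ⊗ W') ⊗ B) :
    (A ⊗ (Z ⊗ W')) ⊗ B ⟶ (A ⊗ (Z ⊗ W')) ⊗ B :=
  𝟙 _ ⊗≫ (A ⊗ Z) ◁ hY ▷ (W' ⊗ B) ⊗≫ X ▷ ((Y ⊗ W') ⊗ B) ⊗≫ (A ⊗ (Z ⊗ Y')) ◁ X' ⊗≫
    (A ⊗ Z) ◁ eY ▷ (W' ⊗ B) ⊗≫ 𝟙 _

/-- Package COH. -/
def S_COH : Prop :=
  ∀ {Z Z' Y Y' W W' A A' B B' : C} (eZ : Z' ⊗ Z ⟶ 𝟙_ C) (hY : 𝟙_ C ⟶ Y' ⊗ Y)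
    (eY : Y' ⊗ Y ⟶ 𝟙_ C) (hW : 𝟙_ C ⟶ W' ⊗ W) (hA : 𝟙_ C ⟶ A' ⊗ A) (eA : A' ⊗ A ⟶ 𝟙_ C)
    (hB : 𝟙_ C ⟶ B ⊗ B') (eB : B ⊗ B' ⟶ 𝟙_ C)
    (X : A ⊗ (Z ⊗ Y') ⟶ A ⊗ (Z ⊗ Y')) (X' : (Y ⊗ W') ⊗ B ⟶ (Y ⊗ W') ⊗ B),
    rot eZ hY (cll hA eA X) ≫ rot eY hW (clr hB eB X') =
      rot eZ hW (cll hA eA (clr hB eB (star hY eY X X')))

end Coh

section Sym

variable {C : Type u} [Category.{v} C] [MonoidalCategory C] [SymmetricCategory C]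

/-- The trace for a general dual. -/
def trg {V V' : C} [ExactPairing V V'] (a : V ⟶ V) : 𝟙_ C ⟶ 𝟙_ C :=
  η_ V V' ≫ a ▷ V' ≫ (β_ V V').hom ≫ ε_ V V'

/-- Package TRR: the trace of a rotated endomorphism. `U'` is any dual of `Z' ⊗ Z`. -/
def S_TRR : Prop :=
  ∀ {Z Z' U' : C} [ExactPairing Z Z'] [ExactPairing (Z' ⊗ Z) U'] (x : Z ⊗ Z' ⟶ Z ⊗ Z'),
    trg (V := Z' ⊗ Z) (V' := U') (rot (ε_ Z Z') (η_ Z Z' ≫ (β_ Z Z').hom) x) =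
      η_ Z Z' ≫ x ≫ (β_ Z Z').hom ≫ ε_ Z Z'

end Sym

end Pool.Agent.P8H25.Stm
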