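import Pool.Agent.P8H25.SpM
import Pool.Agent.P8H25.SpStm

/-!
# Contractions of the maximal purely even idempotents
-/

set_option autoImplicit false
set_option linter.unusedSectionVars false

open CategoryTheory Limits MonoidalCategory Module Filter Topology
open Pool.Agent.Y112.SR Pool.Agent.Y112.KD Pool.Agent.N64.AF
open Pool.Agent.Y116.MT (tr)
open Pool.Agent.N64.AF.A1aux
open Pool.Agent.N413.AFW
open Pool.Agent.P8H25.Stm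

namespace Pool.Agent.P8H25.Sp

universe v u w x

section Cat

variable {C : Type u} [Category.{v} C] [MonoidalCategory C] [SymmetricCategory C]
  [RightRigidCategory C]

lemma clr_eq {U B : C} (y : U ⊗ B ⟶ U ⊗ B) :
    clr (η_ B Bᘁ) ((β_ B Bᘁ).hom ≫ ε_ B Bᘁ) y = ptr y := by
  unfold clr ptr
  monoidal

lemma cll_in {U A A' : C} (h : 𝟙_ C ⟶ A ⊗ A') :
    (ρ_ U).inv ≫ U ◁ h ≫ (α_ U A A').inv ≫ (β_ U A).hom ▷ A' ≫ (β_ (A ⊗ U) A').hom =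
      (λ_ U).inv ≫ (h ≫ (β_ A A').hom) ▷ U ≫ (α_ A' A U).hom := by
  have h1 : (α_ U A A').inv ≫ (β_ U A).hom ▷ A' =
      (β_ U (A ⊗ A')).hom ≫ (α_ A A' U).hom ≫ A ◁ (β_ A' U).hom ≫ (α_ A U A').inv := by
    have h2 := BraidedCategory.hexagon_forward U A A'
    rw [← cancel_epi (α_ U A A').hom, Iso.hom_inv_id_assoc, reassoc_of% h2,
      ← MonoidalCategory.whiskerLeft_comp_assoc, SymmetricCategory.symmetry,
      MonoidalCategory.whiskerLeft_id, Category.id_comp, Iso.hom_inv_id, Category.comp_id]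
  have h3 : A ◁ (β_ A' U).hom ≫ (α_ A U A').inv ≫ (β_ (A ⊗ U) A').hom =
      (α_ A A' U).inv ≫ (β_ A A').hom ▷ U ≫ (α_ A' A U).hom := by
    have h2 := BraidedCategory.hexagon_reverse A U A'
    rw [← cancel_mono (α_ A' A U).inv, Category.assoc, Category.assoc, h2,
      ← MonoidalCategory.whiskerLeft_comp_assoc, SymmetricCategory.symmetry,
      MonoidalCategory.whiskerLeft_id, Category.id_comp, Category.assoc, Category.assoc,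
      Iso.hom_inv_id, Category.comp_id]
  rw [reassoc_of% h1, h3, Iso.hom_inv_id_assoc, BraidedCategory.braiding_naturality_right_assoc,
    comp_whiskerRight, Category.assoc]
  simp

lemma cll_out {U A A' : C} (e : A' ⊗ A ⟶ 𝟙_ C) :
    (β_ A' (A ⊗ U)).hom ≫ (β_ A U).hom ▷ A' ≫ (α_ U A A').hom ≫ U ◁ ((β_ A A').hom ≫ e) ≫
      (ρ_ U).hom = (α_ A' A U).inv ≫ e ▷ U ≫ (λ_ U).hom := by
  have h1 : (β_ A' (A ⊗ U)).hom = (α_ A' A U).inv ≫ (β_ A' A).hom ▷ U ≫ (α_ A A' U).hom ≫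
      A ◁ (β_ A' U).hom ≫ (α_ A U A').inv := by
    have h2 := BraidedCategory.hexagon_forward A' A U
    rw [← cancel_epi (α_ A' A U).hom, ← cancel_mono (α_ A U A').hom]
    simp only [Category.assoc, Iso.hom_inv_id_assoc, Iso.inv_hom_id, Category.comp_id]
    exact h2
  have h3 : A ◁ (β_ A' U).hom ≫ (α_ A U A').inv ≫ (β_ A U).hom ▷ A' =
      (α_ A A' U).inv ≫ (β_ (A ⊗ A') U).hom ≫ (α_ U A A').inv :=
    (BraidedCategory.hexagon_reverse A A' U).symm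
  rw [h1]
  simp only [Category.assoc]
  rw [reassoc_of% h3, Iso.hom_inv_id_assoc, Iso.inv_hom_id_assoc,
    ← BraidedCategory.braiding_naturality_left_assoc, ← comp_whiskerRight_assoc,
    SymmetricCategory.symmetry_assoc]
  simp

/-- Closing on the left is closing on the right. -/
lemma cll_eq {U A : C} (y : A ⊗ U ⟶ A ⊗ U) :
    cll (η_ A Aᘁ ≫ (β_ A Aᘁ).hom) (ε_ A Aᘁ) y = ptr ((β_ U A).hom ≫ y ≫ (β_ A U).hom) := by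
  have h1 : cll (η_ A Aᘁ ≫ (β_ A Aᘁ).hom) (ε_ A Aᘁ) y = (λ_ U).inv ≫
      (η_ A Aᘁ ≫ (β_ A Aᘁ).hom) ▷ U ≫ (α_ Aᘁ A U).hom ≫ Aᘁ ◁ y ≫ (α_ Aᘁ A U).inv ≫
        ε_ A Aᘁ ▷ U ≫ (λ_ U).hom := by
    unfold cll
    monoidal
  have h2 : ptr ((β_ U A).hom ≫ y ≫ (β_ A U).hom) = (ρ_ U).inv ≫ U ◁ η_ A Aᘁ ≫
      (α_ U A Aᘁ).inv ≫ (β_ U A).hom ▷ Aᘁ ≫ y ▷ Aᘁ ≫ (β_ A U).hom ▷ Aᘁ ≫ (α_ U A Aᘁ).hom ≫
        U ◁ ((β_ A Aᘁ).hom ≫ ε_ A Aᘁ) ≫ (ρ_ U).hom := by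
    unfold ptr
    simp only [comp_whiskerRight, Category.assoc]
  have h3 : y ▷ Aᘁ = (β_ (A ⊗ U) Aᘁ).hom ≫ Aᘁ ◁ y ≫ (β_ Aᘁ (A ⊗ U)).hom := by
    rw [← BraidedCategory.braiding_naturality_left_assoc, SymmetricCategory.symmetry,
      Category.comp_id]
  rw [h1, h2, h3]
  simp only [Category.assoc]
  rw [cll_out, ← reassoc_of% (cll_in (U := U) (η_ A Aᘁ))]

end Cat

variable {C : Type u} [Category.{v} C] [Preadditive C] [MonoidalCategory C]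
  [MonoidalPreadditive C] [SymmetricCategory C] [RightRigidCategory C]
  {K : Type w} [Field K] [CharZero K] [Linear K C] [MonoidalLinear K C]
  {R : SuperRealisation C K}

/-- Contraction of the middle factor. -/
def star0 (V V' Y Y' : C) [ExactPairing Y Y'] (y : V ⊗ Y' ⟶ V ⊗ Y') (y' : Y ⊗ V' ⟶ Y ⊗ V') :
    V ⊗ V' ⟶ V ⊗ V' :=
  (ins V Y Y' ▷ V') ≫ (α_ (V ⊗ Y') Y V').hom ≫ (y ⊗ₘ y') ≫ (α_ (V ⊗ Y') Y V').inv ≫
    (rem V Y Y' ▷ V')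

lemma Q.star0 (hR : Nice R) {V V' Y Y' : C} [ExactPairing Y Y'] {y z : V ⊗ Y' ⟶ V ⊗ Y'}
    {y' z' : Y ⊗ V' ⟶ Y ⊗ V'} (h : Q R y z) (h' : Q R y' z') :
    Q R (star0 V V' Y Y' y y') (star0 V V' Y Y' z z') :=
  (((h.tensor hR h').right _).left hR _).left hR _

omit [Preadditive C] [MonoidalPreadditive C] in
lemma star_aux {V V' Y Y' : C} [ExactPairing Y Y'] {p : Y ⟶ Y} (G E : V ⊗ Y' ⟶ V ⊗ Y')
    (hG : ins V Y Y' ≫ (G ⊗ₘ p) = ins V Y Y' ≫ (G ▷ Y)) (h : V' ⟶ V') :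
    (ins V Y Y' ▷ V') ≫ (α_ (V ⊗ Y') Y V').hom ≫ (G ⊗ₘ (p ⊗ₘ h)) ≫ (E ▷ (Y ⊗ V')) ≫
      (α_ (V ⊗ Y') Y V').inv ≫ (rem V Y Y' ▷ V') = ptr (G ≫ E) ⊗ₘ h := by
  have f1 : (α_ (V ⊗ Y') Y V').hom ≫ (G ⊗ₘ (p ⊗ₘ h)) ≫ (E ▷ (Y ⊗ V')) ≫ (α_ (V ⊗ Y') Y V').inv =
      ((G ⊗ₘ p) ⊗ₘ h) ≫ ((E ▷ Y) ▷ V') := by
    rw [← associator_naturality_assoc, ← associator_naturality_left_assoc, Iso.hom_inv_id,
      Category.comp_id]
  have f2 : (ins V Y Y' ▷ V') ≫ ((G ⊗ₘ p) ⊗ₘ h) ≫ ((E ▷ Y) ▷ V') ≫ (rem V Y Y' ▷ V') =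
      (ins V Y Y' ≫ (G ⊗ₘ p) ≫ (E ▷ Y) ≫ rem V Y Y') ⊗ₘ h := by
    rw [MonoidalCategory.tensorHom_def (G ⊗ₘ p) h, Category.assoc, whisker_exchange_assoc,
      whisker_exchange,
      MonoidalCategory.tensorHom_def (ins V Y Y' ≫ (G ⊗ₘ p) ≫ (E ▷ Y) ≫ rem V Y Y') h]
    simp only [comp_whiskerRight, Category.assoc]
  have f3 : ins V Y Y' ≫ (G ⊗ₘ p) ≫ (E ▷ Y) ≫ rem V Y Y' = ptr (G ≫ E) := by
    rw [reassoc_of% hG, ← comp_whiskerRight_assoc, ins_rem]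
  rw [← f3, ← f2, ← reassoc_of% f1]

/-- **Contraction of two maximal purely even idempotents.** -/
theorem star0_eps (hR : Nice R) {V V' Y Y' : C} [ExactPairing Y Y'] {p : Y ⟶ Y} {pd : Y' ⟶ Y'}
    (hp : Mt p pd) (hpd : pd ≫ pd = pd) (g : V ⟶ V) (h : V' ⟶ V') :
    Q R (star0 V V' Y Y' ((g ⊗ₘ pd) ≫ eps hR (V ⊗ Y')) ((p ⊗ₘ h) ≫ eps hR (Y ⊗ V')))
      (((g ≫ Phi hR pd V) ⊗ₘ h) ≫ eps hR (V ⊗ V')) := by
  have k1 : Q R (((g ⊗ₘ pd) ≫ eps hR (V ⊗ Y')) ⊗ₘ ((p ⊗ₘ h) ≫ eps hR (Y ⊗ V')))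
      (((g ⊗ₘ pd) ⊗ₘ (p ⊗ₘ h)) ≫ (eps hR (V ⊗ Y') ▷ (Y ⊗ V')) ≫
        eps hR ((V ⊗ Y') ⊗ (Y ⊗ V'))) := by
    rw [← MonoidalCategory.tensorHom_comp_tensorHom]
    exact (eps_tensor_left hR (Y ⊗ V') (V ⊗ Y')).symm.left hR _
  have k2 := (((k1.right ((α_ (V ⊗ Y') Y V').inv ≫ (rem V Y Y' ▷ V'))).left hR
    (α_ (V ⊗ Y') Y V').hom)).left hR (ins V Y Y' ▷ V')
  have k3 := ((((eps_nat hR ((α_ (V ⊗ Y') Y V').inv ≫ (rem V Y Y' ▷ V'))).left hR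
    (eps hR (V ⊗ Y') ▷ (Y ⊗ V'))).left hR ((g ⊗ₘ pd) ⊗ₘ (p ⊗ₘ h))).left hR
      (α_ (V ⊗ Y') Y V').hom).left hR (ins V Y Y' ▷ V')
  have hG : ins V Y Y' ≫ ((g ⊗ₘ pd) ⊗ₘ p) = ins V Y Y' ≫ ((g ⊗ₘ pd) ▷ Y) := by
    rw [MonoidalCategory.tensorHom_def', ← Category.assoc, ← ins_Mt hp, Category.assoc,
      ← comp_whiskerRight, MonoidalCategory.tensorHom_def', ← Category.assoc (V ◁ pd),
      ← MonoidalCategory.whiskerLeft_comp, hpd]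
  have e1 := star_aux (g ⊗ₘ pd) (eps hR (V ⊗ Y')) hG h
  have e2 : ptr ((g ⊗ₘ pd) ≫ eps hR (V ⊗ Y')) = g ≫ Phi hR pd V := by
    rw [MonoidalCategory.tensorHom_def, Category.assoc, ptr_comp_left]
    rfl
  rw [e2] at e1
  simp only [Category.assoc] at k2 k3
  have k4 := k2.trans k3
  have e3 := congrArg (fun z => z ≫ eps hR (V ⊗ V')) e1
  simp only [Category.assoc] at e3
  rw [e3] at k4
  exact k4

end Pool.Agent.P8H25.Sp
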