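import Pool.Agent.P8H25.SpN

/-!
# The composition law
-/

set_option autoImplicit false
set_option linter.unusedSectionVars false

open CategoryTheory Limits MonoidalCategory Module Filter Topology
open Pool.Agent.Y112.SR Pool.Agent.Y112.KD Pool.Agent.N64.AF
open Pool.Agent.Y116.MT (tr)
open Pool.Agent.N64.AF.A1aux
open Pool.Agent.N413.AFW
open Pool.Agent.P8H25.Stm

namespace Pool.Agent.P8H25.Sp

universe v u w x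

section Cat

variable {C : Type u} [Category.{v} C] [MonoidalCategory C] [SymmetricCategory C]

lemma star_star0 {A B Z Y Y' W' : C} [ExactPairing Y Y']
    (X : A ⊗ (Z ⊗ Y') ⟶ A ⊗ (Z ⊗ Y')) (X' : (Y ⊗ W') ⊗ B ⟶ (Y ⊗ W') ⊗ B) :
    Stm.star (η_ Y Y' ≫ (β_ Y Y').hom) (ε_ Y Y') X X' =
      ((α_ A Z W').inv ▷ B ≫ (α_ (A ⊗ Z) W' B).hom) ≫
        star0 (A ⊗ Z) (W' ⊗ B) Y Y' ((α_ A Z Y').hom ≫ X ≫ (α_ A Z Y').inv)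
          ((α_ Y W' B).inv ≫ X' ≫ (α_ Y W' B).hom) ≫
      ((α_ (A ⊗ Z) W' B).inv ≫ (α_ A Z W').hom ▷ B) := by
  unfold Stm.star star0 ins rem
  rw [MonoidalCategory.tensorHom_def]
  monoidal

lemma rot_form {Z Z' Y Y' : C} (eZ : Z' ⊗ Z ⟶ 𝟙_ C) (hY : 𝟙_ C ⟶ Y' ⊗ Y) :
    ∃ (a : Z' ⊗ Z ⟶ Z' ⊗ ((Z ⊗ Y') ⊗ Y)) (b : Z' ⊗ ((Z ⊗ Y') ⊗ Y) ⟶ Y' ⊗ Y),
      ∀ x : Z ⊗ Y' ⟶ Z ⊗ Y', rot eZ hY x = a ≫ (Z' ◁ (x ▷ Y)) ≫ b := by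
  refine ⟨𝟙 _ ⊗≫ (Z' ⊗ Z) ◁ hY ⊗≫ 𝟙 _, 𝟙 _ ⊗≫ eZ ▷ (Y' ⊗ Y) ⊗≫ 𝟙 _, fun x => ?_⟩
  unfold rot
  monoidal

lemma cll_form {A A' U : C} (hA : 𝟙_ C ⟶ A' ⊗ A) (eA : A' ⊗ A ⟶ 𝟙_ C) :
    ∃ (a : U ⟶ A' ⊗ (A ⊗ U)) (b : A' ⊗ (A ⊗ U) ⟶ U),
      ∀ x : A ⊗ U ⟶ A ⊗ U, cll hA eA x = a ≫ (A' ◁ x) ≫ b := by
  refine ⟨𝟙 _ ⊗≫ hA ▷ U ⊗≫ 𝟙 _, 𝟙 _ ⊗≫ eA ▷ U ⊗≫ 𝟙 _, fun x => ?_⟩
  unfold cll
  monoidal

lemma clr_form {B B' U : C} (hB : 𝟙_ C ⟶ B ⊗ B') (eB : B ⊗ B' ⟶ 𝟙_ C) :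
    ∃ (a : U ⟶ (U ⊗ B) ⊗ B') (b : (U ⊗ B) ⊗ B' ⟶ U),
      ∀ x : U ⊗ B ⟶ U ⊗ B, clr hB eB x = a ≫ (x ▷ B') ≫ b := by
  refine ⟨𝟙 _ ⊗≫ U ◁ hB ⊗≫ 𝟙 _, 𝟙 _ ⊗≫ U ◁ eB ⊗≫ 𝟙 _, fun x => ?_⟩
  unfold clr
  monoidal

end Cat

variable {C : Type u} [Category.{v} C] [Preadditive C] [MonoidalCategory C]
  [MonoidalPreadditive C] [SymmetricCategory C] [RightRigidCategory C]
  {K : Type w} [Field K] [CharZero K] [Linear K C] [MonoidalLinear K C]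
  {R : SuperRealisation C K}

section Lin

lemma rot_lin {Z Z' Y Y' : C} (eZ : Z' ⊗ Z ⟶ 𝟙_ C) (hY : 𝟙_ C ⟶ Y' ⊗ Y) :
    IsLinearMap K (fun x : Z ⊗ Y' ⟶ Z ⊗ Y' => rot eZ hY x) := by
  obtain ⟨a, b, h⟩ := rot_form eZ hY
  constructor
  · intro x y
    rw [h, h, h, MonoidalPreadditive.add_whiskerRight, MonoidalPreadditive.whiskerLeft_add,
      Preadditive.add_comp, Preadditive.comp_add]
  · intro c x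
    rw [h, h, MonoidalLinear.smul_whiskerRight, MonoidalLinear.whiskerLeft_smul, Linear.smul_comp,
      Linear.comp_smul]

lemma cll_lin {A A' U : C} (hA : 𝟙_ C ⟶ A' ⊗ A) (eA : A' ⊗ A ⟶ 𝟙_ C) :
    IsLinearMap K (fun x : A ⊗ U ⟶ A ⊗ U => cll hA eA x) := by
  obtain ⟨a, b, h⟩ := cll_form (U := U) hA eA
  constructor
  · intro x y
    rw [h, h, h, MonoidalPreadditive.whiskerLeft_add, Preadditive.add_comp, Preadditive.comp_add]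
  · intro c x
    rw [h, h, MonoidalLinear.whiskerLeft_smul, Linear.smul_comp, Linear.comp_smul]

lemma clr_lin {B B' U : C} (hB : 𝟙_ C ⟶ B ⊗ B') (eB : B ⊗ B' ⟶ 𝟙_ C) :
    IsLinearMap K (fun x : U ⊗ B ⟶ U ⊗ B => clr hB eB x) := by
  obtain ⟨a, b, h⟩ := clr_form (U := U) hB eB
  constructor
  · intro x y
    rw [h, h, h, MonoidalPreadditive.add_whiskerRight, Preadditive.add_comp, Preadditive.comp_add]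
  · intro c x
    rw [h, h, MonoidalLinear.smul_whiskerRight, Linear.smul_comp, Linear.comp_smul]

lemma lin_sum {V W : Type*} [AddCommGroup V] [AddCommGroup W] [Module K V] [Module K W] {f : V → W}
    (hf : IsLinearMap K f) {ι : Type*} (s : Finset ι) (c : ι → K) (x : ι → V) :
    ∑ i ∈ s, c i • f (x i) = f (∑ i ∈ s, c i • x i) := by
  have h := map_sum (IsLinearMap.mk' f hf) (fun i => c i • x i) s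
  simp only [map_smul] at h
  exact h.symm

lemma Q.rot (hR : Nice R) {Z Z' Y Y' : C} (eZ : Z' ⊗ Z ⟶ 𝟙_ C) (hY : 𝟙_ C ⟶ Y' ⊗ Y)
    {x y : Z ⊗ Y' ⟶ Z ⊗ Y'} (h : Q R x y) : Q R (Stm.rot eZ hY x) (Stm.rot eZ hY y) := by
  obtain ⟨a, b, hab⟩ := rot_form eZ hY
  rw [hab, hab]
  exact (((h.wr hR Y).wl hR Z').right b).left hR a

lemma Q.cll (hR : Nice R) {A A' U : C} (hA : 𝟙_ C ⟶ A' ⊗ A) (eA : A' ⊗ A ⟶ 𝟙_ C)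
    {x y : A ⊗ U ⟶ A ⊗ U} (h : Q R x y) : Q R (Stm.cll hA eA x) (Stm.cll hA eA y) := by
  obtain ⟨a, b, hab⟩ := cll_form (U := U) hA eA
  rw [hab, hab]
  exact ((h.wl hR A').right b).left hR a

lemma Q.clr (hR : Nice R) {B B' U : C} (hB : 𝟙_ C ⟶ B ⊗ B') (eB : B ⊗ B' ⟶ 𝟙_ C)
    {x y : U ⊗ B ⟶ U ⊗ B} (h : Q R x y) : Q R (Stm.clr hB eB x) (Stm.clr hB eB y) := by
  obtain ⟨a, b, hab⟩ := clr_form (U := U) hB eB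
  rw [hab, hab]
  exact ((h.wr hR B').right b).left hR a

lemma Q.ptr (hR : Nice R) {U B : C} {x y : U ⊗ B ⟶ U ⊗ B} (h : Q R x y) :
    Q R (Y112.SR.ptr x) (Y112.SR.ptr y) := by
  rw [← clr_eq, ← clr_eq]
  exact h.clr hR _ _

end Lin

section Close

lemma ptr_eps (hR : Nice R) (U B : C) : ptr (eps hR (U ⊗ B)) = Phi hR (𝟙 B) U := by
  rw [Phi, MonoidalCategory.whiskerLeft_id, Category.id_comp]

lemma clr_eps (hR : Nice R) {U B : C} (f : U ⟶ U) :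
    clr (η_ B Bᘁ) ((β_ B Bᘁ).hom ≫ ε_ B Bᘁ) ((f ▷ B) ≫ eps hR (U ⊗ B)) =
      f ≫ Phi hR (𝟙 B) U := by
  rw [clr_eq, ptr_comp_left, ptr_eps]

lemma cll_gen (hR : Nice R) {U A : C} (f : U ⟶ U) {E : A ⊗ U ⟶ A ⊗ U} {E' : U ⊗ A ⟶ U ⊗ A}
    (hE : Q R ((β_ U A).hom ≫ E) (E' ≫ (β_ U A).hom)) :
    Q R (cll (η_ A Aᘁ ≫ (β_ A Aᘁ).hom) (ε_ A Aᘁ) ((A ◁ f) ≫ E)) (f ≫ ptr E') := by
  rw [cll_eq, ← ptr_comp_left]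
  apply Q.ptr hR
  have h1 : (β_ U A).hom ≫ ((A ◁ f) ≫ E) ≫ (β_ A U).hom =
      (f ▷ A) ≫ ((β_ U A).hom ≫ E) ≫ (β_ A U).hom := by
    rw [Category.assoc, ← BraidedCategory.braiding_naturality_left_assoc, Category.assoc]
  rw [h1]
  have h2 := (hE.right (β_ A U).hom).left hR (f ▷ A)
  rw [Category.assoc E', SymmetricCategory.symmetry, Category.comp_id] at h2
  exact h2

lemma cll_eps (hR : Nice R) {U A : C} (f : U ⟶ U) :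
    Q R (cll (η_ A Aᘁ ≫ (β_ A Aᘁ).hom) (ε_ A Aᘁ) ((A ◁ f) ≫ eps hR (A ⊗ U)))
      (f ≫ Phi hR (𝟙 A) U) := by
  rw [← ptr_eps]
  exact cll_gen hR f (eps_nat hR (β_ U A).hom).symm

lemma ptr_Phi (hR : Nice R) (U A B : C) :
    Q R (ptr (Phi hR (𝟙 B) (U ⊗ A))) (Phi hR (𝟙 (A ⊗ B)) U) := by
  intro k
  rw [st_comm' hR, ← ptr_comp_left, st_ptr, ← B_eq, st_comm' hR, ← B_eq, ← id_tensorHom_id A B,
    ← B_assoc, tensorHom_id]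

lemma cll_clr_eps (hR : Nice R) {U A B : C} (f : U ⟶ U) :
    Q R (cll (η_ A Aᘁ ≫ (β_ A Aᘁ).hom) (ε_ A Aᘁ)
      (clr (η_ B Bᘁ) ((β_ B Bᘁ).hom ≫ ε_ B Bᘁ) (((A ◁ f) ▷ B) ≫ eps hR ((A ⊗ U) ⊗ B))))
      (f ≫ Phi hR (𝟙 (A ⊗ B)) U) := by
  rw [clr_eps]
  exact (cll_gen hR f (Phi_nat hR (𝟙 B) (β_ U A).hom)).trans ((ptr_Phi hR U A B).left hR f)

end Close

end Pool.Agent.P8H25.Sp
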