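import Pool.Agent.P8H25.SpO

/-!
# The composition law, continued
-/

set_option autoImplicit false
set_option linter.unusedSectionVars false

open CategoryTheory Limits MonoidalCategory Module Filter Topology
open Pool.Agent.Y112.SR Pool.Agent.Y112.KD Pool.Agent.N64.AF
open Pool.Agent.Y116.MT (tr)
open Pool.Agent.N64.AF.A1aux
open Pool.Agent.N413.AFW
open Pool.Agent.P8H25.Stm

namespace Pool.Agent.P8H25.Sp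

universe v u w x

variable {C : Type u} [Category.{v} C] [Preadditive C] [MonoidalCategory C]
  [MonoidalPreadditive C] [SymmetricCategory C] [RightRigidCategory C]
  {K : Type w} [Field K] [CharZero K] [Linear K C] [MonoidalLinear K C]
  {R : SuperRealisation C K} [IsAlgClosed K]

/-- The evaluation. -/
abbrev evZ (Z : C) : Zᘁ ⊗ Z ⟶ 𝟙_ C := ε_ Z Zᘁ

/-- The coevaluation, with the factors exchanged. -/
abbrev hZ (Z : C) : 𝟙_ C ⟶ Zᘁ ⊗ Z := η_ Z Zᘁ ≫ (β_ Z Zᘁ).hom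

section Comp

variable {hR : Nice R} {J : Type x} {ob : J → C}

/-- The partial traces between two classes. -/
noncomputable def xA (A : C) (e e' : Cl hR ob) : oe e ⊗ (oe e')ᘁ ⟶ oe e ⊗ (oe e')ᘁ :=
  (pe e ⊗ₘ pd e') ≫ Phi hR (𝟙 A) (oe e ⊗ (oe e')ᘁ)

/-- The transfer morphisms. -/
noncomputable def Lam (A : C) (e e' : Cl hR ob) : (oe e)ᘁ ⊗ oe e ⟶ (oe e')ᘁ ⊗ oe e' :=
  we e' • rot (evZ (oe e)) (hZ (oe e')) (xA A e e')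

/-- Closing on both sides and rotating. -/
noncomputable def Th (A B : C) (e e'' : Cl hR ob)
    (y : (A ⊗ (oe e ⊗ (oe e'')ᘁ)) ⊗ B ⟶ (A ⊗ (oe e ⊗ (oe e'')ᘁ)) ⊗ B) :
    (oe e)ᘁ ⊗ oe e ⟶ (oe e'')ᘁ ⊗ oe e'' :=
  rot (evZ (oe e)) (hZ (oe e'')) (cll (hZ A) (evZ A)
    (clr (η_ B Bᘁ) ((β_ B Bᘁ).hom ≫ ε_ B Bᘁ) y))

lemma Th_lin (A B : C) (e e'' : Cl hR ob) : IsLinearMap K (Th A B e e'') := by
  have h1 := rot_lin (K := K) (evZ (oe e)) (hZ (oe e''))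
  have h2 := cll_lin (K := K) (U := oe e ⊗ (oe e'')ᘁ) (hZ A) (evZ A)
  have h3 := clr_lin (K := K) (U := A ⊗ (oe e ⊗ (oe e'')ᘁ)) (η_ B Bᘁ) ((β_ B Bᘁ).hom ≫ ε_ B Bᘁ)
  constructor
  · intro x y
    unfold Th
    rw [h3.map_add, h2.map_add, h1.map_add]
  · intro c x
    unfold Th
    rw [h3.map_smul, h2.map_smul, h1.map_smul]

lemma Q.Th {A B : C} {e e'' : Cl hR ob}
    {x y : (A ⊗ (oe e ⊗ (oe e'')ᘁ)) ⊗ B ⟶ (A ⊗ (oe e ⊗ (oe e'')ᘁ)) ⊗ B} (h : Q R x y) :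
    Q R (Sp.Th A B e e'' x) (Sp.Th A B e e'' y) :=
  ((h.clr hR _ _).cll hR _ _).rot hR _ _

/-- The change of brackets. -/
abbrev a1 (A Z W' B : C) : (A ⊗ (Z ⊗ W')) ⊗ B ⟶ (A ⊗ Z) ⊗ (W' ⊗ B) :=
  (α_ A Z W').inv ▷ B ≫ (α_ (A ⊗ Z) W' B).hom

/-- The change of brackets. -/
abbrev a2 (A Z W' B : C) : (A ⊗ Z) ⊗ (W' ⊗ B) ⟶ (A ⊗ (Z ⊗ W')) ⊗ B :=
  (α_ (A ⊗ Z) W' B).inv ≫ (α_ A Z W').hom ▷ B

/-- The first step: the coherence theorem. -/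
lemma step1 (hcoh : S_COH (C := C)) (A B : C) (e e' e'' : Cl hR ob) :
    Q R (Lam A e e' ≫ Lam B e' e'') (we e'' • (we e' • Th A B e e''
      (a1 A (oe e) (oe e'')ᘁ B ≫
        ((((A ◁ pe e) ≫ Phi hR (pd e') (A ⊗ oe e)) ⊗ₘ (pd e'' ▷ B)) ≫
          eps hR ((A ⊗ oe e) ⊗ ((oe e'')ᘁ ⊗ B))) ≫ a2 A (oe e) (oe e'')ᘁ B))) := by
  set X := (A ◁ (pe e ⊗ₘ pd e')) ≫ eps hR (A ⊗ (oe e ⊗ (oe e')ᘁ)) with hX
  set X' := ((pe e' ⊗ₘ pd e'') ▷ B) ≫ eps hR ((oe e' ⊗ (oe e'')ᘁ) ⊗ B) with hX'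
  have h1 : Q R (xA A e e') (cll (hZ A) (evZ A) X) := (cll_eps hR _).symm
  have h2 : xA B e' e'' = clr (η_ B Bᘁ) ((β_ B Bᘁ).hom ≫ ε_ B Bᘁ) X' := (clr_eps hR _).symm
  have h3 : Q R (Lam A e e' ≫ Lam B e' e'') (we e'' • (we e' •
      (rot (evZ (oe e)) (hZ (oe e')) (cll (hZ A) (evZ A) X) ≫
        rot (evZ (oe e')) (hZ (oe e''))
          (clr (η_ B Bᘁ) ((β_ B Bᘁ).hom ≫ ε_ B Bᘁ) X')))) := by
    unfold Lam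
    rw [Linear.smul_comp, Linear.comp_smul, h2, smul_comm (we e')]
    exact (((h1.rot hR _ _).right _).smul hR _).smul hR _
  refine h3.trans (Q.smul hR (Q.smul hR ?_ _) _)
  rw [hcoh (evZ (oe e)) (hZ (oe e')) (evZ (oe e')) (hZ (oe e'')) (hZ A) (evZ A) (η_ B Bᘁ)
    ((β_ B Bᘁ).hom ≫ ε_ B Bᘁ) X X']
  change Q R (Th A B e e'' _) _
  apply Q.Th
  rw [star_star0]
  refine Q.left hR (Q.right ?_ _) _
  refine Q.trans ?_ (star0_eps hR (pd_Mt e') (pd_idem e') (A ◁ pe e) (pd e'' ▷ B))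
  apply Q.star0 hR
  · have k1 := (eps_assoc hR A (oe e) (oe e')ᘁ).symm.left hR ((A ◁ pe e) ⊗ₘ pd e')
    have k2 : (α_ A (oe e) (oe e')ᘁ).hom ≫ X ≫ (α_ A (oe e) (oe e')ᘁ).inv =
        ((A ◁ pe e) ⊗ₘ pd e') ≫ (α_ A (oe e) (oe e')ᘁ).hom ≫
          eps hR (A ⊗ (oe e ⊗ (oe e')ᘁ)) ≫ (α_ A (oe e) (oe e')ᘁ).inv := by
      rw [hX, ← id_tensorHom, ← id_tensorHom, Category.assoc, associator_naturality_assoc]
    rw [k2]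
    exact k1
  · have k0 : Q R ((α_ (oe e') (oe e'')ᘁ B).inv ≫ eps hR ((oe e' ⊗ (oe e'')ᘁ) ⊗ B) ≫
        (α_ (oe e') (oe e'')ᘁ B).hom) (eps hR (oe e' ⊗ ((oe e'')ᘁ ⊗ B))) := by
      have k3 := (eps_nat hR (α_ (oe e') (oe e'')ᘁ B).hom).left hR (α_ (oe e') (oe e'')ᘁ B).inv
      rw [Iso.inv_hom_id_assoc] at k3
      exact k3
    have k1 := k0.left hR (pe e' ⊗ₘ (pd e'' ▷ B))
    have k2 : (α_ (oe e') (oe e'')ᘁ B).inv ≫ X' ≫ (α_ (oe e') (oe e'')ᘁ B).hom =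
        (pe e' ⊗ₘ (pd e'' ▷ B)) ≫ (α_ (oe e') (oe e'')ᘁ B).inv ≫
          eps hR ((oe e' ⊗ (oe e'')ᘁ) ⊗ B) ≫ (α_ (oe e') (oe e'')ᘁ B).hom := by
      rw [hX', ← tensorHom_id, ← tensorHom_id, Category.assoc, associator_inv_naturality_assoc]
    rw [k2]
    exact k1

/-- The last step: changing the brackets back. -/
lemma step3 (A B : C) (e e'' : Cl hR ob) :
    Q R (Th A B e e'' (a1 A (oe e) (oe e'')ᘁ B ≫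
      (((A ◁ pe e) ⊗ₘ (pd e'' ▷ B)) ≫ eps hR ((A ⊗ oe e) ⊗ ((oe e'')ᘁ ⊗ B))) ≫
        a2 A (oe e) (oe e'')ᘁ B)) (rot (evZ (oe e)) (hZ (oe e'')) (xA (A ⊗ B) e e'')) := by
  have h1 := ((eps_nat hR (a2 A (oe e) (oe e'')ᘁ B)).left hR
    ((A ◁ pe e) ⊗ₘ (pd e'' ▷ B))).left hR (a1 A (oe e) (oe e'')ᘁ B)
  have h2 : a1 A (oe e) (oe e'')ᘁ B ≫ ((A ◁ pe e) ⊗ₘ (pd e'' ▷ B)) ≫ a2 A (oe e) (oe e'')ᘁ B =
      (A ◁ (pe e ⊗ₘ pd e'')) ▷ B := by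
    unfold a1 a2
    rw [MonoidalCategory.tensorHom_def, MonoidalCategory.tensorHom_def]
    monoidal
  have h3 : a1 A (oe e) (oe e'')ᘁ B ≫ ((A ◁ pe e) ⊗ₘ (pd e'' ▷ B)) ≫ a2 A (oe e) (oe e'')ᘁ B ≫
      eps hR ((A ⊗ (oe e ⊗ (oe e'')ᘁ)) ⊗ B) = ((A ◁ (pe e ⊗ₘ pd e'')) ▷ B) ≫
        eps hR ((A ⊗ (oe e ⊗ (oe e'')ᘁ)) ⊗ B) := by
    rw [← h2]
    simp only [Category.assoc]
  rw [h3] at h1
  have h4 : Q R (a1 A (oe e) (oe e'')ᘁ B ≫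
      (((A ◁ pe e) ⊗ₘ (pd e'' ▷ B)) ≫ eps hR ((A ⊗ oe e) ⊗ ((oe e'')ᘁ ⊗ B))) ≫
        a2 A (oe e) (oe e'')ᘁ B) (((A ◁ (pe e ⊗ₘ pd e'')) ▷ B) ≫
        eps hR ((A ⊗ (oe e ⊗ (oe e'')ᘁ)) ⊗ B)) := by
    rw [Category.assoc ((A ◁ pe e) ⊗ₘ (pd e'' ▷ B))]
    exact h1
  exact (Q.Th h4).trans ((cll_clr_eps hR (A := A) (B := B) (pe e ⊗ₘ pd e'')).rot hR _ _)

/-- **The composition law of the transfer morphisms.** -/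
theorem Lam_comp (hcoh : S_COH (C := C)) [Fintype (Cl hR ob)] (A B : C) (e e'' : Cl hR ob) {j : J}
    (i : A ⊗ oe e ≅ ob j) :
    Q R (∑ e', Lam A e e' ≫ Lam B e' e'') (Lam (A ⊗ B) e e'') := by
  have h1 := Q.sum hR (s := Finset.univ) (fun e' _ => step1 hcoh A B e e' e'')
  rw [← Finset.smul_sum, lin_sum (Th_lin A B e e'')] at h1
  refine h1.trans (Q.smul hR (Q.trans ?_ (step3 A B e e'')) _)
  apply Q.Th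
  have h2 : ∑ e' : Cl hR ob, we e' • (a1 A (oe e) (oe e'')ᘁ B ≫
      ((((A ◁ pe e) ≫ Phi hR (pd e') (A ⊗ oe e)) ⊗ₘ (pd e'' ▷ B)) ≫
        eps hR ((A ⊗ oe e) ⊗ ((oe e'')ᘁ ⊗ B))) ≫ a2 A (oe e) (oe e'')ᘁ B) =
      a1 A (oe e) (oe e'')ᘁ B ≫
      ((((A ◁ pe e) ≫ ∑ e' : Cl hR ob, we e' • Phi hR (pd e') (A ⊗ oe e)) ⊗ₘ (pd e'' ▷ B)) ≫
        eps hR ((A ⊗ oe e) ⊗ ((oe e'')ᘁ ⊗ B))) ≫ a2 A (oe e) (oe e'')ᘁ B := by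
    refine lin_sum (K := K) (f := fun y : A ⊗ oe e ⟶ A ⊗ oe e => a1 A (oe e) (oe e'')ᘁ B ≫
      ((((A ◁ pe e) ≫ y) ⊗ₘ (pd e'' ▷ B)) ≫
        eps hR ((A ⊗ oe e) ⊗ ((oe e'')ᘁ ⊗ B))) ≫ a2 A (oe e) (oe e'')ᘁ B) ⟨?_, ?_⟩
      Finset.univ we (fun e' => Phi hR (pd e') (A ⊗ oe e))
    · intro x y
      rw [Preadditive.comp_add, add_tensor', Preadditive.add_comp, Preadditive.add_comp,
        Preadditive.comp_add]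
    · intro c x
      rw [Linear.comp_smul, smul_tensor', Linear.smul_comp, Linear.smul_comp, Linear.comp_smul]
  rw [h2]
  refine Q.left hR (Q.right (Q.right (Q.tensor hR ?_ (Q.refl _)) _) _) _
  have h3 := (resolution_iso (hR := hR) i).left hR (A ◁ pe e)
  rw [Category.comp_id] at h3
  exact h3

end Comp

end Pool.Agent.P8H25.Sp
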