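import Pool.Agent.P8H25.SpP
import Pool.Agent.P8H28.SP.Int

/-!
# Block endomorphisms and integrality
-/

set_option autoImplicit false
set_option linter.unusedSectionVars false

open CategoryTheory Limits MonoidalCategory Module Filter Topology
open Pool.Agent.Y112.SR Pool.Agent.Y112.KD Pool.Agent.N64.AF
open Pool.Agent.Y116.MT (tr)
open Pool.Agent.N64.AF.A1aux
open Pool.Agent.N413.AFW
open Pool.Agent.P8H25.Stm

namespace Pool.Agent.P8H25.Sp

universe v u w x y

section Lin

/-- The integrality theorem, for endomorphisms of a vector space. -/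
theorem int_lin {K : Type w} [Field K] [CharZero K] {M : Type x} [AddCommGroup M] [Module K M]
    [Module.Finite K M] (P L : Module.End K M) (hP : P * P = 1) (hPL : P * L = L * P)
    {I : Type y} [Fintype I] [DecidableEq I] (S : Matrix I I ℚ) (x y : I → ℚ) (s : ℕ → ℚ)
    (hs : ∀ n, s n = x ⬝ᵥ ((S ^ n).mulVec y)) (b : ℕ) (hb : 0 < b) (κ : ℝ) (hκ : 0 < κ)
    (hlim : Tendsto (fun n => (s n : ℝ) / (b : ℝ) ^ n) atTop (𝓝 κ)) (D : K)
    (hD : ∀ n, 1 ≤ n → LinearMap.trace K M (P * L ^ n) = D * (s n : K)) :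
    ∃ q : ℚ, (q : ℝ) = κ ∧ ∃ m : ℤ, D * (q : K) = m := by
  let bs := Module.finBasis K M
  let φ := LinearMap.toMatrixAlgEquiv bs
  let r : I ≃ Fin (Fintype.card I) := Fintype.equivFin I
  have hpow : ∀ n, (S.submatrix r.symm r.symm) ^ n = (S ^ n).submatrix r.symm r.symm := by
    intro n
    induction n with
    | zero => rw [pow_zero, pow_zero]; simp
    | succ n ih =>
      rw [pow_succ, pow_succ, ih, Matrix.submatrix_mul_equiv]
  refine Pool.Agent.P8H28.SP.int_thm K inferInstance inferInstance (Fin (finrank K M)) inferInstance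
    inferInstance (φ P) (φ L) ?_ ?_ (Fin (Fintype.card I)) inferInstance inferInstance
    (S.submatrix r.symm r.symm) (x ∘ r.symm) (y ∘ r.symm) s ?_ b hb κ hκ hlim D ?_
  · rw [← map_mul, hP, map_one]
  · rw [← map_mul, hPL, map_mul]
  · intro n
    rw [hs, hpow]
    simp only [dotProduct, Matrix.mulVec, Matrix.submatrix_apply, Function.comp]
    rw [← Equiv.sum_comp r.symm]
    refine Finset.sum_congr rfl fun i _ => ?_
    rw [← Equiv.sum_comp r.symm (fun j => (S ^ n) (r.symm i) j * y j)]
  · intro n hn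
    rw [← map_pow, ← map_mul, ← hD n hn, LinearMap.trace_eq_matrix_trace K bs]
    rfl

variable {K : Type w} [Field K] {I : Type y} [Fintype I] [DecidableEq I] {H : I → Type x}
  [∀ i, AddCommGroup (H i)] [∀ i, Module K (H i)]

/-- The endomorphism of the product with given blocks. -/
noncomputable def blk (f : ∀ i j, H i →ₗ[K] H j) : Module.End K (∀ i, H i) :=
  LinearMap.pi fun j => ∑ i, f i j ∘ₗ LinearMap.proj i

lemma blk_apply (f : ∀ i j, H i →ₗ[K] H j) (v : ∀ i, H i) (j : I) :
    blk f v j = ∑ i, f i j (v i) := by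
  simp [blk]

lemma blk_mul (f g : ∀ i j, H i →ₗ[K] H j) :
    blk g * blk f = blk fun i k => ∑ j, g j k ∘ₗ f i j := by
  apply LinearMap.ext
  intro v
  funext k
  rw [Module.End.mul_apply, blk_apply, blk_apply]
  simp only [blk_apply, map_sum, LinearMap.sum_apply, LinearMap.comp_apply]
  exact Finset.sum_comm

lemma blk_trace [∀ i, Module.Finite K (H i)] (f : ∀ i j, H i →ₗ[K] H j) :
    LinearMap.trace K _ (blk f) = ∑ i, LinearMap.trace K _ (f i i) := by
  have h1 : blk f = ∑ j, LinearMap.single K H j ∘ₗ (∑ i, f i j ∘ₗ LinearMap.proj i) := by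
    apply LinearMap.ext
    intro v
    funext k
    rw [blk_apply, LinearMap.sum_apply, Finset.sum_apply]
    simp only [LinearMap.comp_apply, LinearMap.single_apply, LinearMap.sum_apply,
      LinearMap.proj_apply]
    symm
    rw [Finset.sum_eq_single k]
    · rw [Pi.single_eq_same]
    · intro j _ hj
      rw [Pi.single_eq_of_ne hj.symm]
    · intro h
      exact absurd (Finset.mem_univ k) h
  rw [h1, map_sum]
  refine Finset.sum_congr rfl fun j _ => ?_
  rw [LinearMap.trace_comp_comm']
  congr 1
  apply LinearMap.ext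
  intro v
  simp only [LinearMap.comp_apply, LinearMap.single_apply, LinearMap.sum_apply,
    LinearMap.proj_apply]
  rw [Finset.sum_eq_single j]
  · rw [Pi.single_eq_same]
  · intro i _ hi
    rw [Pi.single_eq_of_ne hi, map_zero]
  · intro h
    exact absurd (Finset.mem_univ j) h

end Lin

end Pool.Agent.P8H25.Sp
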