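import Pool.Agent.P8H25.SpQ

/-!
# The supertraces of the transfer morphisms
-/

set_option autoImplicit false
set_option linter.unusedSectionVars false

open CategoryTheory Limits MonoidalCategory Module Filter Topology
open Pool.Agent.Y112.SR Pool.Agent.Y112.KD Pool.Agent.N64.AF
open Pool.Agent.Y116.MT (tr)
open Pool.Agent.N64.AF.A1aux
open Pool.Agent.N413.AFW
open Pool.Agent.P8H25.Stm

namespace Pool.Agent.P8H25.Sp

universe v u w x

variable {C : Type u} [Category.{v} C] [Preadditive C] [MonoidalCategory C]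
  [MonoidalPreadditive C] [SymmetricCategory C] [RightRigidCategory C]
  {K : Type w} [Field K] [CharZero K] [Linear K C] [MonoidalLinear K C]
  {R : SuperRealisation C K} [IsAlgClosed K]

lemma Phi_iso (hR : Nice R) {A A' : C} (i : A ≅ A') (Y : C) :
    Q R (Phi hR (𝟙 A) Y) (Phi hR (𝟙 A') Y) := by
  intro k
  rw [st_comm' hR, ← B_eq, st_comm' hR, ← B_eq]
  exact B_iso_right hR k i (by rw [Category.id_comp, Category.comp_id])

section Lam

variable {hR : Nice R} {J : Type x} {ob : J → C}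

lemma Lam_iso {A A' : C} (i : A ≅ A') (e e' : Cl hR ob) : Q R (Lam A e e') (Lam A' e e') :=
  ((((Phi_iso hR i _).left hR _).rot hR _ _).smul hR _)

/-- The supertrace of a diagonal transfer morphism. -/
lemma st_Lam (htrr : S_TRR (C := C)) (A : C) (e : Cl hR ob) :
    st R (Lam A e e) = we e * st R (pe e) * (ch hR (𝟙 A) : K) := by
  set Z := oe e with hZ'
  have h1 : st R (rot (evZ (oe e)) (hZ (oe e)) (xA A e e)) =
      st R (η_ (oe e) (oe e)ᘁ ≫ xA A e e ≫ (β_ (oe e) (oe e)ᘁ).hom ≫ ε_ (oe e) (oe e)ᘁ) := by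
    have h2 := htrr (Z := oe e) (Z' := (oe e)ᘁ) (U' := ((oe e)ᘁ ⊗ oe e)ᘁ) (xA A e e)
    have h3 : tr (rot (evZ (oe e)) (hZ (oe e)) (xA A e e)) =
        η_ (oe e) (oe e)ᘁ ≫ xA A e e ≫ (β_ (oe e) (oe e)ᘁ).hom ≫ ε_ (oe e) (oe e)ᘁ := h2
    rw [tr_st hR] at h3
    have h4 := congrArg (st R) h3
    rw [st_smul hR, st_one, mul_one] at h4
    exact h4
  have h5 : Q R (η_ (oe e) (oe e)ᘁ ≫ xA A e e ≫ (β_ (oe e) (oe e)ᘁ).hom ≫ ε_ (oe e) (oe e)ᘁ)
      (st R (pe e) • Phi hR (𝟙 A) (𝟙_ C)) := by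
    have k1 := (((Phi_nat hR (𝟙 A) ((β_ (oe e) (oe e)ᘁ).hom ≫ ε_ (oe e) (oe e)ᘁ)).symm).left hR
      (pe e ⊗ₘ pd e)).left hR (η_ (oe e) (oe e)ᘁ)
    have k2 : (η_ (oe e) (oe e)ᘁ ≫ (pe e ⊗ₘ pd e)) ≫ (β_ (oe e) (oe e)ᘁ).hom ≫
        ε_ (oe e) (oe e)ᘁ = st R (pe e) • 𝟙 (𝟙_ C) := by
      have e1 : η_ (oe e) (oe e)ᘁ ≫ (pe e ⊗ₘ pd e) = η_ (oe e) (oe e)ᘁ ≫ (pe e ▷ (oe e)ᘁ) := by
        have hM : η_ (oe e) (oe e)ᘁ ≫ (pe e ▷ (oe e)ᘁ) = η_ (oe e) (oe e)ᘁ ≫ (oe e ◁ pd e) :=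
          pd_Mt e
        rw [MonoidalCategory.tensorHom_def', ← Category.assoc, ← hM, Category.assoc,
          ← comp_whiskerRight, (pe_pm e).idem]
      rw [e1, Category.assoc, tr_general, tr_st hR]
    have k3 : η_ (oe e) (oe e)ᘁ ≫ (pe e ⊗ₘ pd e) ≫ ((β_ (oe e) (oe e)ᘁ).hom ≫
        ε_ (oe e) (oe e)ᘁ) ≫ Phi hR (𝟙 A) (𝟙_ C) = st R (pe e) • Phi hR (𝟙 A) (𝟙_ C) := by
      have e2 := congrArg (fun z => z ≫ Phi hR (𝟙 A) (𝟙_ C)) k2
      simp only [Category.assoc, Linear.smul_comp, Category.id_comp] at e2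
      simpa only [Category.assoc] using e2
    rw [k3] at k1
    unfold xA
    simp only [Category.assoc] at k1 ⊢
    exact k1
  rw [Lam, st_smul hR, h1, h5.ste, st_smul hR, mul_assoc]
  congr 2
  have h6 := B_eq hR (𝟙 A) (𝟙 (𝟙_ C))
  rw [Category.id_comp, bn_eq hR (id_idem _) (id_idem _), bn, id_tensorHom_id] at h6
  rw [← h6, ch_iso hR (λ_ A)]

end Lam

section Powers

variable {hR : Nice R} {T : C} [Fintype (CT hR T)]

/-- The object attached to a class. -/
noncomputable abbrev VV (e : CT hR T) : C := (oe e)ᘁ ⊗ oe e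

/-- The powers of the matrix of the transfer morphisms. -/
noncomputable def It : ℕ → ∀ e e' : CT hR T, VV e ⟶ VV e'
  | 0 => fun e e' => Lam (WW T) e e'
  | n + 1 => fun e e'' => ∑ e' : CT hR T, It n e e' ≫ Lam (WW T) e' e''

lemma It_Q (hcoh : S_COH (C := C)) (n : ℕ) : ∀ e e' : CT hR T,
    Q R (It n e e') (Lam (tp (WW T) (n + 1)) e e') := by
  induction n with
  | zero => exact fun e e' => Lam_iso (λ_ (WW T)).symm e e'
  | succ n ih =>
    intro e e''
    have h1 : Q R (It (n + 1) e e'')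
        (∑ e' : CT hR T, Lam (tp (WW T) (n + 1)) e e' ≫ Lam (WW T) e' e'') :=
      Q.sum hR fun e' _ => (ih e e').right _
    obtain ⟨i, -⟩ := exists_tp_iso (WW T) (n + 1) (Quotient.out e).j
    exact h1.trans (Lam_comp hcoh (tp (WW T) (n + 1)) (WW T) e e''
      (j := n + 1 + (Quotient.out e).j) i)

/-- The block endomorphism. -/
noncomputable def LL (hR : Nice R) (T : C) [Fintype (CT hR T)] :
    Module.End K (∀ e : CT hR T, R.H.obj (VV e)) :=
  open Classical in blk fun e e' => mp R (Lam (WW T) e e')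

/-- The involution of the product. -/
noncomputable def PP (hR : Nice R) (T : C) :
    Module.End K (∀ e : CT hR T, R.H.obj (VV e)) :=
  LinearMap.pi fun e => pr R (VV e) ∘ₗ LinearMap.proj e

lemma PP_apply (v : ∀ e : CT hR T, R.H.obj (VV e)) (e : CT hR T) :
    PP hR T v e = pr R (VV e) (v e) := rfl

lemma PP_sq : PP hR T * PP hR T = 1 := by
  apply LinearMap.ext
  intro v
  funext e
  rw [Module.End.mul_apply, PP_apply, PP_apply]
  exact LinearMap.congr_fun (pr_pr (R := R) (VV e)) (v e)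

open Classical in
lemma PP_blk (f : ∀ e e' : CT hR T, R.H.obj (VV e) →ₗ[K] R.H.obj (VV e')) :
    PP hR T * blk f = blk fun e e' => pr R (VV e') ∘ₗ f e e' := by
  apply LinearMap.ext
  intro v
  funext e
  rw [Module.End.mul_apply, PP_apply, blk_apply, blk_apply, map_sum]
  rfl

open Classical in
lemma blk_PP (f : ∀ e e' : CT hR T, R.H.obj (VV e) →ₗ[K] R.H.obj (VV e')) :
    blk f * PP hR T = blk fun e e' => f e e' ∘ₗ pr R (VV e) := by
  apply LinearMap.ext
  intro v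
  funext e
  rw [Module.End.mul_apply, blk_apply, blk_apply]
  rfl

lemma PP_LL : PP hR T * LL hR T = LL hR T * PP hR T := by
  classical
  unfold LL
  rw [PP_blk, blk_PP]
  congr 1
  funext e e'
  exact mp_pr _

lemma mp_sum {X Y : C} {ι : Type*} (s : Finset ι) (f : ι → (X ⟶ Y)) :
    mp R (∑ i ∈ s, f i) = ∑ i ∈ s, mp R (f i) := by
  classical
  induction s using Finset.induction_on with
  | empty => rw [Finset.sum_empty, Finset.sum_empty, mp_zero]
  | insert a s ha ih => rw [Finset.sum_insert ha, Finset.sum_insert ha, mp_add, ih]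

open Classical in
lemma LL_pow (n : ℕ) : LL hR T ^ (n + 1) = blk fun e e' => mp R (It n e e') := by
  induction n with
  | zero => rw [zero_add, pow_one]; rfl
  | succ n ih =>
    rw [pow_succ', ih, LL, blk_mul]
    congr 1
    funext e e''
    rw [It, mp_sum]
    refine Finset.sum_congr rfl fun e' _ => ?_
    rw [mp_comp]

/-- The determinant-like constant. -/
noncomputable def DD (hR : Nice R) (T : C) [Fintype (CT hR T)] : K :=
  ∑ e : CT hR T, we e * st R (pe e)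

lemma trace_LL (hcoh : S_COH (C := C)) (htrr : S_TRR (C := C)) (n : ℕ) (hn : 1 ≤ n) :
    LinearMap.trace K _ (PP hR T * LL hR T ^ n) = DD hR T * (sq hR T n : K) := by
  classical
  obtain ⟨n, rfl⟩ := Nat.exists_eq_succ_of_ne_zero (Nat.one_le_iff_ne_zero.1 hn)
  rw [Nat.succ_eq_add_one, LL_pow, PP_blk, blk_trace, DD, Finset.sum_mul]
  refine Finset.sum_congr rfl fun e _ => ?_
  rw [← st_eq', (It_Q hcoh n e e).ste, st_Lam htrr]
  rfl

end Powers

end Pool.Agent.P8H25.Sp
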