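import Pool.Agent.P8H25.SpR

/-!
# Positivity of the limit implies the sign conjecture
-/

set_option autoImplicit false
set_option linter.unusedSectionVars false

open CategoryTheory Limits MonoidalCategory Module Filter Topology
open Pool.Agent.Y112.SR Pool.Agent.Y112.KD Pool.Agent.N64.AF
open Pool.Agent.Y116.MT (tr)
open Pool.Agent.N64.AF.A1aux
open Pool.Agent.N413.AFW
open Pool.Agent.P8H25.Stm

namespace Pool.Agent.P8H25.Sp

universe v u w x

variable {C : Type u} [Category.{v} C] [Preadditive C] [MonoidalCategory C]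
  [MonoidalPreadditive C] [SymmetricCategory C] [RightRigidCategory C]
  {K : Type w} [Field K] [CharZero K] [Linear K C] [MonoidalLinear K C]
  {R : SuperRealisation C K} [IsAlgClosed K]

section Rec

variable {hR : Nice R} {T : C} [Fintype (CT hR T)]

/-- The coefficients of a power. -/
noncomputable def vv (hR : Nice R) (T : C) (n : ℕ) (e : CT hR T) : ℚ :=
  (nn (𝟙 (tp (WW T) n)) e : ℚ)

/-- The fusion matrix. -/
noncomputable def SS (hR : Nice R) (T : C) : Matrix (CT hR T) (CT hR T) ℚ :=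
  fun e e' => (nn (pe e' ⊗ₘ 𝟙 (WW T)ᘁ) e : ℚ) / (cn e : ℚ)

lemma vv_succ (n : ℕ) (e' : CT hR T) :
    vv hR T (n + 1) e' = ∑ e : CT hR T, vv hR T n e * SS hR T e e' := by
  obtain ⟨s, hs⟩ := parseval (hR := hR) (ob := tp (WW T)) (j := n) (g := 𝟙 (tp (WW T) n))
    (id_idem _)
  let i2 : ExactPairing (WW T)ᘁ (WW T) := BraidedCategory.exactPairing_swap (WW T) (WW T)ᘁ
  let i3 : ExactPairing (oe e' ⊗ (WW T)ᘁ) (WW T ⊗ (oe e')ᘁ) :=
    ExactPairing.tensor (X₁ := oe e') (X₂ := (WW T)ᘁ) (Y₁ := (oe e')ᘁ) (Y₂ := WW T)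
  have hM : Mt (X := oe e' ⊗ (WW T)ᘁ) (X' := WW T ⊗ (oe e')ᘁ) (pe e' ⊗ₘ 𝟙 (WW T)ᘁ)
      (𝟙 (WW T) ⊗ₘ pd e') := (pd_Mt e').tensor Mt_id
  have hi := tensor_idem (pe_pm e').idem (id_idem (WW T)ᘁ)
  have h1 := hs Finset.univ (Finset.subset_univ _) hM hi
  have h2 : bn hR (𝟙 (tp (WW T) n)) (𝟙 (WW T) ⊗ₘ pd e') = nn (𝟙 (tp (WW T) (n + 1))) e' := by
    have h3 : B hR (𝟙 (tp (WW T) (n + 1))) (pd e') =
        B hR (𝟙 (tp (WW T) n)) (𝟙 (WW T) ⊗ₘ pd e') := by
      rw [← B_assoc, id_tensorHom_id]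
    rw [bn_eq hR (id_idem _) (pd_idem e'), bn_eq hR (id_idem _) (hM.idem hi)] at h3
    exact (by exact_mod_cast h3 : bn hR (𝟙 (tp (WW T) (n + 1))) (pd e') = _).symm
  rw [h2] at h1
  rw [vv, h1]
  refine Finset.sum_congr rfl fun e _ => ?_
  rw [vv, SS, mul_div_assoc]

open Classical in
lemma vv_pow (n : ℕ) : vv hR T n = Matrix.vecMul (vv hR T 0) (SS hR T ^ n) := by
  induction n with
  | zero => rw [pow_zero, Matrix.vecMul_one]
  | succ n ih =>
    rw [pow_succ, ← Matrix.vecMul_vecMul, ← ih]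
    funext e'
    rw [vv_succ]
    rfl

lemma sq_vv (n : ℕ) : (sq hR T n : ℚ) =
    ∑ e : CT hR T, vv hR T n e * (vv hR T 0 e / (cn e : ℚ)) := by
  obtain ⟨s, hs⟩ := parseval (hR := hR) (ob := tp (WW T)) (j := n) (g := 𝟙 (tp (WW T) n))
    (id_idem _)
  let i1 : ExactPairing (𝟙_ C) (𝟙_ C) := exactPairingUnit
  have h1 := hs Finset.univ (Finset.subset_univ _) (Y := 𝟙_ C) (Y' := 𝟙_ C) (h := 𝟙 _)
    (h' := 𝟙 _) Mt_id (id_idem _)
  have h2 : bn hR (𝟙 (tp (WW T) n)) (𝟙 (𝟙_ C)) = sq hR T n := by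
    rw [bn, id_tensorHom_id, ch_iso hR (ρ_ (tp (WW T) n))]
    rfl
  rw [h2] at h1
  rw [h1]
  refine Finset.sum_congr rfl fun e _ => ?_
  rw [mul_div_assoc]
  rfl

open Classical in
lemma sq_form (n : ℕ) : (sq hR T n : ℚ) =
    vv hR T 0 ⬝ᵥ ((SS hR T ^ n).mulVec fun e => vv hR T 0 e / (cn e : ℚ)) := by
  rw [sq_vv, Matrix.dotProduct_mulVec, ← vv_pow]
  rfl

/-- The supertrace of a representative, as an integer. -/
noncomputable def te (e : CT hR T) : ℤ := (exists_int hR (pe_pm e).idem).choose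

lemma te_eq (e : CT hR T) : st R (pe e) = (te e : K) :=
  (exists_int hR (pe_pm e).idem).choose_spec.1

lemma te_le (e : CT hR T) : |te e| ≤ rk R (pe e) :=
  (exists_int hR (pe_pm e).idem).choose_spec.2.1

lemma te_ne (e : CT hR T) : te e ≠ 0 := by
  intro h
  apply (pe_pm e).ne
  rw [te_eq, h, Int.cast_zero]

lemma DD_eq : DD hR T = ((∑ e : CT hR T, (te e : ℚ) ^ 2 / (cn e : ℚ) : ℚ) : K) := by
  rw [DD, Rat.cast_sum]
  refine Finset.sum_congr rfl fun e _ => ?_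
  rw [we, te_eq]
  push_cast
  ring

/-- **Every representative is purely even or purely odd.** -/
theorem te_abs (hcoh : S_COH (C := C)) (htrr : S_TRR (C := C)) (hb : 0 < bt R (WW T))
    (hk : 0 < kap hR T) (e : CT hR T) : |te e| = rk R (pe e) := by
  classical
  obtain ⟨q, hq, m, hm⟩ := int_lin (PP hR T) (LL hR T) PP_sq PP_LL (SS hR T) (vv hR T 0)
    (fun e => vv hR T 0 e / (cn e : ℚ)) (fun n => (sq hR T n : ℚ)) sq_form (bt R (WW T)) hb
    (kap hR T) hk (by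
      have h := sr_tendsto hR hb
      unfold sr at h
      simpa using h) (DD hR T) (fun n hn => by
        rw [trace_LL hcoh htrr n hn]
        push_cast
        rfl)
  set D : ℚ := ∑ e : CT hR T, (te e : ℚ) ^ 2 / (cn e : ℚ) with hD
  have h1 : D * q = m := by
    rw [DD_eq, ← hD] at hm
    have : ((D * q : ℚ) : K) = ((m : ℚ) : K) := by
      push_cast
      exact hm
    exact_mod_cast this
  have h2 : (D : ℝ) * kap hR T = m := by
    rw [← hq]
    exact_mod_cast congrArg (fun z : ℚ => (z : ℝ)) h1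
  have h3 := total (hR := hR) (T := T) hb hk
  have hDr : (D : ℝ) = ∑ e : CT hR T, (te e : ℝ) ^ 2 / (cn e : ℝ) := by
    rw [hD]
    push_cast
    rfl
  have hterm : ∀ e : CT hR T, (te e : ℝ) ^ 2 / (cn e : ℝ) ≤ (rk R (pe e) : ℝ) ^ 2 / (cn e : ℝ) := by
    intro e
    have h4 : (0 : ℝ) < (cn e : ℝ) := by exact_mod_cast cn_pos e
    have h5 : |(te e : ℝ)| ≤ (rk R (pe e) : ℝ) := by exact_mod_cast te_le e
    have h6 : (te e : ℝ) ^ 2 ≤ (rk R (pe e) : ℝ) ^ 2 := by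
      rw [← sq_abs]
      exact pow_le_pow_left₀ (abs_nonneg _) h5 2
    exact div_le_div_of_nonneg_right h6 h4.le
  have hle : (m : ℝ) ≤ 1 := by
    rw [← h2, ← h3, mul_comm]
    apply mul_le_mul_of_nonneg_left _ hk.le
    rw [hDr]
    exact Finset.sum_le_sum fun e _ => hterm e
  have hpos : (0 : ℝ) < m := by
    rw [← h2]
    apply mul_pos _ hk
    rw [hDr]
    apply Finset.sum_pos
    · intro e _
      have h4 : (0 : ℝ) < (cn e : ℝ) := by exact_mod_cast cn_pos e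
      have h5 : (te e : ℝ) ≠ 0 := by exact_mod_cast te_ne e
      positivity
    · exact ⟨e, Finset.mem_univ e⟩
  have hm1 : m = 1 := by
    have h4 : (0 : ℤ) < m := by exact_mod_cast hpos
    have h5 : m ≤ 1 := by exact_mod_cast hle
    omega
  have hsum : ∑ e : CT hR T, ((rk R (pe e) : ℝ) ^ 2 / (cn e : ℝ) - (te e : ℝ) ^ 2 / (cn e : ℝ)) =
      0 := by
    rw [Finset.sum_sub_distrib, ← hDr]
    have h4 : kap hR T * (∑ e : CT hR T, (rk R (pe e) : ℝ) ^ 2 / (cn e : ℝ) - (D : ℝ)) = 0 := by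
      rw [mul_sub, h3, mul_comm, h2, hm1]
      norm_num
    exact (mul_eq_zero.1 h4).resolve_left hk.ne'
  have hz := (Finset.sum_eq_zero_iff_of_nonneg (fun e _ => sub_nonneg.2 (hterm e))).1 hsum e
    (Finset.mem_univ e)
  have h4 : (cn e : ℝ) ≠ 0 := by
    have : (0 : ℝ) < (cn e : ℝ) := by exact_mod_cast cn_pos e
    exact this.ne'
  have h5 : (rk R (pe e) : ℝ) ^ 2 = (te e : ℝ) ^ 2 := by
    rw [← sub_div, div_eq_zero_iff] at hz
    exact sub_eq_zero.1 (hz.resolve_right h4)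
  have h6 : |(te e : ℝ)| = (rk R (pe e) : ℝ) := by
    rw [← abs_of_nonneg (Nat.cast_nonneg (α := ℝ) (rk R (pe e)))]
    exact ((sq_eq_sq_iff_abs_eq_abs _ _).1 h5).symm
  exact_mod_cast h6

end Rec

end Pool.Agent.P8H25.Sp
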