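import Pool.Agent.P8H25.SpS

/-!
# The zero-one law for the even parts of the powers
-/

set_option autoImplicit false
set_option linter.unusedSectionVars false

open CategoryTheory Limits MonoidalCategory Module Filter Topology
open Pool.Agent.Y112.SR Pool.Agent.Y112.KD Pool.Agent.N64.AF
open Pool.Agent.Y116.MT (tr)
open Pool.Agent.N64.AF.A1aux
open Pool.Agent.N413.AFW
open Pool.Agent.P8H25.Stm

namespace Pool.Agent.P8H25.Sp

universe v u w x

variable {C : Type u} [Category.{v} C] [Preadditive C] [MonoidalCategory C]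
  [MonoidalPreadditive C] [SymmetricCategory C] [RightRigidCategory C]
  {K : Type w} [Field K] [CharZero K] [Linear K C] [MonoidalLinear K C]
  {R : SuperRealisation C K} [IsAlgClosed K]

/-- The simple idempotents are purely even or purely odd. -/
theorem pm_pure (hcoh : S_COH (C := C)) (htrr : S_TRR (C := C)) {hR : Nice R} {T : C}
    (hb : 0 < bt R (WW T)) (hk : 0 < kap hR T) {j : ℕ} {a : tp (WW T) j ⟶ tp (WW T) j}
    (ha : Pm R a) : PE R a ∨ PO R a := by
  have := finite_CT (hR := hR) hb hk
  let _ : Fintype (CT hR T) := Fintype.ofFinite _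
  obtain ⟨t, ht1, ht2, ht3⟩ := exists_int hR ha.idem
  apply ht3
  set e : CT hR T := cls hR (tp (WW T)) ha with he
  have h1 := te_abs hcoh htrr hb hk e
  have hr : Rel hR (pe e) a := rel_cls ha
  have h2 := rel_rk hR hb hk (i := (Quotient.out e).j) (a := (Quotient.out e).a) (pe_pm e) ha hr
    (te_eq e) ht1
  change (rk R (pe e) : ℤ) * t = rk R a * te e at h2
  have h3 : (rk R (pe e) : ℤ) ≠ 0 := by
    rw [← h1]
    exact abs_ne_zero.2 (te_ne e)
  have h4 := congrArg abs h2
  rw [abs_mul, abs_mul, h1, abs_of_nonneg (by positivity : (0 : ℤ) ≤ (rk R (pe e) : ℤ)),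
    abs_of_nonneg (by positivity : (0 : ℤ) ≤ (rk R a : ℤ)), mul_comm] at h4
  exact mul_right_cancel₀ h3 h4

/-- **If the even parts of the powers do not decay then the sign conjecture holds.** -/
theorem cplus_of_kap (hcoh : S_COH (C := C)) (htrr : S_TRR (C := C)) {hR : Nice R} {T : C}
    (hb : 0 < bt R (WW T)) (hk : 0 < kap hR T) : R.CPlus T := by
  classical
  obtain ⟨ι, _, a, h1, -, -, h4⟩ := decomp hR _ (𝟙 (tp (WW T) 1)) (id_idem _) rfl
  have h5 : ∀ i, PE R (a i) ∨ PO R (a i) := by
    intro i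
    rcases prm_cases hR (h1 i) with h | h
    · exact pm_pure hcoh htrr hb hk h
    · exact absurd (eq_zero_of_rk hR (rk_of_zero hR hb hk (h1 i).1 h)) (h1 i).2.1
  have h6 : pr R (tp (WW T) 1) = mp R (∑ i, if PE R (a i) then a i else - a i) := by
    have e1 : pr R (tp (WW T) 1) = pr R (tp (WW T) 1) ∘ₗ mp R (𝟙 (tp (WW T) 1)) := by
      rw [mp_id, LinearMap.comp_id]
    rw [e1, ← h4, mp_sum, mp_sum]
    apply LinearMap.ext
    intro v
    rw [LinearMap.comp_apply, LinearMap.sum_apply, map_sum, LinearMap.sum_apply]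
    refine Finset.sum_congr rfl fun i _ => ?_
    have e2 : pr R (tp (WW T) 1) (mp R (a i) v) = mp R (a i) (pr R (tp (WW T) 1) v) :=
      LinearMap.congr_fun (mp_pr (R := R) (a i)) v
    rw [e2]
    by_cases hi : PE R (a i)
    · rw [if_pos hi]
      exact LinearMap.congr_fun hi v
    · rw [if_neg hi]
      have h7 : PO R (a i) := (h5 i).resolve_left hi
      have h8 := LinearMap.congr_fun h7 v
      rw [LinearMap.comp_apply, LinearMap.neg_apply] at h8
      rw [h8]
      have h9 : mp R (- a i) = - mp R (a i) := by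
        have h10 := mp_sub (R := R) 0 (a i)
        rw [zero_sub, mp_zero, zero_sub] at h10
        exact h10
      rw [h9, LinearMap.neg_apply]
  have h7 : R.CPlus (tp (WW T) 1) := by
    refine P1aux.cplus_of hR.real (∑ i, if PE R (a i) then a i else - a i) ?_
    apply ModuleCat.hom_ext
    exact h6.symm
  let _ : Linear ℚ C := Pool.Agent.N327.AF.linQ C K
  have h8 : R.CPlus (T ⊗ Tᘁ) := cplus_retract R (λ_ (WW T)).inv (λ_ (WW T)).hom (by simp) h7
  refine cplus_of_tensor R ?_ h8
  intro hz
  have h9 : bt R Tᘁ = 0 := by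
    have := ModuleCat.subsingleton_of_isZero hz
    exact Module.finrank_zero_of_subsingleton
  rw [bt_tensor', h9, mul_zero] at hb
  exact absurd hb (lt_irrefl 0)

end Pool.Agent.P8H25.Sp
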