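import Pool.Agent.P8H25.SpT
import Pool.Agent.P8H24.SP.Coh
import Pool.Agent.P8H24.SP.Trr

/-!
# The decay of the pure parts
-/

set_option autoImplicit false
set_option linter.unusedSectionVars false

open CategoryTheory Limits MonoidalCategory Module Filter Topology
open Pool.Agent.Y112.SR Pool.Agent.Y112.KD Pool.Agent.N64.AF
open Pool.Agent.Y116.MT (tr)
open Pool.Agent.N64.AF.A1aux
open Pool.Agent.N413.AFW
open Pool.Agent.P8H25.Stm

namespace Pool.Agent.P8H25.Sp

universe v u w x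

open Functor.LaxMonoidal Functor.OplaxMonoidal

variable {C : Type u} [Category.{v} C] [Preadditive C] [MonoidalCategory C]
  [MonoidalPreadditive C] [SymmetricCategory C] [RightRigidCategory C]
  {K : Type w} [Field K] [CharZero K] [Linear K C] [MonoidalLinear K C]
  {R : SuperRealisation C K}

section PO

lemma PO_iff {X Y : C} {f : X ⟶ Y} : PO R f ↔ R.par X ≫ R.H.map f = - R.H.map f := by
  constructor
  · intro h
    apply ModuleCat.hom_ext
    exact h
  · intro h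
    exact congrArg ModuleCat.Hom.hom h

lemma PO.tensor {X Y X' Y' : C} {f : X ⟶ Y} {g : X' ⟶ Y'} (hf : PO R f) (hg : PO R g) :
    PE R (f ⊗ₘ g) := by
  rw [PO_iff] at hf hg
  rw [PE_iff, Functor.Monoidal.map_tensor]
  have h1 := par_delta' (R := R) X X'
  have h2 : (R.par X ≫ R.H.map f) ⊗ₘ (R.par X' ≫ R.H.map g) = R.H.map f ⊗ₘ R.H.map g := by
    rw [hf, hg, MonoidalCategory.tensorHom_def, MonoidalCategory.tensorHom_def]
    have h3 : (- R.H.map f) ▷ R.H.obj X' = - (R.H.map f ▷ R.H.obj X') := by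
      have h4 : (- R.H.map f + R.H.map f) ▷ R.H.obj X' =
          (- R.H.map f) ▷ R.H.obj X' + R.H.map f ▷ R.H.obj X' :=
        MonoidalPreadditive.add_whiskerRight _ _
      rw [neg_add_cancel, MonoidalPreadditive.zero_whiskerRight] at h4
      exact eq_neg_of_add_eq_zero_left h4.symm
    have h5 : R.H.obj Y ◁ (- R.H.map g) = - (R.H.obj Y ◁ R.H.map g) := by
      have h4 : R.H.obj Y ◁ (- R.H.map g + R.H.map g) =
          R.H.obj Y ◁ (- R.H.map g) + R.H.obj Y ◁ R.H.map g :=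
        MonoidalPreadditive.whiskerLeft_add _ _
      rw [neg_add_cancel, MonoidalPreadditive.whiskerLeft_zero] at h4
      exact eq_neg_of_add_eq_zero_left h4.symm
    rw [h3, h5, Preadditive.neg_comp, Preadditive.comp_neg, neg_neg]
  rw [reassoc_of% h1, ← Category.assoc (R.par X ⊗ₘ R.par X'),
    MonoidalCategory.tensorHom_comp_tensorHom, h2]

lemma po_st_idem {X : C} {e : X ⟶ X} (hf : PO R e) (he : e ≫ e = e) :
    st R e = -(rk R e : K) := by
  rw [st_eq', mp_pr, hf, map_neg, trace_idem' he]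

/-- The transpose of a pure idempotent is pure, and the tensor product of both is purely even. -/
lemma pure_tensor (hR : Nice R) {X X' : C} [ExactPairing X X'] {e : X ⟶ X} {e' : X' ⟶ X'}
    (h : Mt e e') (he : e ≫ e = e) (hp : PE R e ∨ PO R e) : PE R (e ⊗ₘ e') := by
  have he' := h.idem he
  have hst := h.st_eq hR
  have hrk := h.rk (R := R) he
  obtain ⟨p, q, h1, h2, h3, h4⟩ := idem_split hR he'
  rcases hp with hp | hp
  · refine hp.tensor (h3 ?_)
    rw [hst, pe_st_idem hR hp he, ← hrk, h2] at h1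
    push_cast at h1
    have h5 : (2 : K) * (q : K) = 0 := by linear_combination h1
    have h6 : (q : K) = 0 := (mul_eq_zero.1 h5).resolve_left two_ne_zero
    exact_mod_cast h6
  · refine hp.tensor (h4 ?_)
    rw [hst, po_st_idem hp he, ← hrk, h2] at h1
    push_cast at h1
    have h5 : (2 : K) * (p : K) = 0 := by linear_combination -h1
    have h6 : (p : K) = 0 := (mul_eq_zero.1 h5).resolve_left two_ne_zero
    exact_mod_cast h6

lemma ch_pe (hR : Nice R) {X : C} {g : X ⟶ X} (hg : g ≫ g = g) (hp : PE R g) :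
    ch hR g = rk R g := by
  have h1 := ch_eq hR hg
  rw [chi, eps_max hR hp, pe_st_idem hR hp hg] at h1
  exact_mod_cast h1.symm

lemma ch_mono (hR : Nice R) {X : C} {g : X ⟶ X} (hg : g ≫ g = g) : ch hR g ≤ ch hR (𝟙 X) := by
  have h1 : chi hR g + chi hR (𝟙 X - g) = chi hR (𝟙 X) := by
    rw [← chi_add]
    congr 1
    abel
  rw [ch_eq hR hg, ch_eq hR (sub_idem hg), ch_eq hR (id_idem X)] at h1
  have h2 : ch hR g + ch hR (𝟙 X - g) = ch hR (𝟙 X) := by exact_mod_cast h1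
  omega

/-- **The rank of a pure idempotent.** -/
lemma pure_rk (hR : Nice R) {X X' : C} [ExactPairing X X'] {e : X ⟶ X} (he : e ≫ e = e)
    (hp : PE R e ∨ PO R e) : rk R e ^ 2 ≤ ch hR (𝟙 (X ⊗ X')) := by
  have h := mt_Mt (X' := X') e
  have h1 := pure_tensor hR h he hp
  have h2 := tensor_idem he (h.idem he)
  have h3 := ch_mono hR h2
  rw [ch_pe hR h2 h1, rk_tensor he (h.idem he), h.rk he, ← pow_two] at h3
  exact h3

end PO

variable [IsAlgClosed K]

lemma bt_dual (Y : C) : bt R Yᘁ = bt R Y := by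
  rw [← rk_id, ← rk_id]
  exact (Mt_id (X := Y) (X' := Yᘁ)).rk (R := R) (id_idem Y)

/-- The pure idempotents of the products with a power. -/
lemma pure_tp (hR : Nice R) (T : C) (n : ℕ) (Y : C) {e : tp T n ⊗ Y ⟶ tp T n ⊗ Y}
    (he : e ≫ e = e) (hp : PE R e ∨ PO R e) : rk R e ^ 2 ≤ bt R Y ^ 2 * sq hR T n := by
  let _ := pairTp T Tᘁ n
  let _ : ExactPairing (tp T n ⊗ Y) (Yᘁ ⊗ dp Tᘁ n) :=
    ExactPairing.tensor (X₁ := tp T n) (X₂ := Y) (Y₁ := dp Tᘁ n) (Y₂ := Yᘁ)
  have h1 := pure_rk hR (X' := Yᘁ ⊗ dp Tᘁ n) he hp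
  let i : (tp T n ⊗ Y) ⊗ (Yᘁ ⊗ dp Tᘁ n) ≅ (tp T n ⊗ dp Tᘁ n) ⊗ (Y ⊗ Yᘁ) :=
    whiskerLeftIso (tp T n ⊗ Y) (β_ Yᘁ (dp Tᘁ n)) ≪≫
      ⟨tensorμ (tp T n) Y (dp Tᘁ n) Yᘁ, tensorδ (tp T n) Y (dp Tᘁ n) Yᘁ, by simp, by simp⟩
  have h2 := power_trick hR (X := tp T n) (X' := dp Tᘁ n) (id_idem (Y ⊗ Yᘁ))
  rw [rk_id, bt_tensor', bt_dual, bn, id_tensorHom_id] at h2
  rw [ch_iso hR i] at h1
  refine h1.trans ?_
  rw [pow_two, sq, ch_iso hR (isoTp T Tᘁ n)]
  exact h2

/-- **The pure parts decay if the sign conjecture fails.** -/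
theorem decay (hR : Nice R) {T : C} (hT : ¬ R.CPlus T) :
    ∃ δ : ℕ → ℝ, Antitone δ ∧ Tendsto δ atTop (𝓝 0) ∧ ∀ (n : ℕ) (Y X : C) (_ : X ≅ tp T n ⊗ Y)
      (e : X ⟶ X), e ≫ e = e → (PE R e ∨ PO R e) → (rk R e : ℝ) ≤ δ n * bt R X := by
  have hbT : 0 < bt R T := by
    rw [Nat.pos_iff_ne_zero]
    intro h0
    apply hT
    have := R.finite T
    refine ⟨0, ?_⟩
    have h1 : Subsingleton (R.H.obj T) := Module.finrank_zero_iff.1 h0
    apply ModuleCat.hom_ext
    apply LinearMap.ext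
    intro x
    exact Subsingleton.elim _ _
  have hb : 0 < bt R (WW T) := by
    rw [bt_tensor', bt_dual]
    positivity
  have hk : kap hR T = 0 := by
    by_contra h
    have h1 : 0 < kap hR T := lt_of_le_of_ne (kap_nonneg hR T) (Ne.symm h)
    exact hT (cplus_of_kap Pool.Agent.P8H24.SP.coh Pool.Agent.P8H24.SP.trr hb h1)
  refine ⟨fun n => Real.sqrt (sr hR T n), fun m n hmn => Real.sqrt_le_sqrt (sr_anti hR hb hmn),
    ?_, fun n Y X i e he hp => ?_⟩
  · have h1 := (sr_tendsto hR hb).sqrt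
    rw [hk, Real.sqrt_zero] at h1
    exact h1
  · set f : tp T n ⊗ Y ⟶ tp T n ⊗ Y := i.inv ≫ e ≫ i.hom with hf
    have hff : f ≫ f = f := by
      rw [hf]
      simp only [Category.assoc, Iso.hom_inv_id_assoc]
      rw [← Category.assoc e, he]
    have hfp : PE R f ∨ PO R f := by
      rcases hp with hp | hp
      · exact Or.inl ((hp.comp_right i.hom).comp_left i.inv)
      · refine Or.inr ?_
        have h1 : mp R f = mp R i.hom ∘ₗ mp R e ∘ₗ mp R i.inv := by
          rw [hf, mp_comp, mp_comp]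
          rfl
        have h2 : pr R X ∘ₗ mp R i.inv = mp R i.inv ∘ₗ pr R _ := mp_pr _
        rw [PO, h1, LinearMap.comp_assoc, LinearMap.comp_assoc, ← h2]
        have h3 : mp R e ∘ₗ pr R X ∘ₗ mp R i.inv = - (mp R e ∘ₗ mp R i.inv) := by
          rw [← LinearMap.comp_assoc, hp, LinearMap.neg_comp]
        rw [h3, LinearMap.comp_neg]
    have hrk : rk R f = rk R e := by
      have h1 : LinearMap.trace K _ (mp R f) = LinearMap.trace K _ (mp R e) := by
        rw [hf, mp_comp, mp_comp, LinearMap.comp_assoc, LinearMap.trace_comp_comm',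
          LinearMap.comp_assoc, ← mp_comp, Iso.hom_inv_id, mp_id, LinearMap.comp_id]
      rw [trace_idem' hff, trace_idem' he] at h1
      exact_mod_cast h1
    have hbX : bt R X = bt R T ^ n * bt R Y := by
      rw [← bt_tp, ← bt_tensor', ← rk_id, ← rk_id]
      have h1 : LinearMap.trace K _ (mp R (𝟙 X)) =
          LinearMap.trace K _ (mp R (𝟙 (tp T n ⊗ Y))) := by
        have h2 : 𝟙 X = i.hom ≫ i.inv := i.hom_inv_id.symm
        have h3 : 𝟙 (tp T n ⊗ Y) = i.inv ≫ i.hom := i.inv_hom_id.symm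
        rw [h2, h3, mp_comp, mp_comp, LinearMap.trace_comp_comm']
      rw [trace_idem' (id_idem _), trace_idem' (id_idem _)] at h1
      exact_mod_cast h1
    have h1 := pure_tp hR T n Y hff hfp
    rw [hrk] at h1
    have hbW : bt R (WW T) = bt R T ^ 2 := by rw [bt_tensor', bt_dual, pow_two]
    have hbn : (0 : ℝ) < (bt R T : ℝ) ^ n := by positivity
    have h2 : (sq hR T n : ℝ) = sr hR T n * ((bt R T : ℝ) ^ n) ^ 2 := by
      rw [sr, hbW]
      push_cast
      rw [← pow_mul, ← pow_mul, mul_comm n 2, div_mul_cancel₀]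
      positivity
    have h3 : (rk R e : ℝ) ^ 2 ≤ (bt R Y : ℝ) ^ 2 * (sr hR T n * ((bt R T : ℝ) ^ n) ^ 2) := by
      rw [← h2]
      exact_mod_cast h1
    have h4 : (rk R e : ℝ) ^ 2 ≤ (Real.sqrt (sr hR T n) * bt R X) ^ 2 := by
      rw [mul_pow, Real.sq_sqrt (sr_nonneg hR T n), hbX]
      push_cast
      calc (rk R e : ℝ) ^ 2 ≤ (bt R Y : ℝ) ^ 2 * (sr hR T n * ((bt R T : ℝ) ^ n) ^ 2) := h3
        _ = _ := by ring
    exact le_of_sq_le_sq h4 (by positivity)

end Pool.Agent.P8H25.Sp
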