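import Pool.Agent.P8H25.SpU
import Pool.Agent.P8H25.SpDefs
import Pool.Agent.P8H88.SP.Kc
import Pool.Agent.N553.PP.Super

/-!
# The decay of the pure parts, with rational coefficients
-/

set_option autoImplicit false
set_option linter.unusedSectionVars false

open CategoryTheory Limits MonoidalCategory Module Filter Topology
open Pool.Agent.Y112.SR Pool.Agent.Y112.KD Pool.Agent.N64.AF
open Pool.Agent.P8H88.SP.KC

namespace Pool.Agent.P8H25.Sp

universe v u w x

variable {C : Type u} [Category.{v} C] [Preadditive C] [Linear ℚ C] [MonoidalCategory C]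
  [MonoidalPreadditive C] [MonoidalLinear ℚ C] [SymmetricCategory C] [RightRigidCategory C]
  {K : Type w} [Field K] {R : SuperRealisation C K}

lemma isReal_of (hU : UnitQ C) [CharZero K] : IsReal ℚ R where
  unit := fun c => hU.ex c
  lin := fun a f => by
    rw [R_smul]
    simp

/-- The sign conjecture, with coefficients in the field of the realisation. -/
lemma cplus_of_KR (hU : UnitQ C) {T : C} (h : (KR R).CPlus ((inc R).obj T)) : R.CPlus T := by
  have hc := R_charZero R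
  rw [Pool.Agent.P8H88.SP.KC.cplus_iff] at h
  obtain ⟨φ, hφ, h2⟩ := h
  apply Pool.Agent.N164.NC.cplus_of_span R hU
  have h3 : (2 : K) ≠ 0 := two_ne_zero
  have h4 : Pool.Agent.R484.NC.evp R T = (φ : R.H.obj T →ₗ[K] R.H.obj T) := by
    have h5 := Pool.Agent.R484.NC.par_hom R T
    have h7 : (2 : K) • (φ : R.H.obj T →ₗ[K] R.H.obj T) = LinearMap.id + (R.par T).hom := h2
    rw [h5] at h7
    have h6 : (2 : K) • (φ : R.H.obj T →ₗ[K] R.H.obj T) =
        (2 : K) • Pool.Agent.R484.NC.evp R T := by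
      rw [h7, two_smul]
      change (1 : Module.End K (R.H.obj T)) + _ = _
      abel
    exact (smul_right_injective _ h3 h6).symm
  rw [h4]
  exact hφ

theorem decay_alg [IsAlgClosed K] (hU : UnitQ C) (R : SuperRealisation C K) {T : C}
    (hT : ¬ R.CPlus T) :
    ∃ δ : ℕ → ℝ, Antitone δ ∧ Tendsto δ atTop (𝓝 0) ∧ ∀ (n : ℕ) (Y : C)
      (e : R.H.obj (tp T n ⊗ Y) →ₗ[K] R.H.obj (tp T n ⊗ Y)),
      e ∈ CK R (tp T n ⊗ Y) (tp T n ⊗ Y) → e ∘ₗ e = e →
      ((R.par (tp T n ⊗ Y)).hom ∘ₗ e = e ∨ (R.par (tp T n ⊗ Y)).hom ∘ₗ e = -e) →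
      (finrank K (LinearMap.range e) : ℝ) ≤ δ n * bt R (tp T n ⊗ Y) := by
  have hc := R_charZero R
  have hN : Nice (KR R) := Pool.Agent.P8H88.SP.KC.nice (isReal_of hU)
  obtain ⟨δ, h1, h2, h3⟩ := decay hN (T := (inc R).obj T) (fun h => hT (cplus_of_KR hU h))
  refine ⟨δ, h1, h2, fun n Y e he hee hp => ?_⟩
  let X' : Pool.Agent.P8H88.SP.KC R := (inc R).obj (tp T n ⊗ Y)
  let e' : X' ⟶ X' := mk' e he
  let i : X' ≅ tp ((inc R).obj T) n ⊗ (inc R).obj Y :=
    whiskerRightIso (eqToIso (inc_tp T n)) ((inc R).obj Y)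
  have hcomm : e ∘ₗ (R.par (tp T n ⊗ Y)).hom = (R.par (tp T n ⊗ Y)).hom ∘ₗ e :=
    (mp_pr (R := KR R) (X := X') (Y := X') e').symm
  have h4 := h3 n ((inc R).obj Y) X' i e' (lin_injective hee) (by
    rcases hp with hp | hp
    · refine Or.inl ?_
      change e ∘ₗ (R.par (tp T n ⊗ Y)).hom = e
      rw [hcomm, hp]
    · refine Or.inr ?_
      change e ∘ₗ (R.par (tp T n ⊗ Y)).hom = -e
      rw [hcomm, hp])
  exact h4

end Pool.Agent.P8H25.Sp
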