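import Pool.Agent.P8H25.SpV
import Pool.Agent.P8H24.SP.Bc

/-!
# The one percent law
-/

set_option autoImplicit false
set_option linter.unusedSectionVars false

open CategoryTheory Limits MonoidalCategory Module Filter Topology
open Pool.Agent.Y112.SR Pool.Agent.Y112.KD Pool.Agent.N64.AF
open Pool.Agent.P8H25.Pure Pool.Agent.P8H24.SP

namespace Pool.Agent.P8H25.Sp

universe v u w x

variable {C : Type u} [Category.{v} C] [Preadditive C] [Linear ℚ C] [MonoidalCategory C]
  [MonoidalPreadditive C] [MonoidalLinear ℚ C] [SymmetricCategory C] [RightRigidCategory C]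
  {K : Type w} [Field K]

/-- **The pure idempotents decay if the sign conjecture fails.** -/
theorem decay_gen (hU : UnitQ C) (R : SuperRealisation C K) {T : C} (hT : ¬ R.CPlus T) :
    ∃ δ : ℕ → ℝ, Antitone δ ∧ Tendsto δ atTop (𝓝 0) ∧ ∀ (n : ℕ) (Y : C)
      (e : R.H.obj (tp T n ⊗ Y) →ₗ[K] R.H.obj (tp T n ⊗ Y)),
      e ∈ CK R (tp T n ⊗ Y) (tp T n ⊗ Y) → e ∘ₗ e = e →
      ((R.par (tp T n ⊗ Y)).hom ∘ₗ e = e ∨ (R.par (tp T n ⊗ Y)).hom ∘ₗ e = -e) →
      (finrank K (LinearMap.range e) : ℝ) ≤ δ n * dim R (tp T n ⊗ Y) := by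
  have hT' : ¬ (bc R (AlgebraicClosure K)).CPlus T := by rwa [cplus_bc]
  obtain ⟨δ, h1, h2, h3⟩ := decay_alg hU (bc R (AlgebraicClosure K)) hT'
  refine ⟨δ, h1, h2, fun n Y e he hee hp => ?_⟩
  have h4 := h3 n Y (bm K (AlgebraicClosure K) e) (ck_bc R (AlgebraicClosure K) he)
    (by
      have h5 := bm_comp (AlgebraicClosure K) e e
      rw [hee] at h5
      exact h5.symm)
    (by
      rcases hp with hp | hp
      · left
        have h5 := bm_comp (AlgebraicClosure K) e (R.par (tp T n ⊗ Y)).hom
        rw [hp] at h5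
        exact h5.symm
      · right
        have h5 := bm_comp (AlgebraicClosure K) e (R.par (tp T n ⊗ Y)).hom
        rw [hp] at h5
        have h6 : bm K (AlgebraicClosure K) (-e) = - bm K (AlgebraicClosure K) e := by
          have h7 := bm_add (AlgebraicClosure K) (-e) e
          rw [neg_add_cancel, bm_zero] at h7
          exact eq_neg_of_add_eq_zero_left h7.symm
        rw [h6] at h5
        exact h5.symm)
  have h5 := rank_bm (AlgebraicClosure K) e
  have h6 := bt_bc R (AlgebraicClosure K) (tp T n ⊗ Y)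
  rw [h6] at h4
  refine le_trans (le_of_eq ?_) h4
  exact congrArg (fun z : ℕ => (z : ℝ)) h5.symm

lemma evenDim_eq (R : SuperRealisation C K) (M : C) :
    Pure.evenDim R M = Pool.Agent.R484.NC.evenDim R M := rfl

lemma even_add_odd (R : SuperRealisation C K) (M : C) :
    Pure.evenDim R M + Pure.oddDim R M = dim R M := by
  have hc := R_charZero R
  have h0 := R.finite M
  have h2 : (2 : K) ≠ 0 := two_ne_zero
  set E := Pool.Agent.R484.NC.evp R M with hE
  have hp : (R.par M).hom = E - (1 - E) := Pool.Agent.R484.NC.par_hom R M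
  have hEE : E * E = E := Pool.Agent.R484.NC.evp_idem R M
  have h3 : LinearMap.ker ((R.par M).hom - LinearMap.id : R.H.obj M →ₗ[K] R.H.obj M) =
      LinearMap.range E := by
    ext x
    rw [LinearMap.mem_ker, LinearMap.mem_range, hp]
    constructor
    · intro h
      refine ⟨x, ?_⟩
      have e1 : (E x - (x - E x)) - x = 0 := h
      have e2 : (2 : K) • (E x - x) = 0 := by
        rw [two_smul, ← e1]
        abel
      exact sub_eq_zero.1 ((smul_eq_zero.1 e2).resolve_left h2)
    · rintro ⟨y, rfl⟩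
      have e1 : E (E y) = E y := LinearMap.congr_fun hEE y
      change (E (E y) - (E y - E (E y))) - E y = 0
      rw [e1]
      abel
  have h4 : LinearMap.ker ((R.par M).hom + LinearMap.id : R.H.obj M →ₗ[K] R.H.obj M) =
      LinearMap.ker E := by
    ext x
    rw [LinearMap.mem_ker, LinearMap.mem_ker, hp]
    constructor
    · intro h
      have e1 : (E x - (x - E x)) + x = 0 := h
      have e2 : (2 : K) • E x = 0 := by
        rw [two_smul, ← e1]
        abel
      exact (smul_eq_zero.1 e2).resolve_left h2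
    · intro h
      change (E x - (x - E x)) + x = 0
      rw [h]
      abel
  rw [Pure.evenDim, Pure.oddDim, h3, h4, dim]
  exact LinearMap.finrank_range_add_finrank_ker E

lemma even_le (R : SuperRealisation C K) {M : C} {e : R.H.obj M →ₗ[K] R.H.obj M}
    (he : EvenIdem R M e) : finrank K (LinearMap.range e) ≤ Pure.evenDim R M := by
  have h0 := R.finite M
  apply Submodule.finrank_mono
  rintro _ ⟨x, rfl⟩
  rw [LinearMap.mem_ker, LinearMap.sub_apply, LinearMap.id_apply, sub_eq_zero]
  exact LinearMap.congr_fun he.even x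

lemma odd_le (R : SuperRealisation C K) {M : C} {e : R.H.obj M →ₗ[K] R.H.obj M}
    (he : OddIdem R M e) : finrank K (LinearMap.range e) ≤ Pure.oddDim R M := by
  have h0 := R.finite M
  apply Submodule.finrank_mono
  rintro _ ⟨x, rfl⟩
  rw [LinearMap.mem_ker, LinearMap.add_apply, LinearMap.id_apply]
  have h1 := LinearMap.congr_fun he.odd x
  rw [LinearMap.comp_apply, LinearMap.neg_apply] at h1
  rw [h1, neg_add_cancel]

lemma even_bdd (R : SuperRealisation C K) (M : C) :
    BddAbove {d | ∃ e, EvenIdem R M e ∧ finrank K (LinearMap.range e) = d} :=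
  ⟨Pure.evenDim R M, by rintro _ ⟨e, he, rfl⟩; exact even_le R he⟩

lemma odd_bdd (R : SuperRealisation C K) (M : C) :
    BddAbove {d | ∃ e, OddIdem R M e ∧ finrank K (LinearMap.range e) = d} :=
  ⟨Pure.oddDim R M, by rintro _ ⟨e, he, rfl⟩; exact odd_le R he⟩

lemma exists_even (R : SuperRealisation C K) (M : C) :
    ∃ e, EvenIdem R M e ∧ finrank K (LinearMap.range e) = evenRank R M :=
  Nat.sSup_mem (s := {d | ∃ e, EvenIdem R M e ∧ finrank K (LinearMap.range e) = d})
    ⟨_, 0, ⟨Submodule.zero_mem _, by simp, by simp⟩, rfl⟩ (even_bdd R M)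

lemma exists_odd (R : SuperRealisation C K) (M : C) :
    ∃ e, OddIdem R M e ∧ finrank K (LinearMap.range e) = oddRank R M :=
  Nat.sSup_mem (s := {d | ∃ e, OddIdem R M e ∧ finrank K (LinearMap.range e) = d})
    ⟨_, 0, ⟨Submodule.zero_mem _, by simp, by simp⟩, rfl⟩ (odd_bdd R M)

lemma evenRank_le (R : SuperRealisation C K) (M : C) : evenRank R M ≤ Pure.evenDim R M := by
  obtain ⟨e, he, h⟩ := exists_even R M
  rw [← h]
  exact even_le R he

lemma oddRank_le (R : SuperRealisation C K) (M : C) : oddRank R M ≤ Pure.oddDim R M := by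
  obtain ⟨e, he, h⟩ := exists_odd R M
  rw [← h]
  exact odd_le R he

/-- Algebraic operators commute with the involution. -/
lemma ck_comm (R : SuperRealisation C K) {M : C} {e : R.H.obj M →ₗ[K] R.H.obj M}
    (he : e ∈ CK R M M) : e ∘ₗ (R.par M).hom = (R.par M).hom ∘ₗ e := by
  unfold CK at he
  induction he using Submodule.span_induction with
  | mem x hx =>
    obtain ⟨f, rfl⟩ := hx
    exact (congrArg ModuleCat.Hom.hom (R.par_natural f)).symm
  | zero => rw [LinearMap.zero_comp, LinearMap.comp_zero]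
  | add x y _ _ hx hy => rw [LinearMap.add_comp, LinearMap.comp_add, hx, hy]
  | smul a x _ hx => rw [LinearMap.smul_comp, LinearMap.comp_smul, hx]

end Pool.Agent.P8H25.Sp
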