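import Pool.Agent.P8H25.SpW

/-!
# The one percent law, continued
-/

set_option autoImplicit false
set_option linter.unusedSectionVars false

open CategoryTheory Limits MonoidalCategory Module Filter Topology
open Pool.Agent.Y112.SR Pool.Agent.Y112.KD Pool.Agent.N64.AF
open Pool.Agent.P8H25.Pure

namespace Pool.Agent.P8H25.Sp

universe v u w x

variable {C : Type u} [Category.{v} C] [Preadditive C] [Linear ℚ C] [MonoidalCategory C]
  [MonoidalPreadditive C] [MonoidalLinear ℚ C] [SymmetricCategory C] [RightRigidCategory C]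
  {K : Type w} [Field K]

section Parity

variable (R : SuperRealisation C K) {M : C}

lemma par_evp_apply (x : R.H.obj M) : (R.par M).hom x =
    Pool.Agent.R484.NC.evp R M x - (x - Pool.Agent.R484.NC.evp R M x) := by
  rw [Pool.Agent.R484.NC.par_hom R M]
  rfl

lemma evp_evp (x : R.H.obj M) : Pool.Agent.R484.NC.evp R M (Pool.Agent.R484.NC.evp R M x) =
    Pool.Agent.R484.NC.evp R M x :=
  LinearMap.congr_fun (Pool.Agent.R484.NC.evp_idem R M) x

lemma cplus_ranks (h : R.CPlus M) : evenRank R M = Pure.evenDim R M ∧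
    oddRank R M = Pure.oddDim R M := by
  have hc := R_charZero R
  have h0 := R.finite M
  have h2 : (2 : K) ≠ 0 := two_ne_zero
  obtain ⟨f, hf⟩ := (Pool.Agent.R484.NC.cplus_iff_op R M).1 h
  set E := Pool.Agent.R484.NC.evp R M with hE
  have hEm : E ∈ CK R M M := by
    rw [← hf]
    exact Submodule.subset_span ⟨f, rfl⟩
  have h1m : (LinearMap.id : R.H.obj M →ₗ[K] R.H.obj M) ∈ CK R M M := by
    refine Submodule.subset_span ⟨𝟙 M, ?_⟩
    change (R.H.map (𝟙 M)).hom = _
    rw [CategoryTheory.Functor.map_id, ModuleCat.hom_id]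
  constructor
  · refine le_antisymm (evenRank_le R M) (le_csSup (even_bdd R M) ⟨E, ⟨hEm, ?_, ?_⟩, ?_⟩)
    · exact Pool.Agent.R484.NC.evp_idem R M
    · apply LinearMap.ext
      intro x
      rw [LinearMap.comp_apply, par_evp_apply, evp_evp]
      abel
    · rw [Pure.evenDim]
      refine congrArg (fun N : Submodule K (R.H.obj M) => finrank K N) ?_
      ext x
      rw [LinearMap.mem_ker, LinearMap.mem_range, LinearMap.sub_apply, par_evp_apply,
        LinearMap.id_apply]
      constructor
      · rintro ⟨y, rfl⟩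
        rw [evp_evp]
        abel
      · intro h
        refine ⟨x, ?_⟩
        have e2 : (2 : K) • (E x - x) = 0 := by
          rw [two_smul, ← h]
          abel
        exact sub_eq_zero.1 ((smul_eq_zero.1 e2).resolve_left h2)
  · refine le_antisymm (oddRank_le R M) (le_csSup (odd_bdd R M)
      ⟨LinearMap.id - E, ⟨Submodule.sub_mem _ h1m hEm, ?_, ?_⟩, ?_⟩)
    · apply LinearMap.ext
      intro x
      simp only [LinearMap.comp_apply, LinearMap.sub_apply, LinearMap.id_apply, map_sub]
      rw [evp_evp]
      abel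
    · apply LinearMap.ext
      intro x
      simp only [LinearMap.comp_apply, LinearMap.sub_apply, LinearMap.id_apply,
        LinearMap.neg_apply]
      rw [par_evp_apply, map_sub, evp_evp]
      abel
    · rw [Pure.oddDim]
      refine congrArg (fun N : Submodule K (R.H.obj M) => finrank K N) ?_
      ext x
      rw [LinearMap.mem_ker, LinearMap.mem_range, LinearMap.add_apply, par_evp_apply,
        LinearMap.id_apply]
      constructor
      · rintro ⟨y, rfl⟩
        simp only [LinearMap.sub_apply, LinearMap.id_apply, map_sub]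
        rw [evp_evp]
        abel
      · intro h
        refine ⟨x, ?_⟩
        have e2 : (2 : K) • E x = 0 := by
          rw [two_smul, ← h]
          abel
        rw [LinearMap.sub_apply, (smul_eq_zero.1 e2).resolve_left h2, sub_zero,
          LinearMap.id_apply]

lemma cplus_of_even (hU : UnitQ C) (h : evenRank R M = Pure.evenDim R M) : R.CPlus M := by
  have hc := R_charZero R
  have h0 := R.finite M
  have h2 : (2 : K) ≠ 0 := two_ne_zero
  obtain ⟨e, he, hr⟩ := exists_even R M
  rw [h] at hr
  have hle : LinearMap.range e ≤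
      LinearMap.ker ((R.par M).hom - LinearMap.id : R.H.obj M →ₗ[K] R.H.obj M) := by
    rintro _ ⟨x, rfl⟩
    rw [LinearMap.mem_ker, LinearMap.sub_apply, LinearMap.id_apply, sub_eq_zero]
    exact LinearMap.congr_fun he.even x
  have heq := Submodule.eq_of_le_of_finrank_eq hle hr
  have hcomm := ck_comm R he.alg
  rw [he.even] at hcomm
  have key : Pool.Agent.R484.NC.evp R M = e := by
    apply LinearMap.ext
    intro x
    have h3 : Pool.Agent.R484.NC.evp R M x ∈ LinearMap.range e := by
      rw [heq, LinearMap.mem_ker, LinearMap.sub_apply, par_evp_apply, evp_evp, LinearMap.id_apply]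
      abel
    obtain ⟨y, hy⟩ := h3
    have h4 : e (Pool.Agent.R484.NC.evp R M x) = Pool.Agent.R484.NC.evp R M x := by
      rw [← hy]
      exact LinearMap.congr_fun he.idem y
    have h5 : e (x - Pool.Agent.R484.NC.evp R M x) = 0 := by
      have h6 := LinearMap.congr_fun hcomm (x - Pool.Agent.R484.NC.evp R M x)
      rw [LinearMap.comp_apply, par_evp_apply, map_sub (Pool.Agent.R484.NC.evp R M), evp_evp,
        sub_self, sub_zero, zero_sub, map_neg] at h6
      have h7 : (2 : K) • e (x - Pool.Agent.R484.NC.evp R M x) = 0 := by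
        rw [two_smul]
        nth_rewrite 1 [← h6]
        exact neg_add_cancel _
      exact (smul_eq_zero.1 h7).resolve_left h2
    rw [map_sub, h4, sub_eq_zero] at h5
    exact h5.symm
  apply Pool.Agent.N164.NC.cplus_of_span R hU
  rw [key]
  exact he.alg

lemma cplus_of_odd (hU : UnitQ C) (h : oddRank R M = Pure.oddDim R M) : R.CPlus M := by
  have hc := R_charZero R
  have h0 := R.finite M
  have h2 : (2 : K) ≠ 0 := two_ne_zero
  obtain ⟨e, he, hr⟩ := exists_odd R M
  rw [h] at hr
  have hle : LinearMap.range e ≤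
      LinearMap.ker ((R.par M).hom + LinearMap.id : R.H.obj M →ₗ[K] R.H.obj M) := by
    rintro _ ⟨x, rfl⟩
    have h1 := LinearMap.congr_fun he.odd x
    rw [LinearMap.comp_apply, LinearMap.neg_apply] at h1
    rw [LinearMap.mem_ker, LinearMap.add_apply, LinearMap.id_apply, h1, neg_add_cancel]
  have heq := Submodule.eq_of_le_of_finrank_eq hle hr
  have hcomm := ck_comm R he.alg
  rw [he.odd] at hcomm
  have key : Pool.Agent.R484.NC.evp R M = LinearMap.id - e := by
    apply LinearMap.ext
    intro x
    rw [LinearMap.sub_apply, LinearMap.id_apply]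
    have h3 : x - Pool.Agent.R484.NC.evp R M x ∈ LinearMap.range e := by
      rw [heq, LinearMap.mem_ker, LinearMap.add_apply, par_evp_apply, map_sub, evp_evp,
        LinearMap.id_apply]
      abel
    obtain ⟨y, hy⟩ := h3
    have h4 : e (x - Pool.Agent.R484.NC.evp R M x) = x - Pool.Agent.R484.NC.evp R M x := by
      rw [← hy]
      exact LinearMap.congr_fun he.idem y
    have h5 : e (Pool.Agent.R484.NC.evp R M x) = 0 := by
      have h6 := LinearMap.congr_fun hcomm (Pool.Agent.R484.NC.evp R M x)
      rw [LinearMap.comp_apply, par_evp_apply, evp_evp, sub_self, sub_zero,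
        LinearMap.neg_apply] at h6
      have h7 : (2 : K) • e (Pool.Agent.R484.NC.evp R M x) = 0 := by
        rw [two_smul]
        nth_rewrite 1 [h6]
        exact neg_add_cancel _
      exact (smul_eq_zero.1 h7).resolve_left h2
    rw [map_sub, h5, sub_zero] at h4
    rw [h4]
    abel
  have h1m : (LinearMap.id : R.H.obj M →ₗ[K] R.H.obj M) ∈ CK R M M := by
    refine Submodule.subset_span ⟨𝟙 M, ?_⟩
    change (R.H.map (𝟙 M)).hom = _
    rw [CategoryTheory.Functor.map_id, ModuleCat.hom_id]
  apply Pool.Agent.N164.NC.cplus_of_span R hU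
  rw [key]
  exact Submodule.sub_mem _ h1m he.alg

end Parity

section Dim

/-- The difference of the dimensions of the even and the odd part. -/
noncomputable def sdim (R : SuperRealisation C K) (M : C) : ℤ :=
  (Pure.evenDim R M : ℤ) - Pure.oddDim R M

lemma sdim_eq (hU : UnitQ C) (R : SuperRealisation C K) (M : C) :
    Pool.Agent.R484.NC.ctr hU (𝟙 M) = (sdim R M : ℚ) := by
  rw [Pool.Agent.R484.NC.ctr_one R hU, ← evenDim_eq]
  have h1 := even_add_odd R M
  have h2 : (Pool.Agent.R484.NC.totalDim R M : ℚ) =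
      (Pure.evenDim R M : ℚ) + (Pure.oddDim R M : ℚ) := by
    rw [← Nat.cast_add, h1]
    rfl
  rw [h2, sdim]
  push_cast
  ring

lemma sdim_tensor (hU : UnitQ C) (R : SuperRealisation C K) (M N : C) :
    sdim R (M ⊗ N) = sdim R M * sdim R N := by
  have h1 := Pool.Agent.R484.NC.ctr_tensor R hU (𝟙 M) (𝟙 N)
  rw [id_tensorHom_id, sdim_eq hU R, sdim_eq hU R, sdim_eq hU R] at h1
  exact_mod_cast h1

lemma dim_tensor (R : SuperRealisation C K) (M N : C) :
    dim R (M ⊗ N) = dim R M * dim R N := by
  have h0 := R.finite M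
  have h1 := R.finite N
  have e : R.H.obj M ⊗ R.H.obj N ≅ R.H.obj (M ⊗ N) := Functor.Monoidal.μIso R.H M N
  rw [dim, dim, dim, ← e.toLinearEquiv.finrank_eq]
  exact Module.finrank_tensorProduct

lemma sdim_tp (hU : UnitQ C) (R : SuperRealisation C K) (M Y : C) (n : ℕ) :
    sdim R (tp M n ⊗ Y) = sdim R M ^ n * sdim R Y := by
  rw [sdim_tensor hU]
  congr 1
  induction n with
  | zero =>
    have h1 := sdim_tensor hU R (𝟙_ C) (𝟙_ C)
    have h2 := sdim_eq hU R (𝟙_ C)
    have h3 : Pool.Agent.R484.NC.ctr hU (𝟙 (𝟙_ C)) = 1 := by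
      have h4 := Pool.Agent.R484.NC.ctr_eq R hU (𝟙 (𝟙_ C))
      have h5 : Pool.Agent.R484.NC.str R (𝟙 (𝟙_ C)) = 1 := by
        rw [Pool.Agent.R484.NC.str, R.par_unit, CategoryTheory.Functor.map_id, Category.id_comp,
          ModuleCat.hom_id, LinearMap.trace_id]
        have e : 𝟙_ (ModuleCat K) ≅ R.H.obj (𝟙_ C) := Functor.Monoidal.εIso R.H
        rw [← e.toLinearEquiv.finrank_eq]
        have h6 : finrank K (𝟙_ (ModuleCat.{w} K) : ModuleCat.{w} K) = 1 := Module.finrank_self K
        rw [h6, Nat.cast_one]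
      have hc := R_charZero R
      rw [h5] at h4
      exact_mod_cast h4
    rw [h3] at h2
    rw [pow_zero]
    exact_mod_cast h2.symm
  | succ n ih =>
    rw [pow_succ, ← ih]
    exact sdim_tensor hU R _ _

lemma dim_tp (R : SuperRealisation C K) (M Y : C) (n : ℕ) :
    dim R (tp M n ⊗ Y) = dim R M ^ n * dim R Y := by
  rw [dim_tensor]
  congr 1
  induction n with
  | zero =>
    have e : 𝟙_ (ModuleCat K) ≅ R.H.obj (𝟙_ C) := Functor.Monoidal.εIso R.H
    rw [pow_zero, dim, ← e.toLinearEquiv.finrank_eq]
    exact Module.finrank_self K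
  | succ n ih =>
    rw [pow_succ, ← ih]
    exact dim_tensor R _ _

end Dim

end Pool.Agent.P8H25.Sp
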