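import Pool.Agent.P8H25.SpX

/-!
# The one percent law, end of the proof
-/

set_option autoImplicit false
set_option linter.unusedSectionVars false

open CategoryTheory Limits MonoidalCategory Module Filter Topology
open Pool.Agent.Y112.SR Pool.Agent.Y112.KD Pool.Agent.N64.AF
open Pool.Agent.P8H25.Pure

namespace Pool.Agent.P8H25.Sp

universe v u w x

variable {C : Type u} [Category.{v} C] [Preadditive C] [Linear ℚ C] [MonoidalCategory C]
  [MonoidalPreadditive C] [MonoidalLinear ℚ C] [SymmetricCategory C] [RightRigidCategory C]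
  {K : Type w} [Field K]

lemma dims_pos (hU : UnitQ C) (R : SuperRealisation C K) {M : C} (hM : ¬ R.CPlus M) :
    0 < Pure.evenDim R M ∧ 0 < Pure.oddDim R M := by
  constructor
  · rw [Nat.pos_iff_ne_zero]
    intro h
    exact hM (cplus_of_even R hU (le_antisymm (evenRank_le R M) (by rw [h]; exact Nat.zero_le _)))
  · rw [Nat.pos_iff_ne_zero]
    intro h
    exact hM (cplus_of_odd R hU (le_antisymm (oddRank_le R M) (by rw [h]; exact Nat.zero_le _)))

lemma pow_aux {b s : ℤ} (hb : 2 ≤ b) (hs : |s| ≤ b - 2) (n : ℕ) :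
    |s ^ (n + 1)| ≤ b ^ (n + 1) - 2 * b ^ n := by
  have h1 : |s| ^ n ≤ b ^ n := pow_le_pow_left₀ (abs_nonneg s) (by omega) n
  have h2 : (0 : ℤ) ≤ b ^ n := by positivity
  rw [abs_pow, pow_succ, pow_succ]
  have h3 : |s| ^ n * |s| ≤ b ^ n * (b - 2) :=
    mul_le_mul h1 hs (abs_nonneg s) h2
  nlinarith

lemma dim_bounds (hU : UnitQ C) (R : SuperRealisation C K) {M : C} (hM : ¬ R.CPlus M) (Y : C)
    (n : ℕ) : dim R (tp M (n + 1) ⊗ Y) ≤ dim R M * Pure.evenDim R (tp M (n + 1) ⊗ Y) ∧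
      dim R (tp M (n + 1) ⊗ Y) ≤ dim R M * Pure.oddDim R (tp M (n + 1) ⊗ Y) := by
  obtain ⟨hp, hq⟩ := dims_pos hU R hM
  have h1 := even_add_odd R M
  have h2 := even_add_odd R (tp M (n + 1) ⊗ Y)
  have h3 := sdim_tp hU R M Y (n + 1)
  have h4 := dim_tp R M Y (n + 1)
  have h5 := even_add_odd R Y
  set b : ℤ := (dim R M : ℤ) with hb
  set s : ℤ := sdim R M with hs
  set y : ℤ := (dim R Y : ℤ) with hy
  set t : ℤ := sdim R Y with ht
  set E : ℤ := (Pure.evenDim R (tp M (n + 1) ⊗ Y) : ℤ) with hE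
  set O : ℤ := (Pure.oddDim R (tp M (n + 1) ⊗ Y) : ℤ) with hO
  have e1 : E + O = b ^ (n + 1) * y := by
    have : ((Pure.evenDim R (tp M (n + 1) ⊗ Y) + Pure.oddDim R (tp M (n + 1) ⊗ Y) : ℕ) : ℤ) =
        ((dim R M ^ (n + 1) * dim R Y : ℕ) : ℤ) := by rw [h2, h4]
    push_cast at this
    exact this
  have e2 : E - O = s ^ (n + 1) * t := h3
  have hb2 : 2 ≤ b := by
    rw [hb, ← h1]
    push_cast
    omega
  have hs2 : |s| ≤ b - 2 := by
    rw [hs, hb, ← h1, sdim, abs_le]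
    push_cast
    omega
  have ht2 : |t| ≤ y := by
    rw [ht, hy, ← h5, sdim, abs_le]
    push_cast
    omega
  have hy0 : 0 ≤ y := by positivity
  have hbn : (0 : ℤ) ≤ b ^ n := by positivity
  have h6 := pow_aux hb2 hs2 n
  have h7 : |s ^ (n + 1) * t| ≤ (b ^ (n + 1) - 2 * b ^ n) * y := by
    rw [abs_mul]
    exact mul_le_mul h6 ht2 (abs_nonneg t) (le_trans (abs_nonneg _) h6)
  rw [abs_le] at h7
  have k1 : b ^ n * y ≤ E := by nlinarith
  have k2 : b ^ n * y ≤ O := by nlinarith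
  have k3 : (dim R (tp M (n + 1) ⊗ Y) : ℤ) = b * (b ^ n * y) := by
    rw [h4]
    push_cast
    ring
  constructor
  · have : (dim R (tp M (n + 1) ⊗ Y) : ℤ) ≤ b * E := by
      rw [k3]
      exact mul_le_mul_of_nonneg_left k1 (by omega)
    rw [hb, hE, ← Nat.cast_mul] at this
    exact Nat.cast_le.1 this
  · have : (dim R (tp M (n + 1) ⊗ Y) : ℤ) ≤ b * O := by
      rw [k3]
      exact mul_le_mul_of_nonneg_left k2 (by omega)
    rw [hb, hO, ← Nat.cast_mul] at this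
    exact Nat.cast_le.1 this

/-- **The decay of the pure parts.** -/
theorem decay_ranks (hU : UnitQ C) (R : SuperRealisation C K) {M : C} (hM : ¬ R.CPlus M) :
    ∃ δ : ℕ → ℝ, Antitone δ ∧ Tendsto δ atTop (𝓝 0) ∧ ∀ (n : ℕ) (Y : C),
      (evenRank R (tp M n ⊗ Y) : ℝ) ≤ δ n * Pure.evenDim R (tp M n ⊗ Y) ∧
      (oddRank R (tp M n ⊗ Y) : ℝ) ≤ δ n * Pure.oddDim R (tp M n ⊗ Y) := by
  obtain ⟨δ, h1, h2, h3⟩ := decay_gen hU R hM
  have h0 : ∀ n, 0 ≤ δ n := fun n => h1.le_of_tendsto h2 n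
  refine ⟨fun n => (dim R M : ℝ) * δ n + if n = 0 then 1 else 0, ?_, ?_, ?_⟩
  · intro m n hmn
    have h4 : (dim R M : ℝ) * δ n ≤ (dim R M : ℝ) * δ m :=
      mul_le_mul_of_nonneg_left (h1 hmn) (Nat.cast_nonneg _)
    have h5 : (if n = 0 then (1 : ℝ) else 0) ≤ if m = 0 then 1 else 0 := by
      by_cases hn : n = 0
      · have hm : m = 0 := by omega
        rw [if_pos hn, if_pos hm]
      · rw [if_neg hn]
        split_ifs <;> norm_num
    exact add_le_add h4 h5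
  · have h4 : Tendsto (fun n => (dim R M : ℝ) * δ n) atTop (𝓝 0) := by
      have h5 := h2.const_mul (dim R M : ℝ)
      rwa [mul_zero] at h5
    have h5 : Tendsto (fun n : ℕ => if n = 0 then (1 : ℝ) else 0) atTop (𝓝 0) := by
      refine tendsto_const_nhds.congr' ?_
      filter_upwards [eventually_ge_atTop 1] with n hn
      rw [if_neg (by omega)]
    have h6 := h4.add h5
    rwa [add_zero] at h6
  · intro n Y
    rcases n with _ | n
    · beta_reduce
      rw [if_pos rfl]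
      have h4 : 0 ≤ (dim R M : ℝ) * δ 0 := mul_nonneg (Nat.cast_nonneg _) (h0 0)
      have h5 : (evenRank R (tp M 0 ⊗ Y) : ℝ) ≤ Pure.evenDim R (tp M 0 ⊗ Y) := by
        exact_mod_cast evenRank_le R _
      have h6 : (oddRank R (tp M 0 ⊗ Y) : ℝ) ≤ Pure.oddDim R (tp M 0 ⊗ Y) := by
        exact_mod_cast oddRank_le R _
      have h7 : (0 : ℝ) ≤ Pure.evenDim R (tp M 0 ⊗ Y) := Nat.cast_nonneg _
      have h8 : (0 : ℝ) ≤ Pure.oddDim R (tp M 0 ⊗ Y) := Nat.cast_nonneg _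
      constructor <;> nlinarith
    · beta_reduce
      rw [if_neg (Nat.succ_ne_zero n), add_zero]
      obtain ⟨k1, k2⟩ := dim_bounds hU R hM Y n
      have k1' : (dim R (tp M (n + 1) ⊗ Y) : ℝ) ≤
          (dim R M : ℝ) * Pure.evenDim R (tp M (n + 1) ⊗ Y) := by exact_mod_cast k1
      have k2' : (dim R (tp M (n + 1) ⊗ Y) : ℝ) ≤
          (dim R M : ℝ) * Pure.oddDim R (tp M (n + 1) ⊗ Y) := by exact_mod_cast k2
      constructor
      · obtain ⟨e, he, hr⟩ := exists_even R (tp M (n + 1) ⊗ Y)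
        have h4 := h3 (n + 1) Y e he.alg he.idem (Or.inl he.even)
        rw [hr] at h4
        calc (evenRank R (tp M (n + 1) ⊗ Y) : ℝ) ≤ δ (n + 1) * dim R (tp M (n + 1) ⊗ Y) := h4
          _ ≤ δ (n + 1) * ((dim R M : ℝ) * Pure.evenDim R (tp M (n + 1) ⊗ Y)) :=
            mul_le_mul_of_nonneg_left k1' (h0 _)
          _ = _ := by ring
      · obtain ⟨e, he, hr⟩ := exists_odd R (tp M (n + 1) ⊗ Y)
        have h4 := h3 (n + 1) Y e he.alg he.idem (Or.inr he.odd)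
        rw [hr] at h4
        calc (oddRank R (tp M (n + 1) ⊗ Y) : ℝ) ≤ δ (n + 1) * dim R (tp M (n + 1) ⊗ Y) := h4
          _ ≤ δ (n + 1) * ((dim R M : ℝ) * Pure.oddDim R (tp M (n + 1) ⊗ Y)) :=
            mul_le_mul_of_nonneg_left k2' (h0 _)
          _ = _ := by ring

end Pool.Agent.P8H25.Sp
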