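import Pool.Agent.P8H25.SpY

/-!
# The one percent law, the statements
-/

set_option autoImplicit false
set_option linter.unusedSectionVars false

open CategoryTheory Limits MonoidalCategory Module Filter Topology
open Pool.Agent.Y112.SR Pool.Agent.Y112.KD Pool.Agent.N64.AF
open Pool.Agent.P8H25.Pure

namespace Pool.Agent.P8H25.Sp

universe v u w x

variable {C : Type u} [Category.{v} C] [Preadditive C] [Linear ℚ C] [MonoidalCategory C]
  [MonoidalPreadditive C] [MonoidalLinear ℚ C] [SymmetricCategory C] [RightRigidCategory C]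
  {K : Type w} [Field K]

lemma dim_unit (R : SuperRealisation C K) : 0 < dim R (𝟙_ C) := by
  have e : 𝟙_ (ModuleCat K) ≅ R.H.obj (𝟙_ C) := Functor.Monoidal.εIso R.H
  rw [dim, ← e.toLinearEquiv.finrank_eq]
  have h6 : finrank K (𝟙_ (ModuleCat.{w} K) : ModuleCat.{w} K) = 1 := Module.finrank_self K
  rw [h6]
  exact Nat.one_pos

lemma cplus_tp' (R : SuperRealisation C K) {M : C} (h : R.CPlus M) (n : ℕ) :
    R.CPlus (tp M n ⊗ 𝟙_ C) :=
  Pool.Agent.Y112.SR.cplus_tensor R (Pool.Agent.Y112.SC.cplus_tp R h n) (cplus_unit R)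

/-- A family of numbers which decays cannot persist. -/
lemma not_persists (R : SuperRealisation C K) {f g : C → ℕ} {M : C} {δ : ℕ → ℝ}
    (h2 : Tendsto δ atTop (𝓝 0))
    (h3 : ∀ (n : ℕ) (Y : C), (f (tp M n ⊗ Y) : ℝ) ≤ δ n * g (tp M n ⊗ Y))
    (hg : ∀ (n : ℕ) (Y : C), 1 ≤ n → 0 < dim R Y → 0 < g (tp M n ⊗ Y)) :
    ¬ Persists R f g M := by
  rintro ⟨c, hc, h4⟩
  have h5 : ∀ᶠ n in atTop, δ n < c := h2.eventually_lt_const hc
  obtain ⟨N, hN⟩ := eventually_atTop.1 h5
  obtain ⟨n, hn, Y, hY, h6⟩ := h4 (max N 1)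
  have h7 := hN n (le_trans (le_max_left _ _) hn)
  have h8 := h3 n Y
  have h9 : (0 : ℝ) < g (tp M n ⊗ Y) := by
    exact_mod_cast hg n Y (le_trans (le_max_right _ _) hn) hY
  nlinarith

lemma dims_tp_pos (hU : UnitQ C) (R : SuperRealisation C K) {M : C} (hM : ¬ R.CPlus M) (n : ℕ)
    (Y : C) (hn : 1 ≤ n) (hY : 0 < dim R Y) : 0 < Pure.evenDim R (tp M n ⊗ Y) ∧
      0 < Pure.oddDim R (tp M n ⊗ Y) := by
  obtain ⟨n, rfl⟩ := Nat.exists_eq_succ_of_ne_zero (Nat.one_le_iff_ne_zero.1 hn)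
  rw [Nat.succ_eq_add_one]
  obtain ⟨h1, h2⟩ := dim_bounds hU R hM Y n
  obtain ⟨hp, hq⟩ := dims_pos hU R hM
  have h3 := even_add_odd R M
  have h4 : 0 < dim R (tp M (n + 1) ⊗ Y) := by
    rw [dim_tp]
    have : 0 < dim R M := by omega
    positivity
  constructor
  · exact Nat.pos_of_mul_pos_left (lt_of_lt_of_le h4 h1)
  · exact Nat.pos_of_mul_pos_left (lt_of_lt_of_le h4 h2)

/-- The equivalences for one object. -/
theorem one_object (hU : UnitQ C) (R : SuperRealisation C K) (M : C) :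
    [R.CPlus M, evenRank R M = Pure.evenDim R M, oddRank R M = Pure.oddDim R M,
      Persists R (evenRank R) (Pure.evenDim R) M, Persists R (oddRank R) (Pure.oddDim R) M,
      Persists R (pureRank R) (dim R) M].TFAE := by
  have hup : R.CPlus M → ∀ n, R.CPlus (tp M n ⊗ 𝟙_ C) := fun h n => cplus_tp' R h n
  tfae_have 1 → 2 := fun h => (cplus_ranks R h).1
  tfae_have 2 → 1 := cplus_of_even R hU
  tfae_have 1 → 3 := fun h => (cplus_ranks R h).2
  tfae_have 3 → 1 := cplus_of_odd R hU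
  tfae_have 1 → 4 := fun h => ⟨1, one_pos, fun N => ⟨N, le_rfl, 𝟙_ C, dim_unit R, by
    rw [one_mul, (cplus_ranks R (hup h N)).1]⟩⟩
  tfae_have 1 → 5 := fun h => ⟨1, one_pos, fun N => ⟨N, le_rfl, 𝟙_ C, dim_unit R, by
    rw [one_mul, (cplus_ranks R (hup h N)).2]⟩⟩
  tfae_have 1 → 6 := fun h => ⟨1, one_pos, fun N => ⟨N, le_rfl, 𝟙_ C, dim_unit R, by
    rw [one_mul, pureRank, (cplus_ranks R (hup h N)).1, (cplus_ranks R (hup h N)).2,
      even_add_odd]⟩⟩
  tfae_have 4 → 1 := by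
    intro h
    by_contra hM
    obtain ⟨δ, h1, h2, h3⟩ := decay_ranks hU R hM
    exact not_persists R h2 (fun n Y => (h3 n Y).1)
      (fun n Y hn hY => (dims_tp_pos hU R hM n Y hn hY).1) h
  tfae_have 5 → 1 := by
    intro h
    by_contra hM
    obtain ⟨δ, h1, h2, h3⟩ := decay_ranks hU R hM
    exact not_persists R h2 (fun n Y => (h3 n Y).2)
      (fun n Y hn hY => (dims_tp_pos hU R hM n Y hn hY).2) h
  tfae_have 6 → 1 := by
    intro h
    by_contra hM
    obtain ⟨δ, h1, h2, h3⟩ := decay_ranks hU R hM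
    refine not_persists R (f := pureRank R) (g := dim R) h2 (fun n Y => ?_)
      (fun n Y hn hY => ?_) h
    · have h4 := h3 n Y
      have h5 : (dim R (tp M n ⊗ Y) : ℝ) = (Pure.evenDim R (tp M n ⊗ Y) : ℝ) +
          (Pure.oddDim R (tp M n ⊗ Y) : ℝ) := by
        rw [← Nat.cast_add, even_add_odd]
      rw [pureRank, h5]
      push_cast
      linarith
    · have h4 := (dims_tp_pos hU R hM n Y hn hY).1
      have h5 := even_add_odd R (tp M n ⊗ Y)
      omega
  tfae_finish

/-- The one percent law for a class of objects which is stable under powers. -/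
theorem class_law (hU : UnitQ C) (R : SuperRealisation C K) (S : C → Prop)
    (hS : ∀ M, S M → ∀ n, S (tp M (n + 1))) (δ : ℝ) (h0 : 0 < δ) (h1 : δ ≤ 1) :
    [∀ M, S M → R.CPlus M, ∀ M, S M → δ * (Pure.evenDim R M : ℝ) ≤ evenRank R M,
      ∀ M, S M → δ * (Pure.oddDim R M : ℝ) ≤ oddRank R M,
      ∀ M, S M → δ * (dim R M : ℝ) ≤ pureRank R M].TFAE := by
  have hle : ∀ n : ℕ, δ * (n : ℝ) ≤ n := fun n => by
    have : (0 : ℝ) ≤ n := Nat.cast_nonneg n
    nlinarith
  have hgen : ∀ (f g : C → ℕ), (∀ M, S M → δ * (g M : ℝ) ≤ f M) → ∀ M, S M → 0 < dim R M →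
      Persists R f g M := by
    intro f g h M hM hd
    exact ⟨δ, h0, fun N => ⟨N, le_rfl, M, hd, h _ (hS M hM N)⟩⟩
  have hz : ∀ M, ¬ 0 < dim R M → R.CPlus M := by
    intro M hd
    have h2 := even_add_odd R M
    have h3 := evenRank_le R M
    exact cplus_of_even R hU (by omega)
  tfae_have 1 → 2 := fun h M hM => by
    rw [(cplus_ranks R (h M hM)).1]
    exact hle _
  tfae_have 1 → 3 := fun h M hM => by
    rw [(cplus_ranks R (h M hM)).2]
    exact hle _
  tfae_have 1 → 4 := fun h M hM => by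
    rw [pureRank, (cplus_ranks R (h M hM)).1, (cplus_ranks R (h M hM)).2, even_add_odd]
    exact hle _
  tfae_have 2 → 1 := fun h M hM => by
    by_cases hd : 0 < dim R M
    · exact ((one_object hU R M).out 0 3).2 (hgen _ _ h M hM hd)
    · exact hz M hd
  tfae_have 3 → 1 := fun h M hM => by
    by_cases hd : 0 < dim R M
    · exact ((one_object hU R M).out 0 4).2 (hgen _ _ h M hM hd)
    · exact hz M hd
  tfae_have 4 → 1 := fun h M hM => by
    by_cases hd : 0 < dim R M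
    · exact ((one_object hU R M).out 0 5).2 (hgen _ _ h M hM hd)
    · exact hz M hd
  tfae_finish

end Pool.Agent.P8H25.Sp
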